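import Pool.Agent.LibHQ4.H1

/-!
# Row A1 (MEDIUM/STRONG): one step of the closure relation

CLAIM. If `u` goes up to `u' = sw u p` then a polynomial which vanishes on `Cell v u'` vanishes on
`Cell v u`.

PLAN. Let `x ∈ Cell v u`: `pmat v * umat x = b * pmat u * b'` (b, b' invertible upper triangular).
Let `k = p.1.2 < i = p.1.1`, `u k < u i`. For `s : ℂ` put `g s = b * pmat u * (1 + s E_(i,k)) * b'`
(`E_(i,k)` = `Matrix.single i k 1`, a LOWER elementary matrix; `g 0 = pmat v * umat x`).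
For `s ≠ 0`: `1 + s E_(i,k) = (1 + s⁻¹ E_(k,i)) * N * (1 + s⁻¹ E_(k,i))` where `N` is
`pmat (swap k i)` with the entries at `(i,k)` resp. `(k,i)` multiplied by `s` resp. `-s⁻¹`, i.e.
`N = D * pmat (swap k i)`, `D` invertible diagonal; and `pmat u * (1 + s⁻¹ E_(k,i)) =
(1 + s⁻¹ E_(u k, u i)) * pmat u` where `1 + s⁻¹ E_(u k, u i)` is upper triangular as `u k < u i`;
`pmat u * D = D' * pmat u`. So `g s = b₁ * pmat (u * swap k i) * b₁'` with `b₁, b₁'` `IsB`
(`pmat_mul`, `IsB.mul`). [You may prefer to check directly: `(1 + c E_(uk,ui)) * pmat u * (1 + s E_(i,k))`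
with `c = -s⁻¹` ... any decomposition is fine.]
Now the chart: `h s := pmat v⁻¹ * g s` is polynomial in `s`, `h 0 = umat x`; all
`mn (h s) j j` (leading minors, `SH.mn`, file M6) are polynomials in `s`, equal to `1 ≠ 0` at `s = 0`
(`mn_umat_mul` with b = 1, or determinants of unitriangular matrices), hence nonzero for all `s` in a
neighbourhood of 0 (continuity). For these `s`, `exists_lu`: `h s = umat (y s) * c s`, `IsB (c s)`, and by
`mn_umat_mul`: `y s (i,j) = mn (h s) i j / mn (h s) j j`, a continuous function of `s` near 0 with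
`y 0 = x`. For `s ≠ 0` near 0: `pmat v * umat (y s) = g s * (c s)⁻¹ ∈ B u' B`, so `y s ∈ Cell v u'` and
`eval (y s) f = 0`. By continuity (`s ↦ eval (y s) f` is continuous at 0, `{0}ᶜ` is dense near 0 in ℂ;
e.g. `tendsto_nhds_unique` along `𝓝[≠] 0`), `eval x f = 0`.
Take `y s` explicitly as `fun q => mn (h s) q.1.1 q.1.2 / mn (h s) q.1.2 q.1.2`.
Membership in `vanishingIdeal ℂ Z` unfolds to `∀ x ∈ Z, aeval x f = 0` (see LibSH29/L1.lean,
`aeval_eq_eval`).
-/

set_option autoImplicit false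

namespace HQ

open SH MvPolynomial

variable {n : ℕ}

private theorem A1_ai (w : Equiv.Perm (Fin n)) (a : Fin n) : w (w⁻¹ a) = a :=
  Equiv.apply_symm_apply w a

private theorem A1_ia (w : Equiv.Perm (Fin n)) (a : Fin n) : w⁻¹ (w a) = a :=
  Equiv.symm_apply_apply w a

private theorem A1_pmat_mul_apply (w : Equiv.Perm (Fin n)) (M : Matrix (Fin n) (Fin n) ℂ)
    (a b : Fin n) : (pmat w * M) a b = M (w⁻¹ a) b := by
  rw [Matrix.mul_apply, Finset.sum_eq_single (w⁻¹ a)]
  · unfold pmat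
    rw [if_pos (A1_ai w a).symm, one_mul]
  · intro c _ hc
    unfold pmat
    rw [if_neg, zero_mul]
    intro h
    apply hc
    rw [h, A1_ia]
  · intro h
    exact absurd (Finset.mem_univ _) h

private theorem A1_mul_pmat_apply (w : Equiv.Perm (Fin n)) (M : Matrix (Fin n) (Fin n) ℂ)
    (a b : Fin n) : (M * pmat w) a b = M a (w b) := by
  rw [Matrix.mul_apply, Finset.sum_eq_single (w b)]
  · unfold pmat
    rw [if_pos rfl, mul_one]
  · intro c _ hc
    unfold pmat
    rw [if_neg hc, mul_zero]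
  · intro h
    exact absurd (Finset.mem_univ _) h

/-- the lower elementary matrix -/
private def A1_L (i k : Fin n) (s : ℂ) : Matrix (Fin n) (Fin n) ℂ :=
  fun a b => (1 : Matrix (Fin n) (Fin n) ℂ) a b + if a = i ∧ b = k then s else 0

private def A1_B (i k : Fin n) (s : ℂ) : Matrix (Fin n) (Fin n) ℂ :=
  fun a b => if a = b then (if a = i then -s else 1) else if a = k ∧ b = i then 1 else 0

private def A1_C (i k : Fin n) (s : ℂ) : Matrix (Fin n) (Fin n) ℂ :=
  fun a b => if a = b then (if a = i then s else 1) else if a = k ∧ b = i then 1 else 0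

private theorem A1_L_zero (i k : Fin n) : A1_L i k 0 = 1 := by
  ext a b
  unfold A1_L
  rw [ite_self, add_zero]

private theorem A1_L_mul (i k : Fin n) (s : ℂ) (M : Matrix (Fin n) (Fin n) ℂ) (a b : Fin n) :
    (A1_L i k s * M) a b = M a b + if a = i then s * M k b else 0 := by
  rw [Matrix.mul_apply]
  have h1 : ∀ c, A1_L i k s a c * M c b =
      (1 : Matrix (Fin n) (Fin n) ℂ) a c * M c b + (if a = i ∧ c = k then s else 0) * M c b := by
    intro c
    unfold A1_L
    ring
  rw [Finset.sum_congr rfl fun c _ => h1 c, Finset.sum_add_distrib, ← Matrix.mul_apply, one_mul]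
  congr 1
  rw [Finset.sum_eq_single k]
  · by_cases h : a = i
    · rw [if_pos ⟨h, rfl⟩, if_pos h]
    · rw [if_neg (fun h2 => h h2.1), if_neg h, zero_mul]
  · intro c _ hc
    rw [if_neg (fun h2 => hc h2.2), zero_mul]
  · intro h
    exact absurd (Finset.mem_univ _) h

private theorem A1_key {i k : Fin n} (hki : k < i) (s : ℂ) :
    A1_L i k s * A1_B i k s = A1_C i k s * pmat (Equiv.swap k i) := by
  have hne : k ≠ i := ne_of_lt hki
  have hne' : i ≠ k := hne.symm
  ext a b
  rw [A1_L_mul, A1_mul_pmat_apply]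
  by_cases hbk : b = k
  · rw [hbk, Equiv.swap_apply_left]
    unfold A1_B A1_C
    by_cases hai : a = i
    · simp [hai, hne, hne']
    · by_cases hak : a = k
      · simp [hak, hne]
      · simp [hai, hak, hne]
  · by_cases hbi : b = i
    · rw [hbi, Equiv.swap_apply_right]
      unfold A1_B A1_C
      by_cases hai : a = i
      · simp [hai, hne, hne']
      · by_cases hak : a = k
        · simp [hak, hne]
        · simp [hai, hak]
    · rw [Equiv.swap_apply_of_ne_of_ne hbk hbi]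
      unfold A1_B A1_C
      have hkb : ¬ k = b := fun h => hbk h.symm
      by_cases hab : a = b
      · simp [hab, hbi]
      · simp [hab, hbi, hkb]

private theorem A1_isB {i k : Fin n} (hki : k < i) {s : ℂ} (hs : s ≠ 0) : IsB (A1_B i k s) := by
  refine ⟨fun a b hba => ?_, fun a => ?_⟩
  · unfold A1_B
    rw [if_neg (ne_of_gt hba), if_neg]
    rintro ⟨rfl, rfl⟩
    exact absurd hba (not_lt.2 hki.le)
  · unfold A1_B
    rw [if_pos rfl]
    split_ifs
    · exact neg_ne_zero.2 hs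
    · exact one_ne_zero

private theorem A1_step {u : Equiv.Perm (Fin n)} {p : Lo n} (hp : Up u p) {s : ℂ} (hs : s ≠ 0) :
    ∃ b b', IsB b ∧ IsB b' ∧
      pmat u * A1_L p.1.1 p.1.2 s = b * pmat (sw u p) * b' := by
  have hki : p.1.2 < p.1.1 := p.2
  have hB := A1_isB hki hs
  let b : Matrix (Fin n) (Fin n) ℂ := fun a c => A1_C p.1.1 p.1.2 s (u⁻¹ a) (u⁻¹ c)
  have hb : IsB b := by
    refine ⟨fun a c hca => ?_, fun a => ?_⟩
    · show A1_C p.1.1 p.1.2 s (u⁻¹ a) (u⁻¹ c) = 0
      unfold A1_C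
      rw [if_neg (fun h => (ne_of_gt hca) (u⁻¹.injective h)), if_neg]
      rintro ⟨h1, h2⟩
      have h3 : a = u p.1.2 := by rw [← h1, A1_ai]
      have h4 : c = u p.1.1 := by rw [← h2, A1_ai]
      rw [h3, h4] at hca
      exact absurd hca (not_lt.2 (le_of_lt hp))
    · show A1_C p.1.1 p.1.2 s (u⁻¹ a) (u⁻¹ a) ≠ 0
      unfold A1_C
      rw [if_pos rfl]
      split_ifs
      · exact hs
      · exact one_ne_zero
  have h1 : b * pmat u = pmat u * A1_C p.1.1 p.1.2 s := by
    ext a c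
    rw [A1_mul_pmat_apply, A1_pmat_mul_apply]
    show A1_C p.1.1 p.1.2 s (u⁻¹ a) (u⁻¹ (u c)) = _
    rw [A1_ia]
  refine ⟨b, (A1_B p.1.1 p.1.2 s)⁻¹, hb, hB.inv, ?_⟩
  unfold sw
  calc pmat u * A1_L p.1.1 p.1.2 s
      = pmat u * A1_L p.1.1 p.1.2 s * (A1_B p.1.1 p.1.2 s * (A1_B p.1.1 p.1.2 s)⁻¹) := by
        rw [hB.mul_inv, mul_one]
    _ = pmat u * (A1_L p.1.1 p.1.2 s * A1_B p.1.1 p.1.2 s) * (A1_B p.1.1 p.1.2 s)⁻¹ := by
        simp only [mul_assoc]
    _ = (pmat u * A1_C p.1.1 p.1.2 s) * pmat (Equiv.swap p.1.2 p.1.1) *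
          (A1_B p.1.1 p.1.2 s)⁻¹ := by
        rw [A1_key hki]
        simp only [mul_assoc]
    _ = b * pmat (u * Equiv.swap p.1.2 p.1.1) * (A1_B p.1.1 p.1.2 s)⁻¹ := by
        rw [← h1, pmat_mul, mul_assoc b]

private theorem A1_cont {h : ℂ → Matrix (Fin n) (Fin n) ℂ} (hh : ∀ i j, Continuous fun s => h s i j)
    (i j : Fin n) : Continuous fun s => mn (h s) i j := by
  unfold mn
  refine Continuous.matrix_det ?_
  refine continuous_matrix fun r c => ?_
  exact hh _ _

private theorem A1_contL (i k : Fin n) (A B : Matrix (Fin n) (Fin n) ℂ) (a b : Fin n) :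
    Continuous fun s => (A * A1_L i k s * B) a b := by
  have h1 : ∀ a b, Continuous fun s => A1_L i k s a b := by
    intro a b
    unfold A1_L
    refine continuous_const.add ?_
    split_ifs
    · exact continuous_id
    · exact continuous_const
  have h2 : ∀ a b, Continuous fun s => (A * A1_L i k s) a b := by
    intro a b
    simp only [Matrix.mul_apply]
    exact continuous_finsetSum _ fun c _ => continuous_const.mul (h1 c b)
  simp only [Matrix.mul_apply (M := A * A1_L i k _)]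
  exact continuous_finsetSum _ fun c _ => (h2 a c).mul continuous_const

theorem A1 (v : Equiv.Perm (Fin n)) {u : Equiv.Perm (Fin n)} {p : Lo n} (hp : Up u p) :
    vanishingIdeal ℂ (Cell v (sw u p)) ≤ vanishingIdeal ℂ (Cell v u) := by
  intro f hf
  rw [mem_vanishingIdeal_iff] at hf ⊢
  rintro x ⟨b, b', hb, hb', hx⟩
  let h : ℂ → Matrix (Fin n) (Fin n) ℂ := fun s => (pmat v⁻¹ * b * pmat u) * A1_L p.1.1 p.1.2 s * b'
  have hh : ∀ i j, Continuous fun s => h s i j := fun i j => A1_contL _ _ _ _ i j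
  have h0 : h 0 = umat x := by
    show (pmat v⁻¹ * b * pmat u) * A1_L p.1.1 p.1.2 0 * b' = umat x
    rw [A1_L_zero, mul_one]
    calc pmat v⁻¹ * b * pmat u * b' = pmat v⁻¹ * (b * pmat u * b') := by simp only [mul_assoc]
      _ = pmat v⁻¹ * (pmat v * umat x) := by rw [hx]
      _ = umat x := by rw [← mul_assoc, pmat_inv_mul, one_mul]
  have hm : ∀ i j, Continuous fun s => mn (h s) i j := A1_cont hh
  have hm0 : ∀ i j : Fin n, j ≤ i → mn (h 0) j j ≠ 0 ∧
      mn (h 0) i j = umat x i j * mn (h 0) j j := by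
    intro i j hij
    have h1 := mn_umat_mul x IsB.one i j hij
    rw [mul_one] at h1
    rw [h0]
    exact h1
  let y : ℂ → Lo n → ℂ := fun s q => mn (h s) q.1.1 q.1.2 / mn (h s) q.1.2 q.1.2
  have hy0 : y 0 = x := by
    funext q
    have hq : q.1.2 < q.1.1 := q.2
    obtain ⟨h1, h2⟩ := hm0 q.1.1 q.1.2 hq.le
    show mn (h 0) q.1.1 q.1.2 / mn (h 0) q.1.2 q.1.2 = x q
    rw [h2, mul_div_assoc, div_self h1, mul_one]
    unfold umat
    rw [dif_pos hq]
  have hyc : ContinuousAt y 0 := by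
    rw [continuousAt_pi]
    intro q
    exact ((hm _ _).continuousAt).div ((hm _ _).continuousAt) (hm0 q.1.2 q.1.2 le_rfl).1
  have hev : ∀ᶠ s in nhds (0 : ℂ), ∀ j : Fin n, mn (h s) j j ≠ 0 := by
    rw [Filter.eventually_all]
    intro j
    exact (hm j j).continuousAt.eventually_ne (hm0 j j le_rfl).1
  have hF : ∀ᶠ s in nhdsWithin (0 : ℂ) {0}ᶜ, aeval (y s) f = 0 := by
    filter_upwards [nhdsWithin_le_nhds hev, self_mem_nhdsWithin] with s hs1 hs2
    have hs0 : s ≠ 0 := hs2
    obtain ⟨z, c, hc, hz⟩ := exists_lu hs1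
    have hyz : y s = z := by
      funext q
      have hq : q.1.2 < q.1.1 := q.2
      obtain ⟨h1, h2⟩ := mn_umat_mul z hc q.1.1 q.1.2 hq.le
      rw [← hz] at h1 h2
      show mn (h s) q.1.1 q.1.2 / mn (h s) q.1.2 q.1.2 = z q
      rw [h2, mul_div_assoc, div_self h1, mul_one]
      unfold umat
      rw [dif_pos hq]
    rw [hyz]
    apply hf
    obtain ⟨d, d', hd, hd', hdd⟩ := A1_step hp hs0
    refine ⟨b * d, d' * b' * c⁻¹, hb.mul hd, (hd'.mul hb').mul hc.inv, ?_⟩
    have h1 : umat z = h s * c⁻¹ := by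
      rw [hz, mul_assoc, hc.mul_inv, mul_one]
    rw [h1]
    show pmat v * ((pmat v⁻¹ * b * pmat u) * A1_L p.1.1 p.1.2 s * b' * c⁻¹) = _
    calc pmat v * ((pmat v⁻¹ * b * pmat u) * A1_L p.1.1 p.1.2 s * b' * c⁻¹)
        = (pmat v * pmat v⁻¹) * b * (pmat u * A1_L p.1.1 p.1.2 s) * b' * c⁻¹ := by
          simp only [mul_assoc]
      _ = b * (d * pmat (sw u p) * d') * b' * c⁻¹ := by rw [pmat_mul_inv, one_mul, hdd]
      _ = b * d * pmat (sw u p) * (d' * b' * c⁻¹) := by simp only [mul_assoc]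
  have hlim : Filter.Tendsto (fun s => aeval (y s) f) (nhdsWithin (0 : ℂ) {0}ᶜ)
      (nhds (aeval (y 0) f)) := by
    have h1 : Continuous fun z : Lo n → ℂ => aeval z f := by
      have h2 : (fun z : Lo n → ℂ => aeval z f) = fun z => eval z f := by
        funext z
        rw [MvPolynomial.aeval_def, MvPolynomial.eval, MvPolynomial.coe_eval₂Hom]
        rfl
      rw [h2]
      exact MvPolynomial.continuous_eval f
    exact (h1.continuousAt.comp hyc).tendsto.mono_left nhdsWithin_le_nhds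
  have hlim0 : Filter.Tendsto (fun s => aeval (y s) f) (nhdsWithin (0 : ℂ) {0}ᶜ) (nhds 0) :=
    tendsto_const_nhds.congr' (hF.mono fun s hs => hs.symm)
  have := tendsto_nhds_unique hlim hlim0
  rwa [hy0] at this

end HQ
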