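import Pool.Agent.LibHQ4.A1

/-!
# Row A2 (SHORT): the closure relation and the zero set of the rank conditions
By induction on `len w - len u` with `chain_sw` (H1) and `A1`.
Second theorem: `x ∈ Cell v u` for some `u` (`SH.bruhat_exists` with `M5`-style unit argument: the matrix
`pmat v * umat x` is invertible, `isUnit_det_pmat`, `umat_det`); by `mem_cell_iff` and `le_iff_dd`
`u ≤ w`.
-/

set_option autoImplicit false

namespace HQ

open SH MvPolynomial

variable {n : ℕ}

theorem A2 (v : Equiv.Perm (Fin n)) {u w : Equiv.Perm (Fin n)} (h : u ≤ w) :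
    vanishingIdeal ℂ (Cell v w) ≤ vanishingIdeal ℂ (Cell v u) := by
  induction u using (wellFounded_gt (α := Equiv.Perm (Fin n))).induction with
  | _ u ih =>
    rcases h.lt_or_eq with h1 | h1
    · obtain ⟨p, hp, hle, -, -⟩ := chain_sw h1
      exact (ih (sw u p) (lt_sw hp) hle).trans (A1 v hp)
    · rw [h1]

theorem A2b {v w : Equiv.Perm (Fin n)} {x : Lo n → ℂ} (hx : x ∈ Cl v w)
    {f : MvPolynomial (Lo n) ℂ} (hf : f ∈ vanishingIdeal ℂ (Cell v w)) : eval x f = 0 := by
  have hu : IsUnit (pmat v * umat x).det := by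
    rw [Matrix.det_mul, umat_det, mul_one]
    exact isUnit_det_pmat v
  obtain ⟨u, b, b', hb, hb', hg⟩ := bruhat_exists hu
  have hxu : x ∈ Cell v u := ⟨b, b', hb, hb', hg⟩
  have hle : u ≤ w := le_iff_dd.2 fun a ha j hj => by
    rw [← mem_cell_iff.1 hxu a j]
    exact hx a ha j hj
  have h1 := mem_vanishingIdeal_iff.1 (A2 v hle hf) x hxu
  rwa [aeval_eq_eval] at h1

end HQ
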