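import Pool.Agent.LibHQ4.H1

/-! # Row B1: rank criterion -/

set_option autoImplicit false

namespace HQ

open SH MvPolynomial

variable {n : ℕ}

/-- the linear map whose kernel gives `dg` -/
private noncomputable def B1_L (v : Equiv.Perm (Fin n)) (x : Lo n → ℂ) (a : ℕ) :
    (Fin n → ℂ) →ₗ[ℂ] (Fin n → ℂ) where
  toFun y := fun i => if a ≤ (v i).val then (umat x).mulVec y i else 0
  map_add' y z := by
    funext i
    by_cases h : a ≤ (v i).val <;> simp [h, Matrix.mulVec_add]
  map_smul' c y := by
    funext i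
    by_cases h : a ≤ (v i).val <;> simp [h, Matrix.mulVec_smul]

private theorem B1_pmat (v : Equiv.Perm (Fin n)) (z : Fin n → ℂ) (i : Fin n) :
    (pmat v).mulVec z (v i) = z i := by
  unfold pmat Matrix.mulVec dotProduct
  rw [Finset.sum_eq_single i]
  · simp
  · intro b _ hb
    have : ¬ v i = v b := fun h => hb (v.injective h).symm
    simp [this]
  · intro h
    exact absurd (Finset.mem_univ _) h

private theorem B1_single (v : Equiv.Perm (Fin n)) (x : Lo n → ℂ) (a : ℕ) (c : Fin n) :
    B1_L v x a (Pi.single c 1) = tcol v x a c := by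
  funext i
  change (if a ≤ (v i).val then (umat x).mulVec (Pi.single c 1) i else 0) =
    if a ≤ (v i).val then umat x i c else 0
  rw [Matrix.mulVec_single_one]
  rfl

theorem B1 {v w : Equiv.Perm (Fin n)} {x : Lo n → ℂ}
    (h : ∀ a ≤ n, ∀ j ≤ n, ∃ Z : Finset (Fin n → ℂ), rr v a j + Z.card ≤ rr w a j ∧
      ∀ c : Fin n, c.val < j → (v c).val < a →
        tcol v x a c ∈ Submodule.span ℂ
          ((tcol v x a '' {c' : Fin n | c'.val < j ∧ a ≤ (v c').val}) ∪ (Z : Set (Fin n → ℂ)))) :
    x ∈ Cl v w := by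
  classical
  intro a ha j hj
  obtain ⟨Z, hZ, hc⟩ := h a ha j hj
  set P : Finset (Fin n) := Finset.univ.filter fun b : Fin n => b.val < j ∧ a ≤ (v b).val with hP
  set S : Finset (Fin n → ℂ) := P.image (tcol v x a) ∪ Z with hS
  have hScard : S.card ≤ rr w a j := by
    refine (Finset.card_union_le _ _).trans (le_trans ?_ hZ)
    exact Nat.add_le_add_right Finset.card_image_le _
  have hScoe : (S : Set (Fin n → ℂ)) =
      (tcol v x a '' {c' : Fin n | c'.val < j ∧ a ≤ (v c').val}) ∪ (Z : Set (Fin n → ℂ)) := by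
    rw [hS, Finset.coe_union, Finset.coe_image, hP]
    congr 2
    ext b
    simp
  have hall : ∀ c : Fin n, c.val < j → tcol v x a c ∈ Submodule.span ℂ (S : Set (Fin n → ℂ)) := by
    intro c hcj
    by_cases hv : (v c).val < a
    · rw [hScoe]; exact hc c hcj hv
    · rw [hScoe]
      exact Submodule.subset_span (Or.inl ⟨c, ⟨hcj, not_lt.1 hv⟩, rfl⟩)
  -- the restricted map
  set L := (B1_L v x a).comp (E n j).subtype with hL
  have hrange : LinearMap.range L ≤ Submodule.span ℂ (S : Set (Fin n → ℂ)) := by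
    rintro _ ⟨y, rfl⟩
    have hy : (y : Fin n → ℂ) = ∑ c, (y : Fin n → ℂ) c • (Pi.single c (1 : ℂ) : Fin n → ℂ) := by
      rw [← pi_eq_sum_univ' (y : Fin n → ℂ)]
    have e1 : L y = ∑ c, (y : Fin n → ℂ) c • tcol v x a c := by
      change B1_L v x a (y : Fin n → ℂ) = _
      conv_lhs => rw [hy]
      rw [map_sum]
      refine Finset.sum_congr rfl fun c _ => ?_
      rw [map_smul, B1_single]
    rw [e1]
    refine Submodule.sum_mem _ fun c _ => ?_
    by_cases hcj : c.val < j
    · exact Submodule.smul_mem _ _ (hall c hcj)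
    · have : (y : Fin n → ℂ) c = 0 := (mem_E.1 y.2) c (not_lt.1 hcj)
      rw [this, zero_smul]
      exact Submodule.zero_mem _
  have hr : Module.finrank ℂ (LinearMap.range L) ≤ rr w a j := by
    refine (Submodule.finrank_mono hrange).trans ((finrank_span_finset_le_card S).trans hScard)
  have hrn := LinearMap.finrank_range_add_finrank_ker L
  rw [finrank_E hj] at hrn
  have hk : Module.finrank ℂ (LinearMap.ker L) ≤ dg (pmat v * umat x) a j := by
    unfold dg
    let f : LinearMap.ker L →ₗ[ℂ] ↥(E n j ⊓ (E n a).comap (pmat v * umat x).mulVecLin) :=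
      { toFun := fun y => ⟨y.1.1, y.1.2, by
          change ∀ i : Fin n, a ≤ i.val → (pmat v * umat x).mulVec y.1.1 i = 0
          intro i hi
          have e1 : (pmat v).mulVec ((umat x).mulVec y.1.1) (v (v⁻¹ i)) =
            (umat x).mulVec y.1.1 (v⁻¹ i) := B1_pmat v _ _
          have e2 : v (v⁻¹ i) = i := v.apply_symm_apply i
          rw [e2, Matrix.mulVec_mulVec] at e1
          rw [e1]
          have e3 : L y.1 = 0 := y.2
          have e4 := congrFun e3 (v⁻¹ i)
          change (if a ≤ (v (v⁻¹ i)).val then (umat x).mulVec y.1.1 (v⁻¹ i) else 0) = 0 at e4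
          rw [e2, if_pos hi] at e4
          exact e4⟩
        map_add' := fun _ _ => rfl
        map_smul' := fun _ _ => rfl }
    refine LinearMap.finrank_le_finrank_of_injective (f := f) ?_
    intro y z hyz
    have := congrArg (fun t => t.1) hyz
    exact Subtype.ext (Subtype.ext this)
  have := rr_add_dd w a hj
  omega

end HQ
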