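import Pool.Agent.LibHQ4.B1

/-!
# Row B2 (SHORT): columns of sparse points

`tcol v x a c` for a column without entries of `x` is the unit vector (or 0); a form of `B1` adapted to
the families: `e_i := Pi.single i 1`.
`B2a`: if `x` vanishes in column `c` (all `r : Lo n` with `r.1.2 = c`) and `a ≤ v c` then
`tcol v x a c = Pi.single c 1`; `B2b`: if it vanishes in column `c` and `v c < a` then `tcol v x a c = 0`.
`B2c`: `tcol v x a c i = x (i,c)` for `c < i`, `a ≤ v i`; `0` if `v i < a` or `i < c`; and at `i = c`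
it is `1` if `a ≤ v c`.
Unfold `tcol`, `umat`.
-/

set_option autoImplicit false

namespace HQ

open SH MvPolynomial

variable {n : ℕ}

theorem B2c (v : Equiv.Perm (Fin n)) (x : Lo n → ℂ) (a : ℕ) (c i : Fin n) :
    tcol v x a c i =
      if a ≤ (v i).val then (if h : c < i then x ⟨(i, c), h⟩ else if i = c then 1 else 0) else 0 := by
  rfl

theorem B2a {v : Equiv.Perm (Fin n)} {x : Lo n → ℂ} {a : ℕ} {c : Fin n}
    (hx : ∀ r : Lo n, r.1.2 = c → x r = 0) (ha : a ≤ (v c).val) :
    tcol v x a c = Pi.single c 1 := by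
  funext i
  rw [B2c]
  by_cases hic : i = c
  · subst hic
    simp [ha]
  · rw [Pi.single_eq_of_ne hic]
    split_ifs with h1 h2
    · exact hx ⟨(i, c), h2⟩ rfl
    · rfl
    · rfl

theorem B2b {v : Equiv.Perm (Fin n)} {x : Lo n → ℂ} {a : ℕ} {c : Fin n}
    (hx : ∀ r : Lo n, r.1.2 = c → x r = 0) (ha : (v c).val < a) :
    tcol v x a c = 0 := by
  funext i
  rw [B2c]
  by_cases hic : i = c
  · subst hic
    rw [if_neg (by omega)]
    rfl
  · split_ifs with h1 h2
    · exact hx ⟨(i, c), h2⟩ rfl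
    · rfl
    · rfl

end HQ
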