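import Pool.Agent.LibHQ4.B2

/-!
# Rows C1, C2 (SHORT/MEDIUM): one or two coordinates, no chain

PLAN (both). Use `B1`. Let `p = (i,k)`, `q = (i',k')`. The only columns with entries are `k`, `k'`, so
(`B2a`, `B2b`) a column `c ≠ k, k'` with `a ≤ v c` is the pivot `Pi.single c 1` and one with `v c < a` is
`0`. Fix `(a, j)`. Column `k` with `k < j`, `v k < a` is `s • e_i` if `a ≤ v i` and `0` otherwise
(plus the entry of `q` if `k' = k`). If `i < j` (and `a ≤ v i`) then `e_i` is the pivot column `i`
(`i ≠ k, k'` as no chain), nothing is needed. If `j ≤ i`: `(a,j)` is in the rectangle of `p`, so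
`rr v a j + 1 ≤ rr w a j` by `InT`, and `e_i` is put into `Z`. If both `e_i` and `e_i'`, `i ≠ i'`, are
needed and `k ≠ k'`: the pair is disjoint and both rectangles contain `(a,j)`, so `rr v a j + 2 ≤ rr w a j`
by `¬ BadD`. If `k = k'` (`i ≠ i'`): the column `k` is `s [a ≤ v i] e_i + t [a ≤ v i'] e_i'`: modulo the
pivots `e_i` (if `i < j`), `e_i'` (if `i' < j`) it is one vector: take `Z = {that vector}` (or `∅` if 0 or
both are pivots); `Z = {vector}` is allowed since one of the two rectangles contains `(a,j)`.
If `i = i'` (`k ≠ k'`): `Z = {e_i}`. `hvw` gives `rr v a j ≤ rr w a j` (`le_def`).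
-/

set_option autoImplicit false

namespace HQ

open SH MvPolynomial

variable {n : ℕ}

theorem C1 {v w : Equiv.Perm (Fin n)} (hvw : v ≤ w) {p : Lo n} (hp : InT v w p) (s : ℂ) :
    (fun r => if r = p then s else 0) ∈ Cl v w := by
  classical
  have hz : ∀ c : Fin n, c ≠ p.1.2 → ∀ r : Lo n, r.1.2 = c →
      (fun r : Lo n => if r = p then s else 0) r = 0 := by
    intro c hc r hr
    show (if r = p then s else 0) = 0
    rw [if_neg]
    rintro rfl
    exact hc hr.symm
  refine B1 fun a _ j _ => ?_
  by_cases hA : Act v p a j
  · refine ⟨{tcol v (fun r => if r = p then s else 0) a p.1.2}, ?_, ?_⟩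
    · rw [Finset.card_singleton]
      have := hp a j hA
      omega
    · intro c hc hca
      by_cases hcp : c = p.1.2
      · subst hcp
        exact Submodule.subset_span (Or.inr (by simp))
      · rw [B2b (hz c hcp) hca]
        exact Submodule.zero_mem _
  · refine ⟨∅, ?_, ?_⟩
    · rw [Finset.card_empty, add_zero]
      exact le_def.1 hvw a j
    · intro c hc hca
      by_cases hcp : c = p.1.2
      · subst hcp
        have hlt := lo_lt p
        by_cases hai : a ≤ (v p.1.1).val
        · have hij : p.1.1.val < j := by
            by_contra h
            exact hA ⟨hc, not_lt.1 h, hca, hai⟩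
          have hne : p.1.1 ≠ p.1.2 := fun h => by
            rw [h] at hlt
            exact lt_irrefl _ hlt
          have h1 := B2a (x := fun r => if r = p then s else 0) (hz p.1.1 hne) hai
          have h2 : tcol v (fun r => if r = p then s else 0) a p.1.2 =
              s • tcol v (fun r => if r = p then s else 0) a p.1.1 := by
            rw [h1]
            funext i
            rw [B2c, Pi.smul_apply, smul_eq_mul]
            by_cases hi : i = p.1.1
            · subst hi
              rw [if_pos hai, dif_pos p.2, Pi.single_eq_same, mul_one]
              exact if_pos rfl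
            · rw [Pi.single_eq_of_ne hi, mul_zero]
              by_cases hav : a ≤ (v i).val
              · rw [if_pos hav]
                by_cases hci : p.1.2 < i
                · rw [dif_pos hci]
                  refine if_neg fun h => hi ?_
                  rw [← h]
                · rw [dif_neg hci, if_neg]
                  rintro rfl
                  exact absurd hav (not_le.2 hca)
              · rw [if_neg hav]
          rw [h2]
          exact Submodule.smul_mem _ _ (Submodule.subset_span (Or.inl ⟨p.1.1, ⟨hij, hai⟩, rfl⟩))
        · have h2 : tcol v (fun r => if r = p then s else 0) a p.1.2 = 0 := by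
            funext i
            rw [B2c, Pi.zero_apply]
            by_cases hav : a ≤ (v i).val
            · rw [if_pos hav]
              by_cases hci : p.1.2 < i
              · rw [dif_pos hci]
                refine if_neg fun h => hai ?_
                rw [← h]
                exact hav
              · rw [dif_neg hci, if_neg]
                rintro rfl
                exact absurd hav (not_le.2 hca)
            · rw [if_neg hav]
          rw [h2]
          exact Submodule.zero_mem _
      · rw [B2b (hz c hcp) hca]
        exact Submodule.zero_mem _

end HQ
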