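import Pool.Agent.LibHQ4.B2

/-!
# Row C2 (MEDIUM): two coordinates, no chain. PLAN: see the header of C1.lean.
-/

set_option autoImplicit false

namespace HQ

open SH MvPolynomial

variable {n : ℕ}

/-- the column of one entry -/
private noncomputable def C2_t (v : Equiv.Perm (Fin n)) (a : ℕ) (c : Fin n) (p : Lo n) (s : ℂ) :
    Fin n → ℂ := by
  classical
  exact if p.1.2 = c ∧ a ≤ (v p.1.1).val then s • Pi.single p.1.1 (1 : ℂ) else 0

private theorem C2_t_apply (v : Equiv.Perm (Fin n)) {a : ℕ} {c i : Fin n} (p : Lo n) (s : ℂ)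
    (ha : a ≤ (v i).val) (h : c < i) :
    C2_t v a c p s i = if (⟨(i, c), h⟩ : Lo n) = p then s else 0 := by
  classical
  unfold C2_t
  by_cases hp : (⟨(i, c), h⟩ : Lo n) = p
  · subst hp
    rw [if_pos ⟨rfl, ha⟩, if_pos rfl, Pi.smul_apply, smul_eq_mul, Pi.single_eq_same, mul_one]
  · rw [if_neg hp]
    by_cases h1 : p.1.2 = c ∧ a ≤ (v p.1.1).val
    · rw [if_pos h1, Pi.smul_apply, smul_eq_mul, Pi.single_eq_of_ne, mul_zero]
      intro hi
      exact hp (Subtype.ext (Prod.ext hi h1.1.symm))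
    · rw [if_neg h1]
      rfl

private theorem C2_t_zero (v : Equiv.Perm (Fin n)) {a : ℕ} {c i : Fin n} (p : Lo n) (s : ℂ)
    (h : ¬ a ≤ (v i).val ∨ ¬ c < i) : C2_t v a c p s i = 0 := by
  classical
  unfold C2_t
  by_cases h1 : p.1.2 = c ∧ a ≤ (v p.1.1).val
  · rw [if_pos h1, Pi.smul_apply, smul_eq_mul, Pi.single_eq_of_ne, mul_zero]
    rintro rfl
    rcases h with h | h
    · exact h h1.2
    · exact h (h1.1 ▸ p.2)
  · rw [if_neg h1]
    rfl

private theorem C2_col {v : Equiv.Perm (Fin n)} {p q : Lo n} (hpq : p ≠ q) (s t : ℂ) {a : ℕ}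
    {c : Fin n} (hc : (v c).val < a) :
    tcol v (fun r => if r = p then s else if r = q then t else 0) a c =
      C2_t v a c p s + C2_t v a c q t := by
  funext i
  rw [B2c, Pi.add_apply]
  by_cases hav : a ≤ (v i).val
  · rw [if_pos hav]
    by_cases hci : c < i
    · rw [dif_pos hci, C2_t_apply v p s hav hci, C2_t_apply v q t hav hci]
      by_cases h1 : (⟨(i, c), hci⟩ : Lo n) = p
      · rw [if_pos h1, if_pos h1, if_neg, add_zero]
        rw [h1]
        exact hpq
      · rw [if_neg h1, if_neg h1, zero_add]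
    · rw [dif_neg hci, C2_t_zero v p s (Or.inr hci), C2_t_zero v q t (Or.inr hci), add_zero,
        if_neg]
      rintro rfl
      exact absurd hav (not_le.2 hc)
  · rw [if_neg hav, C2_t_zero v p s (Or.inl hav), C2_t_zero v q t (Or.inl hav), add_zero]

/-- membership of one term -/
private theorem C2_mem {v : Equiv.Perm (Fin n)} {x : Lo n → ℂ} {a j : ℕ} {c : Fin n} {p : Lo n}
    {s : ℂ} {Z : Set (Fin n → ℂ)} (hcj : c.val < j) (hc : (v c).val < a)
    (hx : ∀ r : Lo n, r.1.2 = p.1.1 → x r = 0)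
    (hZ : Act v p a j → (Pi.single p.1.1 (1 : ℂ) : Fin n → ℂ) ∈ Z) :
    C2_t v a c p s ∈ Submodule.span ℂ
      ((tcol v x a '' {c' : Fin n | c'.val < j ∧ a ≤ (v c').val}) ∪ Z) := by
  classical
  unfold C2_t
  by_cases h1 : p.1.2 = c ∧ a ≤ (v p.1.1).val
  · rw [if_pos h1]
    refine Submodule.smul_mem _ _ (Submodule.subset_span ?_)
    by_cases hij : p.1.1.val < j
    · left
      exact ⟨p.1.1, ⟨hij, h1.2⟩, B2a hx h1.2⟩
    · right
      refine hZ ⟨?_, not_lt.1 hij, ?_, h1.2⟩
      · rw [h1.1]; exact hcj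
      · rw [h1.1]; exact hc
  · rw [if_neg h1]
    exact Submodule.zero_mem _

theorem C2 {v w : Equiv.Perm (Fin n)} (hvw : v ≤ w) {p q : Lo n} (hp : InT v w p) (hq : InT v w q)
    (hpq : p ≠ q) (h1 : p.1.2 ≠ q.1.1) (h2 : q.1.2 ≠ p.1.1) (hb : ¬ BadD v w p q) (s t : ℂ) :
    (fun r => if r = p then s else if r = q then t else 0) ∈ Cl v w := by
  classical
  have hpl : p.1.2 ≠ p.1.1 := ne_of_lt p.2
  have hql : q.1.2 ≠ q.1.1 := ne_of_lt q.2
  have hz : ∀ c : Fin n, c ≠ p.1.2 → c ≠ q.1.2 → ∀ r : Lo n, r.1.2 = c →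
      (fun r : Lo n => if r = p then s else if r = q then t else 0) r = 0 := by
    intro c hc hc' r hr
    show (if r = p then s else if r = q then t else 0) = 0
    rw [if_neg, if_neg]
    · rintro rfl
      exact hc' hr.symm
    · rintro rfl
      exact hc hr.symm
  have hzp := hz p.1.1 hpl.symm h2.symm
  have hzq := hz q.1.1 h1.symm hql.symm
  refine B1 fun a _ j _ => ?_
  have hle := le_def.1 hvw a j
  -- the general pattern
  have key : ∀ Z : Finset (Fin n → ℂ), rr v a j + Z.card ≤ rr w a j →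
      (Act v p a j → (Pi.single p.1.1 (1 : ℂ) : Fin n → ℂ) ∈ (Z : Set (Fin n → ℂ))) →
      (Act v q a j → (Pi.single q.1.1 (1 : ℂ) : Fin n → ℂ) ∈ (Z : Set (Fin n → ℂ))) →
      ∃ Z : Finset (Fin n → ℂ), rr v a j + Z.card ≤ rr w a j ∧
      ∀ c : Fin n, c.val < j → (v c).val < a →
        tcol v (fun r => if r = p then s else if r = q then t else 0) a c ∈ Submodule.span ℂ
          ((tcol v (fun r => if r = p then s else if r = q then t else 0) a ''
            {c' : Fin n | c'.val < j ∧ a ≤ (v c').val}) ∪ (Z : Set (Fin n → ℂ))) := by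
    intro Z hZ hZp hZq
    refine ⟨Z, hZ, fun c hcj hca => ?_⟩
    rw [C2_col hpq s t hca]
    exact Submodule.add_mem _ (C2_mem hcj hca hzp hZp) (C2_mem hcj hca hzq hZq)
  by_cases hA : Act v p a j
  · have hpa := hp a j hA
    by_cases hB : Act v q a j
    · by_cases hr : p.1.1 = q.1.1
      · refine key {Pi.single p.1.1 (1 : ℂ)} ?_ (fun _ => by simp) (fun _ => by rw [hr]; simp)
        rw [Finset.card_singleton]
        omega
      · by_cases hk : p.1.2 = q.1.2
        · refine ⟨{tcol v (fun r => if r = p then s else if r = q then t else 0) a p.1.2}, ?_, ?_⟩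
          · rw [Finset.card_singleton]
            omega
          · intro c hc hca
            by_cases hcp : c = p.1.2
            · subst hcp
              exact Submodule.subset_span (Or.inr (by simp))
            · rw [B2b (hz c hcp (hk ▸ hcp)) hca]
              exact Submodule.zero_mem _
        · have h3 : ¬ rr w a j ≤ rr v a j + 1 := fun h =>
            hb ⟨hr, hk, h2.symm, h1, a, j, hA, hB, h⟩
          refine key {Pi.single p.1.1 (1 : ℂ), Pi.single q.1.1 (1 : ℂ)} ?_ (fun _ => by simp)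
            (fun _ => by simp)
          have := Finset.card_le_two (a := (Pi.single p.1.1 (1 : ℂ) : Fin n → ℂ))
            (b := Pi.single q.1.1 (1 : ℂ))
          omega
    · refine key {Pi.single p.1.1 (1 : ℂ)} ?_ (fun _ => by simp) (fun h => absurd h hB)
      rw [Finset.card_singleton]
      omega
  · by_cases hB : Act v q a j
    · have hqa := hq a j hB
      refine key {Pi.single q.1.1 (1 : ℂ)} ?_ (fun h => absurd h hA) (fun _ => by simp)
      rw [Finset.card_singleton]
      omega
    · refine key ∅ ?_ (fun h => absurd h hA) (fun h => absurd h hB)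
      rw [Finset.card_empty]
      omega

end HQ
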