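import Pool.Agent.LibHQ4.B2

/-!
# Row C3 (MEDIUM): a chain `p = (i,k)`, `q = (k,l)` without tight SW box, third coordinate 0

PLAN. `B1`, notation as in C1.lean. Columns with entries: `k` (`e_k + s e_i`) and `l` (`e_l + t e_k`).
Positions `l < k < i`. Fix `(a,j)`.
* column `k`, `k < j`, `v k < a`: it is `s e_i` if `a ≤ v i`, else 0. If `i < j` then `e_i` is a pivot
  column; if `j ≤ i` the box is in the rectangle of `p`: `Z = {e_i}`.
* column `l`, `l < j`, `v l < a`: it is `t e_k` if `a ≤ v k`, else 0. If `j ≤ k`: the box is in the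
  rectangle of `q`: `Z = {e_k}`. If `k < j`: column `k` is a pivot `e_k + s [a ≤ v i] e_i`; if `v i < a`
  or `i < j` then `e_k` is in the span of the pivots; otherwise (`j ≤ i`, `a ≤ v i`, `a ≤ v k`, `k < j`)
  `Z = {e_k}` is allowed because the box is a SW box and not tight (`hS`, with
  `le_def.1 hvw a j : rr v a j ≤ rr w a j` we get `rr v a j + 1 ≤ rr w a j`).
The two cases (column `k` needs `v k < a`, column `l` needs `a ≤ v k`) never both need `Z`.
-/

set_option autoImplicit false

namespace HQ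

open SH MvPolynomial

variable {n : ℕ}

private theorem C3_k {v : Equiv.Perm (Fin n)} {p q : Lo n} (h : p.1.2 = q.1.1) (s t : ℂ) (a : ℕ) :
    tcol v (fun r => if r = p then s else if r = q then t else 0) a p.1.2 =
      (if a ≤ (v p.1.2).val then Pi.single p.1.2 (1 : ℂ) else 0) +
        (if a ≤ (v p.1.1).val then s • Pi.single p.1.1 (1 : ℂ) else 0) := by
  have hp := lo_lt p
  have hq := lo_lt q
  have hkl : q.1.2.val < p.1.2.val := by rw [h]; exact hq
  funext m
  rw [B2c]
  by_cases hm : m = p.1.2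
  · subst hm
    have h1 : ¬ p.1.2 < p.1.2 := lt_irrefl _
    have h2 : p.1.2 ≠ p.1.1 := fun e => by rw [← e] at hp; exact absurd hp (lt_irrefl _)
    rw [dif_neg h1, if_pos rfl, Pi.add_apply]
    have h3 : (if a ≤ (v p.1.1).val then s • Pi.single p.1.1 (1 : ℂ) else (0 : Fin n → ℂ)) p.1.2 = 0 := by
      split_ifs
      · rw [Pi.smul_apply, Pi.single_eq_of_ne h2, smul_zero]
      · rfl
    rw [h3, add_zero]
    split_ifs
    · rw [Pi.single_eq_same]
    · rfl
  · by_cases hm2 : m = p.1.1
    · subst hm2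
      have h1 : p.1.2 < p.1.1 := hp
      rw [dif_pos h1, if_pos rfl, Pi.add_apply]
      have h3 : (if a ≤ (v p.1.2).val then Pi.single p.1.2 (1 : ℂ) else (0 : Fin n → ℂ)) p.1.1 = 0 := by
        split_ifs
        · rw [Pi.single_eq_of_ne hm]
        · rfl
      rw [h3, zero_add]
      split_ifs
      · rw [Pi.smul_apply, Pi.single_eq_same, smul_eq_mul, mul_one]
      · rfl
    · rw [Pi.add_apply]
      have h3 : (if a ≤ (v p.1.2).val then Pi.single p.1.2 (1 : ℂ) else (0 : Fin n → ℂ)) m = 0 := by
        split_ifs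
        · rw [Pi.single_eq_of_ne hm]
        · rfl
      have h4 : (if a ≤ (v p.1.1).val then s • Pi.single p.1.1 (1 : ℂ) else (0 : Fin n → ℂ)) m = 0 := by
        split_ifs
        · rw [Pi.smul_apply, Pi.single_eq_of_ne hm2, smul_zero]
        · rfl
      rw [h3, h4, add_zero]
      split_ifs with h5 h6 h7 h8
      · exact absurd (congrArg (fun r : Lo n => r.1.1) h7) hm2
      · exact absurd (congrArg (fun r : Lo n => r.1.2.val) h8) (by simp only; omega)
      · rfl
      · rfl
      · rfl

private theorem C3_l {v : Equiv.Perm (Fin n)} {p q : Lo n} (h : p.1.2 = q.1.1) (s t : ℂ) (a : ℕ) :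
    tcol v (fun r => if r = p then s else if r = q then t else 0) a q.1.2 =
      (if a ≤ (v q.1.2).val then Pi.single q.1.2 (1 : ℂ) else 0) +
        (if a ≤ (v q.1.1).val then t • Pi.single q.1.1 (1 : ℂ) else 0) := by
  have hp := lo_lt p
  have hq := lo_lt q
  have hkl : q.1.2.val < p.1.2.val := by rw [h]; exact hq
  have hpq : q ≠ p := fun e => by rw [e] at hkl; exact absurd hkl (lt_irrefl _)
  funext m
  rw [B2c]
  by_cases hm : m = q.1.2
  · subst hm
    have h1 : ¬ q.1.2 < q.1.2 := lt_irrefl _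
    have h2 : q.1.2 ≠ q.1.1 := fun e => by rw [← e] at hq; exact absurd hq (lt_irrefl _)
    rw [dif_neg h1, if_pos rfl, Pi.add_apply]
    have h3 : (if a ≤ (v q.1.1).val then t • Pi.single q.1.1 (1 : ℂ) else (0 : Fin n → ℂ)) q.1.2 = 0 := by
      split_ifs
      · rw [Pi.smul_apply, Pi.single_eq_of_ne h2, smul_zero]
      · rfl
    rw [h3, add_zero]
    split_ifs
    · rw [Pi.single_eq_same]
    · rfl
  · by_cases hm2 : m = q.1.1
    · subst hm2
      have h1 : q.1.2 < q.1.1 := hq
      have h5 : (⟨(q.1.1, q.1.2), h1⟩ : Lo n) = q := rfl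
      rw [dif_pos h1, h5, if_neg hpq, if_pos rfl, Pi.add_apply]
      have h3 : (if a ≤ (v q.1.2).val then Pi.single q.1.2 (1 : ℂ) else (0 : Fin n → ℂ)) q.1.1 = 0 := by
        split_ifs
        · rw [Pi.single_eq_of_ne hm]
        · rfl
      rw [h3, zero_add]
      split_ifs
      · rw [Pi.smul_apply, Pi.single_eq_same, smul_eq_mul, mul_one]
      · rfl
    · rw [Pi.add_apply]
      have h3 : (if a ≤ (v q.1.2).val then Pi.single q.1.2 (1 : ℂ) else (0 : Fin n → ℂ)) m = 0 := by
        split_ifs
        · rw [Pi.single_eq_of_ne hm]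
        · rfl
      have h4 : (if a ≤ (v q.1.1).val then t • Pi.single q.1.1 (1 : ℂ) else (0 : Fin n → ℂ)) m = 0 := by
        split_ifs
        · rw [Pi.smul_apply, Pi.single_eq_of_ne hm2, smul_zero]
        · rfl
      rw [h3, h4, add_zero]
      split_ifs with h5 h6 h7 h8
      · exact absurd (congrArg (fun r : Lo n => r.1.2.val) h7) (by simp only; omega)
      · exact absurd (congrArg (fun r : Lo n => r.1.1) h8) hm2
      · rfl
      · rfl
      · rfl

private theorem C3_z {v : Equiv.Perm (Fin n)} {p q : Lo n} (s t : ℂ) (a : ℕ) {c : Fin n}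
    (h1 : c ≠ p.1.2) (h2 : c ≠ q.1.2) (r : Lo n) (hr : r.1.2 = c) :
    (fun r => if r = p then s else if r = q then t else (0 : ℂ)) r = 0 := by
  have h3 : r ≠ p := fun e => h1 (by rw [← hr, e])
  have h4 : r ≠ q := fun e => h2 (by rw [← hr, e])
  simp only
  rw [if_neg h3, if_neg h4]

theorem C3 {v w : Equiv.Perm (Fin n)} (hvw : v ≤ w) {p q : Lo n} (hp : InT v w p) (hq : InT v w q)
    (h : p.1.2 = q.1.1) (hS : ∀ a j, ¬ SW v w p q a j) (s t : ℂ) :
    (fun r => if r = p then s else if r = q then t else 0) ∈ Cl v w := by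
  have hp' := lo_lt p
  have hq' := lo_lt q
  have hkl : q.1.2.val < p.1.2.val := by rw [h]; exact hq'
  have hne1 : p.1.1 ≠ p.1.2 := fun e => by rw [← e] at hp'; exact absurd hp' (lt_irrefl _)
  have hne2 : p.1.1 ≠ q.1.2 := fun e => by rw [e] at hp'; omega
  have hne3 : p.1.2 ≠ q.1.2 := fun e => by rw [e] at hkl; exact absurd hkl (lt_irrefl _)
  refine B1 fun a _ j _ => ?_
  have hle := le_def.1 hvw a j
  -- `e_i` if `i` is a pivot
  have hei : ∀ Z : Finset (Fin n → ℂ), p.1.1.val < j → a ≤ (v p.1.1).val →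
      Pi.single p.1.1 (1 : ℂ) ∈ Submodule.span ℂ
          ((tcol v (fun r => if r = p then s else if r = q then t else 0) a ''
            {c' : Fin n | c'.val < j ∧ a ≤ (v c').val}) ∪ (Z : Set (Fin n → ℂ))) := by
    intro Z h1 h2
    have h3 := B2a (v := v) (a := a) (c := p.1.1) (C3_z (v := v) (p := p) (q := q) s t a hne1 hne2) h2
    rw [← h3]
    exact Submodule.subset_span (Or.inl ⟨p.1.1, ⟨h1, h2⟩, rfl⟩)
  by_cases hk : (v p.1.2).val < a
  · -- only the column `k` matters
    have main : ∀ Z : Finset (Fin n → ℂ), (p.1.2.val < j → j ≤ p.1.1.val → a ≤ (v p.1.1).val →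
        Pi.single p.1.1 (1 : ℂ) ∈ Z) → ∀ c : Fin n, c.val < j → (v c).val < a →
        tcol v (fun r => if r = p then s else if r = q then t else 0) a c ∈ Submodule.span ℂ
          ((tcol v (fun r => if r = p then s else if r = q then t else 0) a ''
            {c' : Fin n | c'.val < j ∧ a ≤ (v c').val}) ∪ (Z : Set (Fin n → ℂ))) := by
      intro Z hZ c hc1 hc2
      by_cases hck : c = p.1.2
      · subst hck
        rw [C3_k h, if_neg (by omega), zero_add]
        by_cases h1 : a ≤ (v p.1.1).val
        · rw [if_pos h1]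
          refine Submodule.smul_mem _ _ ?_
          by_cases h2 : p.1.1.val < j
          · exact hei Z h2 h1
          · exact Submodule.subset_span (Or.inr (hZ hc1 (by omega) h1))
        · rw [if_neg h1]; exact Submodule.zero_mem _
      · by_cases hcl : c = q.1.2
        · subst hcl
          rw [C3_l h, if_neg (by omega), if_neg (by rw [← h]; omega), add_zero]
          exact Submodule.zero_mem _
        · rw [B2b (C3_z (v := v) (p := p) (q := q) s t a hck hcl) hc2]
          exact Submodule.zero_mem _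
    by_cases h1 : p.1.2.val < j ∧ j ≤ p.1.1.val ∧ a ≤ (v p.1.1).val
    · refine ⟨{Pi.single p.1.1 (1 : ℂ)}, ?_, main _ fun _ _ _ => Finset.mem_singleton_self _⟩
      have h2 := hp a j ⟨h1.1, h1.2.1, hk, h1.2.2⟩
      rw [Finset.card_singleton]; omega
    · refine ⟨∅, ?_, main _ fun h2 h3 h4 => absurd ⟨h2, h3, h4⟩ h1⟩
      rw [Finset.card_empty]; exact hle
  · have hk' : a ≤ (v p.1.2).val := by omega
    have main : ∀ Z : Finset (Fin n → ℂ), (q.1.2.val < j → (v q.1.2).val < a →
        (j ≤ p.1.2.val ∨ (p.1.2.val < j ∧ j ≤ p.1.1.val ∧ a ≤ (v p.1.1).val)) →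
        Pi.single p.1.2 (1 : ℂ) ∈ Z) → ∀ c : Fin n, c.val < j → (v c).val < a →
        tcol v (fun r => if r = p then s else if r = q then t else 0) a c ∈ Submodule.span ℂ
          ((tcol v (fun r => if r = p then s else if r = q then t else 0) a ''
            {c' : Fin n | c'.val < j ∧ a ≤ (v c').val}) ∪ (Z : Set (Fin n → ℂ))) := by
      intro Z hZ c hc1 hc2
      by_cases hck : c = p.1.2
      · subst hck; omega
      · by_cases hcl : c = q.1.2
        · subst hcl
          rw [C3_l h, if_neg (by omega), zero_add, ← h, if_pos hk']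
          refine Submodule.smul_mem _ _ ?_
          by_cases h1 : j ≤ p.1.2.val
          · exact Submodule.subset_span (Or.inr (hZ hc1 hc2 (Or.inl h1)))
          · have hpk : tcol v (fun r => if r = p then s else if r = q then t else 0) a p.1.2 ∈
                Submodule.span ℂ
                  ((tcol v (fun r => if r = p then s else if r = q then t else 0) a ''
                    {c' : Fin n | c'.val < j ∧ a ≤ (v c').val}) ∪ (Z : Set (Fin n → ℂ))) :=
              Submodule.subset_span (Or.inl ⟨p.1.2, ⟨by omega, hk'⟩, rfl⟩)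
            rw [C3_k h, if_pos hk'] at hpk
            by_cases h2 : a ≤ (v p.1.1).val
            · by_cases h3 : p.1.1.val < j
              · rw [if_pos h2] at hpk
                have h4 := Submodule.sub_mem _ hpk (Submodule.smul_mem _ s (hei Z h3 h2))
                rwa [add_sub_cancel_right] at h4
              · exact Submodule.subset_span (Or.inr (hZ hc1 hc2 (Or.inr ⟨by omega, by omega, h2⟩)))
            · rwa [if_neg h2, add_zero] at hpk
        · rw [B2b (C3_z (v := v) (p := p) (q := q) s t a hck hcl) hc2]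
          exact Submodule.zero_mem _
    by_cases h1 : q.1.2.val < j ∧ (v q.1.2).val < a ∧
        (j ≤ p.1.2.val ∨ (p.1.2.val < j ∧ j ≤ p.1.1.val ∧ a ≤ (v p.1.1).val))
    · refine ⟨{Pi.single p.1.2 (1 : ℂ)}, ?_, main _ fun _ _ _ => Finset.mem_singleton_self _⟩
      rw [Finset.card_singleton]
      obtain ⟨h2, h3, h4 | h4⟩ := h1
      · have h5 := hq a j ⟨h2, by rw [← h]; exact h4, h3, by rw [← h]; exact hk'⟩
        omega
      · have h5 := hS a j
        have h6 : rr w a j ≠ rr v a j := fun e => h5 ⟨h4.1, h4.2.1, h3, hk', h4.2.2, e⟩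
        omega
    · refine ⟨∅, ?_, main _ fun h2 h3 h4 => absurd ⟨h2, h3, h4⟩ h1⟩
      rw [Finset.card_empty]; exact hle

end HQ
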