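import Pool.Agent.LibHQ4.B2

/-!
# Row C4 (MEDIUM): a chain `p = (i,k)`, `q = (k,l)` without tight NE box, `x_(i,l) = s t`

PLAN. `B1`, notation as in C1.lean. Columns with entries: `k` (`e_k + s e_i`) and `l`
(`e_l + t e_k + s t e_i = e_l + t (e_k + s e_i)`). Positions `l < k < i`. Fix `(a,j)`.
* column `k`, `k < j`, `v k < a`: it is `s e_i` if `a ≤ v i`, else 0. If `i < j` then `e_i` is a pivot
  column; if `j ≤ i` the box is in the rectangle of `p`: `Z = {e_i}`.
* column `l`, `l < j`, `v l < a`, truncated: `t` times the truncated `e_k + s e_i`. If `k < j` this is `t`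
  times `tcol k` (which is a pivot or was treated above; so it is in the span anyway). If `j ≤ k` (so also
  `j ≤ i`): `Z = {tcol l}`, allowed if `tcol l ≠ 0`: then `a ≤ v k` (the box is in the rectangle of `q`)
  or `v k < a ≤ v i` (the box is a NE box, not tight by `hN`).
-/

set_option autoImplicit false

namespace HQ

open SH MvPolynomial

variable {n : ℕ}

/-- the point of the chain -/
private def pt (p q r₀ : Lo n) (s t : ℂ) : Lo n → ℂ :=
  fun r => if r = p then s else if r = q then t else if r = r₀ then s * t else 0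

private theorem col_k {p q r₀ : Lo n} (h : p.1.2 = q.1.1) (h2 : r₀.1.2 = q.1.2) (s t : ℂ)
    (v : Equiv.Perm (Fin n)) (a : ℕ) :
    tcol v (pt p q r₀ s t) a p.1.2 =
      (if a ≤ (v p.1.2).val then (Pi.single p.1.2 1 : Fin n → ℂ) else 0) +
        s • (if a ≤ (v p.1.1).val then (Pi.single p.1.1 1 : Fin n → ℂ) else 0) := by
  have hkl : q.1.2 < q.1.1 := q.2
  have hki : p.1.2 < p.1.1 := p.2
  funext m
  rw [B2c]
  have key : ∀ hm : p.1.2 < m, pt p q r₀ s t ⟨(m, p.1.2), hm⟩ = if m = p.1.1 then s else 0 := by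
    intro hm
    unfold pt
    have e1 : ((⟨(m, p.1.2), hm⟩ : Lo n) = p) ↔ m = p.1.1 := by
      constructor
      · intro e
        rw [← e]
      · intro e
        apply Subtype.ext
        exact Prod.ext e rfl
    have e2 : (⟨(m, p.1.2), hm⟩ : Lo n) ≠ q := by
      intro e
      have : p.1.2 = q.1.2 := by rw [← e]
      rw [this] at h
      exact absurd h hkl.ne
    have e3 : (⟨(m, p.1.2), hm⟩ : Lo n) ≠ r₀ := by
      intro e
      have : p.1.2 = r₀.1.2 := by rw [← e]
      rw [this, h2] at h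
      exact absurd h hkl.ne
    by_cases e : m = p.1.1
    · rw [if_pos (e1.2 e), if_pos e]
    · rw [if_neg (fun e' => e (e1.1 e')), if_neg e2, if_neg e3, if_neg e]
  by_cases hm : p.1.2 < m
  · rw [dif_pos hm, key hm]
    have hne : m ≠ p.1.2 := hm.ne'
    by_cases e : m = p.1.1
    · subst e
      by_cases h1 : a ≤ (v p.1.2).val <;> by_cases h3 : a ≤ (v p.1.1).val <;>
        simp [h1, h3, hne]
    · by_cases h1 : a ≤ (v p.1.2).val <;> by_cases h3 : a ≤ (v p.1.1).val <;>
        simp [h1, h3, hne, e]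
  · rw [dif_neg hm]
    have hne : m ≠ p.1.1 := by
      intro e
      rw [e] at hm
      exact hm hki
    by_cases e : m = p.1.2
    · subst e
      by_cases h1 : a ≤ (v p.1.2).val <;> by_cases h3 : a ≤ (v p.1.1).val <;>
        simp [h1, h3, hne]
    · by_cases h1 : a ≤ (v p.1.2).val <;> by_cases h3 : a ≤ (v p.1.1).val <;>
        simp [h1, h3, hne, e]

private theorem col_l {p q r₀ : Lo n} (h : p.1.2 = q.1.1) (h1 : r₀.1.1 = p.1.1)
    (h2 : r₀.1.2 = q.1.2) (s t : ℂ)
    (v : Equiv.Perm (Fin n)) (a : ℕ) (hl : (v q.1.2).val < a) :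
    tcol v (pt p q r₀ s t) a q.1.2 = t • tcol v (pt p q r₀ s t) a p.1.2 := by
  have hkl : q.1.2 < q.1.1 := q.2
  have hki : p.1.2 < p.1.1 := p.2
  rw [col_k h h2]
  funext m
  rw [B2c]
  have key : ∀ hm : q.1.2 < m, pt p q r₀ s t ⟨(m, q.1.2), hm⟩ =
      if m = p.1.2 then t else if m = p.1.1 then s * t else 0 := by
    intro hm
    unfold pt
    have e1 : (⟨(m, q.1.2), hm⟩ : Lo n) ≠ p := by
      intro e
      have : q.1.2 = p.1.2 := by rw [← e]
      rw [h] at this
      exact absurd this hkl.ne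
    have e2 : ((⟨(m, q.1.2), hm⟩ : Lo n) = q) ↔ m = p.1.2 := by
      constructor
      · intro e
        rw [h, ← e]
      · intro e
        apply Subtype.ext
        exact Prod.ext (e.trans h) rfl
    have e3 : ((⟨(m, q.1.2), hm⟩ : Lo n) = r₀) ↔ m = p.1.1 := by
      constructor
      · intro e
        rw [← h1, ← e]
      · intro e
        apply Subtype.ext
        exact Prod.ext (e.trans h1.symm) h2.symm
    rw [if_neg e1]
    by_cases e : m = p.1.2
    · rw [if_pos (e2.2 e), if_pos e]
    · rw [if_neg (fun e' => e (e2.1 e')), if_neg e]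
      by_cases e' : m = p.1.1
      · rw [if_pos (e3.2 e'), if_pos e']
      · rw [if_neg (fun e'' => e' (e3.1 e'')), if_neg e']
  by_cases hm : q.1.2 < m
  · rw [dif_pos hm, key hm]
    by_cases e : m = p.1.2
    · have hne : m ≠ p.1.1 := by rw [e]; exact hki.ne
      subst e
      by_cases h1 : a ≤ (v p.1.2).val <;> by_cases h3 : a ≤ (v p.1.1).val <;>
        simp [h1, h3, hne]
    · by_cases e' : m = p.1.1
      · subst e'
        by_cases h1 : a ≤ (v p.1.2).val <;> by_cases h3 : a ≤ (v p.1.1).val <;>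
          simp [h1, h3, e, mul_comm]
      · by_cases h1 : a ≤ (v p.1.2).val <;> by_cases h3 : a ≤ (v p.1.1).val <;>
          simp [h1, h3, e, e']
  · rw [dif_neg hm]
    have hne : m ≠ p.1.2 := by
      intro e
      rw [e, h] at hm
      exact hm hkl
    have hne' : m ≠ p.1.1 := by
      intro e
      rw [e] at hm
      exact hm (lt_trans (h ▸ hkl) hki)
    by_cases e : m = q.1.2
    · have h5 : ¬ a ≤ (v m).val := by rw [e]; exact not_le.2 hl
      by_cases h1 : a ≤ (v p.1.2).val <;> by_cases h3 : a ≤ (v p.1.1).val <;>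
        simp [h1, h3, hne, hne', h5]
    · by_cases h1 : a ≤ (v p.1.2).val <;> by_cases h3 : a ≤ (v p.1.1).val <;>
        simp [h1, h3, hne, hne', e]

private theorem mem_cl {v w : Equiv.Perm (Fin n)} (hvw : v ≤ w) {p q r₀ : Lo n}
    (hp : InT v w p)
    (hq : InT v w q) (h : p.1.2 = q.1.1) (h1 : r₀.1.1 = p.1.1) (h2 : r₀.1.2 = q.1.2)
    (hN : ∀ a j, ¬ NE v w p q a j) (s t : ℂ) : pt p q r₀ s t ∈ Cl v w := by
  classical
  have hkl : q.1.2 < q.1.1 := q.2
  have hki : p.1.2 < p.1.1 := p.2
  have hzero : ∀ c : Fin n, c ≠ p.1.2 → c ≠ q.1.2 → ∀ r : Lo n, r.1.2 = c →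
      pt p q r₀ s t r = 0 := by
    intro c hc1 hc2 r hr
    unfold pt
    have e1 : r ≠ p := fun e => hc1 (by rw [← hr, e])
    have e2 : r ≠ q := fun e => hc2 (by rw [← hr, e])
    have e3 : r ≠ r₀ := fun e => hc2 (by rw [← hr, e, h2])
    rw [if_neg e1, if_neg e2, if_neg e3]
  apply B1
  intro a ha j hj
  have hle : rr v a j ≤ rr w a j := le_def.1 hvw a j
  -- it is enough to put the truncated column `k` into the span
  have red : ∀ Z : Finset (Fin n → ℂ), rr v a j + Z.card ≤ rr w a j →
      (((p.1.2.val < j ∧ (v p.1.2).val < a) ∨ (q.1.2.val < j ∧ (v q.1.2).val < a)) →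
        tcol v (pt p q r₀ s t) a p.1.2 ∈ Submodule.span ℂ
          ((tcol v (pt p q r₀ s t) a '' {c' : Fin n | c'.val < j ∧ a ≤ (v c').val}) ∪
            (Z : Set (Fin n → ℂ)))) →
      ∃ Z : Finset (Fin n → ℂ), rr v a j + Z.card ≤ rr w a j ∧
      ∀ c : Fin n, c.val < j → (v c).val < a →
        tcol v (pt p q r₀ s t) a c ∈ Submodule.span ℂ
          ((tcol v (pt p q r₀ s t) a '' {c' : Fin n | c'.val < j ∧ a ≤ (v c').val}) ∪
            (Z : Set (Fin n → ℂ))) := by
    intro Z hZ hT
    refine ⟨Z, hZ, fun c hc hca => ?_⟩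
    by_cases c1 : c = p.1.2
    · subst c1
      exact hT (Or.inl ⟨hc, hca⟩)
    · by_cases c2 : c = q.1.2
      · subst c2
        rw [col_l h h1 h2 s t v a hca]
        exact Submodule.smul_mem _ _ (hT (Or.inr ⟨hc, hca⟩))
      · rw [B2b (hzero c c1 c2) hca]
        exact Submodule.zero_mem _
  have one : rr v a j < rr w a j →
      ∃ Z : Finset (Fin n → ℂ), rr v a j + Z.card ≤ rr w a j ∧
      ∀ c : Fin n, c.val < j → (v c).val < a →
        tcol v (pt p q r₀ s t) a c ∈ Submodule.span ℂ
          ((tcol v (pt p q r₀ s t) a '' {c' : Fin n | c'.val < j ∧ a ≤ (v c').val}) ∪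
            (Z : Set (Fin n → ℂ))) := by
    intro hlt
    refine red {tcol v (pt p q r₀ s t) a p.1.2} ?_ fun _ => ?_
    · rw [Finset.card_singleton]
      exact hlt
    · apply Submodule.subset_span
      right
      rw [Finset.coe_singleton]
      exact Set.mem_singleton _
  have none : ((((p.1.2.val < j ∧ (v p.1.2).val < a) ∨ (q.1.2.val < j ∧ (v q.1.2).val < a)) →
        tcol v (pt p q r₀ s t) a p.1.2 ∈ Submodule.span ℂ
          ((tcol v (pt p q r₀ s t) a '' {c' : Fin n | c'.val < j ∧ a ≤ (v c').val}) ∪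
            ((∅ : Finset (Fin n → ℂ)) : Set (Fin n → ℂ))))) →
      ∃ Z : Finset (Fin n → ℂ), rr v a j + Z.card ≤ rr w a j ∧
      ∀ c : Fin n, c.val < j → (v c).val < a →
        tcol v (pt p q r₀ s t) a c ∈ Submodule.span ℂ
          ((tcol v (pt p q r₀ s t) a '' {c' : Fin n | c'.val < j ∧ a ≤ (v c').val}) ∪
            (Z : Set (Fin n → ℂ))) :=
    fun hT => red ∅ (by rw [Finset.card_empty]; exact hle) hT
  by_cases hk : a ≤ (v p.1.2).val
  · by_cases hkj : p.1.2.val < j
    · -- column `k` is a pivot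
      refine none fun _ => Submodule.subset_span (Or.inl ⟨p.1.2, ⟨hkj, hk⟩, rfl⟩)
    · by_cases hl : q.1.2.val < j ∧ (v q.1.2).val < a
      · refine one (hq a j ⟨hl.1, ?_, hl.2, ?_⟩)
        · rw [← h]; exact not_lt.1 hkj
        · rw [← h]; exact hk
      · refine none fun hor => ?_
        rcases hor with h' | h'
        · exact absurd h'.1 hkj
        · exact absurd h' hl
  · have hk' : (v p.1.2).val < a := not_le.1 hk
    by_cases hi : a ≤ (v p.1.1).val
    · by_cases hij : p.1.1.val < j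
      · -- `e_i` is a pivot column
        refine none fun _ => ?_
        rw [col_k h h2, if_neg hk, if_pos hi, zero_add]
        apply Submodule.smul_mem
        have hi1 : p.1.1 ≠ p.1.2 := hki.ne'
        have hi2 : p.1.1 ≠ q.1.2 := (lt_trans (h ▸ hkl) hki).ne'
        rw [← B2a (hzero p.1.1 hi1 hi2) hi]
        exact Submodule.subset_span (Or.inl ⟨p.1.1, ⟨hij, hi⟩, rfl⟩)
      · by_cases hkj : p.1.2.val < j
        · exact one (hp a j ⟨hkj, not_lt.1 hij, hk', hi⟩)
        · by_cases hl : q.1.2.val < j ∧ (v q.1.2).val < a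
          · refine one (lt_of_le_of_ne hle fun e => ?_)
            exact hN a j ⟨hl.1, not_lt.1 hkj, hk', hi, hl.2, e.symm⟩
          · refine none fun hor => ?_
            rcases hor with h' | h'
            · exact absurd h'.1 hkj
            · exact absurd h' hl
    · refine none fun _ => ?_
      rw [col_k h h2, if_neg hk, if_neg hi, smul_zero, add_zero]
      exact Submodule.zero_mem _

theorem C4 {v w : Equiv.Perm (Fin n)} (hvw : v ≤ w) {p q r₀ : Lo n} (hp : InT v w p)
    (hq : InT v w q) (h : p.1.2 = q.1.1) (h1 : r₀.1.1 = p.1.1) (h2 : r₀.1.2 = q.1.2)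
    (hN : ∀ a j, ¬ NE v w p q a j) (s t : ℂ) :
    (fun r => if r = p then s else if r = q then t else if r = r₀ then s * t else 0) ∈ Cl v w :=
  mem_cl hvw hp hq h h1 h2 hN s t

end HQ
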