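import Pool.Agent.LibHQ4.B2

/-!
# Row C5 (MEDIUM): rank one 2x2 block

`p = (i,k)`, `q = (i',k')`, `p' = (i,k')`, `q' = (i',k)`, `i ≠ i'`, `k ≠ k'`, coordinates
`s₁, s₂, s₃, s₄` with `s₁ s₂ = s₃ s₄`.

PLAN. `B1`, notation as in C1.lean. Columns with entries: `k`: `e_k + g`, `g = s₁ e_i + s₄ e_i'`;
`k'`: `e_k' + g'`, `g' = s₃ e_i + s₂ e_i'`; `g, g'` are proportional (there are `(λ, μ) ≠ 0` and `g₀` with
`g = λ g₀`, `g' = μ g₀`; e.g. if `g = 0` take `g₀ = g'`, otherwise `g' = μ g` from the determinant).
`k, k' < i, i'` (the four pairs are in `Lo`). WLOG or by cases: Fix `(a,j)`. The columns `k, k'` which are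
`< j` with value `< a` have truncated column a multiple of the truncated `g₀`. If `j ≤ i`, `j ≤ i'`:
`Z = {trunc g₀}`; if it is nonzero then `a ≤ v i` or `a ≤ v i'`, and the box is in the rectangle of one of
the four pairs (any such column and row), so `rr v a j + 1 ≤ rr w a j`; if zero `Z = ∅`. If `i < j ≤ i'`:
`e_i` (if `a ≤ v i`) is a pivot column, modulo it only `e_i'` is needed, `Z = {e_i'}`, allowed if `a ≤ v i'`
(box in the rectangle of `(i',k)` or `(i',k')`). Symmetric if `i' < j ≤ i`. If `i, i' < j`: nothing.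
-/

set_option autoImplicit false

namespace HQ

open SH MvPolynomial

variable {n : ℕ}

private theorem c5_rank1 (s₁ s₂ s₃ s₄ : ℂ) (hs : s₁ * s₂ = s₃ * s₄) :
    ∃ α β l m : ℂ, s₁ = l * α ∧ s₄ = l * β ∧ s₃ = m * α ∧ s₂ = m * β := by
  by_cases h1 : s₁ = 0
  · by_cases h4 : s₄ = 0
    · exact ⟨s₃, s₂, 0, 1, by simp [h1], by simp [h4], by simp, by simp⟩
    · have h3 : s₃ = 0 := by
        have : s₃ * s₄ = 0 := by rw [← hs, h1, zero_mul]
        rcases mul_eq_zero.mp this with h | h
        · exact h
        · exact absurd h h4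
      refine ⟨0, s₄, 1, s₂ / s₄, by simp [h1], by simp, by simp [h3], ?_⟩
      field_simp
  · refine ⟨s₁, s₄, 1, s₃ / s₁, by simp, by simp, by field_simp, ?_⟩
    field_simp
    rw [← hs]; ring

theorem C5 {v w : Equiv.Perm (Fin n)} (hvw : v ≤ w) {p q p' q' : Lo n} (hp : InT v w p)
    (hq : InT v w q) (hp' : InT v w p') (hq' : InT v w q') (hi : p.1.1 ≠ q.1.1)
    (hk : p.1.2 ≠ q.1.2) (h1 : p'.1 = (p.1.1, q.1.2)) (h2 : q'.1 = (q.1.1, p.1.2))
    (s₁ s₂ s₃ s₄ : ℂ) (hs : s₁ * s₂ = s₃ * s₄) :
    (fun r => if r = p then s₁ else if r = q then s₂ else if r = p' then s₃ else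
      if r = q' then s₄ else 0) ∈ Cl v w := by
  obtain ⟨⟨i, k⟩, hki⟩ := p
  obtain ⟨⟨i', k'⟩, hki'⟩ := q
  obtain ⟨pp, hpp⟩ := p'
  obtain ⟨qq, hqq⟩ := q'
  simp only at h1 h2 hi hk
  subst h1
  subst h2
  simp only at hki hki' hpp hqq
  obtain ⟨α, β, l, m, e1, e4, e3, e2⟩ := c5_rank1 s₁ s₂ s₃ s₄ hs
  set x : Lo n → ℂ := (fun r => if r = ⟨(i, k), hki⟩ then s₁ else if r = ⟨(i', k'), hki'⟩ then s₂ else
    if r = ⟨(i, k'), hpp⟩ then s₃ else if r = ⟨(i', k), hqq⟩ then s₄ else 0) with hx
  have hik : i ≠ k := ne_of_gt hki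
  have hik' : i ≠ k' := ne_of_gt hpp
  have hi'k : i' ≠ k := ne_of_gt hqq
  have hi'k' : i' ≠ k' := ne_of_gt hki'
  -- other columns
  have hoth : ∀ c : Fin n, c ≠ k → c ≠ k' → ∀ r : Lo n, r.1.2 = c → x r = 0 := by
    intro c hc hc' r hr
    have n1 : r ≠ ⟨(i, k), hki⟩ := by rintro rfl; exact hc hr.symm
    have n2 : r ≠ ⟨(i', k'), hki'⟩ := by rintro rfl; exact hc' hr.symm
    have n3 : r ≠ ⟨(i, k'), hpp⟩ := by rintro rfl; exact hc' hr.symm
    have n4 : r ≠ ⟨(i', k), hqq⟩ := by rintro rfl; exact hc hr.symm
    simp only [hx, n1, n2, n3, n4, if_false]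
  -- column k
  have hcolk : ∀ a : ℕ, (v k).val < a → tcol v x a k =
      (if a ≤ (v i).val then s₁ else 0) • (Pi.single i 1 : Fin n → ℂ) +
      (if a ≤ (v i').val then s₄ else 0) • (Pi.single i' 1 : Fin n → ℂ) := by
    intro a ha
    funext t
    rw [B2c]
    simp only [Pi.add_apply, Pi.smul_apply, smul_eq_mul]
    by_cases hti : t = i
    · subst hti
      rw [dif_pos hki]
      simp [hx, hi]
    · by_cases hti' : t = i'
      · subst hti'
        rw [dif_pos hqq]
        simp [hx, hti, hk]
      · by_cases htk : t = k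
        · subst htk
          rw [if_neg (by omega)]
          simp [hti, hti']
        · by_cases hlt : k < t
          · rw [dif_pos hlt]
            simp [hx, hti, hti']
          · rw [dif_neg hlt, if_neg htk]
            simp [hti, hti']
  have hcolk' : ∀ a : ℕ, (v k').val < a → tcol v x a k' =
      (if a ≤ (v i).val then s₃ else 0) • (Pi.single i 1 : Fin n → ℂ) +
      (if a ≤ (v i').val then s₂ else 0) • (Pi.single i' 1 : Fin n → ℂ) := by
    intro a ha
    funext t
    rw [B2c]
    simp only [Pi.add_apply, Pi.smul_apply, smul_eq_mul]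
    by_cases hti : t = i
    · subst hti
      rw [dif_pos hpp]
      simp [hx, hi, hk.symm]
    · by_cases hti' : t = i'
      · subst hti'
        rw [dif_pos hki']
        simp [hx, hti]
      · by_cases htk : t = k'
        · subst htk
          rw [if_neg (by omega)]
          simp [hti, hti']
        · by_cases hlt : k' < t
          · rw [dif_pos hlt]
            simp [hx, hti, hti']
          · rw [dif_neg hlt, if_neg htk]
            simp [hti, hti']
  apply B1
  intro a ha j hj
  have hle : rr v a j ≤ rr w a j := by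
    have := le_def.mp hvw
    exact this a j
  -- pivots
  have hpiv : ∀ (Z : Finset (Fin n → ℂ)) (t : Fin n), t ≠ k → t ≠ k' → t.val < j → a ≤ (v t).val →
      (Pi.single t 1 : Fin n → ℂ) ∈ Submodule.span ℂ
          ((tcol v x a '' {c' : Fin n | c'.val < j ∧ a ≤ (v c').val}) ∪ (Z : Set (Fin n → ℂ))) := by
    intro Z t ht ht' htj hta
    apply Submodule.subset_span
    left
    exact ⟨t, ⟨htj, hta⟩, B2a (hoth t ht ht') hta⟩
  by_cases hK : (k.val < j ∧ (v k).val < a) ∨ (k'.val < j ∧ (v k').val < a)
  · by_cases hA : (a ≤ (v i).val ∧ j ≤ i.val) ∨ (a ≤ (v i').val ∧ j ≤ i'.val)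
    · have hgt : rr v a j < rr w a j := by
        rcases hK with ⟨hkj, hka⟩ | ⟨hkj, hka⟩
        · rcases hA with ⟨hAi, hJi⟩ | ⟨hAi, hJi⟩
          · exact hp a j ⟨hkj, hJi, hka, hAi⟩
          · exact hq' a j ⟨hkj, hJi, hka, hAi⟩
        · rcases hA with ⟨hAi, hJi⟩ | ⟨hAi, hJi⟩
          · exact hp' a j ⟨hkj, hJi, hka, hAi⟩
          · exact hq a j ⟨hkj, hJi, hka, hAi⟩
      -- one extra vector
      by_cases hJi : i.val < j ∧ a ≤ (v i).val
      · refine ⟨{Pi.single i' 1}, by simpa using hgt, ?_⟩
        have hu : (Pi.single i' 1 : Fin n → ℂ) ∈ Submodule.span ℂ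
          ((tcol v x a '' {c' : Fin n | c'.val < j ∧ a ≤ (v c').val}) ∪
            (({Pi.single i' 1} : Finset (Fin n → ℂ)) : Set (Fin n → ℂ))) :=
          Submodule.subset_span (Or.inr (by simp))
        have hv := hpiv {Pi.single i' 1} i hik hik' hJi.1 hJi.2
        intro c hc hca
        by_cases hck : c = k
        · subst hck
          rw [hcolk a hca]
          exact Submodule.add_mem _ (Submodule.smul_mem _ _ hv) (Submodule.smul_mem _ _ hu)
        · by_cases hck' : c = k'
          · subst hck'
            rw [hcolk' a hca]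
            exact Submodule.add_mem _ (Submodule.smul_mem _ _ hv) (Submodule.smul_mem _ _ hu)
          · rw [B2b (hoth c hck hck') hca]
            exact Submodule.zero_mem _
      · by_cases hJi' : i'.val < j ∧ a ≤ (v i').val
        · refine ⟨{Pi.single i 1}, by simpa using hgt, ?_⟩
          have hu : (Pi.single i 1 : Fin n → ℂ) ∈ Submodule.span ℂ
            ((tcol v x a '' {c' : Fin n | c'.val < j ∧ a ≤ (v c').val}) ∪
              (({Pi.single i 1} : Finset (Fin n → ℂ)) : Set (Fin n → ℂ))) :=
            Submodule.subset_span (Or.inr (by simp))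
          have hv := hpiv {Pi.single i 1} i' hi'k hi'k' hJi'.1 hJi'.2
          intro c hc hca
          by_cases hck : c = k
          · subst hck
            rw [hcolk a hca]
            exact Submodule.add_mem _ (Submodule.smul_mem _ _ hu) (Submodule.smul_mem _ _ hv)
          · by_cases hck' : c = k'
            · subst hck'
              rw [hcolk' a hca]
              exact Submodule.add_mem _ (Submodule.smul_mem _ _ hu) (Submodule.smul_mem _ _ hv)
            · rw [B2b (hoth c hck hck') hca]
              exact Submodule.zero_mem _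
        · set u : Fin n → ℂ := (if a ≤ (v i).val then α else 0) • (Pi.single i 1 : Fin n → ℂ) +
            (if a ≤ (v i').val then β else 0) • (Pi.single i' 1 : Fin n → ℂ) with hudef
          refine ⟨{u}, by simpa using hgt, ?_⟩
          have hu : u ∈ Submodule.span ℂ
            ((tcol v x a '' {c' : Fin n | c'.val < j ∧ a ≤ (v c').val}) ∪
              (({u} : Finset (Fin n → ℂ)) : Set (Fin n → ℂ))) :=
            Submodule.subset_span (Or.inr (by simp))
          intro c hc hca
          by_cases hck : c = k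
          · subst hck
            have : tcol v x a c = l • u := by
              rw [hcolk a hca, hudef, smul_add, smul_smul, smul_smul, e1, e4, mul_ite, mul_ite,
                mul_zero]
            rw [this]
            exact Submodule.smul_mem _ _ hu
          · by_cases hck' : c = k'
            · subst hck'
              have : tcol v x a c = m • u := by
                rw [hcolk' a hca, hudef, smul_add, smul_smul, smul_smul, e3, e2, mul_ite, mul_ite,
                  mul_zero]
              rw [this]
              exact Submodule.smul_mem _ _ hu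
            · rw [B2b (hoth c hck hck') hca]
              exact Submodule.zero_mem _
    · push Not at hA
      refine ⟨∅, by simpa using hle, ?_⟩
      have hv : ∀ s : ℂ, (if a ≤ (v i).val then s else 0) • (Pi.single i 1 : Fin n → ℂ) ∈
          Submodule.span ℂ ((tcol v x a '' {c' : Fin n | c'.val < j ∧ a ≤ (v c').val}) ∪
            ((∅ : Finset (Fin n → ℂ)) : Set (Fin n → ℂ))) := by
        intro s
        split_ifs with h
        · exact Submodule.smul_mem _ _ (hpiv ∅ i hik hik' (hA.1 h) h)
        · rw [zero_smul]; exact Submodule.zero_mem _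
      have hv' : ∀ s : ℂ, (if a ≤ (v i').val then s else 0) • (Pi.single i' 1 : Fin n → ℂ) ∈
          Submodule.span ℂ ((tcol v x a '' {c' : Fin n | c'.val < j ∧ a ≤ (v c').val}) ∪
            ((∅ : Finset (Fin n → ℂ)) : Set (Fin n → ℂ))) := by
        intro s
        split_ifs with h
        · exact Submodule.smul_mem _ _ (hpiv ∅ i' hi'k hi'k' (hA.2 h) h)
        · rw [zero_smul]; exact Submodule.zero_mem _
      intro c hc hca
      by_cases hck : c = k
      · subst hck
        rw [hcolk a hca]
        exact Submodule.add_mem _ (hv _) (hv' _)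
      · by_cases hck' : c = k'
        · subst hck'
          rw [hcolk' a hca]
          exact Submodule.add_mem _ (hv _) (hv' _)
        · rw [B2b (hoth c hck hck') hca]
          exact Submodule.zero_mem _
  · refine ⟨∅, by simpa using hle, ?_⟩
    intro c hc hca
    have hck : c ≠ k := by
      rintro rfl
      exact hK (Or.inl ⟨hc, hca⟩)
    have hck' : c ≠ k' := by
      rintro rfl
      exact hK (Or.inr ⟨hc, hca⟩)
    rw [B2b (hoth c hck hck') hca]
    exact Submodule.zero_mem _

end HQ
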