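import Pool.Agent.LibHQ4.B2

/-!
# Row C6 (MEDIUM): two chains with the same ends, middles `k < k'` with `v k' < v k`

Positions `l < k < k' < i`, values `v l < v k' < v k < v i`; `p = (i,k)`, `q = (k,l)`, `p' = (i,k')`,
`q' = (k',l)` all in `T`; no tight box in the centre `k < j ≤ k'`, `v k' < a ≤ v k`. Coordinates
`s₁, s₂, s₃, s₄` with `s₁ s₂ + s₃ s₄ = 0`, all others 0.

PLAN. `B1`, notation as in C1.lean. Columns with entries: `l`: `e_l + s₂ e_k + s₄ e_k'`;
`k`: `e_k + s₁ e_i`; `k'`: `e_k' + s₃ e_i`. (`e_i` is a pivot column if `i < j`, `a ≤ v i`.)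
Fix `(a,j)`; truncated columns with value `< a`:
* `j ≤ k`: only column `l` (if `l < j`, `v l < a`): `Z = {tcol l}`, nonzero only if `a ≤ v k`: rectangle of `q`.
* `k < j ≤ k'`: `v l < a ≤ v k'`: `tcol l`, pivot `k`: `Z = {tcol l}`, rectangle of `q'`.
  `v k' < a ≤ v k`: `tcol l = s₂ e_k`: `Z = {tcol l}`, centre box. `v k < a ≤ v i`: `tcol k = s₁ e_i`,
  `tcol l = 0`: `Z = {tcol k}`, rectangle of `p`.
* `k' < j ≤ i`: `v l < a ≤ v k'`: `tcol l = s₂ tcol k + s₄ tcol k'` because `s₂ s₁ + s₄ s₃ = 0`: nothing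
  needed. `v k' < a ≤ v k`: `tcol l = s₂ e_k`, `tcol k = e_k + s₁ e_i` pivot, `tcol k' = s₃ e_i`:
  `Z = {e_i}` (then `e_k` is in the span), rectangle of `p'`. `v k < a ≤ v i`: `tcol k, tcol k'` multiples
  of `e_i`, `tcol l = 0`: `Z = {e_i}`, rectangle of `p`.
* `i < j`, `a ≤ v i`: `e_i` is a pivot column, all the missing vectors are in the span of the pivots:
  `v l < a ≤ v k'` as above; `v k' < a ≤ v k`: `e_k = tcol k - s₁ e_i`; etc.
* `v i < a`: all truncated columns of `l, k, k'` are 0. `a ≤ v l`: nothing to show for `l, k, k'`.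
All other columns `c` with value `< a` are 0 (`B2b`).
-/

set_option autoImplicit false

namespace HQ

open SH MvPolynomial

variable {n : ℕ}

private theorem C6_col {v : Equiv.Perm (Fin n)} {x : Lo n → ℂ} {c : Fin n} (y : Fin n → ℂ)
    (h0 : ∀ b, b < c → y b = 0) (h1 : y c = 0)
    (hx : ∀ (b : Fin n) (h : c < b), x ⟨(b, c), h⟩ = y b) (a : ℕ) (b : Fin n) :
    tcol v x a c b =
      (if a ≤ (v c).val then (Pi.single c 1 : Fin n → ℂ) b else 0) +
        (if a ≤ (v b).val then y b else 0) := by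
  rw [B2c]
  rcases lt_trichotomy c b with h | h | h
  · rw [dif_pos h, hx b h, Pi.single_eq_of_ne (ne_of_gt h)]
    simp
  · subst h
    rw [dif_neg (lt_irrefl _), if_pos rfl, Pi.single_eq_same, h1]
    simp
  · rw [dif_neg (not_lt_of_gt h), if_neg (ne_of_lt h), Pi.single_eq_of_ne (ne_of_lt h), h0 b h]
    simp

private theorem C6_main {v w : Equiv.Perm (Fin n)} (hvw : v ≤ w) {l k k' i : Fin n} (hlk : l < k)
    (hkk : k < k') (hki : k' < i) (vl : v l < v k') (vk : v k' < v k) (vi : v k < v i)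
    (hp : ∀ a j : ℕ, k.val < j → j ≤ i.val → (v k).val < a → a ≤ (v i).val → rr v a j < rr w a j)
    (hq : ∀ a j : ℕ, l.val < j → j ≤ k.val → (v l).val < a → a ≤ (v k).val → rr v a j < rr w a j)
    (hp' : ∀ a j : ℕ, k'.val < j → j ≤ i.val → (v k').val < a → a ≤ (v i).val →
      rr v a j < rr w a j)
    (hq' : ∀ a j : ℕ, l.val < j → j ≤ k'.val → (v l).val < a → a ≤ (v k').val →
      rr v a j < rr w a j)
    (hc : ∀ a j : ℕ, k.val < j → j ≤ k'.val → (v k').val < a → a ≤ (v k).val →
      rr v a j < rr w a j)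
    (s₁ s₂ s₃ s₄ : ℂ) (hs : s₁ * s₂ + s₃ * s₄ = 0) (x : Lo n → ℂ)
    (tl : ∀ a : ℕ, (v l).val < a → tcol v x a l =
      (if a ≤ (v k).val then s₂ • (Pi.single k 1 : Fin n → ℂ) else 0) +
        (if a ≤ (v k').val then s₄ • (Pi.single k' 1 : Fin n → ℂ) else 0))
    (tk : ∀ a : ℕ, tcol v x a k =
      (if a ≤ (v k).val then (Pi.single k 1 : Fin n → ℂ) else 0) +
        (if a ≤ (v i).val then s₁ • (Pi.single i 1 : Fin n → ℂ) else 0))
    (tk' : ∀ a : ℕ, tcol v x a k' =
      (if a ≤ (v k').val then (Pi.single k' 1 : Fin n → ℂ) else 0) +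
        (if a ≤ (v i).val then s₃ • (Pi.single i 1 : Fin n → ℂ) else 0))
    (ti : ∀ a : ℕ, a ≤ (v i).val → tcol v x a i = (Pi.single i 1 : Fin n → ℂ))
    (tz : ∀ (a : ℕ) (c : Fin n), c ≠ l → c ≠ k → c ≠ k' → (v c).val < a → tcol v x a c = 0) :
    x ∈ Cl v w := by
  have hlk1 : l.val < k.val := hlk
  have hkk1 : k.val < k'.val := hkk
  have hki1 : k'.val < i.val := hki
  have vl1 : (v l).val < (v k').val := vl
  have vk1 : (v k').val < (v k).val := vk
  have vi1 : (v k).val < (v i).val := vi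
  have hle : ∀ a j : ℕ, rr v a j ≤ rr w a j := le_def.1 hvw
  refine B1 fun a _ j _ => ?_
  -- reduction to the three columns
  have red : ∀ Z : Finset (Fin n → ℂ), rr v a j + Z.card ≤ rr w a j →
      (l.val < j → (v l).val < a → tcol v x a l ∈ Submodule.span ℂ
        ((tcol v x a '' {c' : Fin n | c'.val < j ∧ a ≤ (v c').val}) ∪ (Z : Set (Fin n → ℂ)))) →
      (k.val < j → (v k).val < a → tcol v x a k ∈ Submodule.span ℂ
        ((tcol v x a '' {c' : Fin n | c'.val < j ∧ a ≤ (v c').val}) ∪ (Z : Set (Fin n → ℂ)))) →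
      (k'.val < j → (v k').val < a → tcol v x a k' ∈ Submodule.span ℂ
        ((tcol v x a '' {c' : Fin n | c'.val < j ∧ a ≤ (v c').val}) ∪ (Z : Set (Fin n → ℂ)))) →
      ∃ Z : Finset (Fin n → ℂ), rr v a j + Z.card ≤ rr w a j ∧
        ∀ c : Fin n, c.val < j → (v c).val < a →
          tcol v x a c ∈ Submodule.span ℂ
            ((tcol v x a '' {c' : Fin n | c'.val < j ∧ a ≤ (v c').val}) ∪
              (Z : Set (Fin n → ℂ))) := by
    intro Z h1 h2 h3 h4
    refine ⟨Z, h1, fun c hcj hca => ?_⟩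
    by_cases c1 : c = l
    · subst c1; exact h2 hcj hca
    by_cases c2 : c = k
    · subst c2; exact h3 hcj hca
    by_cases c3 : c = k'
    · subst c3; exact h4 hcj hca
    rw [tz a c c1 c2 c3 hca]
    exact Submodule.zero_mem _
  have piv : ∀ (Z : Finset (Fin n → ℂ)) (c : Fin n), c.val < j → a ≤ (v c).val →
      tcol v x a c ∈ Submodule.span ℂ
        ((tcol v x a '' {c' : Fin n | c'.val < j ∧ a ≤ (v c').val}) ∪
          (Z : Set (Fin n → ℂ))) := fun Z c h1 h2 =>
    Submodule.subset_span (Or.inl ⟨c, ⟨h1, h2⟩, rfl⟩)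
  have inZ : ∀ y : Fin n → ℂ, y ∈ Submodule.span ℂ
        ((tcol v x a '' {c' : Fin n | c'.val < j ∧ a ≤ (v c').val}) ∪
          (({y} : Finset (Fin n → ℂ)) : Set (Fin n → ℂ))) := fun y =>
    Submodule.subset_span (Or.inr (by simp))
  have c0 : rr v a j + (∅ : Finset (Fin n → ℂ)).card ≤ rr w a j := by
    rw [Finset.card_empty]; exact hle a j
  have c1 : ∀ y : Fin n → ℂ, rr v a j < rr w a j →
      rr v a j + ({y} : Finset (Fin n → ℂ)).card ≤ rr w a j := by
    intro y h
    rw [Finset.card_singleton]; exact h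
  rcases le_or_gt a (v l).val with a0 | a0
  · exact red ∅ c0 (fun _ h => by omega) (fun _ h => by omega) (fun _ h => by omega)
  rcases le_or_gt a (v k').val with a1 | a1
  · -- `v l < a ≤ v k'`
    have e1 : a ≤ (v k).val := by omega
    have e2 : a ≤ (v i).val := by omega
    rcases le_or_gt j l.val with j0 | j0
    · exact red ∅ c0 (fun h _ => by omega) (fun _ h => by omega) (fun _ h => by omega)
    rcases le_or_gt j k'.val with j1 | j1
    · exact red {tcol v x a l} (c1 _ (hq' a j j0 j1 a0 a1)) (fun _ _ => inZ _)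
        (fun _ h => by omega) (fun _ h => by omega)
    · refine red ∅ c0 (fun _ _ => ?_) (fun _ h => by omega) (fun _ h => by omega)
      have h1 : tcol v x a l = s₂ • tcol v x a k + s₄ • tcol v x a k' := by
        rw [tl a a0, tk, tk', if_pos e1, if_pos e1, if_pos e2, if_pos a1, if_pos a1, if_pos e2]
        have h2 : s₂ • s₁ • (Pi.single i 1 : Fin n → ℂ) + s₄ • s₃ • (Pi.single i 1 : Fin n → ℂ)
            = 0 := by
          rw [smul_smul, smul_smul, ← add_smul]
          have h3 : s₂ * s₁ + s₄ * s₃ = 0 := by linear_combination hs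
          rw [h3, zero_smul]
        have h4 : s₂ • ((Pi.single k 1 : Fin n → ℂ) + s₁ • (Pi.single i 1 : Fin n → ℂ)) +
            s₄ • ((Pi.single k' 1 : Fin n → ℂ) + s₃ • (Pi.single i 1 : Fin n → ℂ)) =
            s₂ • (Pi.single k 1 : Fin n → ℂ) + s₄ • (Pi.single k' 1 : Fin n → ℂ) +
            (s₂ • s₁ • (Pi.single i 1 : Fin n → ℂ) +
              s₄ • s₃ • (Pi.single i 1 : Fin n → ℂ)) := by
          rw [smul_add, smul_add]; abel
        rw [h4, h2, add_zero]
      rw [h1]
      exact Submodule.add_mem _ (Submodule.smul_mem _ _ (piv ∅ k (by omega) e1))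
        (Submodule.smul_mem _ _ (piv ∅ k' j1 a1))
  rcases le_or_gt a (v k).val with a2 | a2
  · -- `v k' < a ≤ v k`
    have e2 : a ≤ (v i).val := by omega
    have e3 : ¬ a ≤ (v k').val := by omega
    rcases le_or_gt j l.val with j0 | j0
    · exact red ∅ c0 (fun h _ => by omega) (fun _ h => by omega) (fun h _ => by omega)
    rcases le_or_gt j k.val with j1 | j1
    · exact red {tcol v x a l} (c1 _ (hq a j j0 j1 a0 a2)) (fun _ _ => inZ _)
        (fun _ h => by omega) (fun h _ => by omega)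
    rcases le_or_gt j k'.val with j2 | j2
    · exact red {tcol v x a l} (c1 _ (hc a j j1 j2 a1 a2)) (fun _ _ => inZ _)
        (fun _ h => by omega) (fun h _ => by omega)
    have key : ∀ Z : Finset (Fin n → ℂ), (Pi.single i 1 : Fin n → ℂ) ∈ Submodule.span ℂ
          ((tcol v x a '' {c' : Fin n | c'.val < j ∧ a ≤ (v c').val}) ∪
            (Z : Set (Fin n → ℂ))) → rr v a j + Z.card ≤ rr w a j →
        ∃ Z : Finset (Fin n → ℂ), rr v a j + Z.card ≤ rr w a j ∧
          ∀ c : Fin n, c.val < j → (v c).val < a →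
            tcol v x a c ∈ Submodule.span ℂ
              ((tcol v x a '' {c' : Fin n | c'.val < j ∧ a ≤ (v c').val}) ∪
                (Z : Set (Fin n → ℂ))) := by
      intro Z hZ hcard
      refine red Z hcard (fun _ _ => ?_) (fun _ h => by omega) (fun _ _ => ?_)
      · have h1 : tcol v x a l = s₂ • (tcol v x a k - s₁ • (Pi.single i 1 : Fin n → ℂ)) := by
          rw [tl a a0, tk, if_pos a2, if_pos a2, if_pos e2, if_neg e3, add_zero,
            add_sub_cancel_right]
        rw [h1]
        exact Submodule.smul_mem _ _ (Submodule.sub_mem _ (piv Z k j1 a2)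
          (Submodule.smul_mem _ _ hZ))
      · rw [tk', if_neg e3, if_pos e2, zero_add]
        exact Submodule.smul_mem _ _ hZ
    rcases le_or_gt j i.val with j3 | j3
    · exact key {Pi.single i 1} (inZ _) (c1 _ (hp' a j j2 j3 a1 e2))
    · refine key ∅ ?_ c0
      have h := piv ∅ i j3 e2
      rwa [ti a e2] at h
  have e3 : ¬ a ≤ (v k').val := by omega
  have e4 : ¬ a ≤ (v k).val := by omega
  have l0 : tcol v x a l = 0 := by
    rw [tl a a0, if_neg e3, if_neg e4, add_zero]
  rcases le_or_gt a (v i).val with a3 | a3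
  · -- `v k < a ≤ v i`
    have key : ∀ Z : Finset (Fin n → ℂ), (Pi.single i 1 : Fin n → ℂ) ∈ Submodule.span ℂ
          ((tcol v x a '' {c' : Fin n | c'.val < j ∧ a ≤ (v c').val}) ∪
            (Z : Set (Fin n → ℂ))) → rr v a j + Z.card ≤ rr w a j →
        ∃ Z : Finset (Fin n → ℂ), rr v a j + Z.card ≤ rr w a j ∧
          ∀ c : Fin n, c.val < j → (v c).val < a →
            tcol v x a c ∈ Submodule.span ℂ
              ((tcol v x a '' {c' : Fin n | c'.val < j ∧ a ≤ (v c').val}) ∪
                (Z : Set (Fin n → ℂ))) := by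
      intro Z hZ hcard
      refine red Z hcard (fun _ _ => ?_) (fun _ _ => ?_) (fun _ _ => ?_)
      · rw [l0]; exact Submodule.zero_mem _
      · rw [tk, if_neg e4, if_pos a3, zero_add]
        exact Submodule.smul_mem _ _ hZ
      · rw [tk', if_neg e3, if_pos a3, zero_add]
        exact Submodule.smul_mem _ _ hZ
    rcases le_or_gt j k.val with j1 | j1
    · refine red ∅ c0 (fun _ _ => ?_) (fun h _ => by omega) (fun h _ => by omega)
      rw [l0]; exact Submodule.zero_mem _
    rcases le_or_gt j i.val with j3 | j3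
    · exact key {Pi.single i 1} (inZ _) (c1 _ (hp a j j1 j3 a2 a3))
    · refine key ∅ ?_ c0
      have h := piv ∅ i j3 a3
      rwa [ti a a3] at h
  have e5 : ¬ a ≤ (v i).val := by omega
  refine red ∅ c0 (fun _ _ => ?_) (fun _ _ => ?_) (fun _ _ => ?_)
  · rw [l0]; exact Submodule.zero_mem _
  · rw [tk, if_neg e4, if_neg e5, add_zero]
    exact Submodule.zero_mem _
  · rw [tk', if_neg e3, if_neg e5, add_zero]
    exact Submodule.zero_mem _

theorem C6 {v w : Equiv.Perm (Fin n)} (hvw : v ≤ w) {l k k' i : Fin n} (hlk : l < k) (hkk : k < k')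
    (hki : k' < i) (vl : v l < v k') (vk : v k' < v k) (vi : v k < v i)
    {p q p' q' : Lo n} (ep : p.1 = (i, k)) (eq : q.1 = (k, l)) (ep' : p'.1 = (i, k'))
    (eq' : q'.1 = (k', l)) (hp : InT v w p) (hq : InT v w q) (hp' : InT v w p')
    (hq' : InT v w q')
    (hc : ∀ a j : ℕ, k.val < j → j ≤ k'.val → (v k').val < a → a ≤ (v k).val →
      rr v a j < rr w a j)
    (s₁ s₂ s₃ s₄ : ℂ) (hs : s₁ * s₂ + s₃ * s₄ = 0) :
    (fun r => if r = p then s₁ else if r = q then s₂ else if r = p' then s₃ else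
      if r = q' then s₄ else 0) ∈ Cl v w := by
  have hxv : ∀ r : Lo n, (if r = p then s₁ else if r = q then s₂ else if r = p' then s₃ else
      if r = q' then s₄ else 0) = if r.1 = (i, k) then s₁ else if r.1 = (k, l) then s₂ else
      if r.1 = (i, k') then s₃ else if r.1 = (k', l) then s₄ else 0 := by
    intro r
    simp only [← ep, ← eq, ← ep', ← eq', Subtype.ext_iff]
  have hfun : (fun r => if r = p then s₁ else if r = q then s₂ else if r = p' then s₃ else
      if r = q' then s₄ else 0) = fun r : Lo n => if r.1 = (i, k) then s₁ else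
      if r.1 = (k, l) then s₂ else if r.1 = (i, k') then s₃ else if r.1 = (k', l) then s₄ else 0 :=
    funext hxv
  rw [hfun]
  have nlk : l ≠ k := ne_of_lt hlk
  have nkk : k ≠ k' := ne_of_lt hkk
  have nki : k' ≠ i := ne_of_lt hki
  have nlk' : l ≠ k' := ne_of_lt (hlk.trans hkk)
  have nli : l ≠ i := ne_of_lt ((hlk.trans hkk).trans hki)
  have nki' : k ≠ i := ne_of_lt (hkk.trans hki)
  refine C6_main hvw hlk hkk hki vl vk vi ?_ ?_ ?_ ?_ hc s₁ s₂ s₃ s₄ hs _ ?_ ?_ ?_ ?_ ?_
  · intro a j h1 h2 h3 h4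
    refine hp a j ?_
    rw [Act, ep]
    exact ⟨h1, h2, h3, h4⟩
  · intro a j h1 h2 h3 h4
    refine hq a j ?_
    rw [Act, eq]
    exact ⟨h1, h2, h3, h4⟩
  · intro a j h1 h2 h3 h4
    refine hp' a j ?_
    rw [Act, ep']
    exact ⟨h1, h2, h3, h4⟩
  · intro a j h1 h2 h3 h4
    refine hq' a j ?_
    rw [Act, eq']
    exact ⟨h1, h2, h3, h4⟩
  · intro a ha
    funext b
    rw [C6_col (c := l) (fun b => if b = k then s₂ else if b = k' then s₄ else 0)
      (fun b hb => by
        rw [if_neg (ne_of_lt (hb.trans hlk)), if_neg (ne_of_lt (hb.trans (hlk.trans hkk)))])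
      (by rw [if_neg nlk, if_neg nlk'])
      (fun b hb => by simp [Prod.ext_iff, nlk, nlk', nlk.symm, nlk'.symm]) a b]
    rw [if_neg (not_le_of_gt ha), zero_add]
    by_cases hb : b = k
    · subst hb
      simp [ite_apply, nkk]
    · by_cases hb' : b = k'
      · subst hb'
        simp [ite_apply, hb]
      · simp [ite_apply, hb, hb']
  · intro a
    funext b
    rw [C6_col (c := k) (fun b => if b = i then s₁ else 0)
      (fun b hb => by rw [if_neg (ne_of_lt (hb.trans (hkk.trans hki)))])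
      (by rw [if_neg nki'])
      (fun b hb => by simp [Prod.ext_iff, nlk, nkk, nlk.symm, nkk.symm]) a b]
    by_cases hb : b = i
    · subst hb
      simp [ite_apply, nki'.symm]
    · by_cases hb' : b = k
      · subst hb'
        simp [ite_apply, hb]
      · simp [ite_apply, hb, hb']
  · intro a
    funext b
    rw [C6_col (c := k') (fun b => if b = i then s₃ else 0)
      (fun b hb => by rw [if_neg (ne_of_lt (hb.trans hki))])
      (by rw [if_neg nki])
      (fun b hb => by simp [Prod.ext_iff, nlk', nkk, nlk'.symm, nkk.symm]) a b]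
    by_cases hb : b = i
    · subst hb
      simp [ite_apply, nki.symm]
    · by_cases hb' : b = k'
      · subst hb'
        simp [ite_apply, hb]
      · simp [ite_apply, hb, hb']
  · intro a ha
    refine B2a (fun r hr => ?_) ha
    simp [Prod.ext_iff, hr, nki'.symm, nki.symm, nli.symm]
  · intro a c h1 h2 h3 ha
    refine B2b (fun r hr => ?_) ha
    simp [Prod.ext_iff, hr, h1, h2, h3]

end HQ
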