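import Pool.Agent.LibHQ4.B2

/-!
# Row C7 (MEDIUM): two chains with the same ends, comparable middles, first curve

Positions `l < k' < k < i`, values `v l < v k' < v k < v i`; `p = (i,k)`, `q = (k,l)`, `p' = (i,k')`,
`q' = (k',l)` all in `T`, `r₁ = (k,k')`. Coordinates `x_p = α`, `x_r₁ = ρ`, `x_p' = α ρ`, `x_q' = δ`,
all others 0 (in particular `x_q = 0`).

PLAN. `B1`, notation as in C1.lean. Columns with entries: `l`: `e_l + δ e_k'`;
`k`: `e_k + α e_i`; `k'`: `e_k' + ρ (e_k + α e_i)` = `e_k' + ρ • (column k)`.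
Fix `(a,j)`; columns `l, k, k'` with position `< j` and value `< a`:
* `l < j ≤ k'`: only `l`: `tcol l = δ e_k'` if `a ≤ v k'` (rectangle of `q'`), else 0.
* `k' < j ≤ k`: `v l < a ≤ v k'`: `Z = {tcol l}` (rectangle of `q` = `(k,l)`). `v k' < a`: `tcol l = 0`,
  `tcol k' = ρ [a ≤ v k] e_k + α ρ [a ≤ v i] e_i`: `Z = {tcol k'}`, rectangle of `p'` if nonzero.
* `k < j ≤ i`: `v l < a ≤ v k'`: `tcol l = δ e_k'` and `e_k' = tcol k' - ρ tcol k` is in the span of the pivots.
  `v k' < a ≤ v k`: `tcol l = 0`, `tcol k' = ρ tcol k`, `k` pivot: nothing. `v k < a ≤ v i`: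
  `tcol k = α e_i`, `tcol k' = α ρ e_i`: `Z = {e_i}`, rectangle of `p`. `v i < a`: all 0.
* `i < j`: the same with the pivot column `e_i` (if `a ≤ v i`): nothing needed.
All other columns `c` with value `< a` are 0 (`B2b`).
-/

set_option autoImplicit false

namespace HQ

open SH MvPolynomial

variable {n : ℕ}

/-- the columns of the point -/
private theorem C7_col (v : Equiv.Perm (Fin n)) {l k k' i : Fin n} (hlk : l < k') (hkk : k' < k)
    (hki : k < i) {p p' q' r₁ : Lo n} (ep : p.1 = (i, k)) (ep' : p'.1 = (i, k'))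
    (eq' : q'.1 = (k', l)) (er : r₁.1 = (k, k')) (α ρ δ : ℂ) (a : ℕ) (x : Lo n → ℂ)
    (hx : x = fun r => if r = p then α else if r = r₁ then ρ else if r = p' then α * ρ else
      if r = q' then δ else 0) :
    (tcol v x a l = (if a ≤ (v l).val then Pi.single l 1 else 0) +
      (if a ≤ (v k').val then δ • Pi.single k' (1 : ℂ) else 0)) ∧
    (tcol v x a k = (if a ≤ (v k).val then Pi.single k 1 else 0) +
      (if a ≤ (v i).val then α • Pi.single i (1 : ℂ) else 0)) ∧
    (tcol v x a k' = (if a ≤ (v k').val then Pi.single k' 1 else 0) +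
      (if a ≤ (v k).val then ρ • Pi.single k (1 : ℂ) else 0) +
      (if a ≤ (v i).val then (α * ρ) • Pi.single i (1 : ℂ) else 0)) ∧
    (∀ c, c ≠ l → c ≠ k → c ≠ k' → ∀ r : Lo n, r.1.2 = c → x r = 0) := by
  have e1 : ∀ (b c : Fin n) (h : c < b), (⟨(b, c), h⟩ : Lo n) = p ↔ b = i ∧ c = k := by
    intro b c h
    rw [Subtype.ext_iff, ep, Prod.mk.injEq]
  have e2 : ∀ (b c : Fin n) (h : c < b), (⟨(b, c), h⟩ : Lo n) = p' ↔ b = i ∧ c = k' := by
    intro b c h
    rw [Subtype.ext_iff, ep', Prod.mk.injEq]
  have e3 : ∀ (b c : Fin n) (h : c < b), (⟨(b, c), h⟩ : Lo n) = q' ↔ b = k' ∧ c = l := by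
    intro b c h
    rw [Subtype.ext_iff, eq', Prod.mk.injEq]
  have e4 : ∀ (b c : Fin n) (h : c < b), (⟨(b, c), h⟩ : Lo n) = r₁ ↔ b = k ∧ c = k' := by
    intro b c h
    rw [Subtype.ext_iff, er, Prod.mk.injEq]
  have h1 := hlk.ne
  have h2 := hkk.ne
  have h3 := hki.ne
  have h4 := (hlk.trans hkk).ne
  have h5 := (hkk.trans hki).ne
  have h6 := (hlk.trans (hkk.trans hki)).ne
  refine ⟨?_, ?_, ?_, ?_⟩
  · funext b
    rw [B2c, hx]
    simp only [e1, e2, e3, e4]
    by_cases hb1 : b = l
    · subst hb1
      simp [h1, h4, h1.symm, h4.symm]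
      split_ifs <;> simp [Pi.single_apply, h1, h4]
    · by_cases hb2 : b = k'
      · subst hb2
        simp [h1, h2, hlk, hb1, h4, h5]
        split_ifs <;> simp [Pi.single_apply, h1, h4, hb1]
      · simp [h1, h4, hb1, hb2]
        split_ifs <;> simp [Pi.single_apply, hb1, hb2]
  · funext b
    rw [B2c, hx]
    simp only [e1, e2, e3, e4]
    by_cases hb1 : b = k
    · subst hb1
      simp [h3]
      split_ifs <;> simp [Pi.single_apply, h3]
    · by_cases hb2 : b = i
      · subst hb2
        simp [hki, hb1]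
        split_ifs <;> simp [Pi.single_apply, hb1]
      · simp [hb1, hb2, h2.symm, h4.symm]
        split_ifs <;> simp [Pi.single_apply, hb1, hb2]
  · funext b
    rw [B2c, hx]
    simp only [e1, e2, e3, e4]
    by_cases hb1 : b = k'
    · subst hb1
      simp [h2, h5]
      split_ifs <;> simp [Pi.single_apply, h2, h5]
    · by_cases hb2 : b = k
      · subst hb2
        simp [hkk, hb1, h3, h2]
        split_ifs <;> simp [Pi.single_apply, hb1, h3]
      · by_cases hb3 : b = i
        · subst hb3
          simp [hkk.trans hki, hb1, hb2, h2]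
          split_ifs <;> simp [Pi.single_apply, hb1, hb2]
        · simp [hb1, hb2, hb3, h2, h1.symm]
          split_ifs <;> simp [Pi.single_apply, hb1, hb2, hb3]
  · rintro c c1 c2 c3 ⟨⟨b, c'⟩, hr⟩ hc
    simp only at hc
    subst hc
    rw [hx]
    simp only [e1, e2, e3, e4]
    simp [c1, c2, c3]

theorem C7 {v w : Equiv.Perm (Fin n)} (hvw : v ≤ w) {l k k' i : Fin n} (hlk : l < k') (hkk : k' < k)
    (hki : k < i) (vl : v l < v k') (vk : v k' < v k) (vi : v k < v i)
    {p q p' q' r₁ : Lo n} (ep : p.1 = (i, k)) (eq : q.1 = (k, l)) (ep' : p'.1 = (i, k'))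
    (eq' : q'.1 = (k', l)) (er : r₁.1 = (k, k')) (hp : InT v w p) (hq : InT v w q)
    (hp' : InT v w p') (hq' : InT v w q') (α ρ δ : ℂ) :
    (fun r => if r = p then α else if r = r₁ then ρ else if r = p' then α * ρ else
      if r = q' then δ else 0) ∈ Cl v w := by
  obtain ⟨x, hx⟩ : ∃ x : Lo n → ℂ, x = fun r => if r = p then α else if r = r₁ then ρ else
    if r = p' then α * ρ else if r = q' then δ else 0 := ⟨_, rfl⟩
  rw [← hx]
  refine B1 fun a ha j hj => ?_
  obtain ⟨tl, tk, tk', t0⟩ := C7_col v hlk hkk hki ep ep' eq' er α ρ δ a x hx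
  have ti : a ≤ (v i).val → tcol v x a i = Pi.single i 1 :=
    fun h => B2a (t0 i (hlk.trans (hkk.trans hki)).ne' hki.ne' (hkk.trans hki).ne') h
  have hle : rr v a j ≤ rr w a j := le_def.1 hvw a j
  have key : ∀ Z : Finset (Fin n → ℂ), rr v a j + Z.card ≤ rr w a j →
      (l.val < j → (v l).val < a → tcol v x a l ∈ Submodule.span ℂ
        ((tcol v x a '' {c' : Fin n | c'.val < j ∧ a ≤ (v c').val}) ∪ (Z : Set (Fin n → ℂ)))) →
      (k.val < j → (v k).val < a → tcol v x a k ∈ Submodule.span ℂ
        ((tcol v x a '' {c' : Fin n | c'.val < j ∧ a ≤ (v c').val}) ∪ (Z : Set (Fin n → ℂ)))) →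
      (k'.val < j → (v k').val < a → tcol v x a k' ∈ Submodule.span ℂ
        ((tcol v x a '' {c' : Fin n | c'.val < j ∧ a ≤ (v c').val}) ∪ (Z : Set (Fin n → ℂ)))) →
      ∃ Z : Finset (Fin n → ℂ), rr v a j + Z.card ≤ rr w a j ∧
      ∀ c : Fin n, c.val < j → (v c).val < a →
        tcol v x a c ∈ Submodule.span ℂ
          ((tcol v x a '' {c' : Fin n | c'.val < j ∧ a ≤ (v c').val}) ∪ (Z : Set (Fin n → ℂ))) := by
    intro Z hZ h1 h2 h3
    refine ⟨Z, hZ, fun c hc hva => ?_⟩
    by_cases c1 : c = l
    · subst c1; exact h1 hc hva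
    by_cases c2 : c = k
    · subst c2; exact h2 hc hva
    by_cases c3 : c = k'
    · subst c3; exact h3 hc hva
    rw [B2b (t0 c c1 c2 c3) hva]
    exact Submodule.zero_mem _
  have piv : ∀ (Z : Finset (Fin n → ℂ)) (c : Fin n), c.val < j → a ≤ (v c).val →
      tcol v x a c ∈ Submodule.span ℂ
        ((tcol v x a '' {c' : Fin n | c'.val < j ∧ a ≤ (v c').val}) ∪ (Z : Set (Fin n → ℂ))) :=
    fun Z c h1 h2 => Submodule.subset_span (Or.inl ⟨c, ⟨h1, h2⟩, rfl⟩)
  have inZ : ∀ (z : Fin n → ℂ), z ∈ Submodule.span ℂ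
        ((tcol v x a '' {c' : Fin n | c'.val < j ∧ a ≤ (v c').val}) ∪
          (({z} : Finset (Fin n → ℂ)) : Set (Fin n → ℂ))) :=
    fun z => Submodule.subset_span (Or.inr (by simp))
  have vl' : (v l).val < (v k').val := vl
  have vk'' : (v k').val < (v k).val := vk
  have vi' : (v k).val < (v i).val := vi
  have pl : l.val < k'.val := hlk
  have pk : k'.val < k.val := hkk
  have pi' : k.val < i.val := hki
  rcases le_or_gt a (v l).val with a1 | a1
  · -- nothing
    exact key ∅ (by simpa using hle) (fun _ h => absurd h (by omega)) (fun _ h => absurd h (by omega))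
      (fun _ h => absurd h (by omega))
  rcases le_or_gt a (v k').val with a2 | a2
  · -- `v l < a ≤ v k'`
    have etl : tcol v x a l = δ • Pi.single k' (1 : ℂ) := by
      rw [tl, if_neg (by omega), if_pos a2, zero_add]
    rcases le_or_gt j k.val with j1 | j1
    · rcases le_or_gt j l.val with j0 | j0
      · exact key ∅ (by simpa using hle) (fun h _ => absurd h (by omega))
          (fun _ h => absurd h (by omega)) (fun _ h => absurd h (by omega))
      · have hact : Act v q a j := by
          unfold Act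
          rw [eq]
          exact ⟨j0, j1, a1, by simp only; omega⟩
        have := hq a j hact
        refine key {Pi.single k' 1} (by rw [Finset.card_singleton]; omega) (fun _ _ => ?_)
          (fun _ h => absurd h (by omega)) (fun _ h => absurd h (by omega))
        rw [etl]
        exact Submodule.smul_mem _ _ (inZ _)
    · refine key ∅ (by simpa using hle) (fun _ _ => ?_)
          (fun _ h => absurd h (by omega)) (fun _ h => absurd h (by omega))
      have e5 : tcol v x a l = δ • tcol v x a k' - (δ * ρ) • tcol v x a k := by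
        rw [etl, tk', tk, if_pos a2, if_pos (by omega), if_pos (by omega), if_pos (by omega),
          if_pos (by omega)]
        simp only [smul_add, smul_smul]
        ring_nf
      rw [e5]
      exact Submodule.sub_mem _ (Submodule.smul_mem _ _ (piv ∅ k' (by omega) a2))
        (Submodule.smul_mem _ _ (piv ∅ k j1 (by omega)))
  have etl : tcol v x a l = 0 := by
    rw [tl, if_neg (by omega), if_neg (by omega), zero_add]
  have hzl : ∀ Z : Finset (Fin n → ℂ), tcol v x a l ∈ Submodule.span ℂ
        ((tcol v x a '' {c' : Fin n | c'.val < j ∧ a ≤ (v c').val}) ∪ (Z : Set (Fin n → ℂ))) :=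
    fun Z => by rw [etl]; exact Submodule.zero_mem _
  rcases le_or_gt a (v k).val with a3 | a3
  · -- `v k' < a ≤ v k`
    rcases le_or_gt j k.val with j1 | j1
    · rcases le_or_gt j k'.val with j0 | j0
      · exact key ∅ (by simpa using hle) (fun _ _ => hzl _)
          (fun _ h => absurd h (by omega)) (fun h _ => absurd h (by omega))
      · have hact : Act v p' a j := by
          unfold Act
          rw [ep']
          exact ⟨j0, by simp only; omega, a2, by simp only; omega⟩
        have := hp' a j hact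
        exact key {tcol v x a k'} (by rw [Finset.card_singleton]; omega) (fun _ _ => hzl _)
          (fun _ h => absurd h (by omega)) (fun _ _ => inZ _)
    · refine key ∅ (by simpa using hle) (fun _ _ => hzl _)
          (fun _ h => absurd h (by omega)) (fun _ _ => ?_)
      have e5 : tcol v x a k' = ρ • tcol v x a k := by
        rw [tk', tk, if_neg (by omega), if_pos (by omega), if_pos (by omega), if_pos (by omega),
          if_pos (by omega)]
        simp only [smul_add, smul_smul]
        ring_nf
      rw [e5]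
      exact Submodule.smul_mem _ _ (piv ∅ k j1 a3)
  rcases le_or_gt a (v i).val with a4 | a4
  · -- `v k < a ≤ v i`
    have etk : tcol v x a k = α • Pi.single i (1 : ℂ) := by
      rw [tk, if_neg (by omega), if_pos a4, zero_add]
    have etk' : tcol v x a k' = (α * ρ) • Pi.single i (1 : ℂ) := by
      rw [tk', if_neg (by omega), if_neg (by omega), if_pos a4, zero_add, zero_add]
    rcases le_or_gt j i.val with j1 | j1
    · rcases le_or_gt j k'.val with j0 | j0
      · exact key ∅ (by simpa using hle) (fun _ _ => hzl _)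
          (fun h _ => absurd h (by omega)) (fun h _ => absurd h (by omega))
      · have hact : Act v p' a j := by
          unfold Act
          rw [ep']
          exact ⟨j0, by simp only; omega, a2, by simp only; omega⟩
        have := hp' a j hact
        refine key {Pi.single i 1} (by rw [Finset.card_singleton]; omega) (fun _ _ => hzl _)
          (fun _ _ => ?_) (fun _ _ => ?_)
        · rw [etk]
          exact Submodule.smul_mem _ _ (inZ _)
        · rw [etk']
          exact Submodule.smul_mem _ _ (inZ _)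
    · refine key ∅ (by simpa using hle) (fun _ _ => hzl _) (fun _ _ => ?_) (fun _ _ => ?_)
      · rw [etk, ← ti a4]
        exact Submodule.smul_mem _ _ (piv ∅ i j1 a4)
      · rw [etk', ← ti a4]
        exact Submodule.smul_mem _ _ (piv ∅ i j1 a4)
  · -- `v i < a`
    refine key ∅ (by simpa using hle) (fun _ _ => hzl _) (fun _ _ => ?_) (fun _ _ => ?_)
    · rw [tk, if_neg (by omega), if_neg (by omega), zero_add]
      exact Submodule.zero_mem _
    · rw [tk', if_neg (by omega), if_neg (by omega), if_neg (by omega), zero_add, zero_add]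
      exact Submodule.zero_mem _

end HQ
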