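import Pool.Agent.LibHQ4.Defs

/-!
# Row D1 (MEDIUM): the coefficient of `t ^ N` along a monomial curve (only Mathlib)
-/

set_option autoImplicit false

namespace HQ

open MvPolynomial

theorem D1 {σ : Type} (f : MvPolynomial σ ℂ) (c : σ → ℂ) (e : σ → ℕ) (N : ℕ)
    (h : ∀ t : ℂ, eval (fun r => c r * t ^ e r) f = 0) :
    ∑ m ∈ f.support, (if (m.sum fun r k => k * e r) = N then
      coeff m f * m.prod (fun r k => c r ^ k) else 0) = 0 := by
  classical
  set P : Polynomial ℂ :=
    eval₂ Polynomial.C (fun r => Polynomial.C (c r) * Polynomial.X ^ e r) f with hP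
  have hev : ∀ t : ℂ, Polynomial.eval t P = 0 := by
    intro t
    rw [← h t, hP, eval₂_eq, Polynomial.eval_finset_sum, eval_eq]
    refine Finset.sum_congr rfl fun m _ => ?_
    rw [Polynomial.eval_mul, Polynomial.eval_C, Polynomial.eval_prod]
    congr 1
    refine Finset.prod_congr rfl fun i _ => ?_
    simp
  have hP0 : P = 0 := Polynomial.funext fun t => by rw [hev t, Polynomial.eval_zero]
  have hco : P.coeff N = 0 := by rw [hP0, Polynomial.coeff_zero]
  refine Eq.trans ?_ hco
  rw [hP, eval₂_eq, Polynomial.finset_sum_coeff]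
  refine Finset.sum_congr rfl fun m _ => ?_
  have h1 : ∏ i ∈ m.support, (Polynomial.C (c i) * Polynomial.X ^ e i) ^ m i =
      Polynomial.C (m.prod fun r k => c r ^ k) * Polynomial.X ^ (m.sum fun r k => k * e r) := by
    unfold Finsupp.prod Finsupp.sum
    rw [map_prod, ← Finset.prod_pow_eq_pow_sum, ← Finset.prod_mul_distrib]
    refine Finset.prod_congr rfl fun i _ => ?_
    rw [mul_pow, ← pow_mul, map_pow, mul_comm (e i) (m i)]
  rw [h1, ← mul_assoc, ← Polynomial.C_mul, Polynomial.coeff_C_mul_X_pow]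
  by_cases hN : (m.sum fun r k => k * e r) = N
  · rw [if_pos hN, if_pos hN.symm]
  · rw [if_neg hN, if_neg (fun h => hN h.symm)]

end HQ
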