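import Pool.Agent.LibHQ4.D1

/-!
# Rows D2 (MEDIUM): coefficient relations for a polynomial which vanishes on the curves

All by `D1` with suitable exponents; `c r = 0` outside the finitely many coordinates, so only the
monomials `m` supported there contribute (`m.prod (c ^ ·) = 0` if `m r > 0` and `c r = 0`), and the
exponents are chosen such that `∑ k e = N` has only the wanted solutions.
* `D2a`: `x_p = t` (`e p = 1`), `N = 1` and `N = 2`.
* `D2b`: `x_p = t^2`, `x_q = t^3`, `N = 5`: `2a + 3b = 5` only `(1,1)`.
* `D2c`: moreover `x_r = s t` = `t^5`: `2a + 3b + 5c = 5` only `(1,1,0), (0,0,1)`.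
(`coeff m f = 0` if `m ∉ f.support`, so the sum over the support can be replaced by the sum over the
solutions: e.g. show that the function of `m` vanishes except at these `m`,
`Finset.sum_subset`/`Finset.sum_eq_single`.) A general lemma for a finite set of coordinates
(`m = ∑ single`) is useful also for D3, D4.
-/

set_option autoImplicit false

namespace HQ

open MvPolynomial

variable {σ : Type} [DecidableEq σ]

private theorem D2_gen (f : MvPolynomial σ ℂ) (S : Finset σ) (e : σ → ℕ) (N : ℕ)
    (T : Finset (σ →₀ ℕ))
    (hT : ∀ m : σ →₀ ℕ, m ∈ T ↔ (m.support ⊆ S ∧ ∑ r ∈ S, m r * e r = N))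
    (h : ∀ t : ℂ, eval (fun r => if r ∈ S then t ^ e r else 0) f = 0) :
    ∑ m ∈ T, coeff m f = 0 := by
  classical
  have h1 := D1 f (fun r => if r ∈ S then 1 else 0) e N (by
    intro t
    refine Eq.trans ?_ (h t)
    congr 2
    funext r
    by_cases hr : r ∈ S
    · simp [hr]
    · simp [hr])
  have h2 : ∀ m ∈ f.support, (if (m.sum fun r k => k * e r) = N then
      coeff m f * m.prod (fun r k => (if r ∈ S then (1 : ℂ) else 0) ^ k) else 0) =
      if m ∈ T then coeff m f else 0 := by
    intro m _
    by_cases hm : m.support ⊆ S
    · have h3 : (m.sum fun r k => k * e r) = ∑ r ∈ S, m r * e r :=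
        Finsupp.sum_of_support_subset m hm _ (by simp)
      have h4 : m.prod (fun r k => (if r ∈ S then (1 : ℂ) else 0) ^ k) = 1 := by
        rw [Finsupp.prod]
        apply Finset.prod_eq_one
        intro r hr
        simp [hm hr]
      rw [h3, h4, mul_one]
      by_cases h5 : ∑ r ∈ S, m r * e r = N
      · rw [if_pos h5, if_pos ((hT m).2 ⟨hm, h5⟩)]
      · rw [if_neg h5, if_neg (fun h6 => h5 ((hT m).1 h6).2)]
    · have h3 : ∃ r ∈ m.support, r ∉ S := by
        by_contra hcon
        push Not at hcon
        exact hm hcon
      obtain ⟨r, hr, hrS⟩ := h3
      have h4 : m.prod (fun r k => (if r ∈ S then (1 : ℂ) else 0) ^ k) = 0 := by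
        rw [Finsupp.prod]
        apply Finset.prod_eq_zero hr
        rw [if_neg hrS]
        exact zero_pow (Finsupp.mem_support_iff.1 hr)
      rw [h4, mul_zero, ite_self, if_neg (fun h6 => hm ((hT m).1 h6).1)]
  rw [Finset.sum_congr rfl h2, ← Finset.sum_filter] at h1
  rw [← h1]
  symm
  apply Finset.sum_subset
  · intro m hm
    exact (Finset.mem_filter.1 hm).2
  · intro m hm hm2
    by_contra h7
    exact hm2 (Finset.mem_filter.2 ⟨MvPolynomial.mem_support_iff.2 h7, hm⟩)

theorem D2a {f : MvPolynomial σ ℂ} {p : σ} (h : ∀ s : ℂ, eval (fun r => if r = p then s else 0) f = 0) :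
    coeff 0 f = 0 ∧ coeff (Finsupp.single p 1) f = 0 ∧ coeff (Finsupp.single p 2) f = 0 := by
  have key : ∀ N : ℕ, coeff (Finsupp.single p N) f = 0 := by
    intro N
    have h1 := D2_gen f {p} (fun _ => 1) N {Finsupp.single p N} (by
      intro m
      rw [Finset.mem_singleton, Finsupp.support_subset_singleton, Finset.sum_singleton, mul_one]
      constructor
      · intro hm
        rw [hm]
        simp
      · rintro ⟨hm, hN⟩
        rw [hm, hN]) (by
      intro t
      refine Eq.trans ?_ (h t)
      congr 2
      funext r
      by_cases hr : r = p
      · simp [hr]
      · simp [hr])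
    simpa using h1
  refine ⟨?_, key 1, key 2⟩
  have h0 := key 0
  rwa [Finsupp.single_zero] at h0

theorem D2b {f : MvPolynomial σ ℂ} {p q : σ} (hpq : p ≠ q)
    (h : ∀ s t : ℂ, eval (fun r => if r = p then s else if r = q then t else 0) f = 0) :
    coeff (Finsupp.single p 1 + Finsupp.single q 1) f = 0 := by
  have h1 := D2_gen f {p, q} (fun r => if r = p then 2 else 3) 5
    {Finsupp.single p 1 + Finsupp.single q 1} (by
      intro m
      rw [Finset.mem_singleton, Finset.sum_pair hpq, if_pos rfl, if_neg hpq.symm]
      constructor
      · intro hm
        rw [hm]
        constructor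
        · refine Finsupp.support_add.trans ?_
          intro r hr
          rw [Finset.mem_union] at hr
          rcases hr with hr | hr
          · have := Finsupp.support_single_subset hr
            simp only [Finset.mem_singleton] at this
            simp [this]
          · have := Finsupp.support_single_subset hr
            simp only [Finset.mem_singleton] at this
            simp [this]
        · simp [Finsupp.single_apply, hpq, hpq.symm]
      · rintro ⟨hm, hN⟩
        have ha : m p = 1 := by omega
        have hb : m q = 1 := by omega
        ext r
        by_cases h1 : r = p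
        · subst h1
          simp [ha, Finsupp.single_apply, hpq.symm]
        · by_cases h2 : r = q
          · subst h2
            simp [hb, Finsupp.single_apply, hpq]
          · have h3 : m r = 0 := by
              by_contra h4
              have := hm (Finsupp.mem_support_iff.2 h4)
              simp [h1, h2] at this
            simp [h3, Finsupp.single_apply, Ne.symm h1, Ne.symm h2]) (by
      intro t
      refine Eq.trans ?_ (h (t ^ 2) (t ^ 3))
      congr 2
      funext r
      by_cases h1 : r = p
      · simp [h1]
      · by_cases h2 : r = q
        · simp [h2, hpq.symm]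
        · simp [h1, h2])
  simpa using h1

theorem D2c {f : MvPolynomial σ ℂ} {p q r₀ : σ} (hpq : p ≠ q) (hpr : p ≠ r₀) (hqr : q ≠ r₀)
    (h : ∀ s t : ℂ, eval (fun r => if r = p then s else if r = q then t else
      if r = r₀ then s * t else 0) f = 0) :
    coeff (Finsupp.single p 1 + Finsupp.single q 1) f + coeff (Finsupp.single r₀ 1) f = 0 := by
  have hne : Finsupp.single p 1 + Finsupp.single q 1 ≠ (Finsupp.single r₀ 1 : σ →₀ ℕ) := by
    intro h1
    have h2 := DFunLike.congr_fun h1 r₀
    simp [Finsupp.single_apply, hpr, hqr] at h2
  have h1 := D2_gen f {p, q, r₀} (fun r => if r = p then 2 else if r = q then 3 else 5) 5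
    {Finsupp.single p 1 + Finsupp.single q 1, Finsupp.single r₀ 1} (by
      intro m
      have hs : ∑ r ∈ ({p, q, r₀} : Finset σ), m r * (if r = p then 2 else if r = q then 3 else 5) =
          m p * 2 + (m q * 3 + m r₀ * 5) := by
        rw [Finset.sum_insert (by simp [hpq, hpr]), Finset.sum_pair hqr]
        simp [hpq.symm, hpr.symm, hqr.symm]
      rw [Finset.mem_insert, Finset.mem_singleton, hs]
      constructor
      · rintro (hm | hm)
        · rw [hm]
          constructor
          · refine Finsupp.support_add.trans ?_
            intro r hr
            rw [Finset.mem_union] at hr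
            rcases hr with hr | hr
            · have := Finsupp.support_single_subset hr
              simp only [Finset.mem_singleton] at this
              simp [this]
            · have := Finsupp.support_single_subset hr
              simp only [Finset.mem_singleton] at this
              simp [this]
          · simp [Finsupp.single_apply, hpq, hpq.symm, hpr, hqr]
        · rw [hm]
          constructor
          · intro r hr
            have := Finsupp.support_single_subset hr
            simp only [Finset.mem_singleton] at this
            simp [this]
          · simp [Finsupp.single_apply, hpr.symm, hqr.symm]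
      · rintro ⟨hm, hN⟩
        have hz : ∀ r, r ≠ p → r ≠ q → r ≠ r₀ → m r = 0 := by
          intro r h1 h2 h3
          by_contra h4
          have := hm (Finsupp.mem_support_iff.2 h4)
          simp [h1, h2, h3] at this
        rcases Nat.eq_zero_or_pos (m r₀) with hc | hc
        · left
          have ha : m p = 1 := by omega
          have hb : m q = 1 := by omega
          ext r
          by_cases h1 : r = p
          · subst h1
            simp [ha, Finsupp.single_apply, hpq.symm]
          · by_cases h2 : r = q
            · subst h2
              simp [hb, Finsupp.single_apply, hpq]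
            · have h3 : m r = 0 := by
                by_cases h4 : r = r₀
                · rw [h4, hc]
                · exact hz r h1 h2 h4
              simp [h3, Finsupp.single_apply, Ne.symm h1, Ne.symm h2]
        · right
          have ha : m p = 0 := by omega
          have hb : m q = 0 := by omega
          have hd : m r₀ = 1 := by omega
          ext r
          by_cases h1 : r = r₀
          · subst h1
            simp [hd]
          · have h3 : m r = 0 := by
              by_cases h4 : r = p
              · rw [h4, ha]
              · by_cases h5 : r = q
                · rw [h5, hb]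
                · exact hz r h4 h5 h1
            simp [h3, Finsupp.single_apply, Ne.symm h1]) (by
      intro t
      refine Eq.trans ?_ (h (t ^ 2) (t ^ 3))
      congr 2
      funext r
      by_cases h1 : r = p
      · simp [h1]
      · by_cases h2 : r = q
        · simp [h2, hpq.symm]
        · by_cases h3 : r = r₀
          · simp [h3, hpr.symm, hqr.symm, ← pow_add]
          · simp [h1, h2, h3])
  rw [Finset.sum_pair hne] at h1
  exact h1

end HQ
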