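import Pool.Agent.LibHQ4.D1

/-!
# Row D3 (MEDIUM): four coordinates with one quadratic relation

`D1` with `x_p = t^4`, `x_q = κ t^7`, `x_p' = t^5`, `x_q' = t^6` (then `s₁ s₂ = κ t^11 = κ s₃ s₄`), `N = 11`:
`4a + 7b + 5c + 6d = 11` only for `(1,1,0,0)` and `(0,0,1,1)`.
-/

set_option autoImplicit false

namespace HQ

open MvPolynomial

variable {σ : Type} [DecidableEq σ]

theorem D3 {f : MvPolynomial σ ℂ} {p q p' q' : σ} (h1 : p ≠ q) (h2 : p ≠ p') (h3 : p ≠ q')
    (h4 : q ≠ p') (h5 : q ≠ q') (h6 : p' ≠ q') (κ : ℂ)
    (h : ∀ s₁ s₂ s₃ s₄ : ℂ, s₁ * s₂ = κ * (s₃ * s₄) → eval (fun r => if r = p then s₁ else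
      if r = q then s₂ else if r = p' then s₃ else if r = q' then s₄ else 0) f = 0) :
    κ * coeff (Finsupp.single p 1 + Finsupp.single q 1) f +
      coeff (Finsupp.single p' 1 + Finsupp.single q' 1) f = 0 := by
  classical
  set c : σ → ℂ := fun r => if r = p then 1 else if r = q then κ else if r = p' then 1 else
    if r = q' then 1 else 0 with hc
  set e : σ → ℕ := fun r => if r = p then 4 else if r = q then 7 else if r = p' then 5 else
    if r = q' then 6 else 0 with he
  have hD := D1 f c e 11 (by
    intro t
    have h7 := h (t ^ 4) (κ * t ^ 7) (t ^ 5) (t ^ 6) (by ring)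
    have hfun : (fun r => c r * t ^ e r) = (fun r => if r = p then t ^ 4 else
        if r = q then κ * t ^ 7 else if r = p' then t ^ 5 else if r = q' then t ^ 6 else 0) := by
      funext r
      simp only [hc, he]
      split_ifs <;> simp
    rw [hfun]
    exact h7)
  have cp : c p = 1 := by simp [hc]
  have cq : c q = κ := by simp [hc, h1.symm]
  have cp' : c p' = 1 := by simp [hc, h2.symm, h4.symm]
  have cq' : c q' = 1 := by simp [hc, h3.symm, h5.symm, h6.symm]
  have ep : e p = 4 := by simp [he]
  have eq : e q = 7 := by simp [he, h1.symm]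
  have ep' : e p' = 5 := by simp [he, h2.symm, h4.symm]
  have eq' : e q' = 6 := by simp [he, h3.symm, h5.symm, h6.symm]
  set m1 : σ →₀ ℕ := Finsupp.single p 1 + Finsupp.single q 1 with hm1
  set m2 : σ →₀ ℕ := Finsupp.single p' 1 + Finsupp.single q' 1 with hm2
  have hne : m1 ≠ m2 := by
    intro hh
    have h8 := DFunLike.congr_fun hh p
    simp [hm1, hm2, h1.symm, h2.symm, h3.symm] at h8
  have key : ∀ m : σ →₀ ℕ, (m.sum fun r k => k * e r) = 11 →
      m.prod (fun r k => c r ^ k) ≠ 0 → m = m1 ∨ m = m2 := by
    intro m hs hp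
    have hcs : ∀ r ∈ m.support, c r ≠ 0 := by
      intro r hr h0
      rw [Finsupp.prod, Finset.prod_ne_zero_iff] at hp
      apply hp r hr
      rw [h0]
      exact zero_pow (Finsupp.mem_support_iff.1 hr)
    have hsub : m.support ⊆ ({p, q, p', q'} : Finset σ) := by
      intro r hr
      have h9 := hcs r hr
      by_contra hcon
      simp only [Finset.mem_insert, Finset.mem_singleton, not_or] at hcon
      apply h9
      simp [hc, hcon.1, hcon.2.1, hcon.2.2.1, hcon.2.2.2]
    have hsum : m p * 4 + (m q * 7 + (m p' * 5 + m q' * 6)) = 11 := by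
      rw [Finsupp.sum_of_support_subset m hsub (fun r k => k * e r) (by intros; simp)] at hs
      rw [Finset.sum_insert (by simp [h1, h2, h3]), Finset.sum_insert (by simp [h4, h5]),
        Finset.sum_insert (by simp [h6]), Finset.sum_singleton, ep, eq, ep', eq'] at hs
      exact hs
    have hcase : (m p = 1 ∧ m q = 1 ∧ m p' = 0 ∧ m q' = 0) ∨
        (m p = 0 ∧ m q = 0 ∧ m p' = 1 ∧ m q' = 1) := by
      clear_value c e
      generalize m p = A at hsum ⊢
      generalize m q = B at hsum ⊢
      generalize m p' = C at hsum ⊢
      generalize m q' = D at hsum ⊢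
      have k1 : B ≤ 1 := by omega
      have k2 : D ≤ 1 := by omega
      have k3 : C ≤ 2 := by omega
      interval_cases B <;> interval_cases D <;> interval_cases C <;> omega
    have hzero : ∀ r, r ≠ p → r ≠ q → r ≠ p' → r ≠ q' → m r = 0 := by
      intro r a1 a2 a3 a4
      by_contra hcon
      have h10 := hsub (Finsupp.mem_support_iff.2 hcon)
      simp only [Finset.mem_insert, Finset.mem_singleton] at h10
      rcases h10 with h10 | h10 | h10 | h10
      · exact a1 h10
      · exact a2 h10
      · exact a3 h10
      · exact a4 h10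
    rcases hcase with ⟨b1, b2, b3, b4⟩ | ⟨b1, b2, b3, b4⟩
    · left
      ext r
      by_cases r1 : r = p
      · subst r1
        simp [hm1, b1, h1.symm]
      · by_cases r2 : r = q
        · subst r2
          simp [hm1, b2, h1]
        · by_cases r3 : r = p'
          · subst r3
            simp [hm1, b3, h2, h4]
          · by_cases r4 : r = q'
            · subst r4
              simp [hm1, b4, h3, h5]
            · rw [hzero r r1 r2 r3 r4]
              simp [hm1, Ne.symm r1, Ne.symm r2]
    · right
      ext r
      by_cases r1 : r = p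
      · subst r1
        simp [hm2, b1, h2.symm, h3.symm]
      · by_cases r2 : r = q
        · subst r2
          simp [hm2, b2, h4.symm, h5.symm]
        · by_cases r3 : r = p'
          · subst r3
            simp [hm2, b3, h6.symm]
          · by_cases r4 : r = q'
            · subst r4
              simp [hm2, b4, h6]
            · rw [hzero r r1 r2 r3 r4]
              simp [hm2, Ne.symm r3, Ne.symm r4]
  set g : (σ →₀ ℕ) → ℂ := fun m => if (m.sum fun r k => k * e r) = 11 then
      coeff m f * m.prod (fun r k => c r ^ k) else 0 with hg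
  have hg1 : g m1 = κ * coeff m1 f := by
    have hs : (m1.sum fun r k => k * e r) = 11 := by
      rw [hm1, Finsupp.sum_add_index' (by intros; simp) (by intros; ring),
        Finsupp.sum_single_index (by simp), Finsupp.sum_single_index (by simp), ep, eq]
    have hp : m1.prod (fun r k => c r ^ k) = κ := by
      rw [hm1, Finsupp.prod_add_index' (by intros; simp) (by intros; rw [pow_add]),
        Finsupp.prod_single_index (by simp), Finsupp.prod_single_index (by simp), cp, cq]
      simp
    simp only [hg]
    rw [if_pos hs, hp, mul_comm]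
  have hg2 : g m2 = coeff m2 f := by
    have hs : (m2.sum fun r k => k * e r) = 11 := by
      rw [hm2, Finsupp.sum_add_index' (by intros; simp) (by intros; ring),
        Finsupp.sum_single_index (by simp), Finsupp.sum_single_index (by simp), ep', eq']
    have hp : m2.prod (fun r k => c r ^ k) = 1 := by
      rw [hm2, Finsupp.prod_add_index' (by intros; simp) (by intros; rw [pow_add]),
        Finsupp.prod_single_index (by simp), Finsupp.prod_single_index (by simp), cp', cq']
      simp
    simp only [hg]
    rw [if_pos hs, hp, mul_one]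
  have hout : ∀ m, m ∉ f.support → g m = 0 := by
    intro m hm
    simp only [hg]
    rw [MvPolynomial.notMem_support_iff.1 hm]
    simp
  have hout2 : ∀ m, m ≠ m1 → m ≠ m2 → g m = 0 := by
    intro m a1 a2
    simp only [hg]
    by_cases hs : (m.sum fun r k => k * e r) = 11
    · rw [if_pos hs]
      by_cases hp : m.prod (fun r k => c r ^ k) = 0
      · rw [hp, mul_zero]
      · exfalso
        rcases key m hs hp with h11 | h11
        · exact a1 h11
        · exact a2 h11
    · rw [if_neg hs]
  have hS : ∑ m ∈ f.support, g m = ∑ m ∈ f.support ∪ {m1, m2}, g m :=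
    Finset.sum_subset Finset.subset_union_left fun m _ hm => hout m hm
  have hS2 : ∑ m ∈ ({m1, m2} : Finset (σ →₀ ℕ)), g m = ∑ m ∈ f.support ∪ {m1, m2}, g m := by
    refine Finset.sum_subset Finset.subset_union_right fun m _ hm => ?_
    simp only [Finset.mem_insert, Finset.mem_singleton, not_or] at hm
    exact hout2 m hm.1 hm.2
  have hfin : g m1 + g m2 = 0 := by
    rw [← Finset.sum_pair hne, hS2, ← hS]
    exact hD
  rw [hg1, hg2] at hfin
  exact hfin

end HQ
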