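import Pool.Agent.LibHQ4.D1

/-!
# Row D4 (MEDIUM): the two curves C7, C8

`D1` twice. First: `x_p = t^11`, `x_r₁ = t^13`, `x_p' = t^24`, `x_q' = t^17`, `N = 41`:
`11a + 13b + 24c + 17d = 41` only for `(0,0,1,1)` and `(1,1,0,1)`:
`coeff(p' + q') + coeff(p + r₁ + q') = 0`.
Second: `x_p = t^11`, `x_r₁ = t^13`, `x_q = t^30`, `x_q' = t^17`, `N = 41`:
`11a + 13b + 30c + 17d = 41` only for `(1,0,1,0)` and `(1,1,0,1)`:
`coeff(p + q) + coeff(p + r₁ + q') = 0`. Subtract.
-/

set_option autoImplicit false

namespace HQ

open MvPolynomial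

variable {σ : Type} [DecidableEq σ]

private theorem d4_key (f : MvPolynomial σ ℂ) (s : Finset σ) (e : σ → ℕ) (N : ℕ)
    (h : ∀ t : ℂ, eval (fun r => if r ∈ s then t ^ e r else 0) f = 0) (A : Finset (σ →₀ ℕ))
    (hA : ∀ m : σ →₀ ℕ, m ∈ A ↔ (∀ r, r ∉ s → m r = 0) ∧ ∑ r ∈ s, m r * e r = N) :
    ∑ m ∈ A, coeff m f = 0 := by
  classical
  have h1 := D1 f (fun r => if r ∈ s then 1 else 0) e N (fun t => by
    have hh : (fun r => (if r ∈ s then (1 : ℂ) else 0) * t ^ e r) =
        fun r => if r ∈ s then t ^ e r else 0 := by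
      funext r
      by_cases hr : r ∈ s
      · rw [if_pos hr, if_pos hr, one_mul]
      · rw [if_neg hr, if_neg hr, zero_mul]
    rw [hh]
    exact h t)
  have h2 : ∑ m ∈ A, coeff m f = ∑ m ∈ f.support ∪ A, if m ∈ A then coeff m f else 0 := by
    rw [Finset.sum_ite_mem, Finset.inter_eq_right.2 Finset.subset_union_right]
  have h3 : ∑ m ∈ f.support ∪ A, (if m ∈ A then coeff m f else 0) =
      ∑ m ∈ f.support, if m ∈ A then coeff m f else 0 := by
    symm
    apply Finset.sum_subset Finset.subset_union_left
    intro m _ hm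
    rw [notMem_support_iff.1 hm, ite_self]
  rw [h2, h3]
  refine Eq.trans (Finset.sum_congr rfl fun m hm => ?_) h1
  have h0 : coeff m f ≠ 0 := mem_support_iff.1 hm
  by_cases hmA : m ∈ A
  · obtain ⟨h4, h5⟩ := (hA m).1 hmA
    have hsub : m.support ⊆ s := fun r hr => by
      by_contra hrs
      exact (Finsupp.mem_support_iff.1 hr) (h4 r hrs)
    have h6 : (m.sum fun r k => k * e r) = N := by
      rw [Finsupp.sum_of_support_subset m hsub (fun r k => k * e r) (fun r _ => zero_mul _), h5]
    have h7 : m.prod (fun r k => (if r ∈ s then (1 : ℂ) else 0) ^ k) = 1 := by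
      apply Finset.prod_eq_one
      intro r hr
      show (if r ∈ s then (1 : ℂ) else 0) ^ m r = 1
      rw [if_pos (hsub hr), one_pow]
    rw [if_pos hmA, if_pos h6, h7, mul_one]
  · rw [if_neg hmA]
    symm
    by_cases h6 : (m.sum fun r k => k * e r) = N
    · rw [if_pos h6]
      by_cases hsub : ∀ r, r ∉ s → m r = 0
      · exfalso
        apply hmA
        rw [hA]
        refine ⟨hsub, ?_⟩
        have hsub' : m.support ⊆ s := fun r hr => by
          by_contra hrs
          exact (Finsupp.mem_support_iff.1 hr) (hsub r hrs)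
        rw [Finsupp.sum_of_support_subset m hsub' (fun r k => k * e r) (fun r _ => zero_mul _)] at h6
        exact h6
      · push Not at hsub
        obtain ⟨r, hr, hmr⟩ := hsub
        have h8 : m.prod (fun r k => (if r ∈ s then (1 : ℂ) else 0) ^ k) = 0 := by
          apply Finset.prod_eq_zero (Finsupp.mem_support_iff.2 hmr)
          show (if r ∈ s then (1 : ℂ) else 0) ^ m r = 0
          rw [if_neg hr, zero_pow hmr]
        rw [h8, mul_zero]
    · rw [if_neg h6]

private theorem d4_num1 {a b c d : ℕ} (h : a * 11 + (b * 13 + (c * 24 + d * 17)) = 41) :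
    (a = 0 ∧ b = 0 ∧ c = 1 ∧ d = 1) ∨ (a = 1 ∧ b = 1 ∧ c = 0 ∧ d = 1) := by
  have hc : c ≤ 1 := by omega
  have hd : d ≤ 2 := by omega
  have hb : b ≤ 3 := by omega
  interval_cases c <;> interval_cases d <;> interval_cases b <;> omega

private theorem d4_num2 {a b c d : ℕ} (h : a * 11 + (b * 13 + (c * 30 + d * 17)) = 41) :
    (a = 1 ∧ b = 0 ∧ c = 1 ∧ d = 0) ∨ (a = 1 ∧ b = 1 ∧ c = 0 ∧ d = 1) := by
  have hc : c ≤ 1 := by omega
  have hd : d ≤ 2 := by omega
  have hb : b ≤ 3 := by omega
  interval_cases c <;> interval_cases d <;> interval_cases b <;> omega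

theorem D4 {f : MvPolynomial σ ℂ} {p q p' q' r₁ : σ} (h1 : p ≠ q) (h2 : p ≠ p') (h3 : p ≠ q')
    (h4 : q ≠ p') (h5 : q ≠ q') (h6 : p' ≠ q') (h7 : r₁ ≠ p) (h8 : r₁ ≠ q) (h9 : r₁ ≠ p')
    (h10 : r₁ ≠ q')
    (hA : ∀ α ρ δ : ℂ, eval (fun r => if r = p then α else if r = r₁ then ρ else
      if r = p' then α * ρ else if r = q' then δ else 0) f = 0)
    (hB : ∀ α ρ δ : ℂ, eval (fun r => if r = p then α else if r = r₁ then ρ else
      if r = q then ρ * δ else if r = q' then δ else 0) f = 0) :
    coeff (Finsupp.single p 1 + Finsupp.single q 1) f =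
      coeff (Finsupp.single p' 1 + Finsupp.single q' 1) f := by
  have key1 := d4_key f {p, r₁, p', q'}
    (fun r => if r = p then 11 else if r = r₁ then 13 else if r = p' then 24 else 17) 41
    (fun t => by
      refine Eq.trans ?_ (hA (t ^ 11) (t ^ 13) (t ^ 17))
      congr 2
      funext r
      by_cases a1 : r = p
      · simp [a1]
      by_cases a2 : r = r₁
      · simp [a2, h7]
      by_cases a3 : r = p'
      · simp [a3, h2.symm, h9.symm, ← pow_add]
      by_cases a4 : r = q'
      · simp [a4, h3.symm, h10.symm, h6.symm]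
      · simp [a1, a2, a3, a4])
    {Finsupp.single p' 1 + Finsupp.single q' 1,
      Finsupp.single p 1 + Finsupp.single r₁ 1 + Finsupp.single q' 1} (fun m => by
      have e1 : ∑ r ∈ ({p, r₁, p', q'} : Finset σ), m r * (if r = p then 11 else if r = r₁ then 13
          else if r = p' then 24 else 17) = m p * 11 + (m r₁ * 13 + (m p' * 24 + m q' * 17)) := by
        rw [Finset.sum_insert (by simp [h7.symm, h2, h3]), Finset.sum_insert (by simp [h9, h10]),
          Finset.sum_insert (by simp [h6]), Finset.sum_singleton]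
        simp [h7, h2.symm, h9.symm, h3.symm, h10.symm, h6.symm]
      rw [e1]
      constructor
      · intro hm
        rw [Finset.mem_insert, Finset.mem_singleton] at hm
        rcases hm with rfl | rfl
        · refine ⟨fun r hr => ?_, ?_⟩
          · simp only [Finset.mem_insert, Finset.mem_singleton, not_or] at hr
            simp [Finsupp.single_apply, Ne.symm hr.2.2.1, Ne.symm hr.2.2.2]
          · simp [Finsupp.single_apply, h2.symm, h3.symm, h9.symm, h10.symm, h6, h6.symm]
        · refine ⟨fun r hr => ?_, ?_⟩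
          · simp only [Finset.mem_insert, Finset.mem_singleton, not_or] at hr
            simp [Finsupp.single_apply, Ne.symm hr.1, Ne.symm hr.2.1, Ne.symm hr.2.2.2]
          · simp [Finsupp.single_apply, h2, h2.symm, h3, h3.symm, h9, h9.symm, h10, h10.symm, h6,
              h6.symm, h7, h7.symm]
      · rintro ⟨hm0, hm1⟩
        have hc : (m p = 0 ∧ m r₁ = 0 ∧ m p' = 1 ∧ m q' = 1) ∨
            (m p = 1 ∧ m r₁ = 1 ∧ m p' = 0 ∧ m q' = 1) := d4_num1 hm1
        rw [Finset.mem_insert, Finset.mem_singleton]
        rcases hc with ⟨b1, b2, b3, b4⟩ | ⟨b1, b2, b3, b4⟩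
        · left
          ext r
          by_cases a1 : r = p
          · rw [a1, b1]; simp [Finsupp.single_apply, h2.symm, h3.symm]
          by_cases a2 : r = r₁
          · rw [a2, b2]; simp [Finsupp.single_apply, h9.symm, h10.symm]
          by_cases a3 : r = p'
          · rw [a3, b3]; simp [Finsupp.single_apply, h6.symm]
          by_cases a4 : r = q'
          · rw [a4, b4]; simp [Finsupp.single_apply, h6]
          · rw [hm0 r (by simp [a1, a2, a3, a4])]
            simp [Finsupp.single_apply, Ne.symm a3, Ne.symm a4]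
        · right
          ext r
          by_cases a1 : r = p
          · rw [a1, b1]; simp [Finsupp.single_apply, h7, h3.symm]
          by_cases a2 : r = r₁
          · rw [a2, b2]; simp [Finsupp.single_apply, h7.symm, h10.symm]
          by_cases a3 : r = p'
          · rw [a3, b3]; simp [Finsupp.single_apply, h2, h9, h6.symm]
          by_cases a4 : r = q'
          · rw [a4, b4]; simp [Finsupp.single_apply, h3, h10]
          · rw [hm0 r (by simp [a1, a2, a3, a4])]
            simp [Finsupp.single_apply, Ne.symm a1, Ne.symm a2, Ne.symm a4])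
  have key2 := d4_key f {p, r₁, q, q'}
    (fun r => if r = p then 11 else if r = r₁ then 13 else if r = q then 30 else 17) 41
    (fun t => by
      refine Eq.trans ?_ (hB (t ^ 11) (t ^ 13) (t ^ 17))
      congr 2
      funext r
      by_cases a1 : r = p
      · simp [a1]
      by_cases a2 : r = r₁
      · simp [a2, h7]
      by_cases a3 : r = q
      · simp [a3, h1.symm, h8.symm, ← pow_add]
      by_cases a4 : r = q'
      · simp [a4, h3.symm, h10.symm, h5.symm]
      · simp [a1, a2, a3, a4])
    {Finsupp.single p 1 + Finsupp.single q 1,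
      Finsupp.single p 1 + Finsupp.single r₁ 1 + Finsupp.single q' 1} (fun m => by
      have e1 : ∑ r ∈ ({p, r₁, q, q'} : Finset σ), m r * (if r = p then 11 else if r = r₁ then 13
          else if r = q then 30 else 17) = m p * 11 + (m r₁ * 13 + (m q * 30 + m q' * 17)) := by
        rw [Finset.sum_insert (by simp [h7.symm, h1, h3]), Finset.sum_insert (by simp [h8, h10]),
          Finset.sum_insert (by simp [h5]), Finset.sum_singleton]
        simp [h7, h1.symm, h8.symm, h3.symm, h10.symm, h5.symm]
      rw [e1]
      constructor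
      · intro hm
        rw [Finset.mem_insert, Finset.mem_singleton] at hm
        rcases hm with rfl | rfl
        · refine ⟨fun r hr => ?_, ?_⟩
          · simp only [Finset.mem_insert, Finset.mem_singleton, not_or] at hr
            simp [Finsupp.single_apply, Ne.symm hr.1, Ne.symm hr.2.2.1]
          · simp [Finsupp.single_apply, h1, h1.symm, h3, h8.symm, h5, h7.symm]
        · refine ⟨fun r hr => ?_, ?_⟩
          · simp only [Finset.mem_insert, Finset.mem_singleton, not_or] at hr
            simp [Finsupp.single_apply, Ne.symm hr.1, Ne.symm hr.2.1, Ne.symm hr.2.2.2]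
          · simp [Finsupp.single_apply, h1, h1.symm, h3, h3.symm, h8, h8.symm, h10, h10.symm, h5,
              h5.symm, h7, h7.symm]
      · rintro ⟨hm0, hm1⟩
        have hc : (m p = 1 ∧ m r₁ = 0 ∧ m q = 1 ∧ m q' = 0) ∨
            (m p = 1 ∧ m r₁ = 1 ∧ m q = 0 ∧ m q' = 1) := d4_num2 hm1
        rw [Finset.mem_insert, Finset.mem_singleton]
        rcases hc with ⟨b1, b2, b3, b4⟩ | ⟨b1, b2, b3, b4⟩
        · left
          ext r
          by_cases a1 : r = p
          · rw [a1, b1]; simp [Finsupp.single_apply, h1.symm]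
          by_cases a2 : r = r₁
          · rw [a2, b2]; simp [Finsupp.single_apply, h7.symm, h8.symm]
          by_cases a3 : r = q
          · rw [a3, b3]; simp [Finsupp.single_apply, h1]
          by_cases a4 : r = q'
          · rw [a4, b4]; simp [Finsupp.single_apply, h3, h5]
          · rw [hm0 r (by simp [a1, a2, a3, a4])]
            simp [Finsupp.single_apply, Ne.symm a1, Ne.symm a3]
        · right
          ext r
          by_cases a1 : r = p
          · rw [a1, b1]; simp [Finsupp.single_apply, h7, h3.symm]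
          by_cases a2 : r = r₁
          · rw [a2, b2]; simp [Finsupp.single_apply, h7.symm, h10.symm]
          by_cases a3 : r = q
          · rw [a3, b3]; simp [Finsupp.single_apply, h1, h8, h5.symm]
          by_cases a4 : r = q'
          · rw [a4, b4]; simp [Finsupp.single_apply, h3, h10]
          · rw [hm0 r (by simp [a1, a2, a3, a4])]
            simp [Finsupp.single_apply, Ne.symm a1, Ne.symm a2, Ne.symm a4])
  have n1 : (Finsupp.single p' 1 + Finsupp.single q' 1 : σ →₀ ℕ) ≠
      Finsupp.single p 1 + Finsupp.single r₁ 1 + Finsupp.single q' 1 := by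
    intro hh
    have := DFunLike.congr_fun hh p
    simp [Finsupp.single_apply, h2.symm, h3.symm, h7] at this
  have n2 : (Finsupp.single p 1 + Finsupp.single q 1 : σ →₀ ℕ) ≠
      Finsupp.single p 1 + Finsupp.single r₁ 1 + Finsupp.single q' 1 := by
    intro hh
    have := DFunLike.congr_fun hh r₁
    simp [Finsupp.single_apply, h7.symm, h8.symm, h10.symm] at this
  rw [Finset.sum_pair n1] at key1
  rw [Finset.sum_pair n2] at key2
  linear_combination key2 - key1

end HQ
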