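import Pool.Agent.LibSH29.X3

/-!
# Reflections, bad pairs (board HQ4, MP_8c46a4_co)

`Lo n` = pairs (row, column) of positions, column < row. For `p : Lo n`: `p.1.1` = row (the larger
position), `p.1.2` = column (the smaller position). `v` is a permutation = its values at positions.
`umat x i k` (`k < i`) is the coordinate `x_(i,k)`; `rr w a j` = number of positions `b < j` with
value `w b >= a` (box `(a, j)`).
-/

set_option autoImplicit false

namespace HQ

open SH MvPolynomial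

variable {n : ℕ}

/-- `v` with the values at the two positions of `p` exchanged -/
def sw (v : Equiv.Perm (Fin n)) (p : Lo n) : Equiv.Perm (Fin n) := v * Equiv.swap p.1.2 p.1.1

/-- the exchange goes up -/
def Up (v : Equiv.Perm (Fin n)) (p : Lo n) : Prop := v p.1.2 < v p.1.1

/-- the box `(a, j)` lies in the rectangle of `p` (empty if `p` is not `Up`) -/
def Act (v : Equiv.Perm (Fin n)) (p : Lo n) (a j : ℕ) : Prop :=
  p.1.2.val < j ∧ j ≤ p.1.1.val ∧ (v p.1.2).val < a ∧ a ≤ (v p.1.1).val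

/-- no tight box in the rectangle of `p`: the reflection `p` belongs to the tangent space -/
def InT (v w : Equiv.Perm (Fin n)) (p : Lo n) : Prop := ∀ a j, Act v p a j → rr v a j < rr w a j

/-- disjoint bad pair -/
def BadD (v w : Equiv.Perm (Fin n)) (p q : Lo n) : Prop :=
  p.1.1 ≠ q.1.1 ∧ p.1.2 ≠ q.1.2 ∧ p.1.1 ≠ q.1.2 ∧ p.1.2 ≠ q.1.1 ∧
    ∃ a j, Act v p a j ∧ Act v q a j ∧ rr w a j ≤ rr v a j + 1

/-- tight box of the first kind (south-west) for the chain `p = (i,k)`, `q = (k,l)`: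
`l < k < j ≤ i`, `v l < a ≤ v k`, `a ≤ v i` -/
def SW (v w : Equiv.Perm (Fin n)) (p q : Lo n) (a j : ℕ) : Prop :=
  p.1.2.val < j ∧ j ≤ p.1.1.val ∧ (v q.1.2).val < a ∧ a ≤ (v p.1.2).val ∧ a ≤ (v p.1.1).val ∧
    rr w a j = rr v a j

/-- tight box of the second kind (north-east) for the chain `p = (i,k)`, `q = (k,l)`:
`l < j ≤ k`, `v k < a ≤ v i`, `v l < a` -/
def NE (v w : Equiv.Perm (Fin n)) (p q : Lo n) (a j : ℕ) : Prop :=
  q.1.2.val < j ∧ j ≤ p.1.2.val ∧ (v p.1.2).val < a ∧ a ≤ (v p.1.1).val ∧ (v q.1.2).val < a ∧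
    rr w a j = rr v a j

/-- bad chain `p = (i,k)`, `q = (k,l)` -/
def BadC (v w : Equiv.Perm (Fin n)) (p q : Lo n) : Prop :=
  p.1.2 = q.1.1 ∧ (∃ a j, SW v w p q a j) ∧ ∃ a j, NE v w p q a j

/-- bad pairs: the products `x_p x_q` which occur in the quadratic relations -/
def Bad (v w : Equiv.Perm (Fin n)) (p q : Lo n) : Prop :=
  InT v w p ∧ InT v w q ∧ (BadD v w p q ∨ BadC v w p q ∨ BadC v w q p)

/-- label, part 1: the rows -/
def rws (p q : Lo n) : Finset (Fin n) := {p.1.1, q.1.1} \ {p.1.2, q.1.2}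

/-- label, part 2: the columns -/
def cls (p q : Lo n) : Finset (Fin n) := {p.1.2, q.1.2} \ {p.1.1, q.1.1}

/-- label, part 3, of the chain `p = (i,k)`, `q = (k,l)`: the tight boxes `(a,j)` in the rectangle
of `(i,l)` with `k < j`, `a ≤ v k` -/
def bx1 (v w : Equiv.Perm (Fin n)) (p q : Lo n) : Set (ℕ × ℕ) :=
  {β | p.1.2 = q.1.1 ∧ SW v w p q β.1 β.2}

/-- the label of a pair: pairs with the same label occur in the same relation -/
def lab (v w : Equiv.Perm (Fin n)) (p q : Lo n) :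
    Finset (Fin n) × Finset (Fin n) × Set (ℕ × ℕ) :=
  (rws p q, cls p q, bx1 v w p q ∪ bx1 v w q p)

/-- the number of classes of bad pairs -/
noncomputable def bb (v w : Equiv.Perm (Fin n)) : ℕ :=
  Set.ncard {c | ∃ p q, Bad v w p q ∧ lab v w p q = c}

/-- the tangent space -/
noncomputable def TT (v w : Equiv.Perm (Fin n)) : Finset (Lo n) := by
  classical exact Finset.univ.filter fun p => InT v w p

theorem mem_TT {v w : Equiv.Perm (Fin n)} {p : Lo n} : p ∈ TT v w ↔ InT v w p := by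
  classical
  unfold TT
  rw [Finset.mem_filter]
  exact ⟨fun h => h.2, fun h => ⟨Finset.mem_univ _, h⟩⟩

/-- the zero set in the chart at `e_v` of the rank conditions of `w` -/
def Cl (v w : Equiv.Perm (Fin n)) : Set (Lo n → ℂ) :=
  {x | ∀ a ≤ n, ∀ j ≤ n, dd w a j ≤ dg (pmat v * umat x) a j}

/-- the part of column `c` in the rows of value `≥ a` (rows indexed by positions) -/
noncomputable def tcol (v : Equiv.Perm (Fin n)) (x : Lo n → ℂ) (a : ℕ) (c : Fin n) : Fin n → ℂ :=
  fun i => if a ≤ (v i).val then umat x i c else 0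

/-- the Bruhat graph -/
def Edge (x y : Equiv.Perm (Fin n)) : Prop := ∃ p : Lo n, Up x p ∧ y = sw x p

/-- the Bruhat graph below `w` -/
def Ew (w x y : Equiv.Perm (Fin n)) : Prop := Edge x y ∧ y ≤ w

/-! Notions which only depend on a relation `E` (the Bruhat graph) and a base point `o`. -/

section graph

variable {α : Type} (E : α → α → Prop) (o : α)

/-- `z` is a common out-neighbour of `x`, `y` -/
def GCN (x y z : α) : Prop := E x z ∧ E y z

/-- `x`, `y` are the two short, `r` the long reflection of a full dihedral coset -/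
def GFull (x y r : α) : Prop :=
  x ≠ y ∧ ∃ c d, c ≠ d ∧ GCN E x y c ∧ GCN E x y d ∧ E c r ∧ E d r

/-- bad pairs, in terms of the graph -/
def GBad (x y : α) : Prop :=
  x ≠ y ∧ E o x ∧ E o y ∧ (¬ ∃ z, GCN E x y z) ∧ ∀ r, E o r → ¬ GFull E x r y ∧ ¬ GFull E y r x

/-- linked bad pairs `{x, y}`, `{x', y'}`, first kind -/
def GL1 (x y x' y' : α) : Prop := ∃ s, E o s ∧ GFull E x s x' ∧ GFull E y' s y

/-- linked bad pairs `{x, y}`, `{x', y'}`, second kind -/
def GL2 (x y x' y' : α) : Prop :=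
  ∃ u1 u2 u3 u4 z, GCN E x x' u1 ∧ GCN E x y' u2 ∧ GCN E y x' u3 ∧ GCN E y y' u4 ∧
    E u1 z ∧ E u2 z ∧ E u3 z ∧ E u4 z

/-- linked bad pairs -/
def GLk (x y x' y' : α) : Prop :=
  x ≠ x' ∧ x ≠ y' ∧ y ≠ x' ∧ y ≠ y' ∧
    (GL1 E o x y x' y' ∨ GL1 E o x y y' x' ∨ GL1 E o y x x' y' ∨ GL1 E o y x y' x' ∨
      GL2 E x y x' y')

end graph

end HQ
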