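import Pool.Agent.LibHQ4.H1

/-!
# Row E0 (MEDIUM): minors of size `> rr w a j` of the SW block vanish on the cell

PLAN. `mem_cell_iff`: `dg (pmat v * umat x) a j = dd w a j`, and `rr_add_dd`: `rr w a j + dd w a j = j`.
Suppose the determinant is nonzero. Consider `L : E n j → (ι → ℂ)`, `y ↦ fun s => (umat x).mulVec y (e s)`.
It is surjective: the vectors `Pi.single (f t) 1 ∈ E n j` are mapped to the columns of the invertible matrix.
So `dim ker L = j - card ι` (`finrank_E`; note `LinearMap.finrank_range_add_finrank_ker`). The space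
`{y ∈ E n j | (pmat v * umat x) y ∈ E n a}` of dimension `dd w a j = j - rr w a j` is contained in `ker L`
(as `a ≤ v (e s)` and `(pmat v).mulVec z (v i) = z i`). So `j - rr w a j ≤ j - card ι`, i.e.
`card ι ≤ rr w a j` (also `card ι ≤ j`), contradiction with `hc`.
-/

set_option autoImplicit false

namespace HQ

open SH MvPolynomial

variable {n : ℕ}

theorem E0 {v w : Equiv.Perm (Fin n)} {x : Lo n → ℂ} (hx : x ∈ Cell v w) {a j : ℕ} (hj : j ≤ n)
    {ι : Type} [Fintype ι] [DecidableEq ι] (e f : ι → Fin n) (he : ∀ s, a ≤ (v (e s)).val)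
    (hf : ∀ s, (f s).val < j) (hc : rr w a j < Fintype.card ι) :
    (Matrix.of fun s t => umat x (e s) (f t)).det = 0 := by
  by_contra hdet
  set B : Matrix ι ι ℂ := Matrix.of fun s t => umat x (e s) (f t) with hB
  let P : Matrix (Fin n) ι ℂ := fun i t => if i = f t then 1 else 0
  have hMP : ∀ (c : ι → ℂ) (s : ι),
      (umat x).mulVec (P.mulVec c) (e s) = B.mulVec c s := by
    intro c s
    rw [Matrix.mulVec_mulVec]
    unfold Matrix.mulVec dotProduct
    refine Finset.sum_congr rfl fun t _ => ?_
    have h1 : (umat x * P) (e s) t = umat x (e s) (f t) := by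
      rw [Matrix.mul_apply, Finset.sum_eq_single (f t)]
      · show umat x (e s) (f t) * (if f t = f t then 1 else 0) = _
        rw [if_pos rfl, mul_one]
      · intro b _ hb
        show umat x (e s) b * (if b = f t then 1 else 0) = 0
        rw [if_neg hb, mul_zero]
      · intro h
        exact absurd (Finset.mem_univ _) h
    show (umat x * P) (e s) t * c t = B s t * c t
    rw [h1]
    rfl
  have hB0 : ∀ c : ι → ℂ, B.mulVec c = 0 → c = 0 := fun c hc0 =>
    Matrix.eq_zero_of_mulVec_eq_zero hdet hc0
  have hinj : Function.Injective P.mulVecLin := by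
    rw [← LinearMap.ker_eq_bot, LinearMap.ker_eq_bot']
    intro c hc0
    apply hB0
    funext s
    rw [← hMP c s]
    rw [Matrix.mulVecLin_apply] at hc0
    rw [hc0, Matrix.mulVec_zero]
    rfl
  set W : Submodule ℂ (Fin n → ℂ) := E n j ⊓ (E n a).comap (pmat v * umat x).mulVecLin with hW
  set R : Submodule ℂ (Fin n → ℂ) := LinearMap.range P.mulVecLin with hR
  have hRW : W ⊓ R = ⊥ := by
    rw [eq_bot_iff]
    intro y hy
    obtain ⟨⟨-, hy1⟩, c, rfl⟩ := hy
    have h0 : c = 0 := by
      apply hB0
      funext s
      rw [← hMP c s]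
      have h2 := hy1 (v (e s)) (he s)
      rw [Matrix.mulVecLin_apply, Matrix.mulVecLin_apply, ← Matrix.mulVec_mulVec] at h2
      have h3 : (pmat v).mulVec ((umat x).mulVec (P.mulVec c)) (v (e s)) =
          (umat x).mulVec (P.mulVec c) (e s) := by
        unfold Matrix.mulVec dotProduct
        rw [Finset.sum_eq_single (e s)]
        · show (if v (e s) = v (e s) then (1 : ℂ) else 0) * _ = _
          rw [if_pos rfl, one_mul]
        · intro b _ hb
          show (if v (e s) = v b then (1 : ℂ) else 0) * _ = _
          rw [if_neg (fun h => hb (v.injective h).symm), zero_mul]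
        · intro h
          exact absurd (Finset.mem_univ _) h
      rw [h3] at h2
      exact h2
    rw [h0, map_zero]
    exact Submodule.zero_mem _
  have hRE : R ≤ E n j := by
    rintro y ⟨c, rfl⟩
    intro i hi
    show (P.mulVec c) i = 0
    unfold Matrix.mulVec dotProduct
    refine Finset.sum_eq_zero fun t _ => ?_
    have h1 : P i t = 0 := by
      show (if i = f t then (1 : ℂ) else 0) = 0
      refine if_neg fun h => ?_
      have h2 := hf t
      rw [← h] at h2
      omega
    show P i t * c t = 0
    rw [h1, zero_mul]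
  have hsum := Submodule.finrank_sup_add_finrank_inf_eq W R
  rw [hRW, finrank_bot, add_zero] at hsum
  have hle : Module.finrank ℂ ↥(W ⊔ R) ≤ Module.finrank ℂ ↥(E n j) :=
    Submodule.finrank_mono (sup_le inf_le_left hRE)
  rw [finrank_E hj] at hle
  have hdW : Module.finrank ℂ ↥W = dd w a j := mem_cell_iff.1 hx a j
  have hdR : Module.finrank ℂ ↥R = Fintype.card ι := by
    rw [hR, LinearMap.finrank_range_of_inj hinj, Module.finrank_fintype_fun_eq_card]
  have hadd := rr_add_dd w a hj
  omega

end HQ
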