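import Pool.Agent.LibHQ4.E0

/-!
# Row E1 (MEDIUM/STRONG): the Schur complement

Fix the box `(a,j)`, `P = {b : Fin n // b < j ∧ a ≤ v b}` (`card P = rr v a j`). Let
`U = umat X` (generic matrix over `MvPolynomial (Lo n) ℂ`), `A = U` restricted to `P × P` (lower
unitriangular, `det A = 1`: `Matrix.det_of_lowerTriangular` on the linear order `P`), and
`S i l := U i l - ∑ b ∈ P, ∑ b' ∈ P, U i b * (adjugate A) b b' * U b' l`.

(1) `S i l - (U i l - ∑_(b ∈ P, l < b) U i b * U b l) ∈ mAt 0 ^ 3` for `l < j`, `v l < a`, `j ≤ i`, `a ≤ v i`: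
`U i b ∈ mAt 0` (as `b < j ≤ i`), `U b' l ∈ mAt 0` or `= 0` (`b' ≠ l` as `v l < a`; it is `0` if `b' < l`), and
`adjugate A - 1` has entries in `mAt 0` (its image under `eval 0` (`mem_mAt`) is
`adjugate 1 = 1`: `RingHom.map_adjugate`).
(2) the determinant of the block matrix `fromBlocks A (U b l_t)_(b,t) (U i_s b)_(s,b) (U i_s l_t)_(s,t)` with
`m` extra rows `i_s` and columns `l_t` is `det A * det (S i_s l_t) = det (S i_s l_t)`
(`Matrix.det_fromBlocks₁₁`, `invOf A = adjugate A` since `det A = 1`), and it vanishes on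
`Cell v w` if `rr w a j < rr v a j + m` by `E0` with `ι = P ⊕ Fin m` (map the matrix by `eval x`,
`umat_map`, `RingHom.map_det`). Use `m = 1` for (2a), `m = 2` for (2b).
In (2b): `det !![S i l, S i l'; S i' l, S i' l'] = S i l * S i' l' - S i l' * S i' l`
(`Matrix.det_fin_two`).
-/

set_option autoImplicit false

namespace HQ

open SH MvPolynomial

variable {n : ℕ}

private theorem E1_up {R : Type*} [Zero R] [One R] (x : Lo n → R) (i j : Fin n) (h : i < j) :
    umat x i j = 0 := by
  unfold umat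
  rw [dif_neg (not_lt.2 h.le), if_neg (ne_of_lt h)]

private theorem E1_diag {R : Type*} [Zero R] [One R] (x : Lo n → R) (i : Fin n) :
    umat x i i = 1 := by
  unfold umat
  rw [dif_neg (lt_irrefl i), if_pos rfl]

private theorem E1_low {R : Type*} [Zero R] [One R] (x : Lo n → R) (i j : Fin n) (h : j < i) :
    umat x i j = x ⟨(i, j), h⟩ := by
  unfold umat
  rw [dif_pos h]

private abbrev E1P (v : Equiv.Perm (Fin n)) (a j : ℕ) : Type :=
  {b : Fin n // b.val < j ∧ a ≤ (v b).val}

private def E1A (v : Equiv.Perm (Fin n)) (a j : ℕ) {R : Type*} (U : Matrix (Fin n) (Fin n) R) :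
    Matrix (E1P v a j) (E1P v a j) R := fun b b' => U b.1 b'.1

private def E1S (v : Equiv.Perm (Fin n)) (a j : ℕ) {R : Type*} [CommRing R]
    (U : Matrix (Fin n) (Fin n) R) (i l : Fin n) : R :=
  U i l - ∑ b : E1P v a j, ∑ b' : E1P v a j, U i b.1 * (E1A v a j U).adjugate b b' * U b'.1 l

private theorem E1A_det (v : Equiv.Perm (Fin n)) (a j : ℕ) {R : Type*} [CommRing R]
    (x : Lo n → R) : (E1A v a j (umat x)).det = 1 := by
  have h1 : (E1A v a j (umat x)).BlockTriangular OrderDual.toDual := fun b b' h =>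
    E1_up x b.1 b'.1 (OrderDual.toDual_lt_toDual.1 h)
  rw [Matrix.det_of_lowerTriangular _ h1]
  exact Finset.prod_eq_one fun b _ => E1_diag x b.1

private theorem E1S_map (v : Equiv.Perm (Fin n)) (a j : ℕ) {R R' : Type*} [CommRing R]
    [CommRing R'] (f : R →+* R') (x : Lo n → R) (i l : Fin n) :
    f (E1S v a j (umat x) i l) = E1S v a j (umat fun p => f (x p)) i l := by
  have h0 : ∀ i l, f (umat x i l) = umat (fun p => f (x p)) i l := by
    intro i l
    rw [← umat_map f x, Matrix.map_apply]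
  have h1 : ∀ b b', f ((E1A v a j (umat x)).adjugate b b') =
      (E1A v a j (umat fun p => f (x p))).adjugate b b' := by
    intro b b'
    have h2 : (E1A v a j (umat x)).adjugate.map f = ((E1A v a j (umat x)).map f).adjugate :=
      RingHom.map_adjugate f _
    have h3 : (E1A v a j (umat x)).map f = E1A v a j (umat fun p => f (x p)) := by
      ext c c'
      exact h0 c.1 c'.1
    rw [← h3, ← h2, Matrix.map_apply]
  unfold E1S
  rw [map_sub, map_sum, h0]
  congr 1
  refine Finset.sum_congr rfl fun b _ => ?_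
  rw [map_sum]
  refine Finset.sum_congr rfl fun b' _ => ?_
  rw [map_mul, map_mul, h0, h0, h1]

private theorem E1_block (v : Equiv.Perm (Fin n)) (a j : ℕ) {R : Type*} [CommRing R]
    (x : Lo n → R) {m : ℕ} (is ls : Fin m → Fin n) :
    (Matrix.of fun s t : E1P v a j ⊕ Fin m =>
      umat x (Sum.elim (fun b => b.1) is s) (Sum.elim (fun b => b.1) ls t)).det =
      (Matrix.of fun s t => E1S v a j (umat x) (is s) (ls t)).det := by
  have hA : (E1A v a j (umat x)).det = 1 := E1A_det v a j x
  have h0 : Invertible (E1A v a j (umat x)).det := by rw [hA]; exact invertibleOne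
  have h0' : Invertible (E1A v a j (umat x)) := Matrix.invertibleOfDetInvertible _
  have hinv : ⅟(E1A v a j (umat x)) = (E1A v a j (umat x)).adjugate := by
    refine invOf_eq_right_inv ?_
    rw [Matrix.mul_adjugate, hA, one_smul]
  have e1 : (Matrix.of fun s t : E1P v a j ⊕ Fin m =>
      umat x (Sum.elim (fun b => b.1) is s) (Sum.elim (fun b => b.1) ls t)) =
      Matrix.fromBlocks (E1A v a j (umat x)) (Matrix.of fun b t => umat x b.1 (ls t))
        (Matrix.of fun s b => umat x (is s) b.1) (Matrix.of fun s t => umat x (is s) (ls t)) := by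
    ext s t
    rcases s with s | s <;> rcases t with t | t <;> rfl
  rw [e1, Matrix.det_fromBlocks₁₁, hA, one_mul, hinv]
  congr 1
  ext s t
  rw [Matrix.sub_apply, Matrix.of_apply, Matrix.of_apply, Matrix.mul_apply]
  unfold E1S
  congr 1
  simp only [Matrix.mul_apply, Matrix.of_apply, Finset.sum_mul]
  rw [Finset.sum_comm]

private theorem E1_zero {v w : Equiv.Perm (Fin n)} {a j : ℕ} (hj : j ≤ n) {x : Lo n → ℂ}
    (hx : x ∈ Cell v w) {m : ℕ} (hm : rr w a j < rr v a j + m) (is ls : Fin m → Fin n)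
    (h1 : ∀ s, a ≤ (v (is s)).val) (h2 : ∀ s, (ls s).val < j) :
    (Matrix.of fun s t => E1S v a j (umat x) (is s) (ls t)).det = 0 := by
  rw [← E1_block]
  refine E0 (a := a) hx hj _ _ ?_ ?_ ?_
  · rintro (s | s)
    · exact s.2.2
    · exact h1 s
  · rintro (s | s)
    · exact s.2.1
    · exact h2 s
  · rw [Fintype.card_sum, Fintype.card_fin, Fintype.card_subtype]
    exact hm

private theorem E1_eval (v : Equiv.Perm (Fin n)) (a j : ℕ) (x : Lo n → ℂ) (i l : Fin n) :
    eval x (E1S v a j (umat fun r => (X r : MvPolynomial (Lo n) ℂ)) i l) =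
      E1S v a j (umat x) i l := by
  rw [E1S_map v a j (eval x)]
  simp only [eval_X]

private theorem E1_mem_low (x y : Fin n) (h : y < x) :
    umat (fun r => (X r : MvPolynomial (Lo n) ℂ)) x y ∈ mAt (0 : Lo n → ℂ) := by
  rw [E1_low _ _ _ h, mem_mAt, eval_X]
  rfl

private theorem E1_mem_ne (x y : Fin n) (h : x ≠ y) :
    umat (fun r => (X r : MvPolynomial (Lo n) ℂ)) x y ∈ mAt (0 : Lo n → ℂ) := by
  rcases lt_or_gt_of_ne h with h | h
  · rw [E1_up _ _ _ h]
    exact zero_mem _
  · exact E1_mem_low _ _ h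

private theorem E1_adj (v : Equiv.Perm (Fin n)) (a j : ℕ) (b b' : E1P v a j) :
    (E1A v a j (umat fun r => (X r : MvPolynomial (Lo n) ℂ))).adjugate b b' -
      (1 : Matrix (E1P v a j) (E1P v a j) (MvPolynomial (Lo n) ℂ)) b b' ∈
        mAt (0 : Lo n → ℂ) := by
  rw [mem_mAt, map_sub]
  have h2 : (E1A v a j (umat fun r => (X r : MvPolynomial (Lo n) ℂ))).adjugate.map
      (eval (0 : Lo n → ℂ)) = ((E1A v a j (umat fun r =>
        (X r : MvPolynomial (Lo n) ℂ))).map (eval (0 : Lo n → ℂ))).adjugate :=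
    RingHom.map_adjugate _ _
  have h3 : (E1A v a j (umat fun r => (X r : MvPolynomial (Lo n) ℂ))).map
      (eval (0 : Lo n → ℂ)) = 1 := by
    ext c c'
    rw [Matrix.map_apply]
    show eval (0 : Lo n → ℂ) (umat (fun r => (X r : MvPolynomial (Lo n) ℂ)) c.1 c'.1) = _
    by_cases h : c = c'
    · subst h
      rw [E1_diag, map_one, Matrix.one_apply_eq]
    · rw [Matrix.one_apply_ne h]
      exact mem_mAt.1 (E1_mem_ne _ _ fun h' => h (Subtype.ext h'))
  have h4 := congrFun (congrFun h2 b) b'
  rw [h3, Matrix.adjugate_one, Matrix.map_apply] at h4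
  rw [h4]
  by_cases h : b = b'
  · subst h
    rw [Matrix.one_apply_eq, Matrix.one_apply_eq, map_one, sub_self]
  · rw [Matrix.one_apply_ne h, Matrix.one_apply_ne h, map_zero, sub_self]

theorem E1 (v w : Equiv.Perm (Fin n)) (a j : ℕ) (hj : j ≤ n) :
    ∃ S : Fin n → Fin n → MvPolynomial (Lo n) ℂ,
      (∀ i l : Fin n, j ≤ i.val → a ≤ (v i).val → l.val < j → (v l).val < a →
        S i l - (umat (fun r => X r) i l - ∑ b ∈ Finset.univ.filter (fun b : Fin n =>
            l < b ∧ b.val < j ∧ a ≤ (v b).val),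
          umat (fun r => X r) i b * umat (fun r => X r) b l) ∈ mAt (0 : Lo n → ℂ) ^ 3) ∧
      (rr w a j ≤ rr v a j → ∀ i l : Fin n, j ≤ i.val → a ≤ (v i).val → l.val < j →
        (v l).val < a → S i l ∈ vanishingIdeal ℂ (Cell v w)) ∧
      (rr w a j ≤ rr v a j + 1 → ∀ i i' l l' : Fin n, j ≤ i.val → a ≤ (v i).val → j ≤ i'.val →
        a ≤ (v i').val → l.val < j → (v l).val < a → l'.val < j → (v l').val < a →
        S i l * S i' l' - S i l' * S i' l ∈ vanishingIdeal ℂ (Cell v w)) := by
  classical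
  refine ⟨E1S v a j (umat fun r => (X r : MvPolynomial (Lo n) ℂ)), ?_, ?_, ?_⟩
  · intro i l hi hvi hl hvl
    set U := umat (fun r => (X r : MvPolynomial (Lo n) ℂ)) with hU
    set Q := E1P v a j with hQ
    -- the sum over `P`, without the adjugate
    have e1 : ∑ b ∈ Finset.univ.filter (fun b : Fin n => l < b ∧ b.val < j ∧ a ≤ (v b).val),
        U i b * U b l = ∑ b : Q, ∑ b' : Q, U i b.1 * (1 : Matrix Q Q _) b b' * U b'.1 l := by
      have e2 : ∀ b : Q, ∑ b' : Q, U i b.1 * (1 : Matrix Q Q (MvPolynomial (Lo n) ℂ)) b b' *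
          U b'.1 l = U i b.1 * U b.1 l := by
        intro b
        rw [Finset.sum_eq_single b]
        · rw [Matrix.one_apply_eq, mul_one]
        · intro b' _ hb'
          rw [Matrix.one_apply_ne (Ne.symm hb'), mul_zero, zero_mul]
        · intro hb
          exact absurd (Finset.mem_univ b) hb
      rw [Finset.sum_congr rfl fun b _ => e2 b]
      have e3 : ∑ b : Q, U i b.1 * U b.1 l =
          ∑ b ∈ Finset.univ.filter (fun b : Fin n => b.val < j ∧ a ≤ (v b).val),
            U i b * U b l := by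
        rw [Finset.sum_subtype (Finset.univ.filter fun b : Fin n => b.val < j ∧ a ≤ (v b).val)
          (p := fun b : Fin n => b.val < j ∧ a ≤ (v b).val) (by simp)]
      rw [e3]
      refine Finset.sum_subset ?_ ?_
      · intro b hb
        rw [Finset.mem_filter] at hb ⊢
        exact ⟨hb.1, hb.2.2⟩
      · intro b hb hb'
        rw [Finset.mem_filter] at hb hb'
        have h1 : ¬ l < b := fun h => hb' ⟨Finset.mem_univ _, h, hb.2⟩
        have h2 : b ≠ l := by
          rintro rfl
          have := hb.2.2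
          omega
        rw [hU, E1_up _ b l (lt_of_le_of_ne (not_lt.1 h1) h2), mul_zero]
    have e4 : E1S v a j U i l - (U i l - ∑ b ∈ Finset.univ.filter (fun b : Fin n =>
            l < b ∧ b.val < j ∧ a ≤ (v b).val), U i b * U b l) =
        - ∑ b : Q, ∑ b' : Q, U i b.1 * ((E1A v a j U).adjugate b b' -
          (1 : Matrix Q Q (MvPolynomial (Lo n) ℂ)) b b') * U b'.1 l := by
      rw [e1]
      unfold E1S
      have e5 : ∀ b b' : Q, U i b.1 * ((E1A v a j U).adjugate b b' -
          (1 : Matrix Q Q (MvPolynomial (Lo n) ℂ)) b b') * U b'.1 l =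
          U i b.1 * (E1A v a j U).adjugate b b' * U b'.1 l -
            U i b.1 * (1 : Matrix Q Q (MvPolynomial (Lo n) ℂ)) b b' * U b'.1 l := by
        intro b b'
        ring
      simp only [e5, Finset.sum_sub_distrib]
      ring
    rw [e4]
    refine neg_mem (sum_mem fun b _ => sum_mem fun b' _ => ?_)
    have m1 : U i b.1 ∈ mAt (0 : Lo n → ℂ) := by
      refine E1_mem_low _ _ ?_
      have := b.2.1
      show b.1.val < i.val
      omega
    have m2 := E1_adj v a j b b'
    have m3 : U b'.1 l ∈ mAt (0 : Lo n → ℂ) := by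
      refine E1_mem_ne _ _ ?_
      rintro rfl
      have := b'.2.2
      omega
    have m4 := Ideal.mul_mem_mul (Ideal.mul_mem_mul m1 m2) m3
    rwa [← pow_two, ← pow_succ] at m4
  · intro h i l hi hvi hl hvl
    rw [mem_vanishingIdeal_iff]
    intro x hx
    have h1 := E1_zero (m := 1) hj hx (show rr w a j < rr v a j + 1 by omega) (fun _ => i)
      (fun _ => l) (fun _ => hvi) (fun _ => hl)
    rw [Matrix.det_fin_one] at h1
    rw [← E1_eval] at h1
    exact h1
  · intro h i i' l l' hi hvi hi' hvi' hl hvl hl' hvl'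
    rw [mem_vanishingIdeal_iff]
    intro x hx
    have h1 := E1_zero (m := 2) hj hx (show rr w a j < rr v a j + 2 by omega) ![i, i'] ![l, l']
      (by intro s; fin_cases s; exacts [hvi, hvi']) (by intro s; fin_cases s; exacts [hl, hl'])
    rw [Matrix.det_fin_two] at h1
    have h2 : E1S v a j (umat x) i l * E1S v a j (umat x) i' l' -
        E1S v a j (umat x) i l' * E1S v a j (umat x) i' l = 0 := h1
    rw [← E1_eval, ← E1_eval, ← E1_eval, ← E1_eval] at h2
    rw [map_sub, map_mul, map_mul]
    exact h2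

end HQ
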