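import Pool.Agent.LibHQ4.E1

/-!
# Row E2 (SHORT): the relations modulo `m ^ 3`

* `E2a`: tight box: from `E1`, first two parts: `rhs = S - (S - rhs)`.
* `E2b`: `D = 1`: `S i l ∈ mAt 0`, `S i l - X (i,l) ∈ mAt 0 ^ 2` (first part and the products are in
  `mAt 0 ^ 2`), so `S S' - S'' S''' - (X X - X X) ∈ mAt 0 ^ 3`
  (`a b - a' b' = a (b - b') + (a - a') b'`).
* `E2c`: not in `T`: there is a box of the rectangle with `rr w a j ≤ rr v a j`, `E2a` and the products are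
  in `mAt 0 ^ 2`.
* `E2d`: `E2c` times `X q ∈ mAt 0`.
`umat (fun r => X r) i l = X ⟨(i,l), _⟩` for `l < i`. `X r ∈ mAt 0` by `mem_mAt`.
-/

set_option autoImplicit false

namespace HQ

open SH MvPolynomial

variable {n : ℕ}

private theorem e2_X (r : Lo n) : (X r : MvPolynomial (Lo n) ℂ) ∈ mAt (0 : Lo n → ℂ) := by
  rw [mem_mAt, eval_X]
  rfl

private theorem e2_umat {i l : Fin n} (h : l < i) :
    umat (fun r => (X r : MvPolynomial (Lo n) ℂ)) i l = X ⟨(i, l), h⟩ := by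
  unfold umat
  rw [dif_pos h]

private theorem e2_umatm {i l : Fin n} (h : l < i) :
    umat (fun r => (X r : MvPolynomial (Lo n) ℂ)) i l ∈ mAt (0 : Lo n → ℂ) := by
  rw [e2_umat h]
  exact e2_X _

/-- the products are in the square -/
private theorem e2_sum (v : Equiv.Perm (Fin n)) (a j : ℕ) {i l : Fin n} (hi : j ≤ i.val) :
    ∑ b ∈ Finset.univ.filter (fun b : Fin n => l < b ∧ b.val < j ∧ a ≤ (v b).val),
      umat (fun r => (X r : MvPolynomial (Lo n) ℂ)) i b * umat (fun r => X r) b l ∈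
        mAt (0 : Lo n → ℂ) ^ 2 := by
  refine Submodule.sum_mem _ fun b hb => ?_
  rw [Finset.mem_filter] at hb
  have hbi : b < i := by
    show b.val < i.val
    omega
  rw [pow_two]
  exact Ideal.mul_mem_mul (e2_umatm hbi) (e2_umatm hb.2.1)

private theorem e2_S {S u t : MvPolynomial (Lo n) ℂ}
    (h : S - (u - t) ∈ mAt (0 : Lo n → ℂ) ^ 3) (ht : t ∈ mAt (0 : Lo n → ℂ) ^ 2) :
    S - u ∈ mAt (0 : Lo n → ℂ) ^ 2 := by
  have h1 : S - (u - t) ∈ mAt (0 : Lo n → ℂ) ^ 2 := Ideal.pow_le_pow_right (by norm_num) h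
  have h2 : S - u = (S - (u - t)) - t := by ring
  rw [h2]
  exact Ideal.sub_mem _ h1 ht

private theorem e2_mul {S S' u u' : MvPolynomial (Lo n) ℂ}
    (h : S - u ∈ mAt (0 : Lo n → ℂ) ^ 2) (h' : S' - u' ∈ mAt (0 : Lo n → ℂ) ^ 2)
    (hu : u ∈ mAt (0 : Lo n → ℂ)) (hu' : u' ∈ mAt (0 : Lo n → ℂ)) :
    S * S' - u * u' ∈ mAt (0 : Lo n → ℂ) ^ 3 := by
  have hS : S ∈ mAt (0 : Lo n → ℂ) := by
    have h1 : S - u ∈ mAt (0 : Lo n → ℂ) := Ideal.pow_le_self (by norm_num) h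
    have h2 := Ideal.add_mem _ h1 hu
    rwa [sub_add_cancel] at h2
  have h3 : S * S' - u * u' = (S' - u') * S + (S - u) * u' := by ring
  rw [h3, pow_succ]
  exact Ideal.add_mem _ (Ideal.mul_mem_mul h' hS) (Ideal.mul_mem_mul h hu')

theorem E2a {v w : Equiv.Perm (Fin n)} {p : Lo n} {a j : ℕ} (hA : Act v p a j)
    (ht : rr w a j ≤ rr v a j) :
    (X p : MvPolynomial (Lo n) ℂ) - ∑ b ∈ Finset.univ.filter (fun b : Fin n =>
        p.1.2 < b ∧ b.val < j ∧ a ≤ (v b).val),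
      umat (fun r => X r) p.1.1 b * umat (fun r => X r) b p.1.2 ∈
      vanishingIdeal ℂ (Cell v w) ⊔ mAt (0 : Lo n → ℂ) ^ 3 := by
  obtain ⟨S, s1, s2, -⟩ := E1 v w a j hA.le.2
  obtain ⟨c1, c2, c3, c4⟩ := hA
  have h1 := s1 p.1.1 p.1.2 c2 c4 c1 c3
  have h2 := s2 ht p.1.1 p.1.2 c2 c4 c1 c3
  rw [e2_umat p.2] at h1
  have h3 := Ideal.sub_mem _ (Ideal.mem_sup_left (T := mAt (0 : Lo n → ℂ) ^ 3) h2)
    (Ideal.mem_sup_right (S := vanishingIdeal ℂ (Cell v w)) h1)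
  rw [sub_sub_cancel] at h3
  exact h3

theorem E2b {v w : Equiv.Perm (Fin n)} {p q p' q' : Lo n} {a j : ℕ} (hp : Act v p a j)
    (hq : Act v q a j) (h1 : p'.1 = (p.1.1, q.1.2)) (h2 : q'.1 = (q.1.1, p.1.2))
    (ht : rr w a j ≤ rr v a j + 1) :
    (X p * X q - X p' * X q' : MvPolynomial (Lo n) ℂ) ∈
      vanishingIdeal ℂ (Cell v w) ⊔ mAt (0 : Lo n → ℂ) ^ 3 := by
  obtain ⟨S, s1, -, s3⟩ := E1 v w a j hp.le.2
  obtain ⟨c1, c2, c3, c4⟩ := hp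
  obtain ⟨d1, d2, d3, d4⟩ := hq
  obtain ⟨⟨p1, p2⟩, hp'⟩ := p'
  obtain ⟨⟨q1, q2⟩, hq'⟩ := q'
  simp only [Prod.mk.injEq] at h1 h2
  obtain ⟨rfl, rfl⟩ := h1
  obtain ⟨rfl, rfl⟩ := h2
  have key : ∀ i l : Fin n, ∀ hli : l < i, j ≤ i.val → a ≤ (v i).val → l.val < j →
      (v l).val < a → S i l - X ⟨(i, l), hli⟩ ∈ mAt (0 : Lo n → ℂ) ^ 2 := by
    intro i l hli e1 e2 e3 e4
    have h := s1 i l e1 e2 e3 e4
    rw [e2_umat hli] at h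
    exact e2_S h (e2_sum v a j e1)
  have k1 := key p.1.1 p.1.2 p.2 c2 c4 c1 c3
  have k2 := key q.1.1 q.1.2 q.2 d2 d4 d1 d3
  have k3 := key p.1.1 q.1.2 hp' c2 c4 d1 d3
  have k4 := key q.1.1 p.1.2 hq' d2 d4 c1 c3
  have m1 := e2_mul k1 k2 (e2_X _) (e2_X _)
  have m2 := e2_mul k3 k4 (e2_X _) (e2_X _)
  have h3 := s3 ht p.1.1 q.1.1 p.1.2 q.1.2 c2 c4 d2 d4 c1 c3 d1 d3
  have h4 := Ideal.sub_mem _ (Ideal.mem_sup_left (T := mAt (0 : Lo n → ℂ) ^ 3) h3)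
    (Ideal.mem_sup_right (S := vanishingIdeal ℂ (Cell v w)) (Ideal.sub_mem _ m1 m2))
  have h5 : (X p * X q - X ⟨(p.1.1, q.1.2), hp'⟩ * X ⟨(q.1.1, p.1.2), hq'⟩ :
      MvPolynomial (Lo n) ℂ) =
      S p.1.1 p.1.2 * S q.1.1 q.1.2 - S p.1.1 q.1.2 * S q.1.1 p.1.2 -
      (S p.1.1 p.1.2 * S q.1.1 q.1.2 - X ⟨(p.1.1, p.1.2), p.2⟩ * X ⟨(q.1.1, q.1.2), q.2⟩ -
        (S p.1.1 q.1.2 * S q.1.1 p.1.2 -
          X ⟨(p.1.1, q.1.2), hp'⟩ * X ⟨(q.1.1, p.1.2), hq'⟩)) := by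
    have e1 : (⟨(p.1.1, p.1.2), p.2⟩ : Lo n) = p := rfl
    have e2 : (⟨(q.1.1, q.1.2), q.2⟩ : Lo n) = q := rfl
    rw [e1, e2]
    ring
  rw [h5]
  exact h4

theorem E2c {v w : Equiv.Perm (Fin n)} {p : Lo n} (hp : ¬ InT v w p) :
    (X p : MvPolynomial (Lo n) ℂ) ∈ vanishingIdeal ℂ (Cell v w) ⊔ mAt (0 : Lo n → ℂ) ^ 2 := by
  unfold InT at hp
  push Not at hp
  obtain ⟨a, j, hA, ht⟩ := hp
  have h1 := E2a hA ht
  have h2 : vanishingIdeal ℂ (Cell v w) ⊔ mAt (0 : Lo n → ℂ) ^ 3 ≤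
      vanishingIdeal ℂ (Cell v w) ⊔ mAt (0 : Lo n → ℂ) ^ 2 :=
    sup_le_sup_left (Ideal.pow_le_pow_right (by norm_num)) _
  have h3 := Ideal.add_mem _ (h2 h1) (Ideal.mem_sup_right (S := vanishingIdeal ℂ (Cell v w))
    (e2_sum v a j (i := p.1.1) (l := p.1.2) hA.2.1))
  rw [sub_add_cancel] at h3
  exact h3

theorem E2d {v w : Equiv.Perm (Fin n)} {p : Lo n} (hp : ¬ InT v w p) (q : Lo n) :
    (X p * X q : MvPolynomial (Lo n) ℂ) ∈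
      vanishingIdeal ℂ (Cell v w) ⊔ mAt (0 : Lo n → ℂ) ^ 3 := by
  have h1 := Ideal.mul_mem_mul (E2c hp) (e2_X q)
  rw [Ideal.sup_mul, ← pow_succ] at h1
  have h2 : vanishingIdeal ℂ (Cell v w) * mAt (0 : Lo n → ℂ) ⊔ mAt (0 : Lo n → ℂ) ^ (2 + 1) ≤
      vanishingIdeal ℂ (Cell v w) ⊔ mAt (0 : Lo n → ℂ) ^ 3 :=
    sup_le_sup_right Ideal.mul_le_left _
  exact h2 h1

end HQ
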