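import Pool.Agent.LibHQ4.E2

/-!
# Row E3 (SHORT/MEDIUM): the relation of a disjoint bad pair

`p = (i,k)`, `q = (i',k')`, box `(a,j)` in both rectangles with `rr w a j ≤ rr v a j + 1`. Then
`k' < j ≤ i`, `k < j ≤ i'`: `p' = (i,k')`, `q' = (i',k)` exist, and the box is in their rectangles. `E2b`:
`X p X q - X p' X q' ∈ J`. If one of `p', q'` is not in `T`: `X p' X q' ∈ J` by `E2d`, take `c = 0`.
Otherwise `Bad p' q'` (same box, `BadD`), `lab p' q' = lab p q` (`rws`, `cls` by `Finset.pair_comm`-type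
reasoning, all four positions are distinct; the third parts are both empty since
`p.1.2 ≠ q.1.1` etc.): take `c p' q' = 1`, all others 0.
-/

set_option autoImplicit false

namespace HQ

open SH MvPolynomial

variable {n : ℕ}

theorem E3 {v w : Equiv.Perm (Fin n)} {p q : Lo n} (hp : InT v w p) (hq : InT v w q)
    (hb : BadD v w p q) :
    ∃ c : Lo n → Lo n → ℂ,
      X p * X q - ∑ p', ∑ q', C (c p' q') * (X p' * X q') ∈
        vanishingIdeal ℂ (Cell v w) ⊔ mAt (0 : Lo n → ℂ) ^ 3 ∧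
      ∀ p' q', c p' q' ≠ 0 → Bad v w p' q' ∧ lab v w p' q' = lab v w p q ∧
        ¬ (p' = p ∧ q' = q) ∧ ¬ (p' = q ∧ q' = p) := by
  classical
  obtain ⟨hn1, hn2, hn3, hn4, a, j, hpa, hqa, ht⟩ := hb
  have hlt1 : q.1.2 < p.1.1 := by
    show q.1.2.val < p.1.1.val
    have h1 := hqa.1
    have h2 := hpa.2.1
    omega
  have hlt2 : p.1.2 < q.1.1 := by
    show p.1.2.val < q.1.1.val
    have h1 := hpa.1
    have h2 := hqa.2.1
    omega
  let p1 : Lo n := ⟨(p.1.1, q.1.2), hlt1⟩
  let q1 : Lo n := ⟨(q.1.1, p.1.2), hlt2⟩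
  have hrel := E2b (v := v) (w := w) (p := p) (q := q) (p' := p1) (q' := q1) hpa hqa rfl rfl ht
  by_cases hT : InT v w p1 ∧ InT v w q1
  · obtain ⟨hT1, hT2⟩ := hT
    refine ⟨fun p' q' => if p' = p1 ∧ q' = q1 then 1 else 0, ?_, ?_⟩
    · have hs : (∑ p', ∑ q', C (if p' = p1 ∧ q' = q1 then (1 : ℂ) else 0) * (X p' * X q') :
          MvPolynomial (Lo n) ℂ) = X p1 * X q1 := by
        rw [Finset.sum_eq_single p1]
        · rw [Finset.sum_eq_single q1]
          · rw [if_pos ⟨rfl, rfl⟩, C_1, one_mul]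
          · intro b _ hb
            rw [if_neg (fun h => hb h.2), C_0, zero_mul]
          · intro h
            exact absurd (Finset.mem_univ _) h
        · intro b _ hb
          refine Finset.sum_eq_zero fun c _ => ?_
          rw [if_neg (fun h => hb h.1), C_0, zero_mul]
        · intro h
          exact absurd (Finset.mem_univ _) h
      rw [hs]
      exact hrel
    · intro p' q' hc
      have h12 : p' = p1 ∧ q' = q1 := by
        by_contra h
        exact hc (if_neg h)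
      obtain ⟨rfl, rfl⟩ := h12
      refine ⟨⟨hT1, hT2, Or.inl ⟨hn1, fun h => hn2 h.symm, ne_of_gt p.2, ne_of_lt q.2, a, j,
        ⟨hqa.1, hpa.2.1, hqa.2.2.1, hpa.2.2.2⟩, ⟨hpa.1, hqa.2.1, hpa.2.2.1, hqa.2.2.2⟩, ht⟩⟩,
        ?_, ?_, ?_⟩
      · have e1 : rws p1 q1 = rws p q := by
          show ({p.1.1, q.1.1} \ {q.1.2, p.1.2} : Finset (Fin n)) =
            {p.1.1, q.1.1} \ {p.1.2, q.1.2}
          rw [Finset.pair_comm q.1.2 p.1.2]
        have e2 : cls p1 q1 = cls p q := by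
          show ({q.1.2, p.1.2} \ {p.1.1, q.1.1} : Finset (Fin n)) =
            {p.1.2, q.1.2} \ {p.1.1, q.1.1}
          rw [Finset.pair_comm q.1.2 p.1.2]
        have e3 : ∀ r s : Lo n, r.1.2 ≠ s.1.1 → bx1 v w r s = ∅ := by
          intro r s hrs
          rw [Set.eq_empty_iff_forall_notMem]
          intro β hβ
          exact hrs hβ.1
        have f1 : bx1 v w p1 q1 = ∅ := e3 p1 q1 (ne_of_lt q.2)
        have f2 : bx1 v w q1 p1 = ∅ := e3 q1 p1 (ne_of_lt p.2)
        have f3 : bx1 v w p q = ∅ := e3 p q hn4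
        have f4 : bx1 v w q p = ∅ := e3 q p fun h => hn3 h.symm
        unfold lab
        rw [e1, e2, f1, f2, f3, f4]
      · rintro ⟨h, -⟩
        exact hn2 (congrArg (fun r : Lo n => r.1.2) h).symm
      · rintro ⟨h, -⟩
        have h2 := congrArg (fun r : Lo n => r.1.1) h
        exact hn1 h2
  · refine ⟨fun _ _ => 0, ?_, fun p' q' h => absurd rfl h⟩
    have h0 : (X p1 * X q1 : MvPolynomial (Lo n) ℂ) ∈
        vanishingIdeal ℂ (Cell v w) ⊔ mAt (0 : Lo n → ℂ) ^ 3 := by
      by_cases h1 : InT v w p1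
      · have h2 : ¬ InT v w q1 := fun h => hT ⟨h1, h⟩
        rw [mul_comm]
        exact E2d h2 p1
      · exact E2d h1 q1
    have h3 := Ideal.add_mem _ hrel h0
    rw [sub_add_cancel] at h3
    have h4 : (∑ p' : Lo n, ∑ q' : Lo n, C (0 : ℂ) * (X p' * X q') :
        MvPolynomial (Lo n) ℂ) = 0 := by
      refine Finset.sum_eq_zero fun b _ => Finset.sum_eq_zero fun c _ => ?_
      rw [C_0, zero_mul]
    rw [h4, sub_zero]
    exact h3

end HQ
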