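import Pool.Agent.LibHQ4.E2

/-!
# Row E4 (STRONG): the relation of a bad chain

`p = (i,k)`, `q = (k,l)`, `l < k < i`; `r₀ = (i,l)`. A tight box `β = (a,j)` of the rectangle of `r₀`
(`l < j ≤ i`, `v l < a ≤ v i`, `rr w a j = rr v a j`; for `v ≤ w` tight means `≤`). For `b` with `l < b < i` write
`b ∈ P β` for `b < j ∧ a ≤ v b`. (`SW p q β` = tight, in the rectangle of `r₀` and `k ∈ P β`, `NE p q β` =
tight, in the rectangle and `j ≤ k`, `v k < a`.)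
Let `B'` = the `b` with `l < b < i` and `(i,b), (b,l) ∈ T` (`InT`).
(i) for `b ∈ B'` and every tight `β` in the rectangle of `r₀` with `b ∉ P β`: `j ≤ b` and `v b < a`. Proof: if `b < j`
    then `v b < a`, so `β` is in the rectangle of `(i,b)` (`b < j ≤ i`, `v b < a ≤ v i`): contradiction to `InT`.
    So `j ≤ b`; if `a ≤ v b` then `β` is in the rectangle of `(b,l)`: contradiction.
(ii) NESTED: `β, β'` tight in the rectangle of `r₀`, `b, b' ∈ B'`, `b ∈ P β`, `b ∉ P β'`, `b' ∈ P β'` ⇒ `b' ∈ P β`: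
    otherwise by (i) `j' ≤ b`, `j ≤ b'`, and `b < j`, `b' < j'`: `b < j ≤ b' < j' ≤ b`.
(iii) choose `β₊` among the SW boxes of `(p,q)` with `#{b ∈ B' | b ∈ P β₊}` minimal, `β₋` among the NE boxes of `(p,q)`
    with `#{b ∈ B' | b ∈ P β₋}` maximal. By (ii) (nestedness of the finite sets `P β ∩ B'`, comparing
    cardinalities): for every tight `β` with `k ∈ P β`: `P β₊ ∩ B' ⊆ P β ∩ B'`; for every tight `β` with
    `k ∉ P β`: `P β ∩ B' ⊆ P β₋ ∩ B'`. (For two tight boxes the sets are comparable by (ii).)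
(iv) `b ∈ B'` with `b ∈ P β₊`, `b ∉ P β₋`: then `(i,b), (b,l)` is a bad chain (`β₊` is SW, `β₋` is NE for it by (i))
    with the same label: `SW (i,b) (b,l) β ↔ SW (i,k) (k,l) β` for all `β`: both mean tight + rectangle + (`b ∈ P β`
    resp. `k ∈ P β`), equivalent by (iii). `rws = {i}`, `cls = {l}` for both; `bx1 q p = ∅` (`q.1.2 = l ≠ i`).
(v) `E2a` for `r₀` and `β₊`, `β₋`; subtract:
    `∑_(b ∈ P β₊, l < b) x_(ib) x_(bl) - ∑_(b ∈ P β₋, l < b) x_(ib) x_(bl) ∈ J`. Terms with `b ∉ B'` are in `J`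
    (`E2d`). Terms with `b ∈ B'`: `P β₋ ∩ B' ⊆ P β₊ ∩ B'` by (ii) applied to `k` (`k ∈ P β₊`, `k ∉ P β₋`), so what
    remains is `∑_(b ∈ B', b ∈ P β₊, b ∉ P β₋) x_(ib) x_(bl) ∈ J`, and `b = k` is one of the terms:
    `x_p x_q = X p * X q`. Take `c (i,b) (b,l) = -1` for the `b ≠ k` of this set, all others 0.
-/

set_option autoImplicit false

namespace HQ

open SH MvPolynomial

variable {n : ℕ}

private def RB (v w : Equiv.Perm (Fin n)) (i l : Fin n) (a j : ℕ) : Prop :=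
  l.val < j ∧ j ≤ i.val ∧ (v l).val < a ∧ a ≤ (v i).val ∧ rr w a j = rr v a j

private def PB (v : Equiv.Perm (Fin n)) (a j : ℕ) (b : Fin n) : Prop := b.val < j ∧ a ≤ (v b).val

private def TB (v w : Equiv.Perm (Fin n)) (i l b : Fin n) : Prop :=
  ∃ (h1 : l < b) (h2 : b < i), InT v w ⟨(i, b), h2⟩ ∧ InT v w ⟨(b, l), h1⟩

private theorem E4_one {v w : Equiv.Perm (Fin n)} {i l b : Fin n} {a j : ℕ}
    (hb : TB v w i l b) (hR : RB v w i l a j) (hP : ¬ PB v a j b) :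
    j ≤ b.val ∧ (v b).val < a := by
  obtain ⟨h1, h2, t1, t2⟩ := hb
  obtain ⟨r1, r2, r3, r4, r5⟩ := hR
  have hj : j ≤ b.val := by
    by_contra hc
    have hc' : b.val < j := by omega
    have hv : (v b).val < a := by
      by_contra hd
      exact hP ⟨hc', by omega⟩
    have := t1 a j ⟨hc', r2, hv, r4⟩
    omega
  refine ⟨hj, ?_⟩
  by_contra hd
  have := t2 a j ⟨r1, hj, r3, by show a ≤ (v b).val; omega⟩
  omega

private theorem E4_two {v w : Equiv.Perm (Fin n)} {i l b b' : Fin n} {a j a' j' : ℕ}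
    (hR : RB v w i l a j) (hR' : RB v w i l a' j') (hb : TB v w i l b) (hb' : TB v w i l b')
    (h1 : PB v a j b) (h2 : ¬ PB v a' j' b) (h3 : PB v a' j' b') : PB v a j b' := by
  by_contra hc
  have e1 := E4_one hb' hR hc
  have e2 := E4_one hb hR' h2
  have e3 := h1.1
  have e4 := h3.1
  omega

private theorem E4_min {α : Type} (P : α → Prop) (f : α → ℕ) (h : ∃ x, P x) :
    ∃ x, P x ∧ ∀ y, P y → f x ≤ f y := by
  classical
  have h1 : ∃ m, ∃ x, P x ∧ f x = m := by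
    obtain ⟨x, hx⟩ := h
    exact ⟨f x, x, hx, rfl⟩
  obtain ⟨x, hx, hm⟩ := Nat.find_spec h1
  refine ⟨x, hx, fun y hy => ?_⟩
  rw [hm]
  exact Nat.find_min' h1 ⟨y, hy, rfl⟩

private theorem E4_lab (p q : Lo n) (h : p.1.2 = q.1.1) :
    rws p q = {p.1.1} ∧ cls p q = {q.1.2} ∧ q.1.2 ≠ p.1.1 := by
  have h1 : p.1.2 < p.1.1 := p.2
  have h2 : q.1.2 < q.1.1 := q.2
  rw [← h] at h2
  refine ⟨?_, ?_, ?_⟩
  · ext x
    unfold rws
    simp only [Finset.mem_sdiff, Finset.mem_insert, Finset.mem_singleton, ← h]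
    constructor
    · rintro ⟨h3 | h3, h4⟩
      · exact h3
      · exact absurd (Or.inl h3) h4
    · rintro rfl
      refine ⟨Or.inl rfl, ?_⟩
      rintro (h5 | h5)
      · exact absurd h5 h1.ne'
      · exact absurd h5 (h2.trans h1).ne'
  · ext x
    unfold cls
    simp only [Finset.mem_sdiff, Finset.mem_insert, Finset.mem_singleton, ← h]
    constructor
    · rintro ⟨h3 | h3, h4⟩
      · exact absurd (Or.inr h3) h4
      · exact h3
    · rintro rfl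
      refine ⟨Or.inr rfl, ?_⟩
      rintro (h5 | h5)
      · exact absurd h5 (h2.trans h1).ne
      · exact absurd h5 h2.ne
  · exact (h2.trans h1).ne

private theorem E4_umat {i l : Fin n} (h : l < i) :
    umat (fun r => (X r : MvPolynomial (Lo n) ℂ)) i l = X ⟨(i, l), h⟩ := by
  unfold umat
  rw [dif_pos h]

theorem E4 {v w : Equiv.Perm (Fin n)} (hvw : v ≤ w) {p q : Lo n} (hp : InT v w p)
    (hq : InT v w q) (hb : BadC v w p q) :
    ∃ c : Lo n → Lo n → ℂ,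
      X p * X q - ∑ p', ∑ q', C (c p' q') * (X p' * X q') ∈
        vanishingIdeal ℂ (Cell v w) ⊔ mAt (0 : Lo n → ℂ) ^ 3 ∧
      ∀ p' q', c p' q' ≠ 0 → Bad v w p' q' ∧ lab v w p' q' = lab v w p q ∧
        ¬ (p' = p ∧ q' = q) ∧ ¬ (p' = q ∧ q' = p) := by
  classical
  obtain ⟨⟨i, k⟩, hki⟩ := p
  obtain ⟨⟨k', l⟩, hlk⟩ := q
  obtain ⟨hkk, hSW, hNE⟩ := hb
  have hkk' : k = k' := hkk
  subst hkk'
  have hki' : k < i := hki
  have hlk' : l < k := hlk
  have hli : l < i := hlk'.trans hki'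
  have hTk : TB v w i l k := ⟨hlk', hki', hp, hq⟩
  -- the boxes
  have sw_iff : ∀ (b : Fin n) (h1 : l < b) (h2 : b < i) (a j : ℕ),
      SW v w ⟨(i, b), h2⟩ ⟨(b, l), h1⟩ a j ↔ RB v w i l a j ∧ PB v a j b := by
    intro b h1 h2 a j
    have h1' : l.val < b.val := h1
    unfold SW RB PB
    constructor
    · rintro ⟨c1, c2, c3, c4, c5, c6⟩
      exact ⟨⟨by show l.val < j; exact lt_trans h1' c1, c2, c3, c5, c6⟩, c1, c4⟩
    · rintro ⟨⟨c1, c2, c3, c4, c5⟩, c6, c7⟩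
      exact ⟨c6, c2, c3, c7, c4, c5⟩
  have ne_iff : ∀ (b : Fin n) (h1 : l < b) (h2 : b < i), TB v w i l b → ∀ (a j : ℕ),
      NE v w ⟨(i, b), h2⟩ ⟨(b, l), h1⟩ a j ↔ RB v w i l a j ∧ ¬ PB v a j b := by
    intro b h1 h2 hT a j
    have h2' : b.val < i.val := h2
    constructor
    · rintro ⟨c1, c2, c3, c4, c5, c6⟩
      have c2' : j ≤ b.val := c2
      have c3' : (v b).val < a := c3
      refine ⟨⟨c1, by omega, c5, c4, c6⟩, ?_⟩
      rintro ⟨d1, d2⟩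
      omega
    · rintro ⟨hR, hP⟩
      have h3 := E4_one hT hR hP
      obtain ⟨c1, c2, c3, c4, c5⟩ := hR
      exact ⟨c1, h3.1, h3.2, c4, c3, c5⟩
  -- extremal boxes
  obtain ⟨⟨a1, j1⟩, hs1, hmin1⟩ := E4_min
    (fun β : ℕ × ℕ => RB v w i l β.1 β.2 ∧ PB v β.1 β.2 k)
    (fun β => (Finset.univ.filter fun b => TB v w i l b ∧ PB v β.1 β.2 b).card)
    (by
      obtain ⟨a, j, h⟩ := hSW
      exact ⟨(a, j), (sw_iff k hlk' hki' a j).1 h⟩)
  obtain ⟨⟨a2, j2⟩, hs2, hmin2⟩ := E4_min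
    (fun β : ℕ × ℕ => RB v w i l β.1 β.2 ∧ ¬ PB v β.1 β.2 k)
    (fun β => (Finset.univ.filter fun b => TB v w i l b ∧ ¬ PB v β.1 β.2 b).card)
    (by
      obtain ⟨a, j, h⟩ := hNE
      exact ⟨(a, j), (ne_iff k hlk' hki' hTk a j).1 h⟩)
  simp only at hs1 hs2 hmin1 hmin2
  obtain ⟨hR1, hP1⟩ := hs1
  obtain ⟨hR2, hP2⟩ := hs2
  have sub1 : ∀ a j, RB v w i l a j → PB v a j k → ∀ b, TB v w i l b → PB v a1 j1 b →
      PB v a j b := by
    intro a j hR hP b hT hb1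
    by_contra hc
    have h1 := hmin1 (a, j) ⟨hR, hP⟩
    simp only at h1
    have h2 : (Finset.univ.filter fun b => TB v w i l b ∧ PB v a j b) ⊂
        (Finset.univ.filter fun b => TB v w i l b ∧ PB v a1 j1 b) := by
      rw [Finset.ssubset_iff_of_subset]
      · refine ⟨b, ?_, ?_⟩
        · rw [Finset.mem_filter]
          exact ⟨Finset.mem_univ _, hT, hb1⟩
        · rw [Finset.mem_filter]
          rintro ⟨-, -, h⟩
          exact hc h
      · intro b' hb'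
        rw [Finset.mem_filter] at hb' ⊢
        exact ⟨Finset.mem_univ _, hb'.2.1, E4_two hR1 hR hT hb'.2.1 hb1 hc hb'.2.2⟩
    have h3 := Finset.card_lt_card h2
    omega
  have sub2 : ∀ a j, RB v w i l a j → ¬ PB v a j k → ∀ b, TB v w i l b → PB v a j b →
      PB v a2 j2 b := by
    intro a j hR hP b hT hb1
    by_contra hc
    have h1 := hmin2 (a, j) ⟨hR, hP⟩
    simp only at h1
    have h2 : (Finset.univ.filter fun b => TB v w i l b ∧ ¬ PB v a j b) ⊂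
        (Finset.univ.filter fun b => TB v w i l b ∧ ¬ PB v a2 j2 b) := by
      rw [Finset.ssubset_iff_of_subset]
      · refine ⟨b, ?_, ?_⟩
        · rw [Finset.mem_filter]
          exact ⟨Finset.mem_univ _, hT, hc⟩
        · rw [Finset.mem_filter]
          rintro ⟨-, -, h⟩
          exact h hb1
      · intro b' hb'
        rw [Finset.mem_filter] at hb' ⊢
        refine ⟨Finset.mem_univ _, hb'.2.1, fun h => hb'.2.2 ?_⟩
        exact E4_two hR hR2 hT hb'.2.1 hb1 hc h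
    have h3 := Finset.card_lt_card h2
    omega
  have sub3 : ∀ b, TB v w i l b → PB v a2 j2 b → PB v a1 j1 b := fun b hT hb =>
    E4_two hR1 hR2 hTk hT hP1 hP2 hb
  -- the set `D`
  obtain ⟨D, hD⟩ : ∃ D : Fin n → Prop, ∀ b, D b ↔
      TB v w i l b ∧ PB v a1 j1 b ∧ ¬ PB v a2 j2 b := ⟨_, fun b => Iff.rfl⟩
  have hDk : D k := (hD k).2 ⟨hTk, hP1, hP2⟩
  have swD : ∀ b, D b → ∀ (h1 : l < b) (h2 : b < i) (a j : ℕ),
      SW v w ⟨(i, b), h2⟩ ⟨(b, l), h1⟩ a j ↔ SW v w ⟨(i, k), hki⟩ ⟨(k, l), hlk⟩ a j := by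
    intro b hb h1 h2 a j
    rw [sw_iff b h1 h2 a j, sw_iff k hlk' hki' a j]
    obtain ⟨d1, d2, d3⟩ := (hD b).1 hb
    constructor
    · rintro ⟨hR, hP⟩
      refine ⟨hR, ?_⟩
      by_contra hc
      exact d3 (sub2 a j hR hc b d1 hP)
    · rintro ⟨hR, hP⟩
      exact ⟨hR, sub1 a j hR hP b d1 d2⟩
  -- the relation
  obtain ⟨J, hJ⟩ : ∃ J, J = vanishingIdeal ℂ (Cell v w) ⊔ mAt (0 : Lo n → ℂ) ^ 3 := ⟨_, rfl⟩
  obtain ⟨F, hF⟩ : ∃ F : Fin n → MvPolynomial (Lo n) ℂ, ∀ b,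
      F b = umat (fun r => X r) i b * umat (fun r => X r) b l := ⟨_, fun b => rfl⟩
  have hFb : ∀ (b : Fin n) (h1 : l < b) (h2 : b < i),
      F b = X ⟨(i, b), h2⟩ * X ⟨(b, l), h1⟩ := by
    intro b h1 h2
    rw [hF, E4_umat h1, E4_umat h2]
  have hdiff : ∑ b ∈ Finset.univ.filter (fun b : Fin n => l < b ∧ b.val < j1 ∧ a1 ≤ (v b).val),
      F b - ∑ b ∈ Finset.univ.filter (fun b : Fin n => l < b ∧ b.val < j2 ∧ a2 ≤ (v b).val),
      F b ∈ J := by
    have h1 := E2a (v := v) (w := w) (p := ⟨(i, l), hli⟩) (a := a1) (j := j1)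
      ⟨hR1.1, hR1.2.1, hR1.2.2.1, hR1.2.2.2.1⟩ hR1.2.2.2.2.le
    have h2 := E2a (v := v) (w := w) (p := ⟨(i, l), hli⟩) (a := a2) (j := j2)
      ⟨hR2.1, hR2.2.1, hR2.2.2.1, hR2.2.2.2.1⟩ hR2.2.2.2.2.le
    rw [← hJ] at h1 h2
    have h3 := Ideal.sub_mem _ h2 h1
    simp only [← hF] at h3
    rw [sub_sub_sub_cancel_left] at h3
    exact h3
  have hbad : ∀ b : Fin n, ¬ TB v w i l b → l < b → b < i → F b ∈ J := by
    intro b hT h1 h2
    rw [hFb b h1 h2, hJ]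
    by_cases h3 : InT v w ⟨(i, b), h2⟩
    · have h4 : ¬ InT v w ⟨(b, l), h1⟩ := fun h4 => hT ⟨h1, h2, h3, h4⟩
      rw [mul_comm]
      exact E2d h4 _
    · exact E2d h3 _
  have hsum : ∑ b ∈ Finset.univ.filter D, F b ∈ J := by
    rw [Finset.sum_filter, Finset.sum_filter, ← Finset.sum_sub_distrib] at hdiff
    rw [Finset.sum_filter]
    have h1 : ∑ b, (if D b then F b else 0) =
        ∑ b : Fin n, ((if l < b ∧ b.val < j1 ∧ a1 ≤ (v b).val then F b else 0) -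
          if l < b ∧ b.val < j2 ∧ a2 ≤ (v b).val then F b else 0) -
        ∑ b : Fin n, ((if l < b ∧ b.val < j1 ∧ a1 ≤ (v b).val then F b else 0) -
          (if l < b ∧ b.val < j2 ∧ a2 ≤ (v b).val then F b else 0) -
            if D b then F b else 0) := by
      rw [← Finset.sum_sub_distrib]
      refine Finset.sum_congr rfl fun b _ => ?_
      ring
    rw [h1]
    refine Ideal.sub_mem _ hdiff (Ideal.sum_mem _ fun b _ => ?_)
    have k1 : j1 ≤ i.val := hR1.2.1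
    have k2 : j2 ≤ i.val := hR2.2.1
    by_cases hT : TB v w i l b
    · have hlb : l < b := hT.choose
      by_cases e2 : PB v a2 j2 b
      · have e1 : PB v a1 j1 b := sub3 b hT e2
        have e3 : ¬ D b := fun h => ((hD b).1 h).2.2 e2
        rw [if_pos ⟨hlb, e1.1, e1.2⟩, if_pos ⟨hlb, e2.1, e2.2⟩, if_neg e3, sub_self, sub_zero]
        exact Ideal.zero_mem _
      · have e4 : ¬ (l < b ∧ b.val < j2 ∧ a2 ≤ (v b).val) := fun h => e2 ⟨h.2.1, h.2.2⟩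
        rw [if_neg e4, sub_zero]
        by_cases e1 : PB v a1 j1 b
        · rw [if_pos ⟨hlb, e1.1, e1.2⟩, if_pos ((hD b).2 ⟨hT, e1, e2⟩), sub_self]
          exact Ideal.zero_mem _
        · have e5 : ¬ (l < b ∧ b.val < j1 ∧ a1 ≤ (v b).val) := fun h => e1 ⟨h.2.1, h.2.2⟩
          have e3 : ¬ D b := fun h => e1 ((hD b).1 h).2.1
          rw [if_neg e5, if_neg e3, sub_self]
          exact Ideal.zero_mem _
    · have e3 : ¬ D b := fun h => hT ((hD b).1 h).1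
      rw [if_neg e3, sub_zero]
      refine Ideal.sub_mem _ ?_ ?_
      · split_ifs with h
        · exact hbad b hT h.1 (by show b.val < i.val; omega)
        · exact Ideal.zero_mem _
      · split_ifs with h
        · exact hbad b hT h.1 (by show b.val < i.val; omega)
        · exact Ideal.zero_mem _
  -- the coefficients
  obtain ⟨c, hc⟩ : ∃ c : Lo n → Lo n → ℂ, ∀ p' q', c p' q' =
      if p'.1.1 = i ∧ q'.1.2 = l ∧ p'.1.2 = q'.1.1 ∧ D p'.1.2 ∧ p'.1.2 ≠ k then -1 else 0 :=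
    ⟨_, fun p' q' => rfl⟩
  refine ⟨c, ?_, ?_⟩
  · have h1 : ∑ p', ∑ q', C (c p' q') * (X p' * X q' : MvPolynomial (Lo n) ℂ) =
        -∑ b ∈ (Finset.univ.filter D).erase k, F b := by
      rw [← Finset.sum_product', ← Finset.sum_neg_distrib]
      symm
      rw [← Finset.sum_filter_add_sum_filter_not (Finset.univ ×ˢ Finset.univ)
        (fun x : Lo n × Lo n => x.1.1.1 = i ∧ x.2.1.2 = l ∧ x.1.1.2 = x.2.1.1 ∧ D x.1.1.2 ∧
          x.1.1.2 ≠ k)]
      have h2 : ∑ x ∈ (Finset.univ ×ˢ Finset.univ).filter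
          (fun x : Lo n × Lo n => ¬ (x.1.1.1 = i ∧ x.2.1.2 = l ∧ x.1.1.2 = x.2.1.1 ∧
            D x.1.1.2 ∧ x.1.1.2 ≠ k)),
          C (c x.1 x.2) * (X x.1 * X x.2 : MvPolynomial (Lo n) ℂ) = 0 := by
        refine Finset.sum_eq_zero fun x hx => ?_
        rw [hc, if_neg (Finset.mem_filter.1 hx).2, C_0, zero_mul]
      rw [h2, add_zero]
      have hmem : ∀ b ∈ (Finset.univ.filter D).erase k, l < b ∧ b < i ∧ D b ∧ b ≠ k := by
        intro b hb
        rw [Finset.mem_erase, Finset.mem_filter] at hb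
        obtain ⟨g1, g2, -, -⟩ := ((hD b).1 hb.2.2).1
        exact ⟨g1, g2, hb.2.2, hb.1⟩
      refine Finset.sum_bij (fun b hb => ((⟨(i, b), (hmem b hb).2.1⟩, ⟨(b, l), (hmem b hb).1⟩) :
        Lo n × Lo n)) ?_ ?_ ?_ ?_
      · intro b hb
        rw [Finset.mem_filter]
        exact ⟨Finset.mem_product.2 ⟨Finset.mem_univ _, Finset.mem_univ _⟩, rfl, rfl, rfl,
          (hmem b hb).2.2.1, (hmem b hb).2.2.2⟩
      · intro b hb b' hb' h
        have := congrArg (fun x : Lo n × Lo n => x.1.1.2) h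
        exact this
      · rintro ⟨⟨⟨x1, x2⟩, hx⟩, ⟨⟨y1, y2⟩, hy⟩⟩ hxy
        rw [Finset.mem_filter] at hxy
        obtain ⟨-, g1, g2, g3, g4, g5⟩ := hxy
        simp only at g1 g2 g3 g4 g5
        subst g1 g2 g3
        exact ⟨x2, Finset.mem_erase.2 ⟨g5, Finset.mem_filter.2 ⟨Finset.mem_univ _, g4⟩⟩, rfl⟩
      · intro b hb
        have h3 := hmem b hb
        rw [hc, if_pos ⟨rfl, rfl, rfl, h3.2.2.1, h3.2.2.2⟩, hFb b h3.1 h3.2.1, C_neg, C_1]
        ring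
    rw [h1, sub_neg_eq_add, ← hJ]
    have h2 : (X ⟨(i, k), hki⟩ * X ⟨(k, l), hlk⟩ : MvPolynomial (Lo n) ℂ) = F k :=
      (hFb k hlk' hki').symm
    rw [h2, Finset.add_sum_erase _ _ (Finset.mem_filter.2 ⟨Finset.mem_univ _, hDk⟩)]
    exact hsum
  · rintro ⟨⟨x1, x2⟩, hx⟩ ⟨⟨y1, y2⟩, hy⟩ hne
    rw [hc] at hne
    have hcond := (ite_ne_right_iff.1 hne).1
    obtain ⟨g1, g2, g3, g4, g5⟩ := hcond
    simp only at g1 g2 g3 g4 g5
    subst g1 g2 g3
    obtain ⟨⟨e1, e2, t1, t2⟩, e3, e4⟩ := (hD x2).1 g4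
    have hC : BadC v w ⟨(x1, x2), hx⟩ ⟨(x2, y2), hy⟩ :=
      ⟨rfl, ⟨a1, j1, (sw_iff x2 e1 e2 a1 j1).2 ⟨hR1, e3⟩⟩,
        ⟨a2, j2, (ne_iff x2 e1 e2 ⟨e1, e2, t1, t2⟩ a2 j2).2 ⟨hR2, e4⟩⟩⟩
    refine ⟨⟨t1, t2, Or.inr (Or.inl hC)⟩, ?_, ?_, ?_⟩
    · obtain ⟨f1, f2, f3⟩ := E4_lab (⟨(x1, x2), hx⟩ : Lo n) ⟨(x2, y2), hy⟩ rfl
      obtain ⟨f4, f5, f6⟩ := E4_lab (⟨(x1, k), hki⟩ : Lo n) ⟨(k, y2), hlk⟩ rfl
      unfold lab
      rw [f1, f2, f4, f5]
      have u1 : bx1 v w ⟨(x2, y2), hy⟩ ⟨(x1, x2), hx⟩ = ∅ := by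
        ext β
        simp only [bx1, Set.mem_setOf_eq, Set.mem_empty_iff_false, iff_false]
        rintro ⟨h, -⟩
        exact f3 h
      have u2 : bx1 v w ⟨(k, y2), hlk⟩ ⟨(x1, k), hki⟩ = ∅ := by
        ext β
        simp only [bx1, Set.mem_setOf_eq, Set.mem_empty_iff_false, iff_false]
        rintro ⟨h, -⟩
        exact f6 h
      have u3 : bx1 v w ⟨(x1, x2), hx⟩ ⟨(x2, y2), hy⟩ =
          bx1 v w ⟨(x1, k), hki⟩ ⟨(k, y2), hlk⟩ := by
        ext β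
        simp only [bx1, Set.mem_setOf_eq]
        exact and_congr_right fun _ => swD x2 g4 e1 e2 β.1 β.2
      rw [u1, u2, u3]
    · rintro ⟨h, -⟩
      have := congrArg (fun x : Lo n => x.1.2) h
      exact g5 this
    · rintro ⟨h, -⟩
      have := congrArg (fun x : Lo n => x.1.1) h
      simp only at this
      exact absurd this hki'.ne'

end HQ
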