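import Pool.Agent.LibHQ4.Defs

/-!
# Row F0 (SHORT/MEDIUM, only Mathlib): choice of one pair in every class

`B` = bad pairs (symmetric, off the diagonal), `lab` = label. Choose for every label `c` of the set
`C = {c | ∃ p q, B p q ∧ lab p q = c}` one bad pair `(P c, Q c)` with this label; `R` = the (finite) set of the
`s(P c, Q c)`; `c ↦ s(P c, Q c)` is injective on `C` (`hlab`: the label is well defined on unordered bad
pairs: `Sym2.eq_iff`), so `#R = ncard C`; `R ⊆ T.sym2` (`Finset.mk_mem_sym2_iff`); `J = T.sym2 \ R`;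
`Finset.card_sym2 : #T.sym2 = (#T + 1).choose 2`.
-/

set_option autoImplicit false

namespace HQ

theorem F0 {σ L : Type} [Fintype σ] [DecidableEq σ] (T : Finset σ) (B : σ → σ → Prop)
    (lab : σ → σ → L) (hBT : ∀ p q, B p q → p ∈ T ∧ q ∈ T) (hsym : ∀ p q, B p q → B q p)
    (hlab : ∀ p q, B p q → lab p q = lab q p) :
    ∃ J : Finset (Sym2 σ), J ⊆ T.sym2 ∧
      J.card + Set.ncard {c | ∃ p q, B p q ∧ lab p q = c} = (T.card + 1).choose 2 ∧
      (∀ p ∈ T, ∀ q ∈ T, s(p, q) ∉ J → B p q) ∧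
      (∀ p q p' q', B p q → s(p, q) ∉ J → B p' q' → s(p', q') ∉ J → lab p q = lab p' q' →
        s(p, q) = s(p', q')) ∧
      ∀ p q, B p q → ∃ p' q', B p' q' ∧ s(p', q') ∉ J ∧ lab p' q' = lab p q := by
  classical
  set C : Set L := {c | ∃ p q, B p q ∧ lab p q = c} with hC
  have hch : ∀ c : C, ∃ x : σ × σ, B x.1 x.2 ∧ lab x.1 x.2 = c.1 := by
    rintro ⟨c, p, q, h1, h2⟩
    exact ⟨(p, q), h1, h2⟩
  choose r hrB hrl using hch
  -- the label of an unordered bad pair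
  have hkey : ∀ (c : C) (p q : σ), s((r c).1, (r c).2) = s(p, q) → B p q ∧ lab p q = c.1 := by
    intro c p q h
    rcases Sym2.eq_iff.1 h with ⟨h1, h2⟩ | ⟨h1, h2⟩
    · rw [← h1, ← h2]
      exact ⟨hrB c, hrl c⟩
    · rw [← h1, ← h2]
      exact ⟨hsym _ _ (hrB c), by rw [← hlab _ _ (hrB c)]; exact hrl c⟩
  have hinj : Function.Injective fun c : C => s((r c).1, (r c).2) := by
    intro c d h
    have h1 := (hkey c (r d).1 (r d).2 h).2
    exact Subtype.ext (by rw [← h1, hrl d])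
  set R : Finset (Sym2 σ) := (Set.toFinite (Set.range fun c : C => s((r c).1, (r c).2))).toFinset
    with hR
  have hmem : ∀ x, x ∈ R ↔ ∃ c : C, s((r c).1, (r c).2) = x := by
    intro x
    rw [hR, Set.Finite.mem_toFinset, Set.mem_range]
  have hRT : R ⊆ T.sym2 := by
    intro x hx
    obtain ⟨c, rfl⟩ := (hmem x).1 hx
    exact Finset.mk_mem_sym2_iff.2 (hBT _ _ (hrB c))
  have hcard : R.card = Set.ncard C := by
    have h1 : R.card = (Set.range fun c : C => s((r c).1, (r c).2)).ncard := by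
      rw [Set.ncard_eq_toFinset_card _ (Set.toFinite _)]
    rw [h1, ← Set.image_univ, Set.ncard_image_of_injective _ hinj, Set.ncard_univ]
    rfl
  have hR2 : ∀ p ∈ T, ∀ q ∈ T, s(p, q) ∉ T.sym2 \ R → ∃ c : C, s((r c).1, (r c).2) = s(p, q) := by
    intro p hp q hq h
    have h1 : s(p, q) ∈ T.sym2 := Finset.mk_mem_sym2_iff.2 ⟨hp, hq⟩
    have h2 : s(p, q) ∈ R := by
      by_contra h3
      exact h (Finset.mem_sdiff.2 ⟨h1, h3⟩)
    exact (hmem _).1 h2
  refine ⟨T.sym2 \ R, Finset.sdiff_subset, ?_, ?_, ?_, ?_⟩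
  · rw [← hcard, Finset.card_sdiff_add_card_eq_card hRT, Finset.card_sym2]
  · intro p hp q hq h
    obtain ⟨c, hc⟩ := hR2 p hp q hq h
    exact (hkey c p q hc).1
  · intro p q p' q' hB h hB' h' hl
    obtain ⟨c, hc⟩ := hR2 p (hBT _ _ hB).1 q (hBT _ _ hB).2 h
    obtain ⟨c', hc'⟩ := hR2 p' (hBT _ _ hB').1 q' (hBT _ _ hB').2 h'
    have h1 := (hkey c p q hc).2
    have h2 := (hkey c' p' q' hc').2
    have h3 : c = c' := Subtype.ext (by rw [← h1, ← h2, hl])
    rw [← hc, ← hc', h3]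
  · intro p q hB
    have hc : lab p q ∈ C := ⟨p, q, hB, rfl⟩
    refine ⟨(r ⟨lab p q, hc⟩).1, (r ⟨lab p q, hc⟩).2, hrB _, ?_, hrl ⟨lab p q, hc⟩⟩
    intro h
    exact (Finset.mem_sdiff.1 h).2 ((hmem _).2 ⟨⟨lab p q, hc⟩, rfl⟩)

end HQ
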