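import Pool.Agent.LibHQ4.Defs

/-!
# Row F1 (MEDIUM/STRONG): upper bound for the dimensions

`I = vanishingIdeal ℂ Z`, `m = mAt 0` (generated by the `X r - C 0 = X r`). In `R₂ = RQ Z 0 2 = ℂ[X] / (I ⊔ m^3)`
let `S` be the span of the images of `1`, `X p` (`p ∈ T`), `X p * X q` (`s(p,q) ∈ J`; e.g. index by
`π ∈ J` via a function `Sym2 σ → MvPolynomial σ ℂ`, `Sym2.mul`/`Sym2.lift`, or use the set
`{y | ∃ p q, s(p,q) ∈ J ∧ y = mk (X p * X q)}`: it has at most `#J` elements, being the image of `J` under a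
map). CLAIM `S = ⊤`:
* products `X p X q` with `p ∉ T` (or `q ∉ T`) are 0 in `R₂` (`u0` times `X q ∈ m`);
* `p, q ∈ T`, `s(p,q) ∈ J`: in `S`. `p, q ∈ T`, `s(p,q) ∉ J`: `B p q` (`hJ1`), and by `u1` the product is a
  combination of `X p' X q'` with `B p' q'`, same label, `s(p',q') ≠ s(p,q)`, so `s(p',q') ∈ J` by `hJ2`;
* so all `mk (X p X q) ∈ S`, hence the image of `m^2` is in `S` (`m^2` modulo `m^3` is spanned by the
  products: every `f` is `C (coeff 0 f) + ∑ p, C (coeff (single p 1) f) X p +` (element of `m^2`), and an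
  element of `m^2` is a ℂ-combination of products `X p X q` modulo `m^3`;
  `Submodule.span_induction`/`Ideal.mem_pow` or induction on monomials of `f`);
* `X p` for `p ∉ T` is in the image of `m^2` by `u0`.
A convenient way: show by `MvPolynomial.induction_on` (or for monomials) that `mk f ∈ S` for all `f`: monomials
of degree 0: `1`; degree 1: `X p`; degree 2: `X p X q`; degree `≥ 3`: in `m^3`, so 0.
Then `finrank R₂ ≤ 1 + #T + #J` (`finrank_span_le_card`-type lemma, or a surjection from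
`Unit ⊕ T ⊕ J → ℂ`), and `Module.Finite`. The same for `RQ Z 0 1` (`ℂ[X] / (I ⊔ m^2)`): spanned by `1`, `X p`
(`p ∈ T`). And `RQ Z 0 0` (`m^1`): spanned by `1`.
`RQ Z 0 k` uses `mAt 0 ^ (k + 1)`; `2 + 1` and `3` are defeq.
-/

set_option autoImplicit false

namespace HQ

open SH MvPolynomial

private theorem F1a {σ : Type} (p : σ) : (X p : MvPolynomial σ ℂ) ∈ mAt (0 : σ → ℂ) :=
  Ideal.subset_span ⟨p, by simp⟩

private theorem F1b {σ : Type} (f : MvPolynomial σ ℂ) :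
    f ∈ Submodule.span ℂ ({1} : Set (MvPolynomial σ ℂ)) ⊔ (mAt (0 : σ → ℂ)).restrictScalars ℂ := by
  induction f using MvPolynomial.induction_on with
  | C a =>
    refine Submodule.mem_sup_left ?_
    have h : (C a : MvPolynomial σ ℂ) = a • (1 : MvPolynomial σ ℂ) := by
      rw [MvPolynomial.smul_eq_C_mul, mul_one]
    rw [h]
    exact Submodule.smul_mem _ _ (Submodule.subset_span rfl)
  | add f g hf hg => exact Submodule.add_mem _ hf hg
  | mul_X f i _ =>
    refine Submodule.mem_sup_right ?_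
    change f * X i ∈ mAt (0 : σ → ℂ)
    exact Ideal.mul_mem_left _ _ (F1a i)

private theorem F1c {σ : Type} (G : Set (MvPolynomial σ ℂ)) (f : MvPolynomial σ ℂ)
    (hf : f ∈ Ideal.span G) :
    f ∈ Submodule.span ℂ G ⊔ (mAt (0 : σ → ℂ) * Ideal.span G).restrictScalars ℂ := by
  induction hf using Submodule.span_induction with
  | mem x hx => exact Submodule.mem_sup_left (Submodule.subset_span hx)
  | zero => exact Submodule.zero_mem _
  | add x y _ _ hx hy => exact Submodule.add_mem _ hx hy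
  | smul a x hx0 hx =>
    obtain ⟨c, hc, d, hd, rfl⟩ := Submodule.mem_sup.1 (F1b a)
    obtain ⟨r, rfl⟩ := Submodule.mem_span_singleton.1 hc
    rw [add_smul]
    refine Submodule.add_mem _ ?_ (Submodule.mem_sup_right ?_)
    · have h : (r • (1 : MvPolynomial σ ℂ)) • x = r • x := by
        rw [smul_assoc, one_smul]
      rw [h]
      exact Submodule.smul_mem _ _ hx
    · change d • x ∈ mAt (0 : σ → ℂ) * Ideal.span G
      rw [smul_eq_mul]
      exact Ideal.mul_mem_mul hd hx0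

private theorem F1d {σ : Type} :
    mAt (0 : σ → ℂ) = Ideal.span (Set.range fun p : σ => (X p : MvPolynomial σ ℂ)) := by
  unfold mAt
  congr 1
  ext x
  simp

private theorem F1e {σ : Type} :
    mAt (0 : σ → ℂ) ^ 2 =
      Ideal.span (Set.range fun p : σ × σ => (X p.1 * X p.2 : MvPolynomial σ ℂ)) := by
  rw [pow_two, F1d, Ideal.span_mul_span']
  congr 1
  ext x
  simp only [Set.mem_mul, Set.mem_range, Prod.exists]
  constructor
  · rintro ⟨y, ⟨p, rfl⟩, z, ⟨q, rfl⟩, rfl⟩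
    exact ⟨p, q, rfl⟩
  · rintro ⟨p, q, rfl⟩
    exact ⟨_, ⟨p, rfl⟩, _, ⟨q, rfl⟩, rfl⟩

/-- a space containing the constants, the variables and `m ^ 2` is everything -/
private theorem F1f {σ : Type} (V : Submodule ℂ (MvPolynomial σ ℂ)) (h0 : 1 ∈ V)
    (h1 : ∀ p, X p ∈ V) (h2 : ∀ f ∈ mAt (0 : σ → ℂ) ^ 2, f ∈ V) (f : MvPolynomial σ ℂ) :
    f ∈ V := by
  obtain ⟨c, hc, d, hd, rfl⟩ := Submodule.mem_sup.1 (F1b f)
  refine V.add_mem ?_ ?_
  · obtain ⟨r, rfl⟩ := Submodule.mem_span_singleton.1 hc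
    exact V.smul_mem _ h0
  · have hd' : d ∈ Ideal.span (Set.range fun p : σ => (X p : MvPolynomial σ ℂ)) := by
      rw [← F1d]; exact hd
    obtain ⟨a, ha, b, hb, rfl⟩ := Submodule.mem_sup.1 (F1c _ d hd')
    refine V.add_mem ?_ ?_
    · refine (Submodule.span_le.2 ?_) ha
      rintro _ ⟨p, rfl⟩
      exact h1 p
    · refine h2 _ ?_
      rw [pow_two]
      have hb' : b ∈ mAt (0 : σ → ℂ) *
          Ideal.span (Set.range fun p : σ => (X p : MvPolynomial σ ℂ)) := hb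
      rwa [← F1d] at hb'

/-- a space containing the products of two variables and `m ^ 3` contains `m ^ 2` -/
private theorem F1g {σ : Type} (V : Submodule ℂ (MvPolynomial σ ℂ))
    (h2 : ∀ p q, X p * X q ∈ V) (h3 : ∀ f ∈ mAt (0 : σ → ℂ) ^ 3, f ∈ V)
    (f : MvPolynomial σ ℂ) (hf : f ∈ mAt (0 : σ → ℂ) ^ 2) : f ∈ V := by
  rw [F1e] at hf
  obtain ⟨a, ha, b, hb, rfl⟩ := Submodule.mem_sup.1 (F1c _ f hf)
  refine V.add_mem ?_ ?_
  · refine (Submodule.span_le.2 ?_) ha
    rintro _ ⟨p, rfl⟩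
    exact h2 p.1 p.2
  · refine h3 _ ?_
    have hb' : b ∈ mAt (0 : σ → ℂ) *
        Ideal.span (Set.range fun p : σ × σ => (X p.1 * X p.2 : MvPolynomial σ ℂ)) := hb
    rw [← F1e] at hb'
    rw [pow_succ' _ 2]
    exact hb'

private theorem F1h {σ ι : Type} [Fintype ι] (v : ι → MvPolynomial σ ℂ)
    (K : Ideal (MvPolynomial σ ℂ))
    (h : ∀ f, f ∈ Submodule.span ℂ (Set.range v) ⊔ K.restrictScalars ℂ) :
    Module.finrank ℂ (MvPolynomial σ ℂ ⧸ K) ≤ Fintype.card ι ∧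
      Module.Finite ℂ (MvPolynomial σ ℂ ⧸ K) := by
  have hs : Submodule.span ℂ (Set.range fun i => (Ideal.Quotient.mk K (v i))) = ⊤ := by
    rw [eq_top_iff]
    rintro y -
    obtain ⟨f, rfl⟩ := Ideal.Quotient.mk_surjective y
    obtain ⟨a, ha, b, hb, rfl⟩ := Submodule.mem_sup.1 (h f)
    have hb' : b ∈ K := hb
    rw [map_add, Ideal.Quotient.eq_zero_iff_mem.2 hb', add_zero]
    have h1 : Submodule.span ℂ (Set.range v) ≤
        (Submodule.span ℂ (Set.range fun i => (Ideal.Quotient.mk K (v i)))).comap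
          (Ideal.Quotient.mkₐ ℂ K).toLinearMap := by
      refine Submodule.span_le.2 ?_
      rintro _ ⟨i, rfl⟩
      exact Submodule.subset_span ⟨i, rfl⟩
    exact h1 ha
  exact ⟨finrank_le_of_span_eq_top hs, ⟨Submodule.fg_def.2 ⟨_, Set.finite_range _, hs⟩⟩⟩

private noncomputable def F1w {σ : Type} : Sym2 σ → MvPolynomial σ ℂ :=
  Sym2.lift ⟨fun p q => X p * X q, fun _ _ => mul_comm _ _⟩

private theorem F1w_mk {σ : Type} (p q : σ) :
    F1w s(p, q) = (X p * X q : MvPolynomial σ ℂ) := rfl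

theorem F1 {σ L : Type} [Fintype σ] [DecidableEq σ] (Z : Set (σ → ℂ)) (T : Finset σ)
    (B : σ → σ → Prop) (lab : σ → σ → L) (J : Finset (Sym2 σ))
    (hJ1 : ∀ p ∈ T, ∀ q ∈ T, s(p, q) ∉ J → B p q)
    (hJ2 : ∀ p q p' q', B p q → s(p, q) ∉ J → B p' q' → s(p', q') ∉ J → lab p q = lab p' q' →
        s(p, q) = s(p', q'))
    (u0 : ∀ p ∉ T, (X p : MvPolynomial σ ℂ) ∈ vanishingIdeal ℂ Z ⊔ mAt (0 : σ → ℂ) ^ 2)
    (u1 : ∀ p q, B p q → ∃ c : σ → σ → ℂ,
      X p * X q - ∑ p', ∑ q', C (c p' q') * (X p' * X q') ∈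
        vanishingIdeal ℂ Z ⊔ mAt (0 : σ → ℂ) ^ 3 ∧
      ∀ p' q', c p' q' ≠ 0 → B p' q' ∧ lab p' q' = lab p q ∧
        ¬ (p' = p ∧ q' = q) ∧ ¬ (p' = q ∧ q' = p)) :
    Module.finrank ℂ (RQ Z 0 0) ≤ 1 ∧ Module.finrank ℂ (RQ Z 0 1) ≤ 1 + T.card ∧
      Module.finrank ℂ (RQ Z 0 2) ≤ 1 + T.card + J.card ∧ Module.Finite ℂ (RQ Z 0 0) ∧
      Module.Finite ℂ (RQ Z 0 1) ∧ Module.Finite ℂ (RQ Z 0 2) := by
  classical
  set I : Ideal (MvPolynomial σ ℂ) := vanishingIdeal ℂ Z with hI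
  set m : Ideal (MvPolynomial σ ℂ) := mAt (0 : σ → ℂ) with hm
  -- degree 0
  have r0 := F1h (fun _ : Unit => (1 : MvPolynomial σ ℂ)) (I ⊔ m ^ (0 + 1)) (by
    intro f
    have h := F1b f
    have e : Set.range (fun _ : Unit => (1 : MvPolynomial σ ℂ)) = {1} := by
      ext x; simp
    rw [e]
    obtain ⟨a, ha, b, hb, rfl⟩ := Submodule.mem_sup.1 h
    refine Submodule.add_mem _ (Submodule.mem_sup_left ha) (Submodule.mem_sup_right ?_)
    change b ∈ I ⊔ m ^ (0 + 1)
    rw [zero_add, pow_one]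
    exact Ideal.mem_sup_right hb)
  -- degree 1
  have r1 := F1h (Sum.elim (fun _ : Unit => (1 : MvPolynomial σ ℂ)) (fun p : T => X p.1))
    (I ⊔ m ^ (1 + 1)) (by
    refine F1f _ (Submodule.mem_sup_left (Submodule.subset_span ⟨Sum.inl (), rfl⟩)) ?_ ?_
    · intro p
      by_cases hp : p ∈ T
      · exact Submodule.mem_sup_left (Submodule.subset_span ⟨Sum.inr ⟨p, hp⟩, rfl⟩)
      · exact Submodule.mem_sup_right (u0 p hp)
    · intro f hf
      refine Submodule.mem_sup_right ?_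
      change f ∈ I ⊔ m ^ (1 + 1)
      exact Ideal.mem_sup_right hf)
  -- degree 2
  have r2 := F1h (Sum.elim (fun _ : Unit => (1 : MvPolynomial σ ℂ))
      (Sum.elim (fun p : T => X p.1) (fun a : J => F1w a.1))) (I ⊔ m ^ (2 + 1)) (by
    set V := Submodule.span ℂ (Set.range (Sum.elim (fun _ : Unit => (1 : MvPolynomial σ ℂ))
      (Sum.elim (fun p : T => X p.1) (fun a : J => F1w a.1)))) ⊔
        (I ⊔ m ^ (2 + 1)).restrictScalars ℂ with hV
    have hJV : ∀ p q, s(p, q) ∈ J → X p * X q ∈ V := fun p q h =>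
      Submodule.mem_sup_left (Submodule.subset_span ⟨Sum.inr (Sum.inr ⟨s(p, q), h⟩), rfl⟩)
    have hKV : ∀ f ∈ I ⊔ m ^ 3, f ∈ V := fun f hf => Submodule.mem_sup_right hf
    have hmul : ∀ f ∈ I ⊔ m ^ 2, ∀ q, f * X q ∈ I ⊔ m ^ 3 := by
      intro f hf q
      obtain ⟨a, ha, b, hb, rfl⟩ := Submodule.mem_sup.1 hf
      rw [add_mul]
      refine Ideal.add_mem _ (Ideal.mem_sup_left (Ideal.mul_mem_right _ _ ha))
        (Ideal.mem_sup_right ?_)
      rw [pow_succ _ 2]
      exact Ideal.mul_mem_mul hb (F1a q)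
    have h2 : ∀ p q, X p * X q ∈ V := by
      intro p q
      by_cases hp : p ∈ T
      swap
      · exact hKV _ (hmul _ (u0 p hp) q)
      by_cases hq : q ∈ T
      swap
      · rw [mul_comm]
        exact hKV _ (hmul _ (u0 q hq) p)
      by_cases hJ : s(p, q) ∈ J
      · exact hJV p q hJ
      have hB := hJ1 p hp q hq hJ
      obtain ⟨c, hc1, hc2⟩ := u1 p q hB
      have e : (X p * X q : MvPolynomial σ ℂ) =
          (X p * X q - ∑ p', ∑ q', C (c p' q') * (X p' * X q')) +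
            ∑ p', ∑ q', C (c p' q') * (X p' * X q') := by ring
      rw [e]
      refine V.add_mem (hKV _ hc1) (V.sum_mem fun p' _ => V.sum_mem fun q' _ => ?_)
      by_cases h0 : c p' q' = 0
      · rw [h0, C_0, zero_mul]
        exact V.zero_mem
      · obtain ⟨g1, g2, g3, g4⟩ := hc2 p' q' h0
        rw [← MvPolynomial.smul_eq_C_mul]
        refine V.smul_mem _ (hJV p' q' ?_)
        by_contra hJ'
        have g := hJ2 p' q' p q g1 hJ' hB hJ g2
        rw [Sym2.eq_iff] at g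
        exact g.elim g3 g4
    have h3 : ∀ f ∈ m ^ 2, f ∈ V := F1g V h2 (fun f hf => hKV f (Ideal.mem_sup_right hf))
    refine F1f V (Submodule.mem_sup_left (Submodule.subset_span ⟨Sum.inl (), rfl⟩)) ?_ h3
    intro p
    by_cases hp : p ∈ T
    · exact Submodule.mem_sup_left (Submodule.subset_span ⟨Sum.inr (Sum.inl ⟨p, hp⟩), rfl⟩)
    · obtain ⟨a, ha, b, hb, hab⟩ := Submodule.mem_sup.1 (u0 p hp)
      rw [← hab]
      exact V.add_mem (hKV _ (Ideal.mem_sup_left ha)) (h3 _ hb))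
  refine ⟨?_, ?_, ?_, r0.2, r1.2, r2.2⟩
  · simpa using r0.1
  · have := r1.1
    rwa [Fintype.card_sum, Fintype.card_unit, Fintype.card_coe] at this
  · have := r2.1
    rwa [Fintype.card_sum, Fintype.card_sum, Fintype.card_unit, Fintype.card_coe,
      Fintype.card_coe, ← add_assoc] at this

end HQ
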