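import Pool.Agent.LibHQ4.Defs

/-! # Row F2: lower bound for the dimensions -/

set_option autoImplicit false

namespace HQ

open SH MvPolynomial

private theorem F2_coeff {σ : Type} {k : ℕ} {f : MvPolynomial σ ℂ}
    (h : f ∈ mAt (0 : σ → ℂ) ^ k) {m : σ →₀ ℕ} (hm : m.degree < k) : coeff m f = 0 := by
  have e : mAt (0 : σ → ℂ) = idealOfVars σ ℂ := by
    unfold mAt idealOfVars
    congr 1
    ext y
    simp
  rw [e, mem_pow_idealOfVars_iff'] at h
  exact h m hm

/-- coefficients of an element of `I ⊔ m^(k+1)` -/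
private theorem F2_split {σ : Type} {Z : Set (σ → ℂ)} {k : ℕ} {g : MvPolynomial σ ℂ}
    (h : g ∈ IQ Z 0 k) : ∃ f ∈ vanishingIdeal ℂ Z, ∀ m : σ →₀ ℕ, m.degree < k + 1 →
      coeff m f = coeff m g := by
  obtain ⟨f, hf, r, hr, rfl⟩ := Submodule.mem_sup.1 h
  exact ⟨f, hf, fun m hm => by rw [coeff_add, F2_coeff hr hm, add_zero]⟩

/-- the exponent of a pair -/
private noncomputable def F2_mon {σ : Type} (π : Sym2 σ) : σ →₀ ℕ :=
  Sym2.lift ⟨fun p q => Finsupp.single p 1 + Finsupp.single q 1, fun p q => add_comm _ _⟩ π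

private theorem F2_mon_mk {σ : Type} (p q : σ) :
    F2_mon s(p, q) = Finsupp.single p 1 + Finsupp.single q 1 := rfl

private theorem F2_mon_deg {σ : Type} (π : Sym2 σ) : (F2_mon π).degree = 2 := by
  induction π using Sym2.ind with
  | _ p q =>
    rw [F2_mon_mk, map_add, Finsupp.degree_single, Finsupp.degree_single]

private theorem F2_mon_inj {σ : Type} {π π' : Sym2 σ} (h : F2_mon π = F2_mon π') : π = π' := by
  classical
  induction π using Sym2.ind with
  | _ p q =>
    induction π' using Sym2.ind with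
    | _ p' q' =>
      rw [F2_mon_mk, F2_mon_mk] at h
      have hp := DFunLike.congr_fun h p
      simp only [Finsupp.add_apply, Finsupp.single_apply, if_true] at hp
      by_cases h1 : p' = p
      · subst h1
        have h2 := add_left_cancel h
        have h3 : q = q' := Finsupp.single_left_injective one_ne_zero h2
        rw [h3]
      · by_cases h2 : q' = p
        · subst h2
          rw [add_comm (Finsupp.single p' 1)] at h
          have h3 : q = p' := Finsupp.single_left_injective one_ne_zero (add_left_cancel h)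
          rw [h3, Sym2.eq_swap]
        · rw [if_neg h1, if_neg h2] at hp
          omega

private noncomputable def F2_P {σ : Type} (T : Finset σ) (J : Finset (Sym2 σ)) (a : ℂ)
    (b : T → ℂ) (c : J → ℂ) : MvPolynomial σ ℂ :=
  monomial 0 a + ∑ p : T, monomial (Finsupp.single p.1 1) (b p) +
    ∑ π : J, monomial (F2_mon π.1) (c π)

private theorem F2_c0 {σ : Type} (T : Finset σ) (J : Finset (Sym2 σ)) (a : ℂ)
    (b : T → ℂ) (c : J → ℂ) : coeff 0 (F2_P T J a b c) = a := by
  classical
  unfold F2_P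
  rw [coeff_add, coeff_add, coeff_sum, coeff_sum, coeff_monomial, if_pos rfl,
    Finset.sum_eq_zero, Finset.sum_eq_zero, add_zero, add_zero]
  · intro π _
    rw [coeff_monomial, if_neg]
    intro h
    have := F2_mon_deg π.1
    rw [h] at this
    simp at this
  · intro p _
    rw [coeff_monomial, if_neg]
    intro h
    have := congrArg Finsupp.degree h
    simp at this

private theorem F2_c1 {σ : Type} [DecidableEq σ] (T : Finset σ) (J : Finset (Sym2 σ)) (a : ℂ)
    (b : T → ℂ) (c : J → ℂ) (r : σ) : coeff (Finsupp.single r 1) (F2_P T J a b c) =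
      ∑ p : T, if p.1 = r then b p else 0 := by
  unfold F2_P
  rw [coeff_add, coeff_add, coeff_sum, coeff_sum, coeff_monomial, if_neg, zero_add,
    Finset.sum_eq_zero (s := (Finset.univ : Finset J)), add_zero]
  · refine Finset.sum_congr rfl fun p _ => ?_
    rw [coeff_monomial]
    by_cases h : p.1 = r
    · rw [if_pos h, if_pos (by rw [h])]
    · rw [if_neg h, if_neg (fun e => h (Finsupp.single_left_injective one_ne_zero e))]
  · intro π _
    rw [coeff_monomial, if_neg]
    intro h
    have := F2_mon_deg π.1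
    rw [h] at this
    simp at this
  · intro h
    have := congrArg Finsupp.degree h
    simp at this

private theorem F2_c2 {σ : Type} [DecidableEq σ] (T : Finset σ) (J : Finset (Sym2 σ)) (a : ℂ)
    (b : T → ℂ) (c : J → ℂ) (π' : Sym2 σ) : coeff (F2_mon π') (F2_P T J a b c) =
      ∑ π : J, if π.1 = π' then c π else 0 := by
  unfold F2_P
  rw [coeff_add, coeff_add, coeff_sum, coeff_sum, coeff_monomial, if_neg, zero_add,
    Finset.sum_eq_zero (s := (Finset.univ : Finset T)), zero_add]
  · refine Finset.sum_congr rfl fun π _ => ?_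
    rw [coeff_monomial]
    by_cases h : π.1 = π'
    · rw [if_pos h, if_pos (by rw [h])]
    · rw [if_neg h, if_neg (fun e => h (F2_mon_inj e))]
  · intro p _
    rw [coeff_monomial, if_neg]
    intro h
    have := F2_mon_deg π'
    rw [← h] at this
    simp at this
  · intro h
    have := F2_mon_deg π'
    rw [← h] at this
    simp at this

private theorem F2_sum_self {ι : Type} {T : Finset ι} [DecidableEq ι] (b : T → ℂ) (p : T) :
    (∑ q : T, if q.1 = p.1 then b q else 0) = b p := by
  rw [Finset.sum_eq_single p]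
  · rw [if_pos rfl]
  · intro q _ hq
    rw [if_neg (fun h => hq (Subtype.ext h))]
  · intro h
    exact absurd (Finset.mem_univ _) h

private theorem F2_sum_not {ι : Type} {T : Finset ι} [DecidableEq ι] (b : T → ℂ) {p : ι}
    (hp : p ∉ T) : (∑ q : T, if q.1 = p then b q else 0) = 0 := by
  refine Finset.sum_eq_zero fun q _ => ?_
  rw [if_neg]
  rintro rfl
  exact hp q.2

theorem F2 {σ L : Type} [Fintype σ] [DecidableEq σ] (Z : Set (σ → ℂ)) (T : Finset σ)
    (B : σ → σ → Prop) (lab : σ → σ → L) (J : Finset (Sym2 σ)) (hJT : J ⊆ T.sym2)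
    (hJ3 : ∀ p q, B p q → ∃ p' q', B p' q' ∧ s(p', q') ∉ J ∧ lab p' q' = lab p q)
    (l0 : ∀ f ∈ vanishingIdeal ℂ Z, coeff 0 f = 0)
    (l1 : ∀ p ∈ T, ∀ f ∈ vanishingIdeal ℂ Z,
      coeff (Finsupp.single p 1) f = 0 ∧ coeff (Finsupp.single p 2) f = 0)
    (l2 : ∀ p ∈ T, ∀ q ∈ T, p ≠ q → ¬ B p q → ∃ c : σ → ℂ, ∀ f ∈ vanishingIdeal ℂ Z,
      coeff (Finsupp.single p 1 + Finsupp.single q 1) f +
        ∑ r, c r * coeff (Finsupp.single r 1) f = 0)
    (l3 : ∀ p q p' q', B p q → B p' q' → lab p q = lab p' q' → ∃ κ : ℂ,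
      ∀ f ∈ vanishingIdeal ℂ Z, coeff (Finsupp.single p 1 + Finsupp.single q 1) f +
        κ * coeff (Finsupp.single p' 1 + Finsupp.single q' 1) f = 0)
    (h0 : Module.Finite ℂ (RQ Z 0 0)) (h1 : Module.Finite ℂ (RQ Z 0 1))
    (h2 : Module.Finite ℂ (RQ Z 0 2)) :
    1 ≤ Module.finrank ℂ (RQ Z 0 0) ∧ 1 + T.card ≤ Module.finrank ℂ (RQ Z 0 1) ∧
      1 + T.card + J.card ≤ Module.finrank ℂ (RQ Z 0 2) := by
  classical
  -- the comparison map
  have key : ∀ (k : ℕ) (J' : Finset (Sym2 σ)) (_ : Module.Finite ℂ (RQ Z 0 k)),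
      (∀ (a : ℂ) (b : T → ℂ) (c : J' → ℂ), F2_P T J' a b c ∈ IQ Z 0 k → a = 0 ∧ b = 0 ∧ c = 0) →
      1 + T.card + J'.card ≤ Module.finrank ℂ (RQ Z 0 k) := by
    intro k J' hfin hinj
    let Ψ : (ℂ × (T → ℂ) × (J' → ℂ)) →ₗ[ℂ] MvPolynomial σ ℂ :=
      { toFun := fun u => F2_P T J' u.1 u.2.1 u.2.2
        map_add' := fun u u' => by
          simp only [F2_P, Prod.fst_add, Prod.snd_add, Pi.add_apply, map_add,
            Finset.sum_add_distrib]
          ring
        map_smul' := fun r u => by
          simp only [F2_P, Prod.smul_fst, Prod.smul_snd, Pi.smul_apply, RingHom.id_apply,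
            smul_add, Finset.smul_sum, smul_monomial] }
    let Φ : (ℂ × (T → ℂ) × (J' → ℂ)) →ₗ[ℂ] RQ Z 0 k :=
      (Ideal.Quotient.mkₐ ℂ (IQ Z 0 k)).toLinearMap.comp Ψ
    have hΦ : Function.Injective Φ := by
      rw [← LinearMap.ker_eq_bot, LinearMap.ker_eq_bot']
      intro u hu
      have h3 : Ψ u ∈ IQ Z 0 k := Ideal.Quotient.eq_zero_iff_mem.1 hu
      obtain ⟨e1, e2, e3⟩ := hinj u.1 u.2.1 u.2.2 h3
      exact Prod.ext e1 (Prod.ext e2 e3)
    have h4 := LinearMap.finrank_le_finrank_of_injective hΦ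
    rw [Module.finrank_prod, Module.finrank_prod, Module.finrank_self,
      Module.finrank_fintype_fun_eq_card, Module.finrank_fintype_fun_eq_card,
      Fintype.card_coe, Fintype.card_coe] at h4
    omega
  refine ⟨?_, ?_, ?_⟩
  · -- k = 0: use constants
    by_contra hcon
    have h5 : Module.finrank ℂ (RQ Z 0 0) = 0 := by omega
    have h6 : Subsingleton (RQ Z 0 0) := Module.finrank_zero_iff.1 h5
    have h7 : (1 : MvPolynomial σ ℂ) ∈ IQ Z 0 0 :=
      Ideal.Quotient.eq_zero_iff_mem.1 (Subsingleton.elim _ _)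
    obtain ⟨f, hf, hc⟩ := F2_split h7
    have h8 := hc 0 (by simp)
    rw [l0 f hf, coeff_zero_one] at h8
    exact zero_ne_one h8
  · have := key 1 ∅ h1 fun a b c h => by
      obtain ⟨f, hf, hc⟩ := F2_split h
      have e0 : a = 0 := by
        have := hc 0 (by simp)
        rw [l0 f hf, F2_c0] at this
        exact this.symm
      have e1 : b = 0 := by
        funext p
        have := hc (Finsupp.single p.1 1) (by simp)
        rw [(l1 p.1 p.2 f hf).1, F2_c1, F2_sum_self] at this
        exact this.symm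
      exact ⟨e0, e1, funext fun π => absurd π.2 (Finset.notMem_empty _)⟩
    simpa using this
  · refine key 2 J h2 fun a b c h => ?_
    obtain ⟨f, hf, hc⟩ := F2_split h
    have e0 : a = 0 := by
      have := hc 0 (by simp)
      rw [l0 f hf, F2_c0] at this
      exact this.symm
    have e1 : b = 0 := by
      funext p
      have := hc (Finsupp.single p.1 1) (by simp)
      rw [(l1 p.1 p.2 f hf).1, F2_c1, F2_sum_self] at this
      exact this.symm
    have e1' : ∀ r : σ, coeff (Finsupp.single r 1) f = 0 := by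
      intro r
      rw [hc (Finsupp.single r 1) (by simp), F2_c1, e1]
      simp
    refine ⟨e0, e1, ?_⟩
    funext ⟨π, hπ⟩
    have e2 : coeff (F2_mon π) f = c ⟨π, hπ⟩ := by
      rw [hc (F2_mon π) (by rw [F2_mon_deg]; omega), F2_c2]
      exact F2_sum_self c ⟨π, hπ⟩
    rw [← e2]
    change coeff (F2_mon π) f = 0
    clear e2
    induction π using Sym2.ind with
    | _ p q =>
      have hpT : p ∈ T ∧ q ∈ T := Finset.mk_mem_sym2_iff.1 (hJT hπ)
      rw [F2_mon_mk]
      by_cases hpq : p = q
      · subst hpq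
        have := (l1 p hpT.1 f hf).2
        rw [← Finsupp.single_add]
        exact this
      · by_cases hB : B p q
        · obtain ⟨p', q', hB', hJ', hl'⟩ := hJ3 p q hB
          obtain ⟨κ, hκ⟩ := l3 p q p' q' hB hB' hl'.symm
          have h9 := hκ f hf
          have h10 : coeff (F2_mon s(p', q')) f = 0 := by
            rw [hc (F2_mon s(p', q')) (by rw [F2_mon_deg]; omega), F2_c2, F2_sum_not c hJ']
          rw [F2_mon_mk] at h10
          rw [h10, mul_zero, add_zero] at h9
          exact h9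
        · obtain ⟨d, hd⟩ := l2 p hpT.1 q hpT.2 hpq hB
          have h9 := hd f hf
          rw [Finset.sum_eq_zero (fun r _ => by rw [e1' r, mul_zero]), add_zero] at h9
          exact h9

end HQ
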