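import Pool.Agent.LibHQ4.F0
import Pool.Agent.LibHQ4.F1
import Pool.Agent.LibHQ4.F2

/-! # F3: the dimensions (assembled by helper4) -/

set_option autoImplicit false

namespace HQ

open SH MvPolynomial

theorem F3 {σ L : Type} [Fintype σ] [DecidableEq σ] (Z : Set (σ → ℂ)) (T : Finset σ)
    (B : σ → σ → Prop) (lab : σ → σ → L)
    (hBT : ∀ p q, B p q → p ∈ T ∧ q ∈ T) (hsym : ∀ p q, B p q → B q p)
    (hlab : ∀ p q, B p q → lab p q = lab q p)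
    (u0 : ∀ p ∉ T, (X p : MvPolynomial σ ℂ) ∈ vanishingIdeal ℂ Z ⊔ mAt (0 : σ → ℂ) ^ 2)
    (u1 : ∀ p q, B p q → ∃ c : σ → σ → ℂ,
      X p * X q - ∑ p', ∑ q', C (c p' q') * (X p' * X q') ∈
        vanishingIdeal ℂ Z ⊔ mAt (0 : σ → ℂ) ^ 3 ∧
      ∀ p' q', c p' q' ≠ 0 → B p' q' ∧ lab p' q' = lab p q ∧
        ¬ (p' = p ∧ q' = q) ∧ ¬ (p' = q ∧ q' = p))
    (l0 : ∀ f ∈ vanishingIdeal ℂ Z, coeff 0 f = 0)
    (l1 : ∀ p ∈ T, ∀ f ∈ vanishingIdeal ℂ Z,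
      coeff (Finsupp.single p 1) f = 0 ∧ coeff (Finsupp.single p 2) f = 0)
    (l2 : ∀ p ∈ T, ∀ q ∈ T, p ≠ q → ¬ B p q → ∃ c : σ → ℂ, ∀ f ∈ vanishingIdeal ℂ Z,
      coeff (Finsupp.single p 1 + Finsupp.single q 1) f +
        ∑ r, c r * coeff (Finsupp.single r 1) f = 0)
    (l3 : ∀ p q p' q', B p q → B p' q' → lab p q = lab p' q' → ∃ κ : ℂ,
      ∀ f ∈ vanishingIdeal ℂ Z, coeff (Finsupp.single p 1 + Finsupp.single q 1) f +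
        κ * coeff (Finsupp.single p' 1 + Finsupp.single q' 1) f = 0) :
    Module.finrank ℂ (RQ Z 0 0) = 1 ∧ Module.finrank ℂ (RQ Z 0 1) = 1 + T.card ∧
      Module.finrank ℂ (RQ Z 0 2) + Set.ncard {c | ∃ p q, B p q ∧ lab p q = c} =
        1 + T.card + (T.card + 1).choose 2 := by
  obtain ⟨J, hJT, hJc, hJ1, hJ2, hJ3⟩ := F0 T B lab hBT hsym hlab
  obtain ⟨a0, a1, a2, b0, b1, b2⟩ := F1 Z T B lab J hJ1 hJ2 u0 u1
  obtain ⟨c0, c1, c2⟩ := F2 Z T B lab J hJT hJ3 l0 l1 l2 l3 b0 b1 b2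
  refine ⟨le_antisymm a0 c0, le_antisymm a1 c1, ?_⟩
  rw [le_antisymm a2 c2, add_assoc, hJc]

end HQ
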