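import Pool.Agent.LibHQ4.A2
import Pool.Agent.LibHQ4.C1
import Pool.Agent.LibHQ4.C2
import Pool.Agent.LibHQ4.C3
import Pool.Agent.LibHQ4.C4
import Pool.Agent.LibHQ4.C5
import Pool.Agent.LibHQ4.C6
import Pool.Agent.LibHQ4.C7
import Pool.Agent.LibHQ4.C8
import Pool.Agent.LibHQ4.D2
import Pool.Agent.LibHQ4.D3
import Pool.Agent.LibHQ4.D4

/-!
# Row G1 (MEDIUM): the functionals (lower bound hypotheses for the cell)

* `G1a`: not bad: not a chain: `C2` + `D2b`, `c = 0`. Chain `p = (i,k)`, `q = (k,l)` (or reversed; the roles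
  of `p`, `q` can be exchanged: `coeff (single p 1 + single q 1)` is symmetric, `add_comm`): not `BadC`, so no
  tight SW box (`C3` + `D2b`) or no tight NE box (`C4` + `D2c` with `r₀ = (i,l)`, `c = 1` at `r₀`).
  `InT p`, `InT q` and `¬ Bad` give `¬ BadD`, `¬ BadC p q`, `¬ BadC q p`. `A2b` gives the vanishing.
* `G1b`: two bad pairs with the same label. If `p, q` is `BadD`, then `rws p q` has two elements and so has
  `rws p' q'`, so `p', q'` is `BadD` too (for a chain `rws` is a singleton), with the same rows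
  `{i,i'}` and columns `{k,k'}`: either the same unordered pair (`κ = -1`) or `{p',q'} = {(i,k'),(i',k)}`:
  `C5` + `D3` with `κ = 1`.
  If `p = (i,k)`, `q = (k,l)` is `BadC` (up to exchange): `p' = (i,k')`, `q' = (k',l)` (up to exchange; `rws`,
  `cls` are the singletons `{i}`, `{l}`). `k = k'`: the same pair, `κ = -1`. `k ≠ k'`: both are `Up`
  (`v l < v k, v k' < v i`, from the SW and NE boxes). Equality of the third parts of the labels: for every box `β`:
  `SW p q β ↔ SW p' q' β`. Cases: `k < k'`, `v k' < v k`: `C6` (+`D3` with `κ = -1`): a tight centre box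
  (`k < j ≤ k'`, `v k' < a ≤ v k`; `rr w a j = rr v a j` by `hvw`) would be SW for `(p,q)` but not for `(p',q')`
  (`k' < j` fails). `k' < k`, `v k < v k'`: the same with the roles exchanged. `k' < k`, `v k' < v k`: `C7`,
  `C8`, `D4` (`κ = -1`). `k < k'`, `v k < v k'`: exchanged.
-/

set_option autoImplicit false

namespace HQ

open SH MvPolynomial

variable {n : ℕ}

private theorem G1lt {p q : Lo n} (h : p.1.2 = q.1.1) : q.1.2 < p.1.1 :=
  lt_trans (lt_of_lt_of_eq q.2 h.symm) p.2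

private theorem G1chain {v w : Equiv.Perm (Fin n)} (hvw : v ≤ w) {p q : Lo n} (hp : InT v w p)
    (hq : InT v w q) (h : p.1.2 = q.1.1) (hb : ¬ BadC v w p q) :
    ∃ c : Lo n → ℂ, ∀ f ∈ vanishingIdeal ℂ (Cell v w),
      coeff (Finsupp.single p 1 + Finsupp.single q 1) f +
        ∑ r, c r * coeff (Finsupp.single r 1) f = 0 := by
  have hpq : p ≠ q := by
    intro e
    rw [e] at h
    exact absurd h (ne_of_lt q.2)
  by_cases hS : ∀ a j, ¬ SW v w p q a j
  · refine ⟨fun _ => 0, fun f hf => ?_⟩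
    have := D2b (f := f) hpq (fun s t => A2b (C3 hvw hp hq h hS s t) hf)
    rw [this]
    simp
  · have hN : ∀ a j, ¬ NE v w p q a j := by
      intro a j hNE
      apply hb
      push Not at hS
      exact ⟨h, hS, ⟨a, j, hNE⟩⟩
    have hlt : q.1.2 < p.1.1 := G1lt h
    have hpr : p ≠ (⟨(p.1.1, q.1.2), hlt⟩ : Lo n) := by
      intro e
      have e2 : p.1.2 = (⟨(p.1.1, q.1.2), hlt⟩ : Lo n).1.2 := congrArg (fun r : Lo n => r.1.2) e
      rw [h] at e2
      exact absurd e2 (ne_of_gt q.2)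
    have hqr : q ≠ (⟨(p.1.1, q.1.2), hlt⟩ : Lo n) := by
      intro e
      have e2 : q.1.1 = (⟨(p.1.1, q.1.2), hlt⟩ : Lo n).1.1 := congrArg (fun r : Lo n => r.1.1) e
      rw [← h] at e2
      exact absurd e2 (ne_of_lt p.2)
    refine ⟨fun r => if r = ⟨(p.1.1, q.1.2), hlt⟩ then 1 else 0, fun f hf => ?_⟩
    have := D2c (f := f) hpq hpr hqr
      (fun s t => A2b (C4 hvw hp hq h (r₀ := ⟨(p.1.1, q.1.2), hlt⟩) rfl rfl hN s t) hf)
    rw [Finset.sum_eq_single (⟨(p.1.1, q.1.2), hlt⟩ : Lo n)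
      (fun r _ hr => by simp only [if_neg hr, zero_mul]) (fun h => absurd (Finset.mem_univ _) h)]
    simp only [if_true, one_mul]
    exact this

theorem G1a {v w : Equiv.Perm (Fin n)} (hvw : v ≤ w) {p q : Lo n} (hp : InT v w p)
    (hq : InT v w q) (hpq : p ≠ q) (hb : ¬ Bad v w p q) :
    ∃ c : Lo n → ℂ, ∀ f ∈ vanishingIdeal ℂ (Cell v w),
      coeff (Finsupp.single p 1 + Finsupp.single q 1) f +
        ∑ r, c r * coeff (Finsupp.single r 1) f = 0 := by
  have hD : ¬ BadD v w p q := fun h => hb ⟨hp, hq, Or.inl h⟩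
  have hC : ¬ BadC v w p q := fun h => hb ⟨hp, hq, Or.inr (Or.inl h)⟩
  have hC' : ¬ BadC v w q p := fun h => hb ⟨hp, hq, Or.inr (Or.inr h)⟩
  by_cases h1 : p.1.2 = q.1.1
  · exact G1chain hvw hp hq h1 hC
  by_cases h2 : q.1.2 = p.1.1
  · obtain ⟨c, hc⟩ := G1chain hvw hq hp h2 hC'
    refine ⟨c, fun f hf => ?_⟩
    rw [add_comm (Finsupp.single p 1)]
    exact hc f hf
  refine ⟨fun _ => 0, fun f hf => ?_⟩
  have := D2b (f := f) hpq (fun s t => A2b (C2 hvw hp hq hpq h1 h2 hD s t) hf)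
  rw [this]
  simp

private theorem G1rws_chain {p q : Lo n} (h : p.1.2 = q.1.1) : rws p q = {p.1.1} := by
  have hlt : q.1.2 < p.1.1 := G1lt h
  have hk := p.2
  unfold rws
  ext x
  simp only [Finset.mem_sdiff, Finset.mem_insert, Finset.mem_singleton]
  constructor
  · rintro ⟨h1 | h1, h2⟩
    · exact h1
    · exact absurd (Or.inl (h1.trans h.symm)) h2
  · intro h1
    refine ⟨Or.inl h1, ?_⟩
    rintro (h2 | h2)
    · exact absurd (h2.symm.trans h1) (ne_of_lt hk)
    · exact absurd (h2.symm.trans h1) (ne_of_lt hlt)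

private theorem G1cls_chain {p q : Lo n} (h : p.1.2 = q.1.1) : cls p q = {q.1.2} := by
  have hlt : q.1.2 < p.1.1 := G1lt h
  have hk := q.2
  unfold cls
  ext x
  simp only [Finset.mem_sdiff, Finset.mem_insert, Finset.mem_singleton]
  constructor
  · rintro ⟨h1 | h1, h2⟩
    · exact absurd (Or.inr (h1.trans h)) h2
    · exact h1
  · intro h1
    refine ⟨Or.inr h1, ?_⟩
    rintro (h2 | h2)
    · exact absurd (h1.symm.trans h2) (ne_of_lt hlt)
    · exact absurd (h1.symm.trans h2) (ne_of_lt hk)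

private theorem G1rws_d {v w : Equiv.Perm (Fin n)} {p q : Lo n} (h : BadD v w p q) :
    rws p q = {p.1.1, q.1.1} := by
  obtain ⟨h1, h2, h3, h4, -⟩ := h
  unfold rws
  ext x
  simp only [Finset.mem_sdiff, Finset.mem_insert, Finset.mem_singleton]
  constructor
  · exact fun h => h.1
  · intro h
    refine ⟨h, ?_⟩
    rintro (h5 | h5) <;> rcases h with h | h
    · exact absurd (h5.symm.trans h) (ne_of_lt p.2)
    · exact h4 (h5.symm.trans h)
    · exact h3 (h.symm.trans h5)
    · exact absurd (h5.symm.trans h) (ne_of_lt q.2)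

private theorem G1cls_d {v w : Equiv.Perm (Fin n)} {p q : Lo n} (h : BadD v w p q) :
    cls p q = {p.1.2, q.1.2} := by
  obtain ⟨h1, h2, h3, h4, -⟩ := h
  unfold cls
  ext x
  simp only [Finset.mem_sdiff, Finset.mem_insert, Finset.mem_singleton]
  constructor
  · exact fun h => h.1
  · intro h
    refine ⟨h, ?_⟩
    rintro (h5 | h5) <;> rcases h with h | h
    · exact absurd (h.symm.trans h5) (ne_of_lt p.2)
    · exact h3 (h5.symm.trans h)
    · exact h4 (h.symm.trans h5)
    · exact absurd (h.symm.trans h5) (ne_of_lt q.2)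

private theorem G1rws_comm (p q : Lo n) : rws p q = rws q p := by
  unfold rws
  rw [Finset.pair_comm p.1.1, Finset.pair_comm p.1.2]

private theorem G1cls_comm (p q : Lo n) : cls p q = cls q p := by
  unfold cls
  rw [Finset.pair_comm p.1.1, Finset.pair_comm p.1.2]

private theorem G1lab_comm (v w : Equiv.Perm (Fin n)) (p q : Lo n) :
    lab v w p q = lab v w q p := by
  unfold lab
  rw [G1rws_comm, G1cls_comm, Set.union_comm]

private theorem G1pair {α : Type} [DecidableEq α] {a b c d : α} (hab : a ≠ b)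
    (h : ({a, b} : Finset α) = {c, d}) : (c = a ∧ d = b) ∨ (c = b ∧ d = a) := by
  have h1 : a ∈ ({c, d} : Finset α) := by rw [← h]; simp
  have h2 : b ∈ ({c, d} : Finset α) := by rw [← h]; simp
  rw [Finset.mem_insert, Finset.mem_singleton] at h1 h2
  rcases h1 with h1 | h1 <;> rcases h2 with h2 | h2
  · exact absurd (h1.trans h2.symm) hab
  · exact Or.inl ⟨h1.symm, h2.symm⟩
  · exact Or.inr ⟨h2.symm, h1.symm⟩
  · exact absurd (h1.trans h2.symm) hab

/-- disjoint pairs with the same rows (in the same order) -/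
private theorem G1disj {v w : Equiv.Perm (Fin n)} (hvw : v ≤ w) {p q p' q' : Lo n}
    (hp : InT v w p) (hq : InT v w q) (hp' : InT v w p') (hq' : InT v w q')
    (h : BadD v w p q) (hr1 : p'.1.1 = p.1.1) (hr2 : q'.1.1 = q.1.1)
    (hc : ({p.1.2, q.1.2} : Finset (Fin n)) = {p'.1.2, q'.1.2}) :
    ∃ κ : ℂ, ∀ f ∈ vanishingIdeal ℂ (Cell v w),
      coeff (Finsupp.single p 1 + Finsupp.single q 1) f +
        κ * coeff (Finsupp.single p' 1 + Finsupp.single q' 1) f = 0 := by
  obtain ⟨h1, h2, h3, h4, -⟩ := h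
  rcases G1pair h2 hc with ⟨e1, e2⟩ | ⟨e1, e2⟩
  · have e3 : p' = p := Subtype.ext (Prod.ext hr1 e1)
    have e4 : q' = q := Subtype.ext (Prod.ext hr2 e2)
    refine ⟨-1, fun f _ => ?_⟩
    rw [e3, e4]
    ring
  · have e3 : p'.1 = (p.1.1, q.1.2) := Prod.ext hr1 e1
    have e4 : q'.1 = (q.1.1, p.1.2) := Prod.ext hr2 e2
    have n1 : p ≠ q := fun e => h1 (by rw [e])
    have n2 : p ≠ p' := fun e => h2 (by rw [← e1, ← e])
    have n3 : p ≠ q' := fun e => h1 (by rw [← hr2, ← e])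
    have n4 : q ≠ p' := fun e => h1 (by rw [← hr1, ← e])
    have n5 : q ≠ q' := fun e => h2 (by rw [← e2, ← e])
    have n6 : p' ≠ q' := fun e => h1 (by rw [← hr1, ← hr2, e])
    refine ⟨1, fun f hf => ?_⟩
    have := D3 (f := f) n1 n2 n3 n4 n5 n6 1 (fun s₁ s₂ s₃ s₄ hs =>
      A2b (C5 hvw hp hq hp' hq' h1 h2 e3 e4 s₁ s₂ s₃ s₄ (by rw [hs, one_mul])) hf)
    rw [one_mul] at this ⊢
    exact this

/-- chains, incomparable middles `k < k'`, `v k' < v k` -/
private theorem G1inc {v w : Equiv.Perm (Fin n)} (hvw : v ≤ w) {l k k' i : Fin n} (hlk : l < k)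
    (hkk : k < k') (hki : k' < i) (vl : v l < v k') (vk : v k' < v k) (vi : v k < v i)
    {p q p' q' : Lo n} (ep : p.1 = (i, k)) (eq : q.1 = (k, l)) (ep' : p'.1 = (i, k'))
    (eq' : q'.1 = (k', l)) (hp : InT v w p) (hq : InT v w q) (hp' : InT v w p')
    (hq' : InT v w q') (hbx : ∀ a j, SW v w p q a j → SW v w p' q' a j) :
    ∀ f ∈ vanishingIdeal ℂ (Cell v w),
      coeff (Finsupp.single p 1 + Finsupp.single q 1) f =
        coeff (Finsupp.single p' 1 + Finsupp.single q' 1) f := by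
  have hc : ∀ a j : ℕ, k.val < j → j ≤ k'.val → (v k').val < a → a ≤ (v k).val →
      rr v a j < rr w a j := by
    intro a j h1 h2 h3 h4
    refine lt_of_le_of_ne (le_def.1 hvw a j) fun he => ?_
    have hS : SW v w p q a j := by
      unfold SW
      rw [ep, eq]
      exact ⟨h1, h2.trans (Fin.lt_def.1 hki).le, lt_trans (Fin.lt_def.1 vl) h3, h4,
        h4.trans (Fin.lt_def.1 vi).le, he.symm⟩
    have hS' := (hbx a j hS).1
    rw [ep'] at hS'
    exact absurd hS' (not_lt.2 h2)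
  have n1 : p ≠ q := by
    intro e
    rw [← e, ep] at eq
    exact absurd (congrArg Prod.fst eq) (ne_of_gt (hkk.trans hki))
  have n2 : p ≠ p' := by
    intro e
    rw [← e, ep] at ep'
    exact absurd (congrArg Prod.snd ep') (ne_of_lt hkk)
  have n3 : p ≠ q' := by
    intro e
    rw [← e, ep] at eq'
    exact absurd (congrArg Prod.fst eq') (ne_of_gt hki)
  have n4 : q ≠ p' := by
    intro e
    rw [← e, eq] at ep'
    exact absurd (congrArg Prod.fst ep') (ne_of_lt (hkk.trans hki))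
  have n5 : q ≠ q' := by
    intro e
    rw [← e, eq] at eq'
    exact absurd (congrArg Prod.fst eq') (ne_of_lt hkk)
  have n6 : p' ≠ q' := by
    intro e
    rw [← e, ep'] at eq'
    exact absurd (congrArg Prod.fst eq') (ne_of_gt hki)
  intro f hf
  have := D3 (f := f) n1 n2 n3 n4 n5 n6 (-1) (fun s₁ s₂ s₃ s₄ hs =>
    A2b (C6 hvw hlk hkk hki vl vk vi ep eq ep' eq' hp hq hp' hq' hc s₁ s₂ s₃ s₄
      (by rw [hs]; ring)) hf)
  linear_combination -this

/-- chains, comparable middles `k' < k`, `v k' < v k` -/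
private theorem G1com {v w : Equiv.Perm (Fin n)} (hvw : v ≤ w) {l k k' i : Fin n} (hlk : l < k')
    (hkk : k' < k) (hki : k < i) (vl : v l < v k') (vk : v k' < v k) (vi : v k < v i)
    {p q p' q' : Lo n} (ep : p.1 = (i, k)) (eq : q.1 = (k, l)) (ep' : p'.1 = (i, k'))
    (eq' : q'.1 = (k', l)) (hp : InT v w p) (hq : InT v w q) (hp' : InT v w p')
    (hq' : InT v w q') :
    ∀ f ∈ vanishingIdeal ℂ (Cell v w),
      coeff (Finsupp.single p 1 + Finsupp.single q 1) f =
        coeff (Finsupp.single p' 1 + Finsupp.single q' 1) f := by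
  have n1 : p ≠ q := by
    intro e
    rw [← e, ep] at eq
    exact absurd (congrArg Prod.fst eq) (ne_of_gt hki)
  have n2 : p ≠ p' := by
    intro e
    rw [← e, ep] at ep'
    exact absurd (congrArg Prod.snd ep') (ne_of_gt hkk)
  have n3 : p ≠ q' := by
    intro e
    rw [← e, ep] at eq'
    exact absurd (congrArg Prod.fst eq') (ne_of_gt (hkk.trans hki))
  have n4 : q ≠ p' := by
    intro e
    rw [← e, eq] at ep'
    exact absurd (congrArg Prod.fst ep') (ne_of_lt hki)
  have n5 : q ≠ q' := by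
    intro e
    rw [← e, eq] at eq'
    exact absurd (congrArg Prod.fst eq') (ne_of_gt hkk)
  have n6 : p' ≠ q' := by
    intro e
    rw [← e, ep'] at eq'
    exact absurd (congrArg Prod.fst eq') (ne_of_gt (hkk.trans hki))
  have er : (⟨(k, k'), hkk⟩ : Lo n).1 = (k, k') := rfl
  have n7 : (⟨(k, k'), hkk⟩ : Lo n) ≠ p := by
    intro e
    rw [e, ep] at er
    exact absurd (congrArg Prod.fst er) (ne_of_gt hki)
  have n8 : (⟨(k, k'), hkk⟩ : Lo n) ≠ q := by
    intro e
    rw [e, eq] at er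
    exact absurd (congrArg Prod.snd er) (ne_of_lt hlk)
  have n9 : (⟨(k, k'), hkk⟩ : Lo n) ≠ p' := by
    intro e
    rw [e, ep'] at er
    exact absurd (congrArg Prod.fst er) (ne_of_gt hki)
  have n10 : (⟨(k, k'), hkk⟩ : Lo n) ≠ q' := by
    intro e
    rw [e, eq'] at er
    exact absurd (congrArg Prod.fst er) (ne_of_lt hkk)
  intro f hf
  exact D4 (f := f) n1 n2 n3 n4 n5 n6 n7 n8 n9 n10
    (fun α ρ δ => A2b (C7 hvw hlk hkk hki vl vk vi ep eq ep' eq' rfl hp hq hp' hq' α ρ δ) hf)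
    (fun α ρ δ => A2b (C8 hvw hlk hkk hki vl vk vi ep eq ep' eq' rfl hp hq hp' hq' α ρ δ) hf)

private theorem G1bxc {v w : Equiv.Perm (Fin n)} {p q : Lo n} (h : p.1.2 = q.1.1) (a j : ℕ) :
    (a, j) ∈ bx1 v w p q ∪ bx1 v w q p ↔ SW v w p q a j := by
  constructor
  · rintro (h1 | h1)
    · exact h1.2
    · exact absurd h1.1 (ne_of_lt (G1lt h))
  · exact fun h1 => Or.inl ⟨h, h1⟩

private theorem G1vals {v w : Equiv.Perm (Fin n)} {p q : Lo n} (h : BadC v w p q) :
    v q.1.2 < v p.1.2 ∧ v p.1.2 < v p.1.1 := by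
  obtain ⟨-, ⟨a, j, h1⟩, ⟨b, m, h2⟩⟩ := h
  exact ⟨Fin.lt_def.2 (lt_of_lt_of_le h1.2.2.1 h1.2.2.2.1),
    Fin.lt_def.2 (lt_of_lt_of_le h2.2.2.1 h2.2.2.2.1)⟩

/-- two bad chains with the same label -/
private theorem G1cc {v w : Equiv.Perm (Fin n)} (hvw : v ≤ w) {p q p' q' : Lo n}
    (hp : InT v w p) (hq : InT v w q) (hp' : InT v w p') (hq' : InT v w q')
    (h : BadC v w p q) (h' : BadC v w p' q') (hl : lab v w p q = lab v w p' q') :
    ∀ f ∈ vanishingIdeal ℂ (Cell v w),
      coeff (Finsupp.single p 1 + Finsupp.single q 1) f =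
        coeff (Finsupp.single p' 1 + Finsupp.single q' 1) f := by
  have hc := h.1
  have hc' := h'.1
  obtain ⟨v1, v2⟩ := G1vals h
  obtain ⟨v1', v2'⟩ := G1vals h'
  unfold lab at hl
  rw [Prod.mk.injEq, Prod.mk.injEq] at hl
  obtain ⟨l1, l2, l3⟩ := hl
  rw [G1rws_chain hc, G1rws_chain hc', Finset.singleton_inj] at l1
  rw [G1cls_chain hc, G1cls_chain hc', Finset.singleton_inj] at l2
  have hbx : ∀ a j, SW v w p q a j ↔ SW v w p' q' a j := by
    intro a j
    rw [← G1bxc hc, ← G1bxc hc', l3]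
  obtain ⟨⟨i, k⟩, hp0⟩ := p
  obtain ⟨⟨k1, l⟩, hq0⟩ := q
  obtain ⟨⟨i', k'⟩, hp0'⟩ := p'
  obtain ⟨⟨k1', l'⟩, hq0'⟩ := q'
  simp only at hc hc' v1 v2 v1' v2' l1 l2 hp0 hq0 hp0' hq0'
  subst hc hc' l1 l2
  rcases lt_trichotomy k k' with hk | hk | hk
  · rcases lt_trichotomy (v k) (v k') with hv | hv | hv
    · intro f hf
      exact (G1com hvw hq0 hk hp0' v1 hv v2' rfl rfl rfl rfl hp' hq' hp hq f hf).symm
    · exact absurd (v.injective hv) (ne_of_lt hk)
    · exact G1inc hvw hq0 hk hp0' v1' hv v2 rfl rfl rfl rfl hp hq hp' hq'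
        fun a j => (hbx a j).1
  · subst hk
    intro f _
    rfl
  · rcases lt_trichotomy (v k) (v k') with hv | hv | hv
    · intro f hf
      exact (G1inc hvw hq0' hk hp0 v1 hv v2' rfl rfl rfl rfl hp' hq' hp hq
        (fun a j => (hbx a j).2) f hf).symm
    · exact absurd (v.injective hv) (ne_of_gt hk)
    · exact G1com hvw hq0' hk hp0 v1' hv v2 rfl rfl rfl rfl hp hq hp' hq'

private theorem G1cdc {v w : Equiv.Perm (Fin n)} {p q p' q' : Lo n}
    (h : BadD v w p q) (h' : BadC v w p' q') (hl : rws p q = rws p' q') : False := by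
  rw [G1rws_d h, G1rws_chain h'.1] at hl
  have h1 : p.1.1 ∈ ({p'.1.1} : Finset (Fin n)) := by rw [← hl]; simp
  have h2 : q.1.1 ∈ ({p'.1.1} : Finset (Fin n)) := by rw [← hl]; simp
  rw [Finset.mem_singleton] at h1 h2
  exact h.1 (h1.trans h2.symm)

theorem G1b {v w : Equiv.Perm (Fin n)} (hvw : v ≤ w) {p q p' q' : Lo n} (h : Bad v w p q)
    (h' : Bad v w p' q') (hl : lab v w p q = lab v w p' q') :
    ∃ κ : ℂ, ∀ f ∈ vanishingIdeal ℂ (Cell v w),
      coeff (Finsupp.single p 1 + Finsupp.single q 1) f +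
        κ * coeff (Finsupp.single p' 1 + Finsupp.single q' 1) f = 0 := by
  obtain ⟨hp, hq, h⟩ := h
  obtain ⟨hp', hq', h'⟩ := h'
  have hl1 : rws p q = rws p' q' := congrArg (fun t => t.1) hl
  have hl2 : cls p q = cls p' q' := congrArg (fun t => t.2.1) hl
  rcases h with h | h | h
  · rcases h' with h' | h' | h'
    · rw [G1rws_d h, G1rws_d h'] at hl1
      rw [G1cls_d h, G1cls_d h'] at hl2
      rcases G1pair h.1 hl1 with ⟨e1, e2⟩ | ⟨e1, e2⟩
      · exact G1disj hvw hp hq hp' hq' h e1 e2 hl2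
      · rw [Finset.pair_comm p'.1.2] at hl2
        obtain ⟨κ, hκ⟩ := G1disj hvw hp hq hq' hp' h e2 e1 hl2
        refine ⟨κ, fun f hf => ?_⟩
        rw [add_comm (Finsupp.single p' 1)]
        exact hκ f hf
    · exact (G1cdc h h' hl1).elim
    · exact (G1cdc h h' (hl1.trans (G1rws_comm _ _))).elim
  · rcases h' with h' | h' | h'
    · exact (G1cdc h' h hl1.symm).elim
    · refine ⟨-1, fun f hf => ?_⟩
      linear_combination G1cc hvw hp hq hp' hq' h h' hl f hf
    · refine ⟨-1, fun f hf => ?_⟩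
      rw [add_comm (Finsupp.single p' 1)]
      linear_combination G1cc hvw hp hq hq' hp' h h' (hl.trans (G1lab_comm _ _ _ _)) f hf
  · rcases h' with h' | h' | h'
    · exact (G1cdc h' h (hl1.symm.trans (G1rws_comm _ _))).elim
    · refine ⟨-1, fun f hf => ?_⟩
      rw [add_comm (Finsupp.single p 1)]
      linear_combination G1cc hvw hq hp hp' hq' h h' ((G1lab_comm _ _ _ _).trans hl) f hf
    · refine ⟨-1, fun f hf => ?_⟩
      rw [add_comm (Finsupp.single p 1), add_comm (Finsupp.single p' 1)]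
      linear_combination G1cc hvw hq hp hq' hp' h h'
        ((G1lab_comm _ _ _ _).trans (hl.trans (G1lab_comm _ _ _ _))) f hf

end HQ
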