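import Pool.Agent.LibHQ4.G1
import Pool.Agent.LibHQ4.E3
import Pool.Agent.LibHQ4.E4
import Pool.Agent.LibHQ4.F3

/-! # G2: the formula (assembled by helper4) -/

set_option autoImplicit false

namespace HQ

open SH MvPolynomial

variable {n : ℕ}

theorem Bad.symm {v w : Equiv.Perm (Fin n)} {p q : Lo n} (h : Bad v w p q) : Bad v w q p := by
  obtain ⟨h1, h2, h3 | h3 | h3⟩ := h
  · obtain ⟨a1, a2, a3, a4, a, j, b1, b2, b3⟩ := h3
    exact ⟨h2, h1, Or.inl ⟨a1.symm, a2.symm, a4.symm, a3.symm, a, j, b2, b1, b3⟩⟩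
  · exact ⟨h2, h1, Or.inr (Or.inr h3)⟩
  · exact ⟨h2, h1, Or.inr (Or.inl h3)⟩

theorem lab_symm (v w : Equiv.Perm (Fin n)) (p q : Lo n) : lab v w p q = lab v w q p := by
  unfold lab rws cls
  rw [Finset.pair_comm p.1.1 q.1.1, Finset.pair_comm p.1.2 q.1.2, Set.union_comm]

theorem hs_formula {v w : Equiv.Perm (Fin n)} (hvw : v ≤ w) :
    hs v w 0 = 1 ∧ hs v w 1 = 1 + (TT v w).card ∧
      hs v w 2 + bb v w = 1 + (TT v w).card + ((TT v w).card + 1).choose 2 := by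
  refine F3 (Cell v w) (TT v w) (Bad v w) (lab v w) (fun p q h => ⟨mem_TT.2 h.1, mem_TT.2 h.2.1⟩)
    (fun p q h => h.symm) (fun p q _ => lab_symm v w p q)
    (fun p hp => E2c fun h => hp (mem_TT.2 h)) ?_ ?_ ?_
    (fun p hp q hq hpq hb => G1a hvw (mem_TT.1 hp) (mem_TT.1 hq) hpq hb)
    (fun p q p' q' h h' hl => G1b hvw h h' hl)
  · rintro p q ⟨hp, hq, h | h | h⟩
    · exact E3 hp hq h
    · exact E4 hvw hp hq h
    · obtain ⟨c, h1, h2⟩ := E4 hvw hq hp h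
      refine ⟨c, ?_, fun p' q' hc => ?_⟩
      · rw [mul_comm]; exact h1
      · obtain ⟨b1, b2, b3, b4⟩ := h2 p' q' hc
        exact ⟨b1, b2.trans (lab_symm v w q p), b4, b3⟩
  · intro f hf
    have h0 : (0 : Lo n → ℂ) ∈ Cl v w := by
      intro a ha j hj
      rw [umat_zero, mul_one, dg_pmat]
      exact le_iff_dd.1 hvw a ha j hj
    have h1 := A2b h0 hf
    rwa [eval_zero] at h1
  · intro p hp f hf
    have h1 := D2a (f := f) (p := p) fun s => A2b (C1 hvw (mem_TT.1 hp) s) hf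
    exact ⟨h1.2.1, h1.2.2⟩

end HQ
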