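import Pool.Agent.LibHQ4.Defs

/-!
# Basic facts on `sw` (by helper4, written first)
-/

set_option autoImplicit false

namespace HQ

open SH MvPolynomial

variable {n : ℕ}

theorem lo_lt (p : Lo n) : p.1.2.val < p.1.1.val := p.2

theorem rr_sw {v : Equiv.Perm (Fin n)} {p : Lo n} (hp : Up v p) (a : ℕ) {j : ℕ} (hj : j ≤ n)
    [Decidable (Act v p a j)] :
    rr (sw v p) a j = rr v a j + if Act v p a j then 1 else 0 := by
  have h := c10_rr_swap v (j := p.1.2) (k := p.1.1) p.2 hp a hj
  unfold sw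
  rw [h]
  by_cases hA : Act v p a j
  · rw [if_pos hA, if_pos (show p.1.2.val < j ∧ j ≤ p.1.1.val ∧ (v p.1.2).val < a ∧
      a ≤ (v p.1.1).val from hA)]
  · rw [if_neg hA, if_neg (show ¬ (p.1.2.val < j ∧ j ≤ p.1.1.val ∧ (v p.1.2).val < a ∧
      a ≤ (v p.1.1).val) from hA)]

theorem rr_eq_of_ge (w : Equiv.Perm (Fin n)) (a : ℕ) {j : ℕ} (hj : n ≤ j) : rr w a j = rr w a n := by
  unfold rr
  congr 1
  ext b
  have := b.2
  simp only [Finset.mem_filter, Finset.mem_univ, true_and]
  constructor <;> rintro ⟨h1, h2⟩ <;> exact ⟨by omega, h2⟩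

theorem Act.le {v : Equiv.Perm (Fin n)} {p : Lo n} {a j : ℕ} (h : Act v p a j) : a ≤ n ∧ j ≤ n := by
  obtain ⟨h1, h2, h3, h4⟩ := h
  have := p.1.1.2
  have := (v p.1.1).2
  omega

theorem Act.up {v : Equiv.Perm (Fin n)} {p : Lo n} {a j : ℕ} (h : Act v p a j) : Up v p := by
  obtain ⟨h1, h2, h3, h4⟩ := h
  show (v p.1.2).val < (v p.1.1).val
  omega

theorem sw_apply_row (v : Equiv.Perm (Fin n)) (p : Lo n) : sw v p p.1.1 = v p.1.2 := by
  unfold sw; rw [Equiv.Perm.mul_apply, Equiv.swap_apply_right]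

theorem sw_apply_col (v : Equiv.Perm (Fin n)) (p : Lo n) : sw v p p.1.2 = v p.1.1 := by
  unfold sw; rw [Equiv.Perm.mul_apply, Equiv.swap_apply_left]

theorem sw_apply_of_ne (v : Equiv.Perm (Fin n)) (p : Lo n) {b : Fin n} (h1 : b ≠ p.1.1)
    (h2 : b ≠ p.1.2) : sw v p b = v b := by
  unfold sw; rw [Equiv.Perm.mul_apply, Equiv.swap_apply_of_ne_of_ne h2 h1]

theorem lt_sw {v : Equiv.Perm (Fin n)} {p : Lo n} (hp : Up v p) : v < sw v p := by
  classical
  refine lt_of_le_of_ne ?_ fun h => ?_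
  · rw [le_iff]
    intro a _ j hj
    rw [rr_sw hp a hj]
    exact Nat.le_add_right _ _
  · have h1 := sw_apply_row v p
    rw [← h] at h1
    exact absurd h1 (ne_of_gt hp)

theorem sw_lt_of_not_up {v : Equiv.Perm (Fin n)} {p : Lo n} (hp : ¬ Up v p) : sw v p < v := by
  have h1 : Up (sw v p) p := by
    show sw v p p.1.2 < sw v p p.1.1
    rw [sw_apply_row, sw_apply_col]
    refine lt_of_le_of_ne (not_lt.1 hp) fun h => ?_
    exact absurd (v.injective h) (ne_of_gt p.2)
  have h2 : sw (sw v p) p = v := by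
    unfold sw
    rw [mul_assoc, Equiv.swap_mul_self, mul_one]
  have h3 := lt_sw h1
  rwa [h2] at h3

theorem Edge.lt {x y : Equiv.Perm (Fin n)} (h : Edge x y) : x < y := by
  obtain ⟨p, hp, rfl⟩ := h
  exact lt_sw hp

theorem Ew.lt {w x y : Equiv.Perm (Fin n)} (h : Ew w x y) : x < y := h.1.lt

/-- exchange goes up iff the result is bigger -/
theorem up_iff_lt {v : Equiv.Perm (Fin n)} {p : Lo n} : Up v p ↔ v < sw v p := by
  constructor
  · exact lt_sw
  · intro h
    by_contra h1
    exact absurd h (sw_lt_of_not_up h1).not_gt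

theorem sw_le_iff {v w : Equiv.Perm (Fin n)} (hvw : v ≤ w) {p : Lo n} (hp : Up v p) :
    sw v p ≤ w ↔ InT v w p := by
  classical
  constructor
  · intro h a j hact
    have h1 := rr_sw hp a hact.le.2
    rw [if_pos hact] at h1
    have h2 := le_def.1 h a j
    omega
  · intro h
    rw [le_iff]
    intro a _ j hj
    rw [rr_sw hp a hj]
    by_cases hact : Act v p a j
    · rw [if_pos hact]
      have := h a j hact
      omega
    · rw [if_neg hact, add_zero]
      exact le_def.1 hvw a j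

theorem InT.of_not_up {v w : Equiv.Perm (Fin n)} {p : Lo n} (hp : ¬ Up v p) : InT v w p :=
  fun _ _ h => absurd h.up hp

theorem ew_iff {v w : Equiv.Perm (Fin n)} (hvw : v ≤ w) {x : Equiv.Perm (Fin n)} :
    Ew w v x ↔ ∃ p : Lo n, Up v p ∧ InT v w p ∧ x = sw v p := by
  constructor
  · rintro ⟨⟨p, hp, rfl⟩, h⟩
    exact ⟨p, hp, (sw_le_iff hvw hp).1 h, rfl⟩
  · rintro ⟨p, hp, h, rfl⟩
    exact ⟨⟨p, hp, rfl⟩, (sw_le_iff hvw hp).2 h⟩

theorem sw_injective (v : Equiv.Perm (Fin n)) : Function.Injective (sw v) := by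
  intro p q h
  have h1 : Equiv.swap p.1.2 p.1.1 = Equiv.swap q.1.2 q.1.1 := mul_left_cancel h
  have hp : p.1.2 < p.1.1 := p.2
  have hq : q.1.2 < q.1.1 := q.2
  have h2 : Equiv.swap q.1.2 q.1.1 p.1.2 = p.1.1 := by rw [← h1, Equiv.swap_apply_left]
  have h3 : p.1.2 = q.1.2 ∨ p.1.2 = q.1.1 := by
    by_contra hc
    rw [not_or] at hc
    rw [Equiv.swap_apply_of_ne_of_ne hc.1 hc.2] at h2
    exact absurd h2 (ne_of_lt hp)
  rcases h3 with h3 | h3
  · rw [h3, Equiv.swap_apply_left] at h2
    exact Subtype.ext (Prod.ext h2.symm h3)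
  · rw [h3, Equiv.swap_apply_right] at h2
    rw [h3, ← h2] at hp
    exact absurd hp (not_lt.2 hq.le)

/-- the stronger form of `SH.chain` -/
theorem chain_sw {x y : Equiv.Perm (Fin n)} (h : x < y) :
    ∃ p : Lo n, Up x p ∧ sw x p ≤ y ∧ len (sw x p) = len x + 1 ∧
      ∀ b : Fin n, p.1.2 < b → b < p.1.1 → x b < x p.1.2 ∨ x p.1.1 < x b := by
  have hxy : ∀ a j : ℕ, rr x a j ≤ rr y a j := le_def.1 h.le
  -- the first place where `x` and `y` differ
  obtain ⟨j, hj, hjmin⟩ : ∃ j : Fin n, x j ≠ y j ∧ ∀ b, b < j → x b = y b := by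
    have hne : (Finset.univ.filter fun b : Fin n => x b ≠ y b).Nonempty := by
      by_contra hc
      rw [Finset.not_nonempty_iff_eq_empty, Finset.filter_eq_empty_iff] at hc
      exact h.ne (Equiv.ext fun b => not_not.1 (hc (Finset.mem_univ b)))
    obtain ⟨j, hj, hmin⟩ := Finset.exists_min_image _ (fun b : Fin n => b) hne
    refine ⟨j, (Finset.mem_filter.1 hj).2, fun b hb => ?_⟩
    by_contra hc
    exact absurd (hmin b (Finset.mem_filter.2 ⟨Finset.mem_univ b, hc⟩)) (not_le.2 hb)
  have hrj : ∀ a m, m ≤ j.val → rr x a m = rr y a m := by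
    intro a m hm
    induction m with
    | zero => simp [rr_zero]
    | succ m ih =>
      have hmn : m < n := by have := j.2; omega
      have h1 := rr_succ x a ⟨m, hmn⟩
      have h2 := rr_succ y a ⟨m, hmn⟩
      simp only at h1 h2
      rw [h1, h2, ih (by omega), hjmin ⟨m, hmn⟩ (show m < j.val by omega)]
  have hlt : (x j).val < (y j).val := by
    have h1 := rr_succ x (x j).val j
    have h2 := rr_succ y (x j).val j
    rw [if_pos le_rfl] at h1
    have h3 := hxy (x j).val (j.val + 1)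
    have h4 := hrj (x j).val j.val le_rfl
    have h5 : (x j).val ≤ (y j).val := by
      by_contra hc
      rw [if_neg hc] at h2
      omega
    have h6 : (x j).val ≠ (y j).val := fun h => hj (Fin.ext h)
    omega
  -- the place `k`
  obtain ⟨k, hjk, hk1, hk2, hkmin⟩ : ∃ k : Fin n, j < k ∧ (x j).val < (x k).val ∧
      (x k).val ≤ (y j).val ∧ ∀ b, j < b → b < k →
        ¬ ((x j).val < (x b).val ∧ (x b).val ≤ (y j).val) := by
    have hne : (Finset.univ.filter fun b : Fin n => j < b ∧ (x j).val < (x b).val ∧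
        (x b).val ≤ (y j).val).Nonempty := by
      refine ⟨x.symm (y j), Finset.mem_filter.2 ⟨Finset.mem_univ _, ?_, ?_, ?_⟩⟩
      · by_contra hc
        rcases (not_lt.1 hc).lt_or_eq with h1 | h1
        · have h2 := hjmin _ h1
          rw [Equiv.apply_symm_apply] at h2
          exact absurd (y.injective h2) (ne_of_gt h1)
        · have h2 : x (x.symm (y j)) = x j := by rw [h1]
          rw [Equiv.apply_symm_apply] at h2
          exact hj h2.symm
      · rw [Equiv.apply_symm_apply]; exact hlt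
      · rw [Equiv.apply_symm_apply]
    obtain ⟨k, hk, hmin⟩ := Finset.exists_min_image _ (fun b : Fin n => b) hne
    obtain ⟨-, hk1, hk2, hk3⟩ := Finset.mem_filter.1 hk
    refine ⟨k, hk1, hk2, hk3, fun b hb1 hb2 hc => ?_⟩
    exact absurd (hmin b (Finset.mem_filter.2 ⟨Finset.mem_univ b, hb1, hc⟩)) (not_le.2 hb2)
  have hjk' : j.val < k.val := hjk
  have hxk : x j < x k := hk1
  have hmin : ∀ b : Fin n, j < b → b < k → x b < x j ∨ x k < x b := by
    intro b hb1 hb2
    have h1 := hkmin b hb1 hb2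
    have h2 : x b ≠ x j := fun h => absurd (x.injective h) (ne_of_gt hb1)
    have h2' : (x b).val ≠ (x j).val := fun h => h2 (Fin.ext h)
    by_cases h3 : (x b).val < (x j).val
    · exact Or.inl h3
    · refine Or.inr (show (x k).val < (x b).val from ?_)
      omega
  refine ⟨⟨(k, j), hjk⟩, hxk, ?_, c10_len x hjk hxk hmin, hmin⟩
  show x * Equiv.swap j k ≤ y
  rw [le_iff]
  intro a _ m hm
  rw [c10_rr_swap x hjk hxk a hm]
  by_cases hc : j.val < m ∧ m ≤ k.val ∧ (x j).val < a ∧ a ≤ (x k).val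
  · rw [if_pos hc]
    obtain ⟨c1, c2, c3, c4⟩ := hc
    have e1 := c10_step x (a := a) (a' := (y j).val + 1) (j := j.val) (m := m) (by omega) hm (by
      intro b hb1 hb2
      by_cases hbj : b = j
      · rw [hbj]; omega
      · have hbj' : b.val ≠ j.val := fun h => hbj (Fin.ext h)
        have := hkmin b (show j.val < b.val by omega) (show b.val < k.val by omega)
        omega)
    have e2 := rr_succ y a j
    have e3 := rr_succ y ((y j).val + 1) j
    rw [if_pos (by omega)] at e2
    rw [if_neg (by omega)] at e3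
    have e4 := c10_step_le y (a := a) (a' := (y j).val + 1) (j := j.val + 1) (m := m) (by omega)
      (by omega) hm
    have e5 := hrj a j.val le_rfl
    have e6 := hrj ((y j).val + 1) j.val le_rfl
    have e7 := hxy ((y j).val + 1) m
    omega
  · rw [if_neg hc, add_zero]
    exact hxy a m

end HQ
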