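import Pool.Agent.LibHQ4.H2

/-!
# Row H10 (MEDIUM): linked of the first kind implies same label

`s = sw v s₀` (`ew_iff`). `H2` for `GFull (sw v p) s (sw v p')` (`x := v`) and for `GFull (sw v q') s (sw v q)`:
`{p, s₀} = {(k₁,l₁), (i₁,k₁)}`, `p' = (i₁,l₁)`; `{q', s₀} = {(k₂,l₂), (i₂,k₂)}`, `q = (i₂,l₂)`, `l < k < i` and
`v l < v k < v i` in both (`sw_injective` to go from the permutations to the pairs). Cases:
* `s₀ = (k₁,l₁) = (k₂,l₂)`: `p = (i₁,k₁)`, `p' = (i₁,l₁)`, `q' = (i₂,k₁)`, `q = (i₂,l₁)`; `i₁ ≠ i₂` (otherwise `p = q'`: but then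
  `q = p'`... use: if `i₁ = i₂` then `p, q` have the same row and are not bad). `rws`, `cls` of both pairs are `{i₁,i₂}`,
  `{k₁,l₁}` (all four positions different: `l₁ < k₁ < i₁, i₂`), third parts are empty (`bx1` needs `p.1.2 = q.1.1`).
* `s₀ = (i₁,k₁) = (i₂,k₂)`: `p = (k₁,l₁)`, `p' = (i₁,l₁)`, `q' = (k₁,l₂)`, `q = (i₁,l₂)`, `l₁ ≠ l₂` as before: similar.
* `s₀ = (k₁,l₁) = (i₂,k₂)`: `p = (i₁,k₁)`, `p' = (i₁,l₁)`, `q' = (l₁,l₂)`, `q = (k₁,l₂)`, positions `l₂ < l₁ < k₁ < i₁`, increasing values: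
  chains with the same ends `(i₁,l₂)` and comparable middles `k₁`, `l₁`. `rws = {i₁}`, `cls = {l₂}`, third parts:
  for all `β`: `SW p q β ↔ SW p' q' β`: (→) `k₁ < j ≤ i₁`, `v l₂ < a ≤ v k₁`, tight; if `v l₁ < a` then `β` is in the
  rectangle of `p' = (i₁,l₁)`: contradiction to `InT`; so `a ≤ v l₁`, and `l₁ < j`. (←) `l₁ < j ≤ i₁`, `v l₂ < a ≤ v l₁`,
  tight; if `j ≤ k₁` then `β` is in the rectangle of `q = (k₁,l₂)`: contradiction. And `bx1 q p = ∅ = bx1 q' p'`
  (`q.1.2 = l₂ ≠ i₁`). Make this a private lemma for a chain of four increasing positions with increasing values.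
* `s₀ = (i₁,k₁) = (k₂,l₂)`: `p = (k₁,l₁)`, `p' = (i₁,l₁)`, `q' = (i₂,i₁)`, `q = (i₂,k₁)`, positions `l₁ < k₁ < i₁ < i₂`: chains
  `(i₂,k₁),(k₁,l₁)` = `{q, p}` and `(i₂,i₁),(i₁,l₁)` = `{q', p'}`: the same private lemma (`lab` is symmetric:
  `Finset.pair_comm`, `Set.union_comm`).
-/

set_option autoImplicit false

namespace HQ

open SH

variable {n : ℕ}

private theorem H10_full {v w : Equiv.Perm (Fin n)} {p s r : Lo n} (up : Up v p) (us : Up v s)
    (h : GFull (Ew w) (sw v p) (sw v s) (sw v r)) :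
    (p.1.1 = s.1.2 ∧ r.1.1 = s.1.1 ∧ r.1.2 = p.1.2) ∨
      (s.1.1 = p.1.2 ∧ r.1.1 = p.1.1 ∧ r.1.2 = s.1.2) := by
  obtain ⟨hne, c, d, hcd, ⟨h1, h2⟩, ⟨h3, h4⟩, h5, h6⟩ := h
  obtain ⟨P, Q, r₀, hPQ, hr₀, -, -, hor, hy⟩ :=
    H2 hne hcd ⟨p, up, rfl⟩ ⟨s, us, rfl⟩ h1.1 h2.1 h3.1 h4.1 h5.1 h6.1
  have hr : r = r₀ := sw_injective v hy
  subst hr
  rcases hor with ⟨ha, hb⟩ | ⟨ha, hb⟩
  · have hp : p = P := sw_injective v ha
    have hs : s = Q := sw_injective v hb
    subst hp hs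
    exact Or.inl ⟨hPQ, by rw [hr₀], by rw [hr₀]⟩
  · have hp : p = Q := sw_injective v ha
    have hs : s = P := sw_injective v hb
    subst hp hs
    exact Or.inr ⟨hPQ, by rw [hr₀], by rw [hr₀]⟩

private theorem H10_bx1_empty {v w : Equiv.Perm (Fin n)} {p q : Lo n} (h : p.1.2 ≠ q.1.1) :
    bx1 v w p q = ∅ := by
  ext β
  simp [bx1, h]

private theorem H10_four {v w : Equiv.Perm (Fin n)} {a b c d : Lo n} (h1 : c.1.1 = a.1.1)
    (h2 : b.1.2 = d.1.2) (h3 : a.1.2 = b.1.1) (h4 : c.1.2 = d.1.1) (h5 : c.1.2 < a.1.2)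
    (h6 : v c.1.2 < v a.1.2) (hb : InT v w b) (hc : InT v w c) :
    lab v w a b = lab v w c d := by
  have la := lo_lt a
  have lb := lo_lt b
  have lc := lo_lt c
  have ld := lo_lt d
  have h5' : c.1.2.val < a.1.2.val := h5
  have h6' : (v c.1.2).val < (v a.1.2).val := h6
  have e1 : (c.1.1).val = (a.1.1).val := congrArg Fin.val h1
  have e2 : (b.1.2).val = (d.1.2).val := congrArg Fin.val h2
  have e3 : (a.1.2).val = (b.1.1).val := congrArg Fin.val h3
  have e4 : (c.1.2).val = (d.1.1).val := congrArg Fin.val h4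
  have k1 : bx1 v w b a = ∅ := H10_bx1_empty (by intro h; have := congrArg Fin.val h; omega)
  have k2 : bx1 v w d c = ∅ := H10_bx1_empty (by intro h; have := congrArg Fin.val h; omega)
  have hr : rws a b = rws c d := by
    unfold rws
    ext x
    simp only [Finset.mem_sdiff, Finset.mem_insert, Finset.mem_singleton, Fin.ext_iff]
    omega
  have hcl : cls a b = cls c d := by
    unfold cls
    ext x
    simp only [Finset.mem_sdiff, Finset.mem_insert, Finset.mem_singleton, Fin.ext_iff]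
    omega
  have hbx : bx1 v w a b = bx1 v w c d := by
    ext β
    obtain ⟨α, j⟩ := β
    simp only [bx1, Set.mem_setOf_eq, SW]
    have f1 : (v c.1.1).val = (v a.1.1).val := by rw [h1]
    have f2 : (v b.1.2).val = (v d.1.2).val := by rw [h2]
    have f3 : (v a.1.2).val = (v b.1.1).val := by rw [h3]
    constructor
    · rintro ⟨-, g1, g2, g3, g4, g5, g6⟩
      refine ⟨h4, by omega, by omega, by omega, ?_, by omega, g6⟩
      by_contra hcon
      have := hc α j ⟨by omega, by omega, by omega, by omega⟩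
      omega
    · rintro ⟨-, g1, g2, g3, g4, g5, g6⟩
      refine ⟨h3, ?_, by omega, by omega, by omega, by omega, g6⟩
      by_contra hcon
      have := hb α j ⟨by omega, by omega, by omega, by omega⟩
      omega
  unfold lab
  rw [k1, k2, hr, hcl, hbx]

private theorem H10_comm {v w : Equiv.Perm (Fin n)} (p q : Lo n) :
    lab v w p q = lab v w q p := by
  unfold lab rws cls
  rw [Finset.pair_comm p.1.1, Finset.pair_comm p.1.2, Set.union_comm]


theorem H10 {v w : Equiv.Perm (Fin n)} (hvw : v ≤ w) {p q p' q' : Lo n} (h : Bad v w p q)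
    (h' : Bad v w p' q') (up : Up v p) (uq : Up v q) (up' : Up v p') (uq' : Up v q')
    (hl : GL1 (Ew w) v (sw v p) (sw v q) (sw v p') (sw v q')) :
    lab v w p q = lab v w p' q' := by
  obtain ⟨s', hs', hf, hf'⟩ := hl
  obtain ⟨s, us, ts, rfl⟩ := (ew_iff hvw).1 hs'
  have ls := lo_lt s
  have lp := lo_lt p
  have lq := lo_lt q
  have lp' := lo_lt p'
  have lq' := lo_lt q'
  have vs : (v s.1.2).val < (v s.1.1).val := us
  rcases H10_full up us hf with ⟨a1, a2, a3⟩ | ⟨a1, a2, a3⟩ <;>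
    rcases H10_full uq' us hf' with ⟨b1, b2, b3⟩ | ⟨b1, b2, b3⟩
  · -- beta beta
    have ea1 := congrArg Fin.val a1
    have ea2 := congrArg Fin.val a2
    have ea3 := congrArg Fin.val a3
    have eb1 := congrArg Fin.val b1
    have eb2 := congrArg Fin.val b2
    have eb3 := congrArg Fin.val b3
    have k1 : bx1 v w p q = ∅ := H10_bx1_empty (by intro h; have := congrArg Fin.val h; omega)
    have k2 : bx1 v w q p = ∅ := H10_bx1_empty (by intro h; have := congrArg Fin.val h; omega)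
    have k3 : bx1 v w p' q' = ∅ := H10_bx1_empty (by intro h; have := congrArg Fin.val h; omega)
    have k4 : bx1 v w q' p' = ∅ := H10_bx1_empty (by intro h; have := congrArg Fin.val h; omega)
    unfold lab rws cls
    rw [k1, k2, k3, k4, a2, a3, b2, b3, a1, b1, Finset.pair_comm s.1.1 s.1.2]
  · -- beta alpha
    rw [H10_comm p q, H10_comm p' q']
    refine (H10_four (a := q') (b := p') (c := q) (d := p) b2 a3 ?_ ?_ ?_ ?_ h'.1 h.2.1).symm
    · rw [← b1, a2]
    · rw [b3, a1]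
    · rw [b3, ← b1]; exact ls
    · rw [b3, ← b1]; exact us
  · -- alpha beta
    refine H10_four (a := p) (b := q) (c := p') (d := q') a2 b3 ?_ ?_ ?_ ?_ h.2.1 h'.1
    · rw [← a1, b2]
    · rw [a3, b1]
    · rw [a3, ← a1]; exact ls
    · rw [a3, ← a1]; exact us
  · -- alpha alpha
    have ea1 := congrArg Fin.val a1
    have ea2 := congrArg Fin.val a2
    have ea3 := congrArg Fin.val a3
    have eb1 := congrArg Fin.val b1
    have eb2 := congrArg Fin.val b2
    have eb3 := congrArg Fin.val b3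
    have k1 : bx1 v w p q = ∅ := H10_bx1_empty (by intro h; have := congrArg Fin.val h; omega)
    have k2 : bx1 v w q p = ∅ := H10_bx1_empty (by intro h; have := congrArg Fin.val h; omega)
    have k3 : bx1 v w p' q' = ∅ := H10_bx1_empty (by intro h; have := congrArg Fin.val h; omega)
    have k4 : bx1 v w q' p' = ∅ := H10_bx1_empty (by intro h; have := congrArg Fin.val h; omega)
    unfold lab rws cls
    rw [k1, k2, k3, k4, a2, a3, b2, b3, ← a1, ← b1, Finset.pair_comm s.1.1 s.1.2]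

end HQ
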