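import Pool.Agent.LibHQ4.Defs

/-!
# Row H11 (STRONG): products of three swaps, support counting

Let `T m = swap (t m).1.2 (t m).1.1` (four different swaps), `y = T m * s * r` for every `m`, `y` not a swap.
`sign y = -1`, `y.support.card ≤ 6` (`support_mul_le`, a swap has support 2), `T m * y = s * r` has support
of size `≤ 4`. `y ≠ 1`, `card ≠ 1`; `card = 2` means swap (`card_support_eq_two`); `card = 3` means 3-cycle
(`card_support_eq_three_iff`), sign `+1`: impossible. So `card ∈ {4,5,6}`.
For `t = {a, b}` one of the `t m`: for `c ≠ y⁻¹ a, y⁻¹ b`: `(T y) c = y c` (if `y c ≠ a, b`), so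
`supp (T y) ⊇ supp y \ {y⁻¹ a, y⁻¹ b}`; `(T y)(y⁻¹ a) = b`, `(T y)(y⁻¹ b) = a`.
* `a ∉ supp y`: then `y a = a`, `(T y) a = b ≠ a` is moved, and `y⁻¹ b` is moved (`(T y)(y⁻¹ b) = a ≠ y⁻¹ b`, unless
  `y⁻¹ b = a`, no since `y a = a ≠ b`): so `supp (T y) ⊇ supp y ∪ {a}` : size `≥ 5`, contradiction to `≤ 4`. So
  `a, b ∈ supp y` for every `t m`.
* `card = 4`: done (first alternative).
* `card = 6`: `supp (T y) ⊇ supp y \ {y⁻¹ a, y⁻¹ b}` has size `≥ 4`, so both `y⁻¹ a`, `y⁻¹ b` are fixed by `T y`:
  `y⁻¹ a = b`, `y⁻¹ b = a`. So every `t m` is a 2-cycle of `y`: four different 2-cycles are pairwise disjoint (a 2-cycle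
  is determined by one of its points): `supp y` has at least 8 elements, contradiction.
* `card = 5`: one of `y⁻¹ a`, `y⁻¹ b` is fixed by `T y`: `y b = a` or `y a = b`: every `t m` is an arc `{c, y c}`. `cycleType y` has
  sum 5 and parts `≥ 2`: `{5}` (sign `+1`, excluded) or `{3, 2}`: so there are `c₀` with `y² c₀ = c₀ ≠ y c₀` and `c₁` with
  `y³ c₁ = c₁`, `supp y = {c₀, y c₀, c₁, y c₁, y² c₁}` (or avoid cycle types: choose `c ∈ supp y` and follow its orbit).
  The arcs are the four pairs `{c₀, y c₀}`, `{c₁, y c₁}`, `{y c₁, y² c₁}`, `{y² c₁, c₁}`; the four different `t m` are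
  all of them. Sort `c₁, y c₁, y² c₁` as `u < v < w`: second alternative.
-/

set_option autoImplicit false

namespace HQ

open SH

variable {n : ℕ}

private theorem H11_three {y : Equiv.Perm (Fin n)} (h5 : y.support.card = 5)
    (hs : Equiv.Perm.sign y = -1) : 3 ∈ y.cycleType := by
  have hsum : y.cycleType.sum = 5 := by rw [Equiv.Perm.sum_cycleType, h5]
  have h2 : ∀ a ∈ y.cycleType, 2 ≤ a := fun a ha => Equiv.Perm.two_le_of_mem_cycleType ha
  have hc : Multiset.card y.cycleType * 2 ≤ 5 := by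
    have := Multiset.card_nsmul_le_sum h2
    rw [hsum, smul_eq_mul] at this
    exact this
  have hsg := Equiv.Perm.sign_of_cycleType y
  rw [hs, hsum] at hsg
  have hcard : Multiset.card y.cycleType = 2 := by
    have hlt : Multiset.card y.cycleType < 3 := by omega
    interval_cases hcc : Multiset.card y.cycleType
    · rw [Multiset.card_eq_zero] at hcc
      rw [hcc] at hsum
      simp at hsum
    · exact absurd hsg (by decide)
    · rfl
  obtain ⟨a, b, hab⟩ := Multiset.card_eq_two.mp hcard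
  have ha : 2 ≤ a := h2 a (by rw [hab]; simp)
  have hb : 2 ≤ b := h2 b (by rw [hab]; simp)
  have hab5 : a + b = 5 := by
    rw [hab] at hsum
    simpa using hsum
  rw [hab]
  have : a = 3 ∨ b = 3 := by omega
  rcases this with h | h
  · rw [h]; simp
  · rw [h]; simp

private theorem H11_struct {y : Equiv.Perm (Fin n)} (h5 : y.support.card = 5)
    (hs : Equiv.Perm.sign y = -1) : ∃ c₁ c₀ : Fin n, c₁ ≠ y c₁ ∧ y c₁ ≠ y (y c₁) ∧
      c₁ ≠ y (y c₁) ∧ y (y (y c₁)) = c₁ ∧ y (y c₀) = c₀ ∧
      ∀ c ∈ y.support, c = c₁ ∨ c = y c₁ ∨ c = y (y c₁) ∨ c = c₀ ∨ c = y c₀ := by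
  obtain ⟨c, τ, hy, hd, -, hc3⟩ := Equiv.Perm.mem_cycleType_iff.mp (H11_three h5 hs)
  have h3 : c.IsThreeCycle := card_support_eq_three_iff.mp hc3
  have hpow : c ^ 3 = 1 := by
    rw [← h3.orderOf]
    exact pow_orderOf_eq_one c
  have hccc : ∀ x, c (c (c x)) = x := by
    intro x
    have h := congrArg (fun f : Equiv.Perm (Fin n) => f x) hpow
    simpa [pow_succ] using h
  have hτ2 : τ.support.card = 2 := by
    have h := hd.card_support_mul
    rw [← hy, h5, hc3] at h
    omega
  obtain ⟨a, b, hab, hτ⟩ := Equiv.Perm.card_support_eq_two.mp hτ2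
  have hne : c.support.Nonempty := by
    rw [← Finset.card_pos, hc3]
    norm_num
  obtain ⟨p, hp⟩ := hne
  have hp1 : c p ≠ p := Equiv.Perm.mem_support.mp hp
  have hfix : ∀ x, c x ≠ x → τ x = x := by
    intro x hx
    rcases hd x with h | h
    · exact absurd h hx
    · exact h
  have hyc : ∀ x, c x ≠ x → y x = c x := by
    intro x hx
    rw [hy, Equiv.Perm.mul_apply, hfix x hx]
  have hp2 : c (c p) ≠ c p := fun h => hp1 (c.injective h)
  have hp3 : c (c (c p)) ≠ c (c p) := fun h => hp2 (c.injective h)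
  have hy1 : y p = c p := hyc p hp1
  have hy2 : y (y p) = c (c p) := by rw [hy1, hyc _ hp2]
  have hy3 : y (y (y p)) = p := by rw [hy2, hyc _ hp3, hccc]
  have hτa : τ a = b := by rw [hτ]; exact Equiv.swap_apply_left a b
  have hτb : τ b = a := by rw [hτ]; exact Equiv.swap_apply_right a b
  have hca : c a = a := by
    rcases hd a with h | h
    · exact h
    · rw [hτa] at h
      exact absurd h.symm hab
  have hcb : c b = b := by
    rcases hd b with h | h
    · exact h
    · rw [hτb] at h
      exact absurd h hab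
  have hya : y a = b := by rw [hy, Equiv.Perm.mul_apply, hτa, hcb]
  have hyb : y b = a := by rw [hy, Equiv.Perm.mul_apply, hτb, hca]
  have hne3 : p ≠ c (c p) := by
    intro h
    have h' := congrArg c h
    rw [hccc] at h'
    exact hp1 h'
  have hsuppc : c.support = {p, c p, c (c p)} := by
    symm
    apply Finset.eq_of_subset_of_card_le
    · intro x hx
      simp only [Finset.mem_insert, Finset.mem_singleton] at hx
      rw [Equiv.Perm.mem_support]
      rcases hx with rfl | rfl | rfl
      · exact hp1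
      · exact hp2
      · exact hp3
    · rw [hc3, Finset.card_eq_three.mpr ⟨p, c p, c (c p), hp1.symm, hne3, hp2.symm, rfl⟩]
  refine ⟨p, a, ?_, ?_, ?_, hy3, ?_, ?_⟩
  · rw [hy1]; exact hp1.symm
  · rw [hy2, hy1]; exact hp2.symm
  · rw [hy2]; exact hne3
  · rw [hya, hyb]
  · intro x hx
    rw [hy2, hy1, hya]
    rw [hy, hd.support_mul, Finset.mem_union, hsuppc, hτ, Equiv.Perm.support_swap hab] at hx
    simp only [Finset.mem_insert, Finset.mem_singleton] at hx
    tauto

private theorem H11_sub {y z : Equiv.Perm (Fin n)} {a b : Fin n}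
    (hz : z = Equiv.swap a b * y) {c : Fin n} (h1 : y c ≠ a) (h2 : y c ≠ b) : z c = y c := by
  rw [hz, Equiv.Perm.mul_apply]
  exact Equiv.swap_apply_of_ne_of_ne h1 h2

private theorem H11_mem {y z : Equiv.Perm (Fin n)} {a b : Fin n} (hab : a ≠ b)
    (hz : z = Equiv.swap a b * y) (hc : z.support.card ≤ 4) (h4 : 4 ≤ y.support.card) :
    a ∈ y.support := by
  by_contra ha
  have hya : y a = a := by
    by_contra h
    exact ha (Equiv.Perm.mem_support.mpr h)
  have hsub : insert a y.support ⊆ z.support := by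
    intro c hcc
    rw [Finset.mem_insert] at hcc
    rw [Equiv.Perm.mem_support]
    rcases hcc with rfl | hcc
    · rw [hz, Equiv.Perm.mul_apply, hya, Equiv.swap_apply_left]
      exact hab.symm
    · have hyc : y c ≠ c := Equiv.Perm.mem_support.mp hcc
      by_cases h1 : y c = a
      · exact absurd (y.injective (h1.trans hya.symm)) (fun h => hyc (by rw [h1, h]))
      · by_cases h2 : y c = b
        · rw [hz, Equiv.Perm.mul_apply, h2, Equiv.swap_apply_right]
          intro h
          exact ha (h ▸ hcc)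
        · rw [H11_sub hz h1 h2]
          exact hyc
  have hcard := Finset.card_le_card hsub
  rw [Finset.card_insert_of_notMem ha] at hcard
  omega

/-- one of the two points is fixed: an arc -/
private theorem H11_arc {y z : Equiv.Perm (Fin n)} {a b : Fin n}
    (hz : z = Equiv.swap a b * y) (hc : z.support.card ≤ 4) (h5 : 5 ≤ y.support.card) :
    y a = b ∨ y b = a := by
  by_contra hcon
  rw [not_or] at hcon
  obtain ⟨h1, h2⟩ := hcon
  have hsub : y.support ⊆ z.support := by
    intro c hcc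
    have hyc : y c ≠ c := Equiv.Perm.mem_support.mp hcc
    rw [Equiv.Perm.mem_support]
    by_cases h3 : y c = a
    · rw [hz, Equiv.Perm.mul_apply, h3, Equiv.swap_apply_left]
      intro h
      exact h2 (h ▸ h3)
    · by_cases h4 : y c = b
      · rw [hz, Equiv.Perm.mul_apply, h4, Equiv.swap_apply_right]
        intro h
        exact h1 (h ▸ h4)
      · rw [H11_sub hz h3 h4]
        exact hyc
  have := Finset.card_le_card hsub
  omega

private theorem H11_two {y z : Equiv.Perm (Fin n)} {a b : Fin n}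
    (hz : z = Equiv.swap a b * y) (hc : z.support.card ≤ 4) (h6 : 6 ≤ y.support.card) :
    y b = a := by
  by_contra h2
  have hsub : y.support.erase (y.symm b) ⊆ z.support := by
    intro c hcc
    rw [Finset.mem_erase] at hcc
    obtain ⟨hcb, hcc⟩ := hcc
    have hyc : y c ≠ c := Equiv.Perm.mem_support.mp hcc
    rw [Equiv.Perm.mem_support]
    by_cases h3 : y c = a
    · rw [hz, Equiv.Perm.mul_apply, h3, Equiv.swap_apply_left]
      intro h
      exact h2 (h ▸ h3)
    · have h4 : y c ≠ b := by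
        intro h
        apply hcb
        rw [← h]
        simp
      rw [H11_sub hz h3 h4]
      exact hyc
  have := Finset.card_le_card hsub
  have h7 := Finset.pred_card_le_card_erase (s := y.support) (a := y.symm b)
  omega

private theorem H11_pair {p q : Lo n} (h : ({p.1.1, p.1.2} : Finset (Fin n)) = {q.1.1, q.1.2}) :
    p = q := by
  have hp := p.2
  have hq := q.2
  have h1 : p.1.1 ∈ ({q.1.1, q.1.2} : Finset (Fin n)) := by
    rw [← h]; simp
  have h2 : p.1.2 ∈ ({q.1.1, q.1.2} : Finset (Fin n)) := by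
    rw [← h]; simp
  simp only [Finset.mem_insert, Finset.mem_singleton] at h1 h2
  rcases h1 with h1 | h1
  · rcases h2 with h2 | h2
    · rw [h1, h2] at hp
      exact absurd hp (lt_irrefl _)
    · exact Subtype.ext (Prod.ext h1 h2)
  · rcases h2 with h2 | h2
    · rw [h1, h2] at hp
      exact absurd (lt_trans hp hq) (lt_irrefl _)
    · rw [h1, h2] at hp
      exact absurd hp (lt_irrefl _)

private theorem H11_fin {t : Fin 4 → Lo n} {x₁ x₂ x₃ : Fin n} (h12 : x₁ ≠ x₂) (h23 : x₂ ≠ x₃)
    (h13 : x₁ ≠ x₃) (k1 : ∃ m, ({(t m).1.1, (t m).1.2} : Finset (Fin n)) = {x₁, x₂})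
    (k2 : ∃ m, ({(t m).1.1, (t m).1.2} : Finset (Fin n)) = {x₂, x₃})
    (k3 : ∃ m, ({(t m).1.1, (t m).1.2} : Finset (Fin n)) = {x₁, x₃}) :
    ∃ (a b c : Fin 4) (u v w : Fin n), u < v ∧ v < w ∧ (t a).1 = (v, u) ∧ (t b).1 = (w, v) ∧
        (t c).1 = (w, u) := by
  have key : ∀ (p q : Fin n), p < q →
      (∃ m, ({(t m).1.1, (t m).1.2} : Finset (Fin n)) = {p, q}) → ∃ m, (t m).1 = (q, p) := by
    rintro p q hpq ⟨m, hm⟩
    refine ⟨m, ?_⟩
    have h := H11_pair (p := t m) (q := ⟨(q, p), hpq⟩) (by rw [hm]; exact Finset.pair_comm p q)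
    rw [h]
  have key' : ∀ (p q : Fin n), p < q →
      (∃ m, ({(t m).1.1, (t m).1.2} : Finset (Fin n)) = {q, p}) → ∃ m, (t m).1 = (q, p) := by
    intro p q hpq h
    refine key p q hpq ?_
    rw [Finset.pair_comm p q]
    exact h
  rcases lt_or_gt_of_ne h12 with g12 | g12
  · rcases lt_or_gt_of_ne h23 with g23 | g23
    · obtain ⟨a, ha⟩ := key _ _ g12 k1
      obtain ⟨b, hb⟩ := key _ _ g23 k2
      obtain ⟨c, hc⟩ := key _ _ (g12.trans g23) k3
      exact ⟨a, b, c, x₁, x₂, x₃, g12, g23, ha, hb, hc⟩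
    · rcases lt_or_gt_of_ne h13 with g13 | g13
      · obtain ⟨a, ha⟩ := key _ _ g13 k3
        obtain ⟨b, hb⟩ := key' _ _ g23 k2
        obtain ⟨c, hc⟩ := key _ _ g12 k1
        exact ⟨a, b, c, x₁, x₃, x₂, g13, g23, ha, hb, hc⟩
      · obtain ⟨a, ha⟩ := key' _ _ g13 k3
        obtain ⟨b, hb⟩ := key _ _ g12 k1
        obtain ⟨c, hc⟩ := key' _ _ g23 k2
        exact ⟨a, b, c, x₃, x₁, x₂, g13, g12, ha, hb, hc⟩
  · rcases lt_or_gt_of_ne h23 with g23 | g23
    · rcases lt_or_gt_of_ne h13 with g13 | g13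
      · obtain ⟨a, ha⟩ := key' _ _ g12 k1
        obtain ⟨b, hb⟩ := key _ _ g13 k3
        obtain ⟨c, hc⟩ := key _ _ g23 k2
        exact ⟨a, b, c, x₂, x₁, x₃, g12, g13, ha, hb, hc⟩
      · obtain ⟨a, ha⟩ := key _ _ g23 k2
        obtain ⟨b, hb⟩ := key' _ _ g13 k3
        obtain ⟨c, hc⟩ := key' _ _ g12 k1
        exact ⟨a, b, c, x₂, x₃, x₁, g23, g13, ha, hb, hc⟩
    · obtain ⟨a, ha⟩ := key' _ _ g23 k2
      obtain ⟨b, hb⟩ := key' _ _ g12 k1
      obtain ⟨c, hc⟩ := key' _ _ (g23.trans g12) k3
      exact ⟨a, b, c, x₃, x₂, x₁, g23, g12, ha, hb, hc⟩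

theorem H11 {y : Equiv.Perm (Fin n)} {t : Fin 4 → Lo n} (ht : Function.Injective t)
    (h : ∀ m, ∃ s r : Equiv.Perm (Fin n), s.IsSwap ∧ r.IsSwap ∧
      y = Equiv.swap (t m).1.2 (t m).1.1 * s * r) (hy : ¬ y.IsSwap) :
    (y.support.card = 4 ∧ ∀ m, (t m).1.1 ∈ y.support ∧ (t m).1.2 ∈ y.support) ∨
      ∃ (a b c : Fin 4) (u v w : Fin n), u < v ∧ v < w ∧ (t a).1 = (v, u) ∧ (t b).1 = (w, v) ∧
        (t c).1 = (w, u) := by
  classical
  -- the data for one `m`
  have hne : ∀ m, (t m).1.2 ≠ (t m).1.1 := fun m => ne_of_lt (t m).2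
  have hz : ∀ m, ∃ z : Equiv.Perm (Fin n), z = Equiv.swap (t m).1.2 (t m).1.1 * y ∧
      z.support.card ≤ 4 := by
    intro m
    obtain ⟨s, r, hs, hr, hy'⟩ := h m
    refine ⟨s * r, ?_, ?_⟩
    · rw [hy', ← mul_assoc, ← mul_assoc, Equiv.swap_mul_self, one_mul]
    · calc (s * r).support.card ≤ (s.support ⊔ r.support).card :=
            Finset.card_le_card (Equiv.Perm.support_mul_le s r)
        _ ≤ s.support.card + r.support.card := Finset.card_union_le _ _
        _ = 4 := by
            rw [Equiv.Perm.card_support_eq_two.mpr hs, Equiv.Perm.card_support_eq_two.mpr hr]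
  have hsign : Equiv.Perm.sign y = -1 := by
    obtain ⟨s, r, hs, hr, hy'⟩ := h 0
    rw [hy', map_mul, map_mul, hs.sign_eq, hr.sign_eq, Equiv.Perm.sign_swap (hne 0)]
    decide
  have hle : y.support.card ≤ 6 := by
    obtain ⟨s, r, hs, hr, hy'⟩ := h 0
    have h1 : y.support.card ≤ ((Equiv.swap (t 0).1.2 (t 0).1.1) * s).support.card +
        r.support.card := by
      rw [hy']
      exact (Finset.card_le_card (Equiv.Perm.support_mul_le _ _)).trans
        (Finset.card_union_le _ _)
    have h2 : ((Equiv.swap (t 0).1.2 (t 0).1.1) * s).support.card ≤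
        (Equiv.swap (t 0).1.2 (t 0).1.1).support.card + s.support.card :=
      (Finset.card_le_card (Equiv.Perm.support_mul_le _ _)).trans
        (Finset.card_union_le _ _)
    rw [Equiv.Perm.card_support_eq_two.mpr hs, Equiv.Perm.card_support_swap (hne 0)] at h2
    rw [Equiv.Perm.card_support_eq_two.mpr hr] at h1
    omega
  have h0 : y.support.card ≠ 0 := by
    intro h0
    rw [Finset.card_eq_zero, Equiv.Perm.support_eq_empty_iff] at h0
    rw [h0, map_one] at hsign
    exact absurd hsign (by decide)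
  have h1 : y.support.card ≠ 1 := Equiv.Perm.card_support_ne_one y
  have h2 : y.support.card ≠ 2 := fun h2 => hy (Equiv.Perm.card_support_eq_two.mp h2)
  have h3 : y.support.card ≠ 3 := by
    intro h3
    have h3' := (card_support_eq_three_iff.mp h3).sign
    rw [hsign] at h3'
    exact absurd h3' (by decide)
  have h4 : 4 ≤ y.support.card := by omega
  have hmem : ∀ m, (t m).1.1 ∈ y.support ∧ (t m).1.2 ∈ y.support := by
    intro m
    obtain ⟨z, hz1, hz2⟩ := hz m
    refine ⟨H11_mem (hne m).symm (by rw [hz1, Equiv.swap_comm]) hz2 h4,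
      H11_mem (hne m) hz1 hz2 h4⟩
  by_cases hc4 : y.support.card = 4
  · exact Or.inl ⟨hc4, hmem⟩
  right
  by_cases hc6 : y.support.card = 6
  · exfalso
    have ha : ∀ m, y (t m).1.1 = (t m).1.2 := by
      intro m
      obtain ⟨z, hz1, hz2⟩ := hz m
      exact H11_two hz1 hz2 (by omega)
    have hb : ∀ m, y (t m).1.2 = (t m).1.1 := by
      intro m
      obtain ⟨z, hz1, hz2⟩ := hz m
      exact H11_two (by rw [hz1, Equiv.swap_comm]) hz2 (by omega)
    have hA : Function.Injective fun m => (t m).1.1 := by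
      intro m m' hm
      apply ht
      have hm' : (t m).1.1 = (t m').1.1 := hm
      apply Subtype.ext
      apply Prod.ext hm'
      rw [← ha m, ← ha m', hm']
    have hB : Function.Injective fun m => (t m).1.2 := by
      intro m m' hm
      apply ht
      have hm' : (t m).1.2 = (t m').1.2 := hm
      apply Subtype.ext
      refine Prod.ext ?_ hm'
      rw [← hb m, ← hb m', hm']
    have hdis : Disjoint (Finset.univ.image fun m => (t m).1.1)
        (Finset.univ.image fun m => (t m).1.2) := by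
      rw [Finset.disjoint_left]
      intro x hx hx'
      simp only [Finset.mem_image, Finset.mem_univ, true_and] at hx hx'
      obtain ⟨m, hm⟩ := hx
      obtain ⟨m', hm'⟩ := hx'
      have e1 : (t m).1.2 = (t m').1.1 := by
        rw [← ha m, ← hb m', hm, hm']
      have l1 := (t m).2
      have l2 := (t m').2
      rw [e1, hm] at l1
      rw [hm'] at l2
      exact absurd (lt_trans l1 l2) (lt_irrefl _)
    have hsub : (Finset.univ.image fun m => (t m).1.1) ∪ (Finset.univ.image fun m => (t m).1.2) ⊆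
        y.support := by
      intro x hx
      simp only [Finset.mem_union, Finset.mem_image, Finset.mem_univ, true_and] at hx
      rcases hx with ⟨m, rfl⟩ | ⟨m, rfl⟩
      · exact (hmem m).1
      · exact (hmem m).2
    have hcc := Finset.card_le_card hsub
    rw [Finset.card_union_of_disjoint hdis, Finset.card_image_of_injective _ hA,
      Finset.card_image_of_injective _ hB, Finset.card_univ, Fintype.card_fin, hc6] at hcc
    omega
  have hc5 : y.support.card = 5 := by omega
  have harc : ∀ m, y (t m).1.2 = (t m).1.1 ∨ y (t m).1.1 = (t m).1.2 := by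
    intro m
    obtain ⟨z, hz1, hz2⟩ := hz m
    exact H11_arc hz1 hz2 (by omega)
  obtain ⟨c₁, c₀, d1, d2, d3, hccc, hcc0, hall⟩ := H11_struct hc5 hsign
  have harc' : ∀ m, ∃ c ∈ y.support, ({(t m).1.1, (t m).1.2} : Finset (Fin n)) = {c, y c} := by
    intro m
    rcases harc m with h | h
    · exact ⟨(t m).1.2, (hmem m).2, by rw [h, Finset.pair_comm]⟩
    · exact ⟨(t m).1.1, (hmem m).1, by rw [h]⟩
  have hinj : Function.Injective fun m => ({(t m).1.1, (t m).1.2} : Finset (Fin n)) := by
    intro m m' hm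
    exact ht (H11_pair hm)
  set B : Finset (Finset (Fin n)) :=
    {{c₀, y c₀}, {c₁, y c₁}, {y c₁, y (y c₁)}, {c₁, y (y c₁)}} with hB
  have himg : Finset.univ.image (fun m => ({(t m).1.1, (t m).1.2} : Finset (Fin n))) ⊆ B := by
    intro X hX
    simp only [Finset.mem_image, Finset.mem_univ, true_and] at hX
    obtain ⟨m, rfl⟩ := hX
    obtain ⟨c, hc, hce⟩ := harc' m
    rw [hce, hB]
    simp only [Finset.mem_insert, Finset.mem_singleton]
    rcases hall c hc with rfl | rfl | rfl | rfl | rfl
    · exact Or.inr (Or.inl rfl)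
    · exact Or.inr (Or.inr (Or.inl rfl))
    · exact Or.inr (Or.inr (Or.inr (by rw [hccc, Finset.pair_comm])))
    · exact Or.inl rfl
    · exact Or.inl (by rw [hcc0, Finset.pair_comm])
  have hBcard : B.card ≤ 4 := by
    rw [hB]
    exact Finset.card_le_four
  have heq : Finset.univ.image (fun m => ({(t m).1.1, (t m).1.2} : Finset (Fin n))) = B := by
    apply Finset.eq_of_subset_of_card_le himg
    rw [Finset.card_image_of_injective _ hinj, Finset.card_univ, Fintype.card_fin]
    exact hBcard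
  have hget : ∀ X ∈ B, ∃ m, ({(t m).1.1, (t m).1.2} : Finset (Fin n)) = X := by
    intro X hX
    rw [← heq] at hX
    simp only [Finset.mem_image, Finset.mem_univ, true_and] at hX
    exact hX
  exact H11_fin d1 d2 d3 (hget _ (by rw [hB]; simp)) (hget _ (by rw [hB]; simp))
    (hget _ (by rw [hB]; simp))

end HQ
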