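import Pool.Agent.LibHQ4.H1

/-!
# Row H12 (STRONG): the coset case

`K` = support of `y = v⁻¹ z`, `#K = 4`, all positions of the four different pairs `p, q, p', q'` are in `K`;
`sw v t ≤ z ≤ w` for the four `t`. Both `{p,q}` and `{p',q'}` are bad. Show that the labels agree.
Notation: `D a j = rr w a j - rr v a j ≥ 0`.
(i) both `BadD`: `K = {i,i',k,k'}` (4 different positions), the box in both rectangles gives `k, k' < i, i'`, so
    `{i,i'}` = the two biggest and `{k,k'}` = the two smallest elements of `K`. The same for `p', q'`. So `rws`, `cls`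
    agree; third parts are empty. (E.g. `rws ∪ cls = K`, every element of `cls` < every element of `rws`.)
(ii) `BadD p q`, `BadC p' q'` (or exchanged orders): `p' = (a,b)`, `q' = (b,c)`, `c < b < a`, `K = {a,b,c,d}`. `p, q` is a
    perfect matching of `K`, so one of `p, q` has both positions in `{a,b,c}`; it is not `p'`, not `q'`, so it is `(a,c)`; it is in
    `T`, but the SW box of `(p',q')` is a tight box in the rectangle of `(a,c)`: contradiction.
(iii) `BadC p q`, `BadC p' q'` (up to exchanging): `p = (i,k)`, `q = (k,l)`, `p' = (i',k')`, `q' = (k',l')`, the four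
    different; `(i,l), (i',l') ∉ T` as in (ii). CLAIM `(i,l) = (i',l')`. The pairs of elements of `K` are the 6 edges of
    `K_4`; the 4 edges `p, q, p', q'` are in `T`, `(i,l)`, `(i',l')` are not. If `(i,l) ≠ (i',l')` these are all 6 edges.
    The path `i - k - l` has the ends of the non-edge `(i,l)`. If the two non-edges are disjoint:
    `K = {i,l,i',l'}`, `k ∈ {i',l'}`, `k' ∈ {i,l}`: then `{k,k'}` is an edge of both paths: contradiction to
    distinctness. If they share a vertex `x`: `(i,l) = {x,y}`, `(i',l') = {x,z}`, `K = {x,y,z,u}`: `k` is adjacent (in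
    `T`) to `x` and `y`: `k ≠ z` (as `{x,z} ∉ T`), so `k = u`; similarly `k' = u`: `{x,u}` is in both paths:
    contradiction. (All this is a finite case analysis on equalities between elements of `Fin n`; you may
    use `#K = 4`.)
    So `i = i'`, `l = l'`, `k ≠ k'`, `K = {l,k,k',i}`. `rws`, `cls` agree. Third parts: need `SW p q β ↔ SW p' q' β`
    (`β = (a,j)`). By symmetry assume `k < k'`.
    * `v k < v k'` (comparable middles): as in row H10: `SW p q β` (tight, `k < j`, `a ≤ v k`): then `a ≤ v k'`, and if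
      `j ≤ k'` then `β` is in the rectangle of `q' = (k',l)`: contradiction. Conversely `SW p' q' β`: `k < k' < j`; if
      `v k < a` then `β` is in the rectangle of `p = (i,k)`: contradiction.
    * `v k' < v k`: `SW p' q' β → SW p q β` is clear (`k < k' < j`, `a ≤ v k' < v k`). Conversely suppose `SW p q β₃`,
      `β₃ = (a₃,j₃)`, `k < j₃ ≤ i`, `v l < a₃ ≤ v k`, tight. If `k' < j₃`: `a₃ ≤ v k'` (otherwise in the rectangle of
      `p' = (i,k')`), done. So `j₃ ≤ k'`, and `v k' < a₃` (otherwise in the rectangle of `q' = (k',l)`). Contradiction as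
      follows: let `β₁ = (a₁,j₁)` be the NE box of `(p,q)`: `l < j₁ ≤ k`, `v k < a₁ ≤ v i`, tight.
      `z` and `v` agree outside `K` (positions) and `z` permutes the values of `v` on `K`; so for all boxes
      `rr z a j - rr v a j = #{c ∈ K, c < j, z c ≥ a} - #{c ∈ K, c < j, v c ≥ a}`. `z ≤ w`: at tight boxes `rr z = rr v`
      (`v ≤ z`). At `β₁`: only `l` is `< j₁` in `K`: `z l < a₁`, so `z l ≠ v i`. The box `(a₁, j₃)` is in the rectangle of
      `p = (i,k)`, and `sw v p ≤ z`, so `rr z ≥ rr v + 1` there: `#{c ∈ {l,k}, z c ≥ a₁} ≥ 1` so `z k ≥ a₁ > v k`: `z k = v i`.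
      The box `(a₃, j₁)` is in the rectangle of `q = (k,l)`: `z l ≥ a₃`. At `β₃`: `#{c ∈ {l,k}, z c ≥ a₃} = 2` but
      `#{c ∈ {l,k}, v c ≥ a₃} = 1` (`v l < a₃ ≤ v k`): `rr z = rr v + 1`, contradiction to tightness.
-/

set_option autoImplicit false

namespace HQ

open SH

variable {n : ℕ}

private theorem H12_rr1 {v z : Equiv.Perm (Fin n)} (a j : ℕ) (l : Fin n) (hl : l.val < j)
    (h : ∀ b : Fin n, b.val < j → b ≠ l → z b = v b) :
    rr z a j + (if a ≤ (v l).val then 1 else 0) = rr v a j + (if a ≤ (z l).val then 1 else 0) := by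
  classical
  unfold rr
  rw [Finset.card_filter, Finset.card_filter,
    ← Finset.add_sum_erase Finset.univ
      (fun b : Fin n => if b.val < j ∧ a ≤ (z b).val then 1 else 0) (Finset.mem_univ l),
    ← Finset.add_sum_erase Finset.univ
      (fun b : Fin n => if b.val < j ∧ a ≤ (v b).val then 1 else 0) (Finset.mem_univ l)]
  have e : ∑ b ∈ Finset.univ.erase l, (if b.val < j ∧ a ≤ (z b).val then 1 else 0) =
      ∑ b ∈ Finset.univ.erase l, (if b.val < j ∧ a ≤ (v b).val then 1 else 0) := by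
    refine Finset.sum_congr rfl (fun b hb => ?_)
    have hb' : b ≠ l := Finset.ne_of_mem_erase hb
    by_cases hj : b.val < j
    · rw [h b hj hb']
    · simp [hj]
  rw [e]
  simp only [hl, true_and]
  ring

private theorem H12_rr2 {v z : Equiv.Perm (Fin n)} (a j : ℕ) (l k : Fin n) (hlk : l ≠ k)
    (hl : l.val < j) (hk : k.val < j)
    (h : ∀ b : Fin n, b.val < j → b ≠ l → b ≠ k → z b = v b) :
    rr z a j + (if a ≤ (v l).val then 1 else 0) + (if a ≤ (v k).val then 1 else 0) =
      rr v a j + (if a ≤ (z l).val then 1 else 0) + (if a ≤ (z k).val then 1 else 0) := by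
  classical
  unfold rr
  have hk' : k ∈ (Finset.univ : Finset (Fin n)).erase l :=
    Finset.mem_erase.2 ⟨hlk.symm, Finset.mem_univ k⟩
  rw [Finset.card_filter, Finset.card_filter,
    ← Finset.add_sum_erase Finset.univ
      (fun b : Fin n => if b.val < j ∧ a ≤ (z b).val then 1 else 0) (Finset.mem_univ l),
    ← Finset.add_sum_erase Finset.univ
      (fun b : Fin n => if b.val < j ∧ a ≤ (v b).val then 1 else 0) (Finset.mem_univ l),
    ← Finset.add_sum_erase (Finset.univ.erase l)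
      (fun b : Fin n => if b.val < j ∧ a ≤ (z b).val then 1 else 0) hk',
    ← Finset.add_sum_erase (Finset.univ.erase l)
      (fun b : Fin n => if b.val < j ∧ a ≤ (v b).val then 1 else 0) hk']
  have e : ∑ b ∈ (Finset.univ.erase l).erase k, (if b.val < j ∧ a ≤ (z b).val then 1 else 0) =
      ∑ b ∈ (Finset.univ.erase l).erase k, (if b.val < j ∧ a ≤ (v b).val then 1 else 0) := by
    refine Finset.sum_congr rfl (fun b hb => ?_)
    have hb1 : b ≠ k := Finset.ne_of_mem_erase hb
    have hb2 : b ≠ l := Finset.ne_of_mem_erase (Finset.mem_of_mem_erase hb)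
    by_cases hj : b.val < j
    · rw [h b hj hb2 hb1]
    · simp [hj]
  rw [e]
  simp only [hl, hk, true_and]
  ring

private theorem H12_four {K : Finset (Fin n)} (hc : K.card = 4) {a b c d : Fin n}
    (ab : a ≠ b) (ac : a ≠ c) (ad : a ≠ d) (bc : b ≠ c) (bd : b ≠ d) (cd : c ≠ d)
    (ha : a ∈ K) (hb : b ∈ K) (hc' : c ∈ K) (hd : d ∈ K) :
    ∀ x ∈ K, x.val = a.val ∨ x.val = b.val ∨ x.val = c.val ∨ x.val = d.val := by
  classical
  have h1 : ({a, b, c, d} : Finset (Fin n)).card = 4 := by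
    rw [Finset.card_insert_of_notMem (by simp [ab, ac, ad]),
      Finset.card_insert_of_notMem (by simp [bc, bd]),
      Finset.card_insert_of_notMem (by simp [cd]), Finset.card_singleton]
  have h2 : ({a, b, c, d} : Finset (Fin n)) ⊆ K := by
    intro x hx
    simp only [Finset.mem_insert, Finset.mem_singleton] at hx
    rcases hx with rfl | rfl | rfl | rfl <;> assumption
  have h3 : ({a, b, c, d} : Finset (Fin n)) = K :=
    Finset.eq_of_subset_of_card_le h2 (by rw [h1, hc])
  intro x hx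
  rw [← h3] at hx
  simp only [Finset.mem_insert, Finset.mem_singleton] at hx
  rcases hx with rfl | rfl | rfl | rfl <;> simp

private theorem H12_three {K : Finset (Fin n)} (hc : K.card = 4) {a b c : Fin n}
    (ab : a ≠ b) (ac : a ≠ c) (bc : b ≠ c) (ha : a ∈ K) (hb : b ∈ K) (hc' : c ∈ K) :
    ∃ d : Fin n, d.val ≠ a.val ∧ d.val ≠ b.val ∧ d.val ≠ c.val ∧
      ∀ x ∈ K, x.val = a.val ∨ x.val = b.val ∨ x.val = c.val ∨ x.val = d.val := by
  classical
  have h1 : ({a, b, c} : Finset (Fin n)).card = 3 := by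
    rw [Finset.card_insert_of_notMem (by simp [ab, ac]),
      Finset.card_insert_of_notMem (by simp [bc]), Finset.card_singleton]
  obtain ⟨d, hd, hd'⟩ : ∃ d ∈ K, d ∉ ({a, b, c} : Finset (Fin n)) := by
    by_contra hcon
    have h2 : K ⊆ ({a, b, c} : Finset (Fin n)) := by
      intro x hx
      by_contra hx'
      exact hcon ⟨x, hx, hx'⟩
    have := Finset.card_le_card h2
    omega
  simp only [Finset.mem_insert, Finset.mem_singleton, not_or] at hd'
  obtain ⟨e1, e2, e3⟩ := hd'
  refine ⟨d, fun h => e1 (Fin.ext h), fun h => e2 (Fin.ext h), fun h => e3 (Fin.ext h), ?_⟩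
  exact H12_four hc ab ac (Ne.symm e1) bc (Ne.symm e2) (Ne.symm e3) ha hb hc' hd

private theorem H12_ne {p q : Lo n} (h : p ≠ q) :
    ¬ (p.1.1.val = q.1.1.val ∧ p.1.2.val = q.1.2.val) := by
  rintro ⟨h1, h2⟩
  exact h (Subtype.ext (Prod.ext (Fin.ext h1) (Fin.ext h2)))

/-- the long reflection of a bad chain is not in the tangent space -/
private theorem H12_long {v w : Equiv.Perm (Fin n)} {p q r : Lo n} (hc : p.1.2 = q.1.1)
    (h : ∃ a j, SW v w p q a j) (hr : InT v w r) (uq : Up v q) :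
    ¬ (r.1.1.val = p.1.1.val ∧ r.1.2.val = q.1.2.val) := by
  rintro ⟨h1, h2⟩
  have h1' : r.1.1 = p.1.1 := Fin.ext h1
  have h2' : r.1.2 = q.1.2 := Fin.ext h2
  obtain ⟨a, j, s1, s2, s3, s4, s5, s6⟩ := h
  have hq := lo_lt q
  have hc' : p.1.2.val = q.1.1.val := congrArg Fin.val hc
  have := hr a j ⟨by rw [h2']; omega, by rw [h1']; omega, by rw [h2']; omega, by rw [h1']; omega⟩
  omega

private theorem H12_core {v w z : Equiv.Perm (Fin n)} {p q p' q' : Lo n}
    (tp : InT v w p) (tp' : InT v w p') (tq' : InT v w q')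
    (up' : Up v p') (uq : Up v q) (up : Up v p)
    (c1 : p.1.2 = q.1.1) (c2 : p'.1.2 = q'.1.1) (e1 : p.1.1 = p'.1.1) (e2 : q.1.2 = q'.1.2)
    (hne : ∃ a j, NE v w p q a j) (hvz : v ≤ z) (hz : z ≤ w) (z1 : sw v p ≤ z)
    (z2 : sw v q ≤ z)
    (hout : ∀ b : Fin n, b ≠ p.1.1 → b ≠ p.1.2 → b ≠ p'.1.2 → b ≠ q.1.2 → z b = v b)
    (hlt : p.1.2 < p'.1.2) (a j : ℕ) : SW v w p q a j ↔ SW v w p' q' a j := by
  classical
  have hp := lo_lt p
  have hq := lo_lt q
  have hp' := lo_lt p'
  have hq' := lo_lt q'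
  have hlt' : p.1.2.val < p'.1.2.val := hlt
  have c1v : p.1.2.val = q.1.1.val := congrArg Fin.val c1
  have c1w : (v p.1.2).val = (v q.1.1).val := by rw [c1]
  have c2v : p'.1.2.val = q'.1.1.val := congrArg Fin.val c2
  have c2w : (v p'.1.2).val = (v q'.1.1).val := by rw [c2]
  have e1v : p.1.1.val = p'.1.1.val := congrArg Fin.val e1
  have e1w : (v p.1.1).val = (v p'.1.1).val := by rw [e1]
  have e2v : q.1.2.val = q'.1.2.val := congrArg Fin.val e2
  have e2w : (v q.1.2).val = (v q'.1.2).val := by rw [e2]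
  have vup : (v p.1.2).val < (v p.1.1).val := up
  have vuq : (v q.1.2).val < (v q.1.1).val := uq
  have vup' : (v p'.1.2).val < (v p'.1.1).val := up'
  constructor
  · rintro ⟨s1, s2, s3, s4, s5, s6⟩
    by_cases hv : (v p.1.2).val ≤ (v p'.1.2).val
    · by_cases hj : j ≤ p'.1.2.val
      · have := tq' a j ⟨by omega, by omega, by omega, by omega⟩
        omega
      · exact ⟨by omega, by omega, by omega, by omega, by omega, s6⟩
    · rw [not_le] at hv
      by_cases hj : p'.1.2.val < j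
      · by_cases ha : a ≤ (v p'.1.2).val
        · exact ⟨by omega, by omega, by omega, by omega, by omega, s6⟩
        · have := tp' a j ⟨by omega, by omega, by omega, by omega⟩
          omega
      · exfalso
        have ha : (v p'.1.2).val < a := by
          by_contra hc
          have := tq' a j ⟨by omega, by omega, by omega, by omega⟩
          omega
        obtain ⟨a1, j1, t1, t2, t3, t4, t5, t6⟩ := hne
        have hjn : j ≤ n := by have := p.1.1.2; omega
        have hj1n : j1 ≤ n := by have := p.1.1.2; omega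
        have hlk : q.1.2 ≠ p.1.2 := fun h => by
          have := congrArg Fin.val h
          omega
        -- outside
        have o1 : ∀ b : Fin n, b.val < j1 → b ≠ q.1.2 → z b = v b := by
          intro b hb hb'
          refine hout b ?_ ?_ ?_ hb' <;> (rintro rfl; omega)
        have o2 : ∀ b : Fin n, b.val < j → b ≠ q.1.2 → b ≠ p.1.2 → z b = v b := by
          intro b hb hb' hb2
          refine hout b ?_ hb2 ?_ hb' <;> (rintro rfl; omega)
        -- the box β₁
        have r1 := H12_rr1 (v := v) (z := z) a1 j1 q.1.2 t1 o1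
        have g1 := le_def.1 hvz a1 j1
        have g2 := le_def.1 hz a1 j1
        rw [if_neg (by omega)] at r1
        have zl : (z q.1.2).val < a1 := by
          by_contra hc
          rw [if_pos (by omega)] at r1
          omega
        -- the box (a₁, j₃)
        have r2 := H12_rr2 (v := v) (z := z) a1 j q.1.2 p.1.2 hlk (by omega) s1 o2
        rw [if_neg (by omega), if_neg (by omega), if_neg (by omega)] at r2
        have g3 := le_def.1 z1 a1 j
        rw [rr_sw up a1 hjn, if_pos ⟨by omega, by omega, by omega, by omega⟩] at g3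
        have zk : a1 ≤ (z p.1.2).val := by
          by_contra hc
          rw [if_neg hc] at r2
          omega
        -- the box (a₃, j₁)
        have r3 := H12_rr1 (v := v) (z := z) a j1 q.1.2 t1 o1
        rw [if_neg (by omega)] at r3
        have g4 := le_def.1 z2 a j1
        rw [rr_sw uq a hj1n, if_pos ⟨by omega, by omega, by omega, by omega⟩] at g4
        have zl2 : a ≤ (z q.1.2).val := by
          by_contra hc
          rw [if_neg hc] at r3
          omega
        -- the box β₃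
        have r4 := H12_rr2 (v := v) (z := z) a j q.1.2 p.1.2 hlk (by omega) s1 o2
        rw [if_neg (by omega), if_pos (by omega), if_pos (by omega), if_pos (by omega)] at r4
        have g5 := le_def.1 hz a j
        omega
  · rintro ⟨s1, s2, s3, s4, s5, s6⟩
    by_cases hv : (v p.1.2).val ≤ (v p'.1.2).val
    · by_cases ha : a ≤ (v p.1.2).val
      · exact ⟨by omega, by omega, by omega, by omega, by omega, s6⟩
      · have := tp a j ⟨by omega, by omega, by omega, by omega⟩
        omega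
    · exact ⟨by omega, by omega, by omega, by omega, by omega, s6⟩

private theorem H12_labcomm (v w : Equiv.Perm (Fin n)) (p q : Lo n) :
    lab v w p q = lab v w q p := by
  unfold lab rws cls
  rw [Finset.pair_comm p.1.1 q.1.1, Finset.pair_comm p.1.2 q.1.2, Set.union_comm]

private theorem H12_cc {v w z : Equiv.Perm (Fin n)} {p q p' q' : Lo n}
    (tp : InT v w p) (tq : InT v w q) (tp' : InT v w p') (tq' : InT v w q')
    (h : BadC v w p q) (h' : BadC v w p' q') (up : Up v p) (uq : Up v q) (up' : Up v p')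
    (uq' : Up v q') (d2 : p ≠ p') (d3 : p ≠ q') (d4 : q ≠ p') (d5 : q ≠ q')
    (hz : z ≤ w) (z1 : sw v p ≤ z) (z2 : sw v q ≤ z) (z3 : sw v p' ≤ z) (z4 : sw v q' ≤ z)
    (hK : (v⁻¹ * z).support.card = 4)
    (k1 : p.1.1 ∈ (v⁻¹ * z).support ∧ p.1.2 ∈ (v⁻¹ * z).support)
    (k2 : q.1.1 ∈ (v⁻¹ * z).support ∧ q.1.2 ∈ (v⁻¹ * z).support)
    (k3 : p'.1.1 ∈ (v⁻¹ * z).support ∧ p'.1.2 ∈ (v⁻¹ * z).support)
    (k4 : q'.1.1 ∈ (v⁻¹ * z).support ∧ q'.1.2 ∈ (v⁻¹ * z).support) :
    lab v w p q = lab v w p' q' := by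
  classical
  obtain ⟨c1, hSW, hNE⟩ := h
  obtain ⟨c2, hSW', hNE'⟩ := h'
  have hp := lo_lt p
  have hq := lo_lt q
  have hp' := lo_lt p'
  have hq' := lo_lt q'
  have c1v : p.1.2.val = q.1.1.val := congrArg Fin.val c1
  have c2v : p'.1.2.val = q'.1.1.val := congrArg Fin.val c2
  have n2 := H12_ne d2
  have n3 := H12_ne d3
  have n4 := H12_ne d4
  have n5 := H12_ne d5
  have l1 := H12_long c1 hSW tp' uq
  have l2 := H12_long c1 hSW tq' uq
  have l3 := H12_long c2 hSW' tp uq'
  have l4 := H12_long c2 hSW' tq uq'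
  have a1 : p.1.1 ≠ p.1.2 := fun h => by have := congrArg Fin.val h; omega
  have a2 : p.1.1 ≠ q.1.2 := fun h => by have := congrArg Fin.val h; omega
  have a3 : p.1.2 ≠ q.1.2 := fun h => by have := congrArg Fin.val h; omega
  obtain ⟨d, hd1, hd2, hd3, hall⟩ := H12_three hK a1 a2 a3 k1.1 k1.2 k2.2
  have m1 := hall _ k3.1
  have m2 := hall _ k3.2
  have m3 := hall _ k4.2
  have E1 : p.1.1.val = p'.1.1.val := by omega
  have E2 : q.1.2.val = q'.1.2.val := by omega
  have E3 : p.1.2.val ≠ p'.1.2.val := by omega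
  have e1 : p.1.1 = p'.1.1 := Fin.ext E1
  have e2 : q.1.2 = q'.1.2 := Fin.ext E2
  have hdv : d.val = p'.1.2.val := by omega
  have hvz : v ≤ z := (lt_sw up).le.trans z1
  have hout : ∀ b : Fin n, b ≠ p.1.1 → b ≠ p.1.2 → b ≠ p'.1.2 → b ≠ q.1.2 → z b = v b := by
    intro b b1 b2 b3 b4
    have hb : b ∉ (v⁻¹ * z).support := by
      intro hb
      have b1' : b.val ≠ p.1.1.val := fun h => b1 (Fin.ext h)
      have b2' : b.val ≠ p.1.2.val := fun h => b2 (Fin.ext h)
      have b3' : b.val ≠ p'.1.2.val := fun h => b3 (Fin.ext h)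
      have b4' : b.val ≠ q.1.2.val := fun h => b4 (Fin.ext h)
      have := hall b hb
      omega
    have h1 := Equiv.Perm.notMem_support.1 hb
    rw [Equiv.Perm.mul_apply, Equiv.Perm.inv_eq_iff_eq] at h1
    exact h1
  have hiff : ∀ a j, SW v w p q a j ↔ SW v w p' q' a j := by
    rcases lt_or_gt_of_ne (fun h : p.1.2 = p'.1.2 => E3 (congrArg Fin.val h)) with hlt | hlt
    · exact H12_core tp tp' tq' up' uq up c1 c2 e1 e2 hNE hvz hz z1 z2 hout hlt
    · intro a j
      refine (H12_core tp' tp tq up uq' up' c2 c1 e1.symm e2.symm hNE' hvz hz z3 z4 ?_ hlt a j).symm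
      intro b b1 b2 b3 b4
      exact hout b (by rwa [e1]) b3 b2 (by rwa [e2])
  unfold lab
  refine Prod.ext ?_ (Prod.ext ?_ ?_)
  · show rws p q = rws p' q'
    ext x
    simp only [rws, Finset.mem_sdiff, Finset.mem_insert, Finset.mem_singleton, Fin.ext_iff]
    omega
  · show cls p q = cls p' q'
    ext x
    simp only [cls, Finset.mem_sdiff, Finset.mem_insert, Finset.mem_singleton, Fin.ext_iff]
    omega
  · show bx1 v w p q ∪ bx1 v w q p = bx1 v w p' q' ∪ bx1 v w q' p'
    ext β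
    simp only [bx1, Set.mem_union, Set.mem_setOf_eq]
    constructor
    · rintro (⟨-, h⟩ | ⟨h, -⟩)
      · exact Or.inl ⟨c2, (hiff _ _).1 h⟩
      · have := congrArg Fin.val h
        omega
    · rintro (⟨-, h⟩ | ⟨h, -⟩)
      · exact Or.inl ⟨c1, (hiff _ _).2 h⟩
      · have := congrArg Fin.val h
        omega

private theorem H12_dc {v w z : Equiv.Perm (Fin n)} {p q p' q' : Lo n}
    (tp : InT v w p) (tq : InT v w q)
    (h : BadD v w p q) (h' : BadC v w p' q') (uq' : Up v q')
    (d2 : p ≠ p') (d3 : p ≠ q') (d4 : q ≠ p') (d5 : q ≠ q')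
    (hK : (v⁻¹ * z).support.card = 4)
    (k1 : p.1.1 ∈ (v⁻¹ * z).support ∧ p.1.2 ∈ (v⁻¹ * z).support)
    (k2 : q.1.1 ∈ (v⁻¹ * z).support ∧ q.1.2 ∈ (v⁻¹ * z).support)
    (k3 : p'.1.1 ∈ (v⁻¹ * z).support ∧ p'.1.2 ∈ (v⁻¹ * z).support)
    (k4 : q'.1.1 ∈ (v⁻¹ * z).support ∧ q'.1.2 ∈ (v⁻¹ * z).support) : False := by
  obtain ⟨b1, b2, b3, b4, -⟩ := h
  obtain ⟨c2, hSW', -⟩ := h'
  have hp := lo_lt p
  have hq := lo_lt q
  have hp' := lo_lt p'
  have hq' := lo_lt q'
  have c2v : p'.1.2.val = q'.1.1.val := congrArg Fin.val c2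
  have n2 := H12_ne d2
  have n3 := H12_ne d3
  have n4 := H12_ne d4
  have n5 := H12_ne d5
  have l3 := H12_long c2 hSW' tp uq'
  have l4 := H12_long c2 hSW' tq uq'
  have a1 : p.1.1 ≠ p.1.2 := fun h => by have := congrArg Fin.val h; omega
  have a2 : q.1.1 ≠ q.1.2 := fun h => by have := congrArg Fin.val h; omega
  have hall := H12_four hK a1 b1 b3 b4 b2 a2 k1.1 k1.2 k2.1 k2.2
  have m1 := hall _ k3.1
  have m2 := hall _ k3.2
  have m3 := hall _ k4.2
  omega

private theorem H12_dd {v w z : Equiv.Perm (Fin n)} {p q p' q' : Lo n}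
    (h : BadD v w p q) (h' : BadD v w p' q')
    (hK : (v⁻¹ * z).support.card = 4)
    (k1 : p.1.1 ∈ (v⁻¹ * z).support ∧ p.1.2 ∈ (v⁻¹ * z).support)
    (k2 : q.1.1 ∈ (v⁻¹ * z).support ∧ q.1.2 ∈ (v⁻¹ * z).support)
    (k3 : p'.1.1 ∈ (v⁻¹ * z).support ∧ p'.1.2 ∈ (v⁻¹ * z).support)
    (k4 : q'.1.1 ∈ (v⁻¹ * z).support ∧ q'.1.2 ∈ (v⁻¹ * z).support) :
    lab v w p q = lab v w p' q' := by
  obtain ⟨b1, b2, b3, b4, a, j, x1, x2, -⟩ := h
  obtain ⟨b1', b2', b3', b4', a', j', x1', x2', -⟩ := h'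
  obtain ⟨y1, y2, -, -⟩ := x1
  obtain ⟨y3, y4, -, -⟩ := x2
  obtain ⟨y1', y2', -, -⟩ := x1'
  obtain ⟨y3', y4', -, -⟩ := x2'
  have a1 : p.1.1 ≠ p.1.2 := fun h => by have := congrArg Fin.val h; omega
  have a2 : q.1.1 ≠ q.1.2 := fun h => by have := congrArg Fin.val h; omega
  have hall := H12_four hK a1 b1 b3 b4 b2 a2 k1.1 k1.2 k2.1 k2.2
  have m1 := hall _ k3.1
  have m2 := hall _ k3.2
  have m3 := hall _ k4.1
  have m4 := hall _ k4.2
  have v1 : p'.1.1.val ≠ q'.1.1.val := fun h => b1' (Fin.ext h)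
  have v2 : p'.1.2.val ≠ q'.1.2.val := fun h => b2' (Fin.ext h)
  have v1' : p.1.1.val ≠ q.1.1.val := fun h => b1 (Fin.ext h)
  have v2' : p.1.2.val ≠ q.1.2.val := fun h => b2 (Fin.ext h)
  have f1 : p'.1.1.val = p.1.1.val ∨ p'.1.1.val = q.1.1.val := by
    clear m3
    rcases m1 with m | m | m | m
    · exact Or.inl m
    · exfalso; omega
    · exact Or.inr m
    · exfalso; omega
  have f2 : q'.1.1.val = p.1.1.val ∨ q'.1.1.val = q.1.1.val := by
    clear m1 f1
    rcases m3 with m | m | m | m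
    · exact Or.inl m
    · exfalso; omega
    · exact Or.inr m
    · exfalso; omega
  clear m1 m3
  have f3 : p'.1.2.val = p.1.2.val ∨ p'.1.2.val = q.1.2.val := by
    clear m4
    rcases m2 with m | m | m | m
    · exfalso; omega
    · exact Or.inl m
    · exfalso; omega
    · exact Or.inr m
  have f4 : q'.1.2.val = p.1.2.val ∨ q'.1.2.val = q.1.2.val := by
    clear m2 f3
    rcases m4 with m | m | m | m
    · exfalso; omega
    · exact Or.inl m
    · exfalso; omega
    · exact Or.inr m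
  clear m2 m4
  unfold lab
  refine Prod.ext ?_ (Prod.ext ?_ ?_)
  · show rws p q = rws p' q'
    ext x
    simp only [rws, Finset.mem_sdiff, Finset.mem_insert, Finset.mem_singleton, Fin.ext_iff]
    omega
  · show cls p q = cls p' q'
    ext x
    simp only [cls, Finset.mem_sdiff, Finset.mem_insert, Finset.mem_singleton, Fin.ext_iff]
    omega
  · show bx1 v w p q ∪ bx1 v w q p = bx1 v w p' q' ∪ bx1 v w q' p'
    ext β
    simp only [bx1, Set.mem_union, Set.mem_setOf_eq]
    constructor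
    · rintro (⟨h, -⟩ | ⟨h, -⟩)
      · exact absurd h b4
      · exact absurd h.symm b3
    · rintro (⟨h, -⟩ | ⟨h, -⟩)
      · exact absurd h b4'
      · exact absurd h.symm b3'

theorem H12 {v w z : Equiv.Perm (Fin n)} (hvw : v ≤ w) {p q p' q' : Lo n} (h : Bad v w p q)
    (h' : Bad v w p' q') (up : Up v p) (uq : Up v q) (up' : Up v p') (uq' : Up v q')
    (d1 : p ≠ q) (d2 : p ≠ p') (d3 : p ≠ q') (d4 : q ≠ p') (d5 : q ≠ q') (d6 : p' ≠ q')
    (hz : z ≤ w) (z1 : sw v p ≤ z) (z2 : sw v q ≤ z) (z3 : sw v p' ≤ z) (z4 : sw v q' ≤ z)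
    (hK : (v⁻¹ * z).support.card = 4)
    (k1 : p.1.1 ∈ (v⁻¹ * z).support ∧ p.1.2 ∈ (v⁻¹ * z).support)
    (k2 : q.1.1 ∈ (v⁻¹ * z).support ∧ q.1.2 ∈ (v⁻¹ * z).support)
    (k3 : p'.1.1 ∈ (v⁻¹ * z).support ∧ p'.1.2 ∈ (v⁻¹ * z).support)
    (k4 : q'.1.1 ∈ (v⁻¹ * z).support ∧ q'.1.2 ∈ (v⁻¹ * z).support) :
    lab v w p q = lab v w p' q' := by
  obtain ⟨tp, tq, hb⟩ := h
  obtain ⟨tp', tq', hb'⟩ := h'
  rcases hb with hb | hb | hb <;> rcases hb' with hb' | hb' | hb'
  · exact H12_dd hb hb' hK k1 k2 k3 k4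
  · exact (H12_dc tp tq hb hb' uq' d2 d3 d4 d5 hK k1 k2 k3 k4).elim
  · exact (H12_dc tp tq hb hb' up' d3 d2 d5 d4 hK k1 k2 k4 k3).elim
  · exact (H12_dc tp' tq' hb' hb uq d2.symm d4.symm d3.symm d5.symm hK k3 k4 k1 k2).elim
  · exact H12_cc tp tq tp' tq' hb hb' up uq up' uq' d2 d3 d4 d5 hz z1 z2 z3 z4 hK k1 k2 k3 k4
  · rw [H12_labcomm v w p' q']
    exact H12_cc tp tq tq' tp' hb hb' up uq uq' up' d3 d2 d5 d4 hz z1 z2 z4 z3 hK k1 k2 k4 k3
  · exact (H12_dc tp' tq' hb' hb up d4.symm d2.symm d5.symm d3.symm hK k3 k4 k2 k1).elim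
  · rw [H12_labcomm v w p q]
    exact H12_cc tq tp tp' tq' hb hb' uq up up' uq' d4 d5 d2 d3 hz z2 z1 z3 z4 hK k2 k1 k3 k4
  · rw [H12_labcomm v w p q, H12_labcomm v w p' q']
    exact H12_cc tq tp tq' tp' hb hb' uq up uq' up' d5 d4 d3 d2 hz z2 z1 z4 z3 hK k2 k1 k4 k3

end HQ
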