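import Pool.Agent.LibHQ4.H2a
import Pool.Agent.LibHQ4.H1

/-!
# Row H13a (MEDIUM): the top of the cube is not a reflection of the bottom

`z = v y`, `y` a swap, `y = swap` of `r₀ : Lo n`; `z > v` so `Up v r₀` (`up_iff_lt`). Let `P = swap` of `p` etc.
`u1 = v P s₁ = v P' s₁'`, `z = u1 r₁`, so `P s₁ = y r₁ = P' s₁'` (`r₁⁻¹ = r₁`); the same with `u2`, `q'`, `r₂`:
`P s₂ = y r₂ = Q' s₂'`. `P ≠ y`, `P' ≠ y`, `Q' ≠ y` because `sw v p < u1 < z` etc.
`H2a` with `α = P`, `γ = s₁`, `β = y`, `δ = r₁` (`P s₁ ≠ 1` as `u1 ≠ v`):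
* disjoint: `s₁ = y`, `r₁ = P`, `P` disjoint from `y`. Then `z = v y` has at the positions of `p` the values of `v`, so
  `Up z p`, and `u1 = z r₁ = sw z p > z` (`lt_sw`): contradiction to `u1 < z`. (`r₁` comes from `Edge u1 z`; `z = u1 * P`
  gives `u1 = z * P = sw z p`.)
* so `P = (e f)`, `y = (e g)`, and `y r₁ = P s₁` is a 3-cycle with support `{e,f,g}`; the same for `P'` (with the same
  `y r₁`): `P' = (e' f')`, `y = (e' g')`, `{e',f',g'} = support (y r₁) = {e,f,g}`; as `P' ≠ P` (given) and `P' ≠ y`: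
  `P' = (f g)`. In the same way (`u2`, `r₂`): the support of `y r₂ = P s₂` is `{e,f,g}` again (the union of the supports
  of `P` and `y`), so `Q' = (f g) = P'`, `q' = p'` (injectivity, e.g. via `sw_injective v`): contradiction.
-/

set_option autoImplicit false

namespace HQ

open SH

variable {n : ℕ}

private theorem H13a_sw_eq {T : Type} [DecidableEq T] {a b c d : T} (hcd : c ≠ d)
    (h : Equiv.swap a b = Equiv.swap c d) : (c = a ∧ d = b) ∨ (c = b ∧ d = a) := by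
  have h1 : Equiv.swap a b c = d := by rw [h, Equiv.swap_apply_left]
  by_cases h2 : c = a
  · left
    rw [h2, Equiv.swap_apply_left] at h1
    exact ⟨h2, h1.symm⟩
  · by_cases h3 : c = b
    · right
      rw [h3, Equiv.swap_apply_right] at h1
      exact ⟨h3, h1.symm⟩
    · rw [Equiv.swap_apply_of_ne_of_ne h2 h3] at h1
      exact absurd h1 hcd

private theorem H13a_one {v z u : Equiv.Perm (Fin n)} {p : Lo n} (up : Up v p)
    (a1 : Edge (sw v p) u) (a3 : Edge u z) (hy : (v⁻¹ * z).IsSwap) :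
    ∃ e f g : Fin n, e ≠ f ∧ e ≠ g ∧ f ≠ g ∧ Equiv.swap p.1.2 p.1.1 = Equiv.swap e f ∧
      v⁻¹ * z = Equiv.swap e g ∧ (u⁻¹ * z = Equiv.swap f g ∨ u⁻¹ * z = Equiv.swap e f) := by
  have hlt1 := a1.lt
  have hlt3 := a3.lt
  have hlt0 : v < sw v p := lt_sw up
  obtain ⟨s, hs, hus⟩ := a1
  obtain ⟨r, hr, hzr⟩ := a3
  have hp2 : p.1.2 ≠ p.1.1 := ne_of_lt p.2
  have hα : (Equiv.swap p.1.2 p.1.1).IsSwap := ⟨_, _, hp2, rfl⟩
  have hγ : (Equiv.swap s.1.2 s.1.1).IsSwap := ⟨_, _, ne_of_lt s.2, rfl⟩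
  have hδ : (Equiv.swap r.1.2 r.1.1).IsSwap := ⟨_, _, ne_of_lt r.2, rfl⟩
  have hu : u = v * Equiv.swap p.1.2 p.1.1 * Equiv.swap s.1.2 s.1.1 := hus
  have hz : z = u * Equiv.swap r.1.2 r.1.1 := hzr
  have hur : u⁻¹ * z = Equiv.swap r.1.2 r.1.1 := by
    rw [hz]; group
  have hne : Equiv.swap p.1.2 p.1.1 ≠ v⁻¹ * z := by
    intro hc
    have h1 : sw v p = z := by
      unfold sw
      rw [hc]; group
    rw [h1] at hlt1
    exact absurd (hlt1.trans hlt3) (lt_irrefl _)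
  have h1 : Equiv.swap p.1.2 p.1.1 * Equiv.swap s.1.2 s.1.1 ≠ 1 := by
    intro hc
    rw [mul_assoc, hc, mul_one] at hu
    rw [hu] at hlt1
    exact absurd (hlt1.trans hlt0) (lt_irrefl _)
  have h2 : Equiv.swap p.1.2 p.1.1 * Equiv.swap s.1.2 s.1.1 =
      (v⁻¹ * z) * Equiv.swap r.1.2 r.1.1 := by
    rw [hz, hu]
    have h3 : Equiv.swap r.1.2 r.1.1 * Equiv.swap r.1.2 r.1.1 = 1 := Equiv.swap_mul_self _ _
    simp only [mul_assoc, h3, mul_one, inv_mul_cancel_left]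
  rcases H2a hα hy hγ hδ hne h1 h2 with ⟨hd, -, hrp⟩ | ⟨e, f, g, hef, heg, hfg, k1, k2, k3⟩
  · exfalso
    have hzu : u = sw z p := by
      unfold sw
      rw [hz, hrp, mul_assoc, Equiv.swap_mul_self, mul_one]
    have hy1 : (v⁻¹ * z) p.1.2 = p.1.2 := by
      rcases hd p.1.2 with h | h
      · rw [Equiv.swap_apply_left] at h
        exact absurd h hp2.symm
      · exact h
    have hy2 : (v⁻¹ * z) p.1.1 = p.1.1 := by
      rcases hd p.1.1 with h | h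
      · rw [Equiv.swap_apply_right] at h
        exact absurd h hp2
      · exact h
    have hz1 : z p.1.2 = v p.1.2 := by
      have h5 : v ((v⁻¹ * z) p.1.2) = (v * (v⁻¹ * z)) p.1.2 := rfl
      rw [hy1, mul_inv_cancel_left] at h5
      exact h5.symm
    have hz2 : z p.1.1 = v p.1.1 := by
      have h5 : v ((v⁻¹ * z) p.1.1) = (v * (v⁻¹ * z)) p.1.1 := rfl
      rw [hy2, mul_inv_cancel_left] at h5
      exact h5.symm
    have hup : Up z p := by
      show z p.1.2 < z p.1.1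
      rw [hz1, hz2]
      exact up
    have h4 := lt_sw hup
    rw [← hzu] at h4
    exact absurd (h4.trans hlt3) (lt_irrefl _)
  · refine ⟨e, f, g, hef, heg, hfg, k1, k2, ?_⟩
    rw [hur]
    rcases k3 with ⟨-, k3⟩ | ⟨-, k3⟩
    · exact Or.inl (by rw [k3, Equiv.swap_comm])
    · exact Or.inr k3

private theorem H13a_two {P P' y R : Equiv.Perm (Fin n)} {e f g e' f' g' : Fin n}
    (hef : e ≠ f) (hfg : f ≠ g) (hef' : e' ≠ f') (heg' : e' ≠ g') (hfg' : f' ≠ g')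
    (h1 : P = Equiv.swap e f) (h2 : y = Equiv.swap e g) (h3 : R = Equiv.swap f g ∨ R = Equiv.swap e f)
    (h1' : P' = Equiv.swap e' f') (h2' : y = Equiv.swap e' g')
    (h3' : R = Equiv.swap f' g' ∨ R = Equiv.swap e' f') (hne : P ≠ P') : P' = Equiv.swap g f := by
  have k2 := H13a_sw_eq heg' (h2.symm.trans h2')
  have hff : f' = f := by
    rcases h3 with h3 | h3 <;> rcases h3' with h3' | h3'
    · rcases H13a_sw_eq hfg' (h3.symm.trans h3') with ⟨c1, c2⟩ | ⟨c1, c2⟩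
      · exact c1
      · rcases k2 with ⟨d1, d2⟩ | ⟨d1, d2⟩
        · exact absurd (c2.symm.trans d2) hfg
        · exact absurd (c2.symm.trans d2) hef.symm
    · rcases H13a_sw_eq hef' (h3.symm.trans h3') with ⟨c1, c2⟩ | ⟨c1, c2⟩
      · rcases k2 with ⟨d1, d2⟩ | ⟨d1, d2⟩
        · exact absurd (d1.symm.trans c1) hef
        · exact absurd (c1.symm.trans d1) hfg
      · exact c2
    · rcases H13a_sw_eq hfg' (h3.symm.trans h3') with ⟨c1, c2⟩ | ⟨c1, c2⟩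
      · rcases k2 with ⟨d1, d2⟩ | ⟨d1, d2⟩
        · exact absurd (c2.symm.trans d2) hfg
        · exact absurd (d2.symm.trans c2) hef
      · exact c1
    · rcases H13a_sw_eq hef' (h3.symm.trans h3') with ⟨c1, c2⟩ | ⟨c1, c2⟩
      · exact c2
      · rcases k2 with ⟨d1, d2⟩ | ⟨d1, d2⟩
        · exact absurd (d1.symm.trans c1) hef
        · exact absurd (c1.symm.trans d1) hfg
  rcases k2 with ⟨d1, d2⟩ | ⟨d1, d2⟩
  · exact absurd (by rw [h1, h1', d1, hff]) hne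
  · rw [h1', d1, hff]

theorem H13a {v z u1 u2 : Equiv.Perm (Fin n)} {p p' q' : Lo n} (up : Up v p) (up' : Up v p')
    (uq' : Up v q') (d2 : p ≠ p') (d3 : p ≠ q') (d6 : p' ≠ q')
    (a1 : Edge (sw v p) u1) (a2 : Edge (sw v p') u1) (a3 : Edge u1 z)
    (b1 : Edge (sw v p) u2) (b2 : Edge (sw v q') u2) (b3 : Edge u2 z)
    (hy : (v⁻¹ * z).IsSwap) : False := by
  obtain ⟨e, f, g, hef, heg, hfg, k1, k2, k3⟩ := H13a_one up a1 a3 hy
  obtain ⟨e1, f1, g1, hef1, heg1, hfg1, m1, m2, m3⟩ := H13a_one up' a2 a3 hy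
  obtain ⟨e2, f2, g2, hef2, heg2, hfg2, n1, n2, n3⟩ := H13a_one up b1 b3 hy
  obtain ⟨e3, f3, g3, hef3, heg3, hfg3, o1, o2, o3⟩ := H13a_one uq' b2 b3 hy
  have hP1 : Equiv.swap p.1.2 p.1.1 ≠ Equiv.swap p'.1.2 p'.1.1 := by
    intro hc
    exact d2 (sw_injective v (by unfold sw; rw [hc]))
  have hP2 : Equiv.swap p.1.2 p.1.1 ≠ Equiv.swap q'.1.2 q'.1.1 := by
    intro hc
    exact d3 (sw_injective v (by unfold sw; rw [hc]))
  have r1 := H13a_two hef hfg hef1 heg1 hfg1 k1 k2 k3 m1 m2 m3 hP1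
  have r2 := H13a_two hef2 hfg2 hef3 heg3 hfg3 n1 n2 n3 o1 o2 o3 hP2
  -- compare `e f g` and `e2 f2 g2`
  have hE : e2 = e ∧ f2 = f ∧ g2 = g := by
    rcases H13a_sw_eq hef2 (k1.symm.trans n1) with ⟨c1, c2⟩ | ⟨c1, c2⟩
    · rcases H13a_sw_eq heg2 (k2.symm.trans n2) with ⟨c3, c4⟩ | ⟨c3, c4⟩
      · exact ⟨c1, c2, c4⟩
      · exact absurd (c1.symm.trans c3) heg
    · rcases H13a_sw_eq heg2 (k2.symm.trans n2) with ⟨c3, c4⟩ | ⟨c3, c4⟩
      · exact absurd (c3.symm.trans c1) hef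
      · exact absurd (c1.symm.trans c3) hfg
  obtain ⟨rfl, rfl, rfl⟩ := hE
  exact d6 (sw_injective v (by unfold sw; rw [r1, r2]))

end HQ
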