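import Pool.Agent.LibHQ4.H11
import Pool.Agent.LibHQ4.H12
import Pool.Agent.LibHQ4.H13a

/-!
# Row H13 (MEDIUM): linked of the second kind implies same label

Unfold `GL2`, `GCN`, `Ew`, `Edge`. `y = v⁻¹ z`; for each of the four `t`: `y = swap t * s * r` (`z = u r`,
`u = sw v t * s`, swaps of two different positions). `y` is not a swap: `H13a` with `p, p', q'`. `H11` for
`t = ![p, q, p', q']` (injective; `p ≠ q` since `Bad v w p p` is impossible, `p' ≠ q'` likewise).
* first alternative: `H12` (`sw v t < u < z`, `z ≤ w`).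
* second alternative: three of the four pairs are `(v₁,u₁), (w₁,v₁), (w₁,u₁)`, `u₁ < v₁ < w₁`, all in `T`. Two of the three
  belong to the same bad pair (`{p,q}` or `{p',q'}`). `{(v₁,u₁), (w₁,v₁)}`: bad means `BadC (w₁,v₁) (v₁,u₁)`; its SW box is
  tight and in the rectangle of `(w₁,u₁) ∈ T`: contradiction. The other two possibilities have the same column or the
  same row and are not chains: not bad.
-/

set_option autoImplicit false

namespace HQ

open SH

variable {n : ℕ}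

private theorem h13_fac {v z u : Equiv.Perm (Fin n)} {p : Lo n} (h1 : Edge (sw v p) u)
    (h2 : Edge u z) : ∃ s r : Equiv.Perm (Fin n), s.IsSwap ∧ r.IsSwap ∧
      v⁻¹ * z = Equiv.swap p.1.2 p.1.1 * s * r := by
  obtain ⟨a, -, rfl⟩ := h1
  obtain ⟨b, -, rfl⟩ := h2
  have ha : a.1.2 < a.1.1 := a.2
  have hb : b.1.2 < b.1.1 := b.2
  refine ⟨Equiv.swap a.1.2 a.1.1, Equiv.swap b.1.2 b.1.1, ⟨_, _, ne_of_lt ha, rfl⟩,
    ⟨_, _, ne_of_lt hb, rfl⟩, ?_⟩
  unfold sw
  simp only [mul_assoc, inv_mul_cancel_left]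

private theorem h13_symm {v w : Equiv.Perm (Fin n)} {p q : Lo n} (h : Bad v w p q) :
    Bad v w q p := by
  obtain ⟨h1, h2, h3⟩ := h
  refine ⟨h2, h1, ?_⟩
  rcases h3 with ⟨a1, a2, a3, a4, a, j, b1, b2, b3⟩ | h3 | h3
  · exact Or.inl ⟨a1.symm, a2.symm, a4.symm, a3.symm, a, j, b2, b1, b3⟩
  · exact Or.inr (Or.inr h3)
  · exact Or.inr (Or.inl h3)

private theorem h13_irr {v w : Equiv.Perm (Fin n)} {p q : Lo n} (h : Bad v w p q) : p ≠ q := by
  rintro rfl
  have hp : p.1.2 < p.1.1 := p.2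
  rcases h.2.2 with h3 | h3 | h3
  · exact h3.1 rfl
  · exact absurd h3.1 (ne_of_lt hp)
  · exact absurd h3.1 (ne_of_lt hp)

private theorem h13_ab {v w : Equiv.Perm (Fin n)} {A B C : Lo n} {x y z : Fin n} (hxy : x < y)
    (hyz : y < z) (eA : A.1 = (y, x)) (eB : B.1 = (z, y)) (eC : C.1 = (z, x))
    (hC : InT v w C) : ¬ Bad v w A B := by
  intro h
  have hxz : x < z := hxy.trans hyz
  rcases h.2.2 with h3 | h3 | h3
  · have h4 := h3.2.2.1
    rw [eA, eB] at h4
    exact h4 rfl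
  · have h4 := h3.1
    rw [eA, eB] at h4
    exact absurd h4 (ne_of_lt hxz)
  · obtain ⟨-, ⟨a, j, c1, c2, c3, c4, c5, c6⟩, -⟩ := h3
    rw [eB] at c1 c2 c4 c5
    rw [eA] at c3
    simp only at c1 c2 c3 c4 c5
    have h5 : Act v C a j := by
      unfold Act
      rw [eC]
      simp only
      have h6 : x.val < y.val := hxy
      exact ⟨by omega, c2, c3, c5⟩
    have h7 := hC a j h5
    omega

private theorem h13_ac {v w : Equiv.Perm (Fin n)} {A C : Lo n} {x y z : Fin n} (hxy : x < y)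
    (hyz : y < z) (eA : A.1 = (y, x)) (eC : C.1 = (z, x)) : ¬ Bad v w A C := by
  intro h
  have hxz : x < z := hxy.trans hyz
  rcases h.2.2 with h3 | h3 | h3
  · have h4 := h3.2.1
    rw [eA, eC] at h4
    exact h4 rfl
  · have h4 := h3.1
    rw [eA, eC] at h4
    exact absurd h4 (ne_of_lt hxz)
  · have h4 := h3.1
    rw [eA, eC] at h4
    exact absurd h4 (ne_of_lt hxy)

private theorem h13_bc {v w : Equiv.Perm (Fin n)} {B C : Lo n} {x y z : Fin n} (hxy : x < y)
    (hyz : y < z) (eB : B.1 = (z, y)) (eC : C.1 = (z, x)) : ¬ Bad v w B C := by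
  intro h
  have hxz : x < z := hxy.trans hyz
  rcases h.2.2 with h3 | h3 | h3
  · have h4 := h3.1
    rw [eB, eC] at h4
    exact h4 rfl
  · have h4 := h3.1
    rw [eB, eC] at h4
    exact absurd h4 (ne_of_lt hyz)
  · have h4 := h3.1
    rw [eB, eC] at h4
    exact absurd h4 (ne_of_lt hxz)

private theorem h13_all {v w : Equiv.Perm (Fin n)} {t : Fin 4 → Lo n} (h01 : Bad v w (t 0) (t 1))
    (h23 : Bad v w (t 2) (t 3)) (i j : Fin 4) (hij : i ≠ j) (hs : i.val < 2 ↔ j.val < 2) :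
    Bad v w (t i) (t j) := by
  have hi : i = 0 ∨ i = 1 ∨ i = 2 ∨ i = 3 := by omega
  have hj : j = 0 ∨ j = 1 ∨ j = 2 ∨ j = 3 := by omega
  rcases hi with rfl | rfl | rfl | rfl <;> rcases hj with rfl | rfl | rfl | rfl
  · exact absurd rfl hij
  · exact h01
  · exact absurd hs (by decide)
  · exact absurd hs (by decide)
  · exact h13_symm h01
  · exact absurd rfl hij
  · exact absurd hs (by decide)
  · exact absurd hs (by decide)
  · exact absurd hs (by decide)
  · exact absurd hs (by decide)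
  · exact absurd rfl hij
  · exact h23
  · exact absurd hs (by decide)
  · exact absurd hs (by decide)
  · exact h13_symm h23
  · exact absurd rfl hij

private theorem h13_inj {T : Type} {a b c d : T} (d1 : a ≠ b) (d2 : a ≠ c) (d3 : a ≠ d)
    (d4 : b ≠ c) (d5 : b ≠ d) (d6 : c ≠ d) :
    Function.Injective (![a, b, c, d] : Fin 4 → T) := by
  suffices key : ∀ i j : Fin 4, (![a, b, c, d] : Fin 4 → T) i = (![a, b, c, d] : Fin 4 → T) j →
      i = j from fun i j hij => key i j hij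
  intro i j hij
  have hi : i = 0 ∨ i = 1 ∨ i = 2 ∨ i = 3 := by omega
  have hj : j = 0 ∨ j = 1 ∨ j = 2 ∨ j = 3 := by omega
  rcases hi with rfl | rfl | rfl | rfl <;> rcases hj with rfl | rfl | rfl | rfl
  · rfl
  · exact absurd hij d1
  · exact absurd hij d2
  · exact absurd hij d3
  · exact absurd hij d1.symm
  · rfl
  · exact absurd hij d4
  · exact absurd hij d5
  · exact absurd hij d2.symm
  · exact absurd hij d4.symm
  · rfl
  · exact absurd hij d6
  · exact absurd hij d3.symm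
  · exact absurd hij d5.symm
  · exact absurd hij d6.symm
  · rfl

theorem H13 {v w : Equiv.Perm (Fin n)} (hvw : v ≤ w) {p q p' q' : Lo n} (h : Bad v w p q)
    (h' : Bad v w p' q') (up : Up v p) (uq : Up v q) (up' : Up v p') (uq' : Up v q')
    (d2 : p ≠ p') (d3 : p ≠ q') (d4 : q ≠ p') (d5 : q ≠ q')
    (hl : GL2 (Ew w) (sw v p) (sw v q) (sw v p') (sw v q')) :
    lab v w p q = lab v w p' q' := by
  obtain ⟨u1, u2, u3, u4, z, ⟨e11, e12⟩, ⟨e21, e22⟩, ⟨e31, e32⟩, ⟨e41, e42⟩, f1, f2, f3, f4⟩ := hl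
  have d1 : p ≠ q := h13_irr h
  have d6 : p' ≠ q' := h13_irr h'
  have hy : ¬ (v⁻¹ * z).IsSwap := fun hy =>
    H13a up up' uq' d2 d3 d6 e11.1 e12.1 f1.1 e21.1 e22.1 f2.1 hy
  have hfac : ∀ m : Fin 4, ∃ s r : Equiv.Perm (Fin n), s.IsSwap ∧ r.IsSwap ∧
      v⁻¹ * z = Equiv.swap (![p, q, p', q'] m).1.2 (![p, q, p', q'] m).1.1 * s * r := by
    intro m
    have hm : m = 0 ∨ m = 1 ∨ m = 2 ∨ m = 3 := by omega
    rcases hm with rfl | rfl | rfl | rfl
    · exact h13_fac e11.1 f1.1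
    · exact h13_fac e31.1 f3.1
    · exact h13_fac e12.1 f1.1
    · exact h13_fac e22.1 f2.1
  have z1 : sw v p ≤ z := (e11.lt.trans f1.lt).le
  have z2 : sw v q ≤ z := (e31.lt.trans f3.lt).le
  have z3 : sw v p' ≤ z := (e12.lt.trans f1.lt).le
  have z4 : sw v q' ≤ z := (e22.lt.trans f2.lt).le
  rcases H11 (h13_inj d1 d2 d3 d4 d5 d6) hfac hy with ⟨hK, hk⟩ | ⟨a, b, c, x, y, r, hxy, hyr,
    ea, eb, ec⟩
  · exact H12 hvw h h' up uq up' uq' d1 d2 d3 d4 d5 d6 f1.2 z1 z2 z3 z4 hK (hk 0) (hk 1) (hk 2)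
      (hk 3)
  · exfalso
    have hT : InT v w (![p, q, p', q'] c) := by
      have hm : c = 0 ∨ c = 1 ∨ c = 2 ∨ c = 3 := by omega
      rcases hm with rfl | rfl | rfl | rfl
      · exact h.1
      · exact h.2.1
      · exact h'.1
      · exact h'.2.1
    have n1 := h13_ab hxy hyr ea eb ec hT
    have n2 := h13_ac (v := v) (w := w) hxy hyr ea ec
    have n3 := h13_bc (v := v) (w := w) hxy hyr eb ec
    have hxr : x < r := hxy.trans hyr
    have hab : a ≠ b := by
      rintro rfl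
      rw [ea] at eb
      exact absurd (Prod.ext_iff.1 eb).1 (ne_of_lt hyr)
    have hac : a ≠ c := by
      rintro rfl
      rw [ea] at ec
      exact absurd (Prod.ext_iff.1 ec).1 (ne_of_lt hyr)
    have hbc : b ≠ c := by
      rintro rfl
      rw [eb] at ec
      exact absurd (Prod.ext_iff.1 ec).2 (ne_of_gt hxy)
    have m1 : ¬ (a.val < 2 ↔ b.val < 2) := fun hs =>
      n1 (h13_all (t := ![p, q, p', q']) h h' a b hab hs)
    have m2 : ¬ (a.val < 2 ↔ c.val < 2) := fun hs =>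
      n2 (h13_all (t := ![p, q, p', q']) h h' a c hac hs)
    have m3 : ¬ (b.val < 2 ↔ c.val < 2) := fun hs =>
      n3 (h13_all (t := ![p, q, p', q']) h h' b c hbc hs)
    omega

end HQ
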