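import Pool.Agent.LibHQ4.Defs

/-!
# Row H14 (SHORT): transfer of the graph notions along a bijection of closed subsets

`S`, `S'` are closed under out-neighbours, `φ : S ≃ S'` preserves and reflects the relation. All vertices quantified
in `GFull`, `GBad`, `GL1`, `GL2` are out-neighbours of vertices in `S`, so in `S`. Prove the transfer in one direction
for arbitrary data (private lemmas for `GFull`, then the others), then use it for `φ` and `φ.symm`.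
-/

set_option autoImplicit false

namespace HQ

private theorem H14_ne {α β : Type} {S : Set α} {S' : Set β} (φ : S ≃ S') {x y : S}
    (h : x.1 ≠ y.1) : (φ x).1 ≠ (φ y).1 := fun e =>
  h (congrArg Subtype.val (φ.injective (Subtype.ext e)))

private theorem H14_E {α β : Type} {E : α → α → Prop} {E' : β → β → Prop} {S : Set α} {S' : Set β}
    (φ : S ≃ S') (hE : ∀ x y : S, E x.1 y.1 ↔ E' (φ x).1 (φ y).1) (x y : S') :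
    E' x.1 y.1 ↔ E (φ.symm x).1 (φ.symm y).1 := by
  have h := hE (φ.symm x) (φ.symm y)
  rw [φ.apply_symm_apply, φ.apply_symm_apply] at h
  exact h.symm

private theorem H14_full {α β : Type} {E : α → α → Prop} {E' : β → β → Prop} {S : Set α}
    {S' : Set β} (φ : S ≃ S') (hS : ∀ x ∈ S, ∀ y, E x y → y ∈ S)
    (hE : ∀ x y : S, E x.1 y.1 ↔ E' (φ x).1 (φ y).1) (x y r : S)
    (h : GFull E x.1 y.1 r.1) : GFull E' (φ x).1 (φ y).1 (φ r).1 := by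
  obtain ⟨hne, c, d, hcd, hc, hd, hc2, hd2⟩ := h
  have mc : c ∈ S := hS x.1 x.2 c hc.1
  have md : d ∈ S := hS x.1 x.2 d hd.1
  exact ⟨H14_ne φ hne, (φ ⟨c, mc⟩).1, (φ ⟨d, md⟩).1,
    H14_ne φ (x := ⟨c, mc⟩) (y := ⟨d, md⟩) hcd,
    ⟨(hE x ⟨c, mc⟩).1 hc.1, (hE y ⟨c, mc⟩).1 hc.2⟩,
    ⟨(hE x ⟨d, md⟩).1 hd.1, (hE y ⟨d, md⟩).1 hd.2⟩,
    (hE ⟨c, mc⟩ r).1 hc2, (hE ⟨d, md⟩ r).1 hd2⟩

private theorem H14_full_iff {α β : Type} {E : α → α → Prop} {E' : β → β → Prop} {S : Set α}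
    {S' : Set β} (φ : S ≃ S') (hS : ∀ x ∈ S, ∀ y, E x y → y ∈ S)
    (hS' : ∀ x ∈ S', ∀ y, E' x y → y ∈ S')
    (hE : ∀ x y : S, E x.1 y.1 ↔ E' (φ x).1 (φ y).1) (x y r : S) :
    GFull E x.1 y.1 r.1 ↔ GFull E' (φ x).1 (φ y).1 (φ r).1 := by
  refine ⟨H14_full φ hS hE x y r, fun h => ?_⟩
  have h2 := H14_full φ.symm hS' (H14_E φ hE) (φ x) (φ y) (φ r) h
  rw [φ.symm_apply_apply, φ.symm_apply_apply, φ.symm_apply_apply] at h2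
  exact h2

private theorem H14_bad {α β : Type} {E : α → α → Prop} {E' : β → β → Prop} {S : Set α}
    {S' : Set β} (φ : S ≃ S') (o : S) (hS : ∀ x ∈ S, ∀ y, E x y → y ∈ S)
    (hS' : ∀ x ∈ S', ∀ y, E' x y → y ∈ S')
    (hE : ∀ x y : S, E x.1 y.1 ↔ E' (φ x).1 (φ y).1) (x y : S)
    (h : GBad E o.1 x.1 y.1) : GBad E' (φ o).1 (φ x).1 (φ y).1 := by
  obtain ⟨hne, h1, h2, h3, h4⟩ := h
  refine ⟨H14_ne φ hne, (hE o x).1 h1, (hE o y).1 h2, ?_, fun r hr => ?_⟩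
  · rintro ⟨z, hz1, hz2⟩
    have mz : z ∈ S' := hS' _ (φ x).2 z hz1
    refine h3 ⟨(φ.symm ⟨z, mz⟩).1, (hE x (φ.symm ⟨z, mz⟩)).2 ?_, (hE y (φ.symm ⟨z, mz⟩)).2 ?_⟩
    · rw [φ.apply_symm_apply]; exact hz1
    · rw [φ.apply_symm_apply]; exact hz2
  · have mr : r ∈ S' := hS' _ (φ o).2 r hr
    have e : φ (φ.symm ⟨r, mr⟩) = ⟨r, mr⟩ := φ.apply_symm_apply _
    have hr2 : E o.1 (φ.symm ⟨r, mr⟩).1 := by
      refine (hE o (φ.symm ⟨r, mr⟩)).2 ?_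
      rw [e]; exact hr
    have h5 := h4 _ hr2
    constructor
    · intro h6
      refine h5.1 ((H14_full_iff φ hS hS' hE x (φ.symm ⟨r, mr⟩) y).2 ?_)
      rw [e]; exact h6
    · intro h6
      refine h5.2 ((H14_full_iff φ hS hS' hE y (φ.symm ⟨r, mr⟩) x).2 ?_)
      rw [e]; exact h6

private theorem H14_L1 {α β : Type} {E : α → α → Prop} {E' : β → β → Prop} {S : Set α}
    {S' : Set β} (φ : S ≃ S') (o : S) (hS : ∀ x ∈ S, ∀ y, E x y → y ∈ S)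
    (hE : ∀ x y : S, E x.1 y.1 ↔ E' (φ x).1 (φ y).1) (x y x' y' : S)
    (h : GL1 E o.1 x.1 y.1 x'.1 y'.1) : GL1 E' (φ o).1 (φ x).1 (φ y).1 (φ x').1 (φ y').1 := by
  obtain ⟨s, h1, h2, h3⟩ := h
  have ms : s ∈ S := hS o.1 o.2 s h1
  exact ⟨(φ ⟨s, ms⟩).1, (hE o ⟨s, ms⟩).1 h1, H14_full φ hS hE x ⟨s, ms⟩ x' h2,
    H14_full φ hS hE y' ⟨s, ms⟩ y h3⟩

private theorem H14_L2 {α β : Type} {E : α → α → Prop} {E' : β → β → Prop} {S : Set α}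
    {S' : Set β} (φ : S ≃ S') (hS : ∀ x ∈ S, ∀ y, E x y → y ∈ S)
    (hE : ∀ x y : S, E x.1 y.1 ↔ E' (φ x).1 (φ y).1) (x y x' y' : S)
    (h : GL2 E x.1 y.1 x'.1 y'.1) : GL2 E' (φ x).1 (φ y).1 (φ x').1 (φ y').1 := by
  obtain ⟨u1, u2, u3, u4, z, h1, h2, h3, h4, g1, g2, g3, g4⟩ := h
  have m1 : u1 ∈ S := hS _ x.2 _ h1.1
  have m2 : u2 ∈ S := hS _ x.2 _ h2.1
  have m3 : u3 ∈ S := hS _ y.2 _ h3.1
  have m4 : u4 ∈ S := hS _ y.2 _ h4.1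
  have mz : z ∈ S := hS _ m1 _ g1
  exact ⟨(φ ⟨u1, m1⟩).1, (φ ⟨u2, m2⟩).1, (φ ⟨u3, m3⟩).1, (φ ⟨u4, m4⟩).1, (φ ⟨z, mz⟩).1,
    ⟨(hE x ⟨u1, m1⟩).1 h1.1, (hE x' ⟨u1, m1⟩).1 h1.2⟩,
    ⟨(hE x ⟨u2, m2⟩).1 h2.1, (hE y' ⟨u2, m2⟩).1 h2.2⟩,
    ⟨(hE y ⟨u3, m3⟩).1 h3.1, (hE x' ⟨u3, m3⟩).1 h3.2⟩,
    ⟨(hE y ⟨u4, m4⟩).1 h4.1, (hE y' ⟨u4, m4⟩).1 h4.2⟩,
    (hE ⟨u1, m1⟩ ⟨z, mz⟩).1 g1, (hE ⟨u2, m2⟩ ⟨z, mz⟩).1 g2, (hE ⟨u3, m3⟩ ⟨z, mz⟩).1 g3,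
    (hE ⟨u4, m4⟩ ⟨z, mz⟩).1 g4⟩

private theorem H14_Lk {α β : Type} {E : α → α → Prop} {E' : β → β → Prop} {S : Set α}
    {S' : Set β} (φ : S ≃ S') (o : S) (hS : ∀ x ∈ S, ∀ y, E x y → y ∈ S)
    (hE : ∀ x y : S, E x.1 y.1 ↔ E' (φ x).1 (φ y).1) (x y x' y' : S)
    (h : GLk E o.1 x.1 y.1 x'.1 y'.1) : GLk E' (φ o).1 (φ x).1 (φ y).1 (φ x').1 (φ y').1 := by
  obtain ⟨n1, n2, n3, n4, h⟩ := h
  refine ⟨H14_ne φ n1, H14_ne φ n2, H14_ne φ n3, H14_ne φ n4, ?_⟩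
  rcases h with h | h | h | h | h
  · exact Or.inl (H14_L1 φ o hS hE x y x' y' h)
  · exact Or.inr (Or.inl (H14_L1 φ o hS hE x y y' x' h))
  · exact Or.inr (Or.inr (Or.inl (H14_L1 φ o hS hE y x x' y' h)))
  · exact Or.inr (Or.inr (Or.inr (Or.inl (H14_L1 φ o hS hE y x y' x' h))))
  · exact Or.inr (Or.inr (Or.inr (Or.inr (H14_L2 φ hS hE x y x' y' h))))

theorem H14 {α β : Type} {E : α → α → Prop} {E' : β → β → Prop} {S : Set α} {S' : Set β}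
    (φ : S ≃ S') (o : S) (hS : ∀ x ∈ S, ∀ y, E x y → y ∈ S)
    (hS' : ∀ x ∈ S', ∀ y, E' x y → y ∈ S')
    (hE : ∀ x y : S, E x.1 y.1 ↔ E' (φ x).1 (φ y).1) :
    (∀ x y : S, GBad E o.1 x.1 y.1 ↔ GBad E' (φ o).1 (φ x).1 (φ y).1) ∧
      ∀ x y x' y' : S, GLk E o.1 x.1 y.1 x'.1 y'.1 ↔
        GLk E' (φ o).1 (φ x).1 (φ y).1 (φ x').1 (φ y').1 := by
  refine ⟨fun x y => ⟨H14_bad φ o hS hS' hE x y, fun h => ?_⟩,
    fun x y x' y' => ⟨H14_Lk φ o hS hE x y x' y', fun h => ?_⟩⟩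
  · have h2 := H14_bad φ.symm (φ o) hS' hS (H14_E φ hE) (φ x) (φ y) h
    rw [φ.symm_apply_apply, φ.symm_apply_apply, φ.symm_apply_apply] at h2
    exact h2
  · have h2 := H14_Lk φ.symm (φ o) hS' (H14_E φ hE) (φ x) (φ y) (φ x') (φ y') h
    rw [φ.symm_apply_apply, φ.symm_apply_apply, φ.symm_apply_apply, φ.symm_apply_apply,
      φ.symm_apply_apply] at h2
    exact h2

end HQ
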