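import Mathlib

/-!
# Row H15 (SHORT, only Mathlib): counting labels

The relation `c ~ c'` iff there are `p, q, p', q'` with `B p q`, `lab p q = c`, `R p q p' q'`, `lab' p' q' = c'`
is a bijection between the two sets of labels (`Set.ncard_congr` or `Set.BijOn`/choice).
-/

set_option autoImplicit false

namespace HQ

theorem H15 {α β L M : Type} (B : α → α → Prop) (B' : β → β → Prop) (lab : α → α → L)
    (lab' : β → β → M) (R : α → β → Prop)
    (h1 : ∀ p q, B p q → ∃ p' q', R p p' ∧ R q q' ∧ B' p' q')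
    (h2 : ∀ p' q', B' p' q' → ∃ p q, R p p' ∧ R q q' ∧ B p q)
    (h3 : ∀ p q r s p' q' r' s', B p q → B r s → B' p' q' → B' r' s' → R p p' → R q q' →
      R r r' → R s s' → (lab p q = lab r s ↔ lab' p' q' = lab' r' s')) :
    Set.ncard {c | ∃ p q, B p q ∧ lab p q = c} = Set.ncard {c | ∃ p q, B' p q ∧ lab' p q = c} := by
  classical
  have key : ∀ c ∈ {c | ∃ p q, B p q ∧ lab p q = c}, ∃ c' : M, ∃ p q p' q', B p q ∧ lab p q = c ∧
      R p p' ∧ R q q' ∧ B' p' q' ∧ lab' p' q' = c' := by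
    rintro c ⟨p, q, hB, hc⟩
    obtain ⟨p', q', hp, hq, hB'⟩ := h1 p q hB
    exact ⟨lab' p' q', p, q, p', q', hB, hc, hp, hq, hB', rfl⟩
  choose f hf using key
  refine Set.ncard_congr f ?_ ?_ ?_
  · intro c hc
    obtain ⟨p, q, p', q', hB, hc1, hp, hq, hB', hc2⟩ := hf c hc
    exact ⟨p', q', hB', hc2⟩
  · intro c d hc hd hcd
    obtain ⟨p, q, p', q', hB, hc1, hp, hq, hB', hc2⟩ := hf c hc
    obtain ⟨r, s, r', s', hD, hd1, hr, hs, hD', hd2⟩ := hf d hd
    have h := (h3 p q r s p' q' r' s' hB hD hB' hD' hp hq hr hs).2 (by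
      rw [hc2, hd2]; exact hcd)
    rw [← hc1, ← hd1, h]
  · rintro c' ⟨r', s', hD', hd'⟩
    obtain ⟨r, s, hr, hs, hD⟩ := h2 r' s' hD'
    refine ⟨lab r s, ⟨r, s, hD, rfl⟩, ?_⟩
    obtain ⟨p, q, p', q', hB, hc1, hp, hq, hB', hc2⟩ := hf (lab r s) ⟨r, s, hD, rfl⟩
    have h := (h3 p q r s p' q' r' s' hB hD hB' hD' hp hq hr hs).1 hc1
    rw [← hc2, h, hd']

end HQ
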