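import Pool.Agent.LibHQ4.H1

/-!
# Row H16 (SHORT): the length of the interval is a poset invariant

Show for all `x` in the interval `len w + len (φ x) = len w' + len x` by induction on `len w - len x`. `φ` maps the top
`w` to the top `w'` and the bottom to the bottom. If `x = w` clear. If `x < w`: `chain_sw` gives
`x' = sw x p ≤ w`, `len x' = len x + 1`, `x < x'`; there is nothing strictly between `x` and `x'` (`len_lt`), so nothing
strictly between `φ x < φ x'`; `chain_sw` for `φ x < φ x'` gives `y`, `φ x < y ≤ φ x'`, `len y = len (φ x) + 1`, so `y = φ x'`.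
-/

set_option autoImplicit false

namespace HQ

open SH

variable {n : ℕ}

private theorem H16_len_lt {x y : Equiv.Perm (Fin n)} (h : x < y) : len x < len y := by
  induction x using WellFoundedGT.induction with
  | ind x ih =>
    obtain ⟨p, hp, h2, h3, -⟩ := chain_sw h
    rcases h2.eq_or_lt with h4 | h4
    · rw [← h4]; omega
    · have := ih _ (lt_sw hp) h4; omega

private theorem H16_top {m : ℕ} {v w : Equiv.Perm (Fin n)} {v' w' : Equiv.Perm (Fin m)} (hvw : v ≤ w)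
    (hvw' : v' ≤ w') (φ : Set.Icc v w ≃o Set.Icc v' w') : (φ ⟨w, hvw, le_rfl⟩).1 = w' := by
  refine le_antisymm (φ ⟨w, hvw, le_rfl⟩).2.2 ?_
  have h1 : φ.symm ⟨w', hvw', le_rfl⟩ ≤ ⟨w, hvw, le_rfl⟩ := (φ.symm ⟨w', hvw', le_rfl⟩).2.2
  have h2 := φ.monotone h1
  rw [OrderIso.apply_symm_apply] at h2
  exact h2

private theorem H16_bot {m : ℕ} {v w : Equiv.Perm (Fin n)} {v' w' : Equiv.Perm (Fin m)} (hvw : v ≤ w)
    (hvw' : v' ≤ w') (φ : Set.Icc v w ≃o Set.Icc v' w') : (φ ⟨v, le_rfl, hvw⟩).1 = v' := by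
  refine le_antisymm ?_ (φ ⟨v, le_rfl, hvw⟩).2.1
  have h1 : (⟨v, le_rfl, hvw⟩ : Set.Icc v w) ≤ φ.symm ⟨v', le_rfl, hvw'⟩ :=
    (φ.symm ⟨v', le_rfl, hvw'⟩).2.1
  have h2 := φ.monotone h1
  rw [OrderIso.apply_symm_apply] at h2
  exact h2

private theorem H16_len {m : ℕ} {v w : Equiv.Perm (Fin n)} {v' w' : Equiv.Perm (Fin m)} (hvw : v ≤ w)
    (hvw' : v' ≤ w') (φ : Set.Icc v w ≃o Set.Icc v' w') (x : Set.Icc v w) :
    len w + len (φ x).1 = len w' + len x.1 := by
  induction x using WellFoundedGT.induction with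
  | ind x ih =>
    by_cases hx : x.1 = w
    · have h1 : x = ⟨w, hvw, le_rfl⟩ := Subtype.ext hx
      rw [h1, H16_top hvw hvw' φ]
      exact Nat.add_comm _ _
    · have hlt : x.1 < w := lt_of_le_of_ne x.2.2 hx
      obtain ⟨p, hp, h2, h3, -⟩ := chain_sw hlt
      have hxx : x.1 < sw x.1 p := lt_sw hp
      have h4 : x < (⟨sw x.1 p, x.2.1.trans hxx.le, h2⟩ : Set.Icc v w) := hxx
      have h5 := ih _ h4
      have h6 : (φ x).1 < (φ ⟨sw x.1 p, x.2.1.trans hxx.le, h2⟩).1 := φ.strictMono h4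
      obtain ⟨q, hq, h7, h8, -⟩ := chain_sw h6
      have hyy : (φ x).1 < sw (φ x).1 q := lt_sw hq
      rcases h7.eq_or_lt with h9 | h9
      · rw [← h9, h8] at h5
        simp only at h5
        rw [h3] at h5
        omega
      · exfalso
        have hy : sw (φ x).1 q ∈ Set.Icc v' w' :=
          ⟨(φ x).2.1.trans hyy.le, h7.trans (φ ⟨sw x.1 p, x.2.1.trans hxx.le, h2⟩).2.2⟩
        have k1 : φ x < (⟨sw (φ x).1 q, hy⟩ : Set.Icc v' w') := hyy
        have k2 : (⟨sw (φ x).1 q, hy⟩ : Set.Icc v' w') < φ ⟨sw x.1 p, x.2.1.trans hxx.le, h2⟩ := h9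
        have k3 := φ.symm.strictMono k1
        have k4 := φ.symm.strictMono k2
        rw [OrderIso.symm_apply_apply] at k3 k4
        have k5 : x.1 < (φ.symm ⟨sw (φ x).1 q, hy⟩).1 := k3
        have k6 : (φ.symm ⟨sw (φ x).1 q, hy⟩).1 < sw x.1 p := k4
        have k7 := H16_len_lt k5
        have k8 := H16_len_lt k6
        omega

theorem H16 {m : ℕ} {v w : Equiv.Perm (Fin n)} {v' w' : Equiv.Perm (Fin m)} (hvw : v ≤ w)
    (hvw' : v' ≤ w') (φ : Set.Icc v w ≃o Set.Icc v' w') :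
    len w + len v' = len w' + len v ∧ (φ ⟨v, le_rfl, hvw⟩).1 = v' ∧
      (φ ⟨w, hvw, le_rfl⟩).1 = w' := by
  refine ⟨?_, H16_bot hvw hvw' φ, H16_top hvw hvw' φ⟩
  have h := H16_len hvw hvw' φ ⟨v, le_rfl, hvw⟩
  rw [H16_bot hvw hvw' φ] at h
  exact h

end HQ
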