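import Pool.Agent.LibHQ4.H2a

/-!
# Row H2 (STRONG): CORE lemma, full dihedral cosets in the Bruhat graph

`a = x α`, `b = x β`, `c = x α γ = x β δ`, `d = x α γ' = x β δ'`, `y = c ε = d ε'` with swaps
(`Edge x a` gives `a = x * swap p.1.2 p.1.1`, `Up x p`; all edges go strictly up: `Edge.lt`).
1. `H2a` for `α γ = β δ` and `α γ' = β δ'` (`α γ ≠ 1` since `x < a < c`). If `α, β` are disjoint then `γ = β = γ'`,
   so `c = d`: contradiction. So `α = swap u v`, `β = swap u w`; the triple is the same for both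
   (`u` is the common point, `v`, `w` the others), `γ, γ' ∈ {swap u w, swap v w}` and `γ ≠ γ'`: they are these two.
2. WLOG (the statement is symmetric in `c, d`) `c = x (u v)(u w)`, `d = x (u v)(v w)`. From `c ε = d ε'`:
   `(u w) ε = (v w) ε'`; `ε = (u w)`: `y = x (u v) = a < y`, impossible. Otherwise `(u w) ε ≠ 1` and
   `H2a` with `α := (u w)`, `β := (v w)`, `γ := ε`: not disjoint; common point `w`, so
   `ε = (v w)` or `ε = (u v)`; `(u v)(u w)(v w) = (u w)`, so `y = x β = b < y`, impossible; hence `ε = (u v)` and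
   `y = x (u v)(u w)(u v) = x (v w)`.
3. `y > x`, `a > x`, `b > x`: all three pairs of `{u,v,w}` are non-inversions of `x` (`up_iff_lt`, for the swap of
   two positions in either order). Let `l < k < i` be the three positions in increasing order:
   `x l < x k < x i`. If `{u,v} = {l,i}` then `a = x (l i)` is decreasing on `l, k, i` and an edge `a → c = a γ`
   with `γ` a swap of two of the three positions goes down: contradiction. The same for `{u,w}` and
   `b → c`. So `{v,w} = {l,i}`, `u = k`: `y = x (l i)` and `{a,b} = {x (l k), x (k i)}`.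
-/

set_option autoImplicit false

namespace HQ

open SH

variable {n : ℕ}

private theorem H2_lt {x : Equiv.Perm (Fin n)} {i j : Fin n} (hij : i ≠ j)
    (h : x < x * Equiv.swap i j) : i < j ↔ x i < x j := by
  rcases lt_or_gt_of_ne hij with h1 | h1
  · have h2 : Up x ⟨(j, i), h1⟩ := up_iff_lt.2 h
    exact ⟨fun _ => h2, fun _ => h1⟩
  · have h2 : Up x ⟨(i, j), h1⟩ := up_iff_lt.2 (by
      show x < x * Equiv.swap j i
      rwa [Equiv.swap_comm j i])
    have h3 : x j < x i := h2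
    exact ⟨fun h4 => absurd h4 h1.not_gt, fun h4 => absurd h4 h3.not_gt⟩

private theorem H2_rel {u v w : Fin n} (huv : u ≠ v) (huw : u ≠ w) (hvw : v ≠ w) :
    Equiv.swap u v * Equiv.swap u w = Equiv.swap v w * Equiv.swap u v ∧
      Equiv.swap u w * Equiv.swap v w = Equiv.swap u v * Equiv.swap u w ∧
      Equiv.swap u w * Equiv.swap u v = Equiv.swap v w * Equiv.swap u w ∧
      Equiv.swap u v * Equiv.swap v w = Equiv.swap u w * Equiv.swap u v := by
  refine ⟨?_, ?_, ?_, ?_⟩
  · rw [Equiv.mul_swap_eq_swap_mul, Equiv.swap_apply_left,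
      Equiv.swap_apply_of_ne_of_ne huw.symm hvw.symm]
  · rw [Equiv.mul_swap_eq_swap_mul, Equiv.swap_apply_right,
      Equiv.swap_apply_of_ne_of_ne huv.symm hvw, Equiv.swap_comm v u]
  · rw [Equiv.mul_swap_eq_swap_mul, Equiv.swap_apply_left,
      Equiv.swap_apply_of_ne_of_ne huv.symm hvw, Equiv.swap_comm w v]
  · rw [Equiv.mul_swap_eq_swap_mul, Equiv.swap_apply_right,
      Equiv.swap_apply_of_ne_of_ne huw.symm hvw.symm]

private theorem H2_fin {x a b c d y : Equiv.Perm (Fin n)} {u v w : Fin n} (huv : u ≠ v)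
    (huw : u ≠ w) (hvw : v ≠ w) (ea : a = x * Equiv.swap u v) (eb : b = x * Equiv.swap u w)
    (ec : c = x * Equiv.swap u v * Equiv.swap u w) (ed : d = x * Equiv.swap u w * Equiv.swap u v)
    (ey : y = x * Equiv.swap v w) (hxa : x < a) (hxb : x < b) (hxy : x < y) (hac : a < c)
    (hbc : b < c) (had : a < d) :
    ∃ p q r₀ : Lo n, p.1.1 = q.1.2 ∧ r₀.1 = (q.1.1, p.1.2) ∧ Up x p ∧ Up x q ∧
      ((a = sw x p ∧ b = sw x q) ∨ (a = sw x q ∧ b = sw x p)) ∧ y = sw x r₀ := by
  obtain ⟨r1, r2, r3, r4⟩ := H2_rel huv huw hvw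
  have k1 : u < v ↔ x u < x v := H2_lt huv (by rwa [← ea])
  have k2 : u < w ↔ x u < x w := H2_lt huw (by rwa [← eb])
  have k3 : v < w ↔ x v < x w := H2_lt hvw (by rwa [← ey])
  have k4 : u < w ↔ x v < x w := by
    have h := H2_lt (x := a) huw (by
      rw [ec, ← ea] at hac
      exact hac)
    rwa [ea, Equiv.Perm.mul_apply, Equiv.Perm.mul_apply, Equiv.swap_apply_left,
      Equiv.swap_apply_of_ne_of_ne huw.symm hvw.symm] at h
  have k5 : v < w ↔ x u < x w := by
    have h := H2_lt (x := a) hvw (by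
      rw [ed, mul_assoc, ← r4, ← mul_assoc, ← ea] at had
      exact had)
    rwa [ea, Equiv.Perm.mul_apply, Equiv.Perm.mul_apply, Equiv.swap_apply_right,
      Equiv.swap_apply_of_ne_of_ne huw.symm hvw.symm] at h
  have k6 : v < w ↔ x v < x u := by
    have h := H2_lt (x := b) hvw (by
      rw [ec, mul_assoc, ← r2, ← mul_assoc, ← eb] at hbc
      exact hbc)
    rwa [eb, Equiv.Perm.mul_apply, Equiv.Perm.mul_apply, Equiv.swap_apply_right,
      Equiv.swap_apply_of_ne_of_ne huv.symm hvw] at h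
  have nuv : v < u ↔ x v < x u := by
    constructor
    · intro h
      rcases lt_trichotomy (x v) (x u) with h1 | h1 | h1
      · exact h1
      · exact absurd (x.injective h1) huv.symm
      · exact absurd (k1.2 h1) h.not_gt
    · intro h
      rcases lt_trichotomy v u with h1 | h1 | h1
      · exact h1
      · exact absurd h1 huv.symm
      · exact absurd (k1.1 h1) h.not_gt
  have e1 : v < w ↔ u < w := k3.trans k4.symm
  have e2 : v < w ↔ v < u := k6.trans nuv.symm
  rcases lt_or_gt_of_ne hvw with hc | hc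
  · have h1 : v < u := e2.1 hc
    have h2 : u < w := e1.1 hc
    refine ⟨⟨(u, v), h1⟩, ⟨(w, u), h2⟩, ⟨(w, v), hc⟩, rfl, rfl, nuv.1 h1, k2.1 h2,
      Or.inl ⟨?_, ?_⟩, ?_⟩
    · show a = x * Equiv.swap v u
      rw [Equiv.swap_comm v u]; exact ea
    · exact eb
    · exact ey
  · have hn : ¬ v < w := hc.not_gt
    have h1 : u < v := by
      rcases lt_trichotomy u v with h | h | h
      · exact h
      · exact absurd h huv
      · exact absurd (e2.2 h) hn
    have h2 : w < u := by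
      rcases lt_trichotomy w u with h | h | h
      · exact h
      · exact absurd h huw.symm
      · exact absurd (e1.2 h) hn
    have h3 : x w < x u := by
      rcases lt_trichotomy (x w) (x u) with h | h | h
      · exact h
      · exact absurd (x.injective h) huw.symm
      · exact absurd (k2.2 h) h2.not_gt
    refine ⟨⟨(u, w), h2⟩, ⟨(v, u), h1⟩, ⟨(v, w), hc⟩, rfl, rfl, h3, k1.1 h1,
      Or.inr ⟨ea, ?_⟩, ?_⟩
    · show b = x * Equiv.swap w u
      rw [Equiv.swap_comm w u]; exact eb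
    · show y = x * Equiv.swap w v
      rw [Equiv.swap_comm w v]; exact ey

private theorem H2_y {x a b c d y ε ε' : Equiv.Perm (Fin n)} {u v w : Fin n} (huv : u ≠ v)
    (huw : u ≠ w) (hvw : v ≠ w) (ea : a = x * Equiv.swap u v) (eb : b = x * Equiv.swap u w)
    (ec : c = x * Equiv.swap u v * Equiv.swap u w) (ed : d = x * Equiv.swap u w * Equiv.swap u v)
    (hε : ε.IsSwap) (hε' : ε'.IsSwap) (e1 : y = c * ε) (e2 : y = d * ε') (hya : y ≠ a)
    (hyb : y ≠ b) : y = x * Equiv.swap v w := by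
  obtain ⟨r1, r2, r3, r4⟩ := H2_rel huv huw hvw
  have h0 : Equiv.swap u w * ε = Equiv.swap v w * ε' := by
    have h : x * Equiv.swap u v * (Equiv.swap u w * ε) =
        x * Equiv.swap u v * (Equiv.swap v w * ε') := by
      rw [← mul_assoc, ← ec, ← e1, e2, ed, mul_assoc x, ← r4]
      simp only [mul_assoc]
    exact mul_left_cancel h
  have hne : Equiv.swap u w ≠ Equiv.swap v w := by
    intro h
    have h1 : Equiv.swap u w u = Equiv.swap v w u := by rw [h]
    rw [Equiv.swap_apply_left, Equiv.swap_apply_of_ne_of_ne huv huw] at h1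
    exact huw h1.symm
  have h1 : Equiv.swap u w * ε ≠ 1 := by
    intro h
    apply hya
    rw [e1, ec, mul_assoc, h, mul_one, ea]
  rcases H2a ⟨u, w, huw, rfl⟩ ⟨v, w, hvw, rfl⟩ hε hε' hne h1 h0 with
    ⟨hd, -, -⟩ | ⟨u1, v1, w1, -, -, -, ht, hr, h2⟩
  · exfalso
    rcases hd w with h2 | h2
    · rw [Equiv.swap_apply_right] at h2; exact huw h2
    · rw [Equiv.swap_apply_right] at h2; exact hvw h2
  · rcases h2 with ⟨h2, -⟩ | ⟨-, h2⟩
    · exfalso
      apply hyb
      rw [← hr] at h2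
      rw [e1, ec, h2, eb, mul_assoc, mul_assoc, r2, ← mul_assoc (Equiv.swap u v),
        Equiv.swap_mul_self, one_mul]
    · rw [← ht] at h2
      rw [e2, ed, h2, mul_assoc x, r3, mul_assoc, mul_assoc, Equiv.swap_mul_self, mul_one]

private theorem H2_edge {x y : Equiv.Perm (Fin n)} (h : Edge x y) :
    ∃ α : Equiv.Perm (Fin n), α.IsSwap ∧ y = x * α := by
  obtain ⟨p, -, rfl⟩ := h
  exact ⟨_, ⟨p.1.2, p.1.1, ne_of_lt p.2, rfl⟩, rfl⟩

theorem H2 {x a b c d y : Equiv.Perm (Fin n)} (hab : a ≠ b) (hcd : c ≠ d) (ha : Edge x a)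
    (hb : Edge x b) (h1 : Edge a c) (h2 : Edge b c) (h3 : Edge a d) (h4 : Edge b d)
    (h5 : Edge c y) (h6 : Edge d y) :
    ∃ p q r₀ : Lo n, p.1.1 = q.1.2 ∧ r₀.1 = (q.1.1, p.1.2) ∧ Up x p ∧ Up x q ∧
      ((a = sw x p ∧ b = sw x q) ∨ (a = sw x q ∧ b = sw x p)) ∧ y = sw x r₀ := by
  obtain ⟨α, hα, ea⟩ := H2_edge ha
  obtain ⟨β, hβ, eb⟩ := H2_edge hb
  obtain ⟨γ, hγ, ec⟩ := H2_edge h1
  obtain ⟨δ, hδ, ec'⟩ := H2_edge h2
  obtain ⟨γ', hγ', ed⟩ := H2_edge h3
  obtain ⟨δ', hδ', ed'⟩ := H2_edge h4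
  obtain ⟨ε, hε, ey⟩ := H2_edge h5
  obtain ⟨ε', hε', ey'⟩ := H2_edge h6
  have hαβ : α ≠ β := fun h => hab (by rw [ea, eb, h])
  have k1 : α * γ ≠ 1 := fun h =>
    (ha.lt.trans h1.lt).ne (by rw [ec, ea, mul_assoc, h, mul_one])
  have k1' : α * γ' ≠ 1 := fun h =>
    (ha.lt.trans h3.lt).ne (by rw [ed, ea, mul_assoc, h, mul_one])
  have k2 : α * γ = β * δ := by
    have h : x * (α * γ) = x * (β * δ) := by rw [← mul_assoc, ← ea, ← ec, ec', eb, mul_assoc]
    exact mul_left_cancel h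
  have k2' : α * γ' = β * δ' := by
    have h : x * (α * γ') = x * (β * δ') := by rw [← mul_assoc, ← ea, ← ed, ed', eb, mul_assoc]
    exact mul_left_cancel h
  have hxy : x < y := ha.lt.trans (h1.lt.trans h5.lt)
  have hya : y ≠ a := (h1.lt.trans h5.lt).ne'
  have hyb : y ≠ b := (h2.lt.trans h5.lt).ne'
  rcases H2a hα hβ hγ hδ hαβ k1 k2 with ⟨hd, g1, -⟩ | ⟨u, v, w, huv, huw, hvw, eα, eβ, q1⟩
  · exfalso
    rcases H2a hα hβ hγ' hδ' hαβ k1' k2' with
      ⟨-, g3, -⟩ | ⟨u, v, w, huv, huw, -, eα, eβ, -⟩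
    · exact hcd (by rw [ec, ed, g1, g3])
    · rcases hd u with h | h
      · rw [eα, Equiv.swap_apply_left] at h; exact huv h.symm
      · rw [eβ, Equiv.swap_apply_left] at h; exact huw h.symm
  · have fa : a = x * Equiv.swap u v := by rw [ea, eα]
    have fb : b = x * Equiv.swap u w := by rw [eb, eβ]
    have fc : c = x * Equiv.swap u v * Equiv.swap u w ∨
        c = x * Equiv.swap u w * Equiv.swap u v := by
      rcases q1 with ⟨g, -⟩ | ⟨-, g⟩
      · exact Or.inl (by rw [ec, fa, g])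
      · exact Or.inr (by rw [ec', fb, g])
    have fd : d = x * Equiv.swap u v * Equiv.swap u w ∨
        d = x * Equiv.swap u w * Equiv.swap u v := by
      rcases H2a hα hβ hγ' hδ' hαβ k1' k2' with
        ⟨hd, -, -⟩ | ⟨u1, v1, w1, -, -, -, e1, e2, q2⟩
      · exfalso
        rcases hd u with h | h
        · rw [eα, Equiv.swap_apply_left] at h; exact huv h.symm
        · rw [eβ, Equiv.swap_apply_left] at h; exact huw h.symm
      · rcases q2 with ⟨g, -⟩ | ⟨-, g⟩
        · exact Or.inl (by rw [ed, fa, g, ← e2, eβ])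
        · exact Or.inr (by rw [ed', fb, g, ← e1, eα])
    rcases fc with fc | fc
    · rcases fd with fd | fd
      · exact absurd (by rw [fc, fd]) hcd
      · exact H2_fin huv huw hvw fa fb fc fd
          (H2_y huv huw hvw fa fb fc fd hε hε' ey ey' hya hyb) ha.lt hb.lt hxy h1.lt h2.lt h3.lt
    · rcases fd with fd | fd
      · exact H2_fin huv huw hvw fa fb fd fc
          (H2_y huv huw hvw fa fb fd fc hε' hε ey' ey hya hyb) ha.lt hb.lt hxy h3.lt h4.lt h1.lt
      · exact absurd (by rw [fc, fd]) hcd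

end HQ
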