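import Pool.Agent.LibHQ4.H1

/-!
# Row H2a (MEDIUM, only Mathlib): two factorisations of a permutation into two swaps

`α γ = β δ`, all four swaps, `α ≠ β`. So `β α = δ γ` (swaps are involutions).
* `α, β` disjoint: `β α` moves exactly the four points of `α`, `β` (it is an involution exchanging them in
  pairs). If `δ, γ` had a common point, `δ γ` would be `1` or have a support of 3 points (or write
  `δ = swap e f`, `γ = swap g h` and evaluate at the points). So `δ, γ` are disjoint and
  `{δ, γ} = {α, β}`: evaluating at a point of `α`: its image under `δ γ` is the other point of `α`, so `α` is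
  `γ` or `δ`. If `γ = α` then `α γ = 1 = β δ`, `δ = β`: hmm, this is excluded by `h1 : α * γ ≠ 1`. So
  `δ = α`, `γ = β`.
* `α = swap u v`, `β = swap u w` with `u, v, w` different: `β α = δ γ` is the 3-cycle
  `v ↦ u ↦ ... `; its support is `{u,v,w}`, so `γ` and `δ` are swaps of two points of `{u,v,w}`
  (if `γ, δ` are disjoint the product moves 4 points; if they share one point the support of the product
  is the union of the supports). `γ = α` gives `α γ = 1`. So `γ = swap u w` or `γ = swap v w`.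
(`Equiv.Perm.IsSwap f : ∃ x y, x ≠ y ∧ f = swap x y`.)
-/

set_option autoImplicit false

namespace HQ

private theorem H2a_eq {T : Type} [DecidableEq T] {δ : Equiv.Perm T} (h : δ.IsSwap) {x y : T}
    (hxy : δ x = y) (hne : y ≠ x) : δ = Equiv.swap x y := by
  obtain ⟨g, k, hgk, rfl⟩ := h
  rw [Equiv.swap_apply_def] at hxy
  split_ifs at hxy with h1 h2
  · subst h1; subst hxy; rfl
  · subst h2; subst hxy; rw [Equiv.swap_comm]
  · exact absurd hxy.symm hne

private theorem H2a_sq {T : Type} [DecidableEq T] {δ : Equiv.Perm T} (h : δ.IsSwap) : δ * δ = 1 := by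
  obtain ⟨g, k, hgk, rfl⟩ := h
  exact Equiv.swap_mul_self g k

/-- moved points -/
private theorem H2a_mv {T : Type} [DecidableEq T] {π δ : Equiv.Perm T} {c d : T} (hcd : c ≠ d)
    (hδ : δ.IsSwap) (hπ : π = δ * Equiv.swap c d) (h1 : π ≠ 1) : π c ≠ c ∧ π d ≠ d := by
  constructor
  · intro h
    apply h1
    have h2 : δ d = c := by
      have := h
      rw [hπ, Equiv.Perm.mul_apply, Equiv.swap_apply_left] at this
      exact this
    have h3 := H2a_eq hδ h2 hcd
    rw [hπ, h3, Equiv.swap_comm d c, Equiv.swap_mul_self]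
  · intro h
    apply h1
    have h2 : δ c = d := by
      have := h
      rw [hπ, Equiv.Perm.mul_apply, Equiv.swap_apply_right] at this
      exact this
    have h3 := H2a_eq hδ h2 hcd.symm
    rw [hπ, h3, Equiv.swap_mul_self]

/-- the case of a common point -/
private theorem H2a_Q {T : Type} [DecidableEq T] {γ δ : Equiv.Perm T} {u v w : T} (huv : u ≠ v)
    (huw : u ≠ w) (hvw : v ≠ w) (hγ : γ.IsSwap) (hδ : δ.IsSwap)
    (hne : γ ≠ Equiv.swap u v)
    (h : Equiv.swap u w * Equiv.swap u v = δ * γ) :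
    (γ = Equiv.swap u w ∧ δ = Equiv.swap v w) ∨ (γ = Equiv.swap v w ∧ δ = Equiv.swap u v) := by
  obtain ⟨c, d, hcd, hγe⟩ := hγ
  set π := Equiv.swap u w * Equiv.swap u v with hπd
  have hπu : π u = v := by
    rw [hπd, Equiv.Perm.mul_apply, Equiv.swap_apply_left, Equiv.swap_apply_of_ne_of_ne huv.symm hvw]
  have hπv : π v = w := by
    rw [hπd, Equiv.Perm.mul_apply, Equiv.swap_apply_right, Equiv.swap_apply_left]
  have hπw : π w = u := by
    rw [hπd, Equiv.Perm.mul_apply, Equiv.swap_apply_of_ne_of_ne huw.symm hvw.symm,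
      Equiv.swap_apply_right]
  have hπ1 : π ≠ 1 := by
    intro h1
    rw [h1] at hπu
    exact huv (by simpa using hπu)
  have hsupp : ∀ x, π x ≠ x → x = u ∨ x = v ∨ x = w := by
    intro x hx
    by_contra hcon
    push Not at hcon
    obtain ⟨h1, h2, h3⟩ := hcon
    apply hx
    rw [hπd, Equiv.Perm.mul_apply, Equiv.swap_apply_of_ne_of_ne h1 h2,
      Equiv.swap_apply_of_ne_of_ne h1 h3]
  have hmv := H2a_mv hcd hδ (by rw [h, hγe]) hπ1
  have hδe : ∀ x, δ x = π (Equiv.swap c d x) := by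
    intro x
    rw [h, hγe, Equiv.Perm.mul_apply, Equiv.swap_apply_self]
  have keyA : γ = Equiv.swap u w → δ = Equiv.swap v w := by
    intro hg
    apply H2a_eq hδ _ hvw.symm
    rw [hδe, ← hγe, hg, Equiv.swap_apply_of_ne_of_ne huv.symm hvw, hπv]
  have keyB : γ = Equiv.swap v w → δ = Equiv.swap u v := by
    intro hg
    apply H2a_eq hδ _ huv.symm
    rw [hδe, ← hγe, hg, Equiv.swap_apply_of_ne_of_ne huv huw, hπu]
  have hcase : γ = Equiv.swap u w ∨ γ = Equiv.swap v w := by
    rcases hsupp c hmv.1 with hc | hc | hc <;> rcases hsupp d hmv.2 with hd | hd | hd <;>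
      subst hc <;> subst hd
    · exact absurd rfl hcd
    · exact absurd hγe hne
    · exact Or.inl hγe
    · exact absurd (by rw [hγe, Equiv.swap_comm]) hne
    · exact absurd rfl hcd
    · exact Or.inr hγe
    · exact Or.inl (by rw [hγe, Equiv.swap_comm])
    · exact Or.inr (by rw [hγe, Equiv.swap_comm])
    · exact absurd rfl hcd
  rcases hcase with hg | hg
  · exact Or.inl ⟨hg, keyA hg⟩
  · exact Or.inr ⟨hg, keyB hg⟩

/-- the disjoint case -/
private theorem H2a_P {T : Type} [DecidableEq T] {γ δ : Equiv.Perm T} {a b e f : T} (hab : a ≠ b)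
    (hef : e ≠ f) (hae : a ≠ e) (haf : a ≠ f) (hbe : b ≠ e) (hbf : b ≠ f)
    (hγ : γ.IsSwap) (hδ : δ.IsSwap) (hne : γ ≠ Equiv.swap a b)
    (h : Equiv.swap e f * Equiv.swap a b = δ * γ) :
    γ = Equiv.swap e f ∧ δ = Equiv.swap a b := by
  obtain ⟨c, d, hcd, hγe⟩ := hγ
  set π := Equiv.swap e f * Equiv.swap a b with hπd
  have hπa : π a = b := by
    rw [hπd, Equiv.Perm.mul_apply, Equiv.swap_apply_left, Equiv.swap_apply_of_ne_of_ne hbe hbf]
  have hπb : π b = a := by
    rw [hπd, Equiv.Perm.mul_apply, Equiv.swap_apply_right, Equiv.swap_apply_of_ne_of_ne hae haf]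
  have hπe : π e = f := by
    rw [hπd, Equiv.Perm.mul_apply, Equiv.swap_apply_of_ne_of_ne hae.symm hbe.symm,
      Equiv.swap_apply_left]
  have hπf : π f = e := by
    rw [hπd, Equiv.Perm.mul_apply, Equiv.swap_apply_of_ne_of_ne haf.symm hbf.symm,
      Equiv.swap_apply_right]
  have hπ1 : π ≠ 1 := by
    intro h1
    rw [h1] at hπa
    exact hab (by simpa using hπa)
  have hsupp : ∀ x, π x ≠ x → x = a ∨ x = b ∨ x = e ∨ x = f := by
    intro x hx
    by_contra hcon
    push Not at hcon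
    obtain ⟨h1, h2, h3, h4⟩ := hcon
    apply hx
    rw [hπd, Equiv.Perm.mul_apply, Equiv.swap_apply_of_ne_of_ne h1 h2,
      Equiv.swap_apply_of_ne_of_ne h3 h4]
  have hmv := H2a_mv hcd hδ (by rw [h, hγe]) hπ1
  have hδe : ∀ x, δ x = π (Equiv.swap c d x) := by
    intro x
    rw [h, hγe, Equiv.Perm.mul_apply, Equiv.swap_apply_self]
  have hδδ : ∀ x, δ (δ x) = x := by
    intro x
    have := congrArg (fun ρ : Equiv.Perm T => ρ x) (H2a_sq hδ)
    simpa using this
  -- cross pairs are impossible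
  have hcross : ∀ p q p' q' : T, p ≠ q → p' ≠ q → p ≠ q' → p' ≠ p → q' ≠ q → p' ≠ q' → π p = p' →
      π q = q' → π p' = p → π q' = q → Equiv.swap c d = Equiv.swap p q → False := by
    intro p q p' q' hpq hp'q hpq' hp'p hq'q hp'q' h1 h2 h3 h4 hs
    have e1 : δ p = q' := by rw [hδe, hs, Equiv.swap_apply_left, h2]
    have e2 : δ q' = q := by
      rw [hδe, hs, Equiv.swap_apply_of_ne_of_ne hpq'.symm hq'q, h4]
    have e3 := hδδ p
    rw [e1, e2] at e3
    exact hpq e3.symm
  have hg : γ = Equiv.swap e f := by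
    rcases hsupp c hmv.1 with hc | hc | hc | hc <;> rcases hsupp d hmv.2 with hd | hd | hd | hd <;>
      subst hc <;> subst hd
    · exact absurd rfl hcd
    · exact absurd hγe hne
    · exact (hcross _ _ _ _ hae hbe haf hab.symm hef.symm hbf hπa hπe hπb hπf rfl).elim
    · exact (hcross _ _ _ _ haf hbf hae hab.symm hef hbe hπa hπf hπb hπe rfl).elim
    · exact absurd (by rw [hγe, Equiv.swap_comm]) hne
    · exact absurd rfl hcd
    · exact (hcross _ _ _ _ hbe hae hbf hab hef.symm haf hπb hπe hπa hπf rfl).elim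
    · exact (hcross _ _ _ _ hbf haf hbe hab hef hae hπb hπf hπa hπe rfl).elim
    · exact (hcross _ _ _ _ hae hbe haf hab.symm hef.symm hbf hπa hπe hπb hπf
        (Equiv.swap_comm _ _)).elim
    · exact (hcross _ _ _ _ hbe hae hbf hab hef.symm haf hπb hπe hπa hπf
        (Equiv.swap_comm _ _)).elim
    · exact absurd rfl hcd
    · exact hγe
    · exact (hcross _ _ _ _ haf hbf hae hab.symm hef hbe hπa hπf hπb hπe
        (Equiv.swap_comm _ _)).elim
    · exact (hcross _ _ _ _ hbf haf hbe hab hef hae hπb hπf hπa hπe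
        (Equiv.swap_comm _ _)).elim
    · rw [hγe, Equiv.swap_comm]
    · exact absurd rfl hcd
  refine ⟨hg, ?_⟩
  apply H2a_eq hδ _ hab.symm
  rw [hδe, ← hγe, hg, Equiv.swap_apply_of_ne_of_ne hae haf, hπa]

theorem H2a {T : Type} [DecidableEq T] {α β γ δ : Equiv.Perm T} (hα : α.IsSwap) (hβ : β.IsSwap)
    (hγ : γ.IsSwap) (hδ : δ.IsSwap) (hne : α ≠ β) (h1 : α * γ ≠ 1) (h : α * γ = β * δ) :
    (α.Disjoint β ∧ γ = β ∧ δ = α) ∨
      ∃ u v w : T, u ≠ v ∧ u ≠ w ∧ v ≠ w ∧ α = Equiv.swap u v ∧ β = Equiv.swap u w ∧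
        ((γ = Equiv.swap u w ∧ δ = Equiv.swap v w) ∨ (γ = Equiv.swap v w ∧ δ = Equiv.swap u v)) := by
  have hαα := H2a_sq hα
  have hββ := H2a_sq hβ
  have hγγ := H2a_sq hγ
  have hba : β * α = δ * γ := by
    have e1 : δ = β * α * γ := by
      calc δ = (β * β) * δ := by rw [hββ, one_mul]
        _ = β * (β * δ) := by rw [mul_assoc]
        _ = β * (α * γ) := by rw [← h]
        _ = β * α * γ := by rw [mul_assoc]
    rw [e1, mul_assoc (β * α), hγγ, mul_one]
  have hγα : γ ≠ α := by
    intro hh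
    apply h1
    rw [hh, hαα]
  obtain ⟨a, b, hab, hαe⟩ := hα
  obtain ⟨e, f, hef, hβe⟩ := hβ
  by_cases hae : a = e
  · subst hae
    right
    have hbf : b ≠ f := by
      intro hh
      apply hne
      rw [hαe, hβe, hh]
    refine ⟨a, b, f, hab, hef, hbf, hαe, hβe, ?_⟩
    exact H2a_Q hab hef hbf hγ hδ (by rw [← hαe]; exact hγα) (by rw [← hαe, ← hβe]; exact hba)
  by_cases haf : a = f
  · subst haf
    right
    have hbe : b ≠ e := by
      intro hh
      apply hne
      rw [hαe, hβe, hh, Equiv.swap_comm]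
    have hβe' : β = Equiv.swap a e := by rw [hβe, Equiv.swap_comm]
    refine ⟨a, b, e, hab, hae, hbe, hαe, hβe', ?_⟩
    exact H2a_Q hab hae hbe hγ hδ (by rw [← hαe]; exact hγα) (by rw [← hαe, ← hβe']; exact hba)
  have hαe' : α = Equiv.swap b a := by rw [hαe, Equiv.swap_comm]
  by_cases hbe : b = e
  · subst hbe
    right
    refine ⟨b, a, f, hab.symm, hef, haf, hαe', hβe, ?_⟩
    exact H2a_Q hab.symm hef haf hγ hδ (by rw [← hαe']; exact hγα)
      (by rw [← hαe', ← hβe]; exact hba)
  by_cases hbf : b = f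
  · subst hbf
    right
    have hβe' : β = Equiv.swap b e := by rw [hβe, Equiv.swap_comm]
    refine ⟨b, a, e, hab.symm, hbe, hae, hαe', hβe', ?_⟩
    exact H2a_Q hab.symm hbe hae hγ hδ (by rw [← hαe']; exact hγα)
      (by rw [← hαe', ← hβe']; exact hba)
  left
  have hP := H2a_P hab hef hae haf hbe hbf hγ hδ (by rw [← hαe]; exact hγα)
    (by rw [← hαe, ← hβe]; exact hba)
  refine ⟨?_, ?_, ?_⟩
  · rw [hαe, hβe]
    intro x
    by_cases hxa : x = a
    · right
      subst hxa
      exact Equiv.swap_apply_of_ne_of_ne hae haf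
    by_cases hxb : x = b
    · right
      subst hxb
      exact Equiv.swap_apply_of_ne_of_ne hbe hbf
    left
    exact Equiv.swap_apply_of_ne_of_ne hxa hxb
  · rw [hβe]; exact hP.1
  · rw [hαe]; exact hP.2

end HQ
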