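import Pool.Agent.LibHQ4.H2a

/-!
# Row H3 (MEDIUM): common out-neighbours of two out-neighbours of `v`

* `H3a`: `p, q` disjoint: `z = v α γ = v β δ`, `α = swap` of `p`, `β = swap` of `q`; `H2a` (first case; in the second
  case `α, β` have a common point): `γ = β`, so `z = sw (sw v p) q`. `rr_sw` twice (`Up (sw v p) q` since the
  values at the positions of `q` are unchanged, `Act (sw v p) q a j ↔ Act v q a j`).
* `H3b`: `p = (i,k)`, `q = (k,l)`: `H2a`, second case, `u = k`, `v = i`, `w = l`: `γ = swap k l` or `γ = swap i l`.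
  `z = sw v p * swap k l` has the values `(v i, v l, v k)` at `(l, k, i)` and `rr z = rr v + [Act v p] +
  [l < j ≤ k, v l < a ≤ v i]`; `z = sw v p * swap l i` has the values `(v k, v i, v l)` and
  `rr z = rr v + [Act v p] + [l < j ≤ i, v l < a ≤ v k]` (`rr_sw` for `sw v p` with the pair `(k,l)` resp. `(i,l)`;
  values of `sw v p` at `l, k, i`: `v l, v i, v k`).
`Edge x z` is `∃ r, Up x r ∧ z = sw x r`, `sw x r = x * swap r.1.2 r.1.1`; `a, j ≤ n` from the hypotheses.
-/

set_option autoImplicit false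

namespace HQ

open SH

variable {n : ℕ}

private theorem H3_mem {T : Type} [DecidableEq T] {a b u v : T} (huv : u ≠ v)
    (h : Equiv.swap a b = Equiv.swap u v) : u = a ∨ u = b := by
  by_contra hc
  rw [not_or] at hc
  have h1 : Equiv.swap a b u = u := Equiv.swap_apply_of_ne_of_ne hc.1 hc.2
  rw [h, Equiv.swap_apply_left] at h1
  exact huv h1.symm

private theorem H3_two {v z : Equiv.Perm (Fin n)} {p q : Lo n} (hp : Up v p)
    (hpq : p ≠ q) (h1 : Edge (sw v p) z) (h2 : Edge (sw v q) z) :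
    ∃ r s : Lo n, Up (sw v p) r ∧ z = sw (sw v p) r ∧
      (((Equiv.swap p.1.2 p.1.1).Disjoint (Equiv.swap q.1.2 q.1.1) ∧
        Equiv.swap r.1.2 r.1.1 = Equiv.swap q.1.2 q.1.1 ∧
        Equiv.swap s.1.2 s.1.1 = Equiv.swap p.1.2 p.1.1) ∨
      ∃ a b c : Fin n, a ≠ b ∧ a ≠ c ∧ b ≠ c ∧ Equiv.swap p.1.2 p.1.1 = Equiv.swap a b ∧
        Equiv.swap q.1.2 q.1.1 = Equiv.swap a c ∧
        ((Equiv.swap r.1.2 r.1.1 = Equiv.swap a c ∧ Equiv.swap s.1.2 s.1.1 = Equiv.swap b c) ∨
          (Equiv.swap r.1.2 r.1.1 = Equiv.swap b c ∧ Equiv.swap s.1.2 s.1.1 = Equiv.swap a b))) := by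
  have hlt : v < z := (lt_sw hp).trans h1.lt
  obtain ⟨r, hr, hz⟩ := h1
  obtain ⟨s, hs, hz'⟩ := h2
  have hsw : ∀ t : Lo n, (Equiv.swap t.1.2 t.1.1).IsSwap := fun t =>
    ⟨t.1.2, t.1.1, ne_of_lt t.2, rfl⟩
  have e1 : z = v * (Equiv.swap p.1.2 p.1.1 * Equiv.swap r.1.2 r.1.1) := by
    rw [hz]
    unfold sw
    rw [mul_assoc]
  have e2 : z = v * (Equiv.swap q.1.2 q.1.1 * Equiv.swap s.1.2 s.1.1) := by
    rw [hz']
    unfold sw
    rw [mul_assoc]
  have e3 : Equiv.swap p.1.2 p.1.1 * Equiv.swap r.1.2 r.1.1 =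
      Equiv.swap q.1.2 q.1.1 * Equiv.swap s.1.2 s.1.1 := mul_left_cancel (e1.symm.trans e2)
  have e4 : Equiv.swap p.1.2 p.1.1 * Equiv.swap r.1.2 r.1.1 ≠ 1 := by
    intro h
    rw [h, mul_one] at e1
    exact hlt.ne e1.symm
  have e5 : Equiv.swap p.1.2 p.1.1 ≠ Equiv.swap q.1.2 q.1.1 := by
    intro h
    refine hpq (sw_injective v ?_)
    unfold sw
    rw [h]
  exact ⟨r, s, hr, hz, H2a (hsw p) (hsw q) (hsw r) (hsw s) e5 e4 e3⟩

theorem H3a {v z : Equiv.Perm (Fin n)} {p q : Lo n} (hp : Up v p) (hq : Up v q)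
    (d1 : p.1.1 ≠ q.1.1) (d2 : p.1.2 ≠ q.1.2) (d3 : p.1.1 ≠ q.1.2) (d4 : p.1.2 ≠ q.1.1)
    (h1 : Edge (sw v p) z) (h2 : Edge (sw v q) z) {a j : ℕ} (ha : Act v p a j)
    (hb : Act v q a j) : rr v a j + 2 ≤ rr z a j := by
  classical
  have hpq : p ≠ q := fun h => d1 (by rw [h])
  obtain ⟨r, s, hr, hz, h | ⟨x, y, w, hxy, hxw, hyw, e1, e2, -⟩⟩ := H3_two hp hpq h1 h2
  · have hrq : z = sw (sw v p) q := by
      rw [hz]
      unfold sw
      rw [h.2.1]
    have c1 : sw v p q.1.2 = v q.1.2 := sw_apply_of_ne v p d3.symm d2.symm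
    have c2 : sw v p q.1.1 = v q.1.1 := sw_apply_of_ne v p d1.symm d4.symm
    have hup : Up (sw v p) q := by
      show sw v p q.1.2 < sw v p q.1.1
      rw [c1, c2]
      exact hq
    have hact : Act (sw v p) q a j := by
      obtain ⟨b1, b2, b3, b4⟩ := hb
      refine ⟨b1, b2, ?_, ?_⟩
      · rw [c1]
        exact b3
      · rw [c2]
        exact b4
    have h3 := rr_sw hup a hb.le.2
    have h4 := rr_sw hp a ha.le.2
    rw [if_pos hact] at h3
    rw [if_pos ha] at h4
    rw [hrq]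
    omega
  · exfalso
    rcases H3_mem hxy e1 with h3 | h3 <;> rcases H3_mem hxw e2 with h4 | h4
    · exact d2 (h3.symm.trans h4)
    · exact d4 (h3.symm.trans h4)
    · exact d3 (h3.symm.trans h4)
    · exact d1 (h3.symm.trans h4)

theorem H3b {v z : Equiv.Perm (Fin n)} {p q : Lo n} (hp : Up v p) (hq : Up v q)
    (h : p.1.2 = q.1.1) (h1 : Edge (sw v p) z) (h2 : Edge (sw v q) z) :
    (∀ a j : ℕ, p.1.2.val < j → j ≤ p.1.1.val → (v q.1.2).val < a → a ≤ (v p.1.2).val →
      rr v a j + 1 ≤ rr z a j) ∨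
    (∀ a j : ℕ, q.1.2.val < j → j ≤ p.1.2.val → (v p.1.2).val < a → a ≤ (v p.1.1).val →
      rr v a j + 1 ≤ rr z a j) := by
  classical
  have hp' : p.1.2 < p.1.1 := p.2
  have hq' : q.1.2 < q.1.1 := q.2
  have hpv : v p.1.2 < v p.1.1 := hp
  have hqv : v q.1.2 < v q.1.1 := hq
  have hpq : p ≠ q := by
    intro hh
    rw [hh] at h
    exact absurd h (ne_of_lt hq')
  have hl1 : q.1.2 ≠ p.1.1 := by
    rw [← h] at hq'
    exact ne_of_lt (hq'.trans hp')
  have hl2 : q.1.2 ≠ p.1.2 := by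
    rw [h]
    exact ne_of_lt hq'
  have c1 : sw v p q.1.2 = v q.1.2 := sw_apply_of_ne v p hl1 hl2
  have c2 : sw v p p.1.2 = v p.1.1 := sw_apply_col v p
  have c3 : sw v p p.1.1 = v p.1.2 := sw_apply_row v p
  have hqk : (v q.1.2).val < (v p.1.2).val := by
    rw [h]
    exact hqv
  have hki : (v p.1.2).val < (v p.1.1).val := hpv
  have hlk : q.1.2.val < p.1.2.val := by
    rw [h]
    exact hq'
  have hkin : p.1.2.val < p.1.1.val := hp'
  have hmon : ∀ a j : ℕ, j ≤ n → rr v a j ≤ rr (sw v p) a j := by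
    intro a j hj
    rw [rr_sw hp a hj]
    exact Nat.le_add_right _ _
  obtain ⟨r, s, hr, hz, hd | ⟨x, y, w, hxy, hxw, hyw, e1, e2, e3⟩⟩ := H3_two hp hpq h1 h2
  · exfalso
    rcases hd.1 p.1.2 with h3 | h3
    · rw [Equiv.swap_apply_left] at h3
      exact absurd h3 (ne_of_gt hp')
    · rw [h, Equiv.swap_apply_right] at h3
      exact absurd h3 (ne_of_lt hq')
  · have hx : x = p.1.2 := by
      rcases H3_mem hxy e1 with h3 | h3
      · exact h3
      · rcases H3_mem hxw e2 with h4 | h4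
        · exact absurd (h4.symm.trans h3) hl1
        · rw [h4, h]
    have hy : y = p.1.1 := by
      have h3 : Equiv.swap p.1.2 p.1.1 x = Equiv.swap x y x := by rw [e1]
      rw [Equiv.swap_apply_left, hx, Equiv.swap_apply_left] at h3
      exact h3.symm
    have hw : w = q.1.2 := by
      have h3 : Equiv.swap q.1.2 q.1.1 x = Equiv.swap x w x := by rw [e2]
      rw [Equiv.swap_apply_left, hx, h, Equiv.swap_apply_right] at h3
      exact h3.symm
    subst hx hy hw
    rcases e3 with ⟨e3, -⟩ | ⟨e3, -⟩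
    · right
      intro a j b1 b2 b3 b4
      have hrq : z = sw (sw v p) q := by
        rw [hz]
        unfold sw
        rw [e3, e2]
      have hup : Up (sw v p) q := by
        show sw v p q.1.2 < sw v p q.1.1
        rw [← h, c1, c2]
        exact hqk.trans hki
      have hact : Act (sw v p) q a j := by
        refine ⟨b1, ?_, ?_, ?_⟩
        · rw [← h]
          exact b2
        · rw [c1]
          omega
        · rw [← h, c2]
          exact b4
      have hj : j ≤ n := hact.le.2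
      have h3 := rr_sw hup a hj
      rw [if_pos hact] at h3
      have h4 := hmon a j hj
      rw [hrq]
      omega
    · left
      intro a j b1 b2 b3 b4
      have hlt : q.1.2 < p.1.1 := hlk.trans hkin
      let t : Lo n := ⟨(p.1.1, q.1.2), hlt⟩
      have ht1 : t.1.1 = p.1.1 := rfl
      have ht2 : t.1.2 = q.1.2 := rfl
      have hrq : z = sw (sw v p) t := by
        rw [hz]
        unfold sw
        rw [e3, ht1, ht2, Equiv.swap_comm q.1.2 p.1.1]
      have hup : Up (sw v p) t := by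
        show sw v p t.1.2 < sw v p t.1.1
        rw [ht1, ht2, c1, c3]
        exact hqk
      have hact : Act (sw v p) t a j := by
        refine ⟨?_, b2, ?_, ?_⟩
        · rw [ht2]
          omega
        · rw [ht2, c1]
          exact b3
        · rw [ht1, c3]
          exact b4
      have hj : j ≤ n := hact.le.2
      have h3 := rr_sw hup a hj
      rw [if_pos hact] at h3
      have h4 := hmon a j hj
      rw [hrq]
      omega

end HQ
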