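import Pool.Agent.LibHQ4.H1

/-!
# Row H4 (SHORT): number of elements of `T`

`TT v w` is the disjoint union of the `p` with `¬ Up v p` (all in `T`, `InT.of_not_up`; `len v` many: `len` counts
the `(b, b')` with `b < b'` and `v b' < v b`, `p ↦ (p.1.2, p.1.1)`, `v` injective) and of the `p` with
`Up v p ∧ InT v w p`, which `sw v` maps bijectively (`sw_injective`) onto `{x | Ew w v x}` (`ew_iff`).
-/

set_option autoImplicit false

namespace HQ

open SH

variable {n : ℕ}

theorem H4 {v w : Equiv.Perm (Fin n)} (hvw : v ≤ w) :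
    (TT v w).card = len v + Set.ncard {x : Equiv.Perm (Fin n) | Ew w v x} := by
  classical
  have hsplit : TT v w = (Finset.univ.filter fun p : Lo n => ¬ Up v p) ∪
      (Finset.univ.filter fun p : Lo n => Up v p ∧ InT v w p) := by
    ext p
    rw [mem_TT, Finset.mem_union, Finset.mem_filter, Finset.mem_filter]
    constructor
    · intro h
      by_cases hp : Up v p
      · exact Or.inr ⟨Finset.mem_univ _, hp, h⟩
      · exact Or.inl ⟨Finset.mem_univ _, hp⟩
    · rintro (⟨-, h⟩ | ⟨-, -, h⟩)
      · exact InT.of_not_up h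
      · exact h
  have hdisj : Disjoint (Finset.univ.filter fun p : Lo n => ¬ Up v p)
      (Finset.univ.filter fun p : Lo n => Up v p ∧ InT v w p) := by
    rw [Finset.disjoint_left]
    intro p h1 h2
    exact (Finset.mem_filter.1 h1).2 (Finset.mem_filter.1 h2).2.1
  rw [hsplit, Finset.card_union_of_disjoint hdisj]
  congr 1
  · unfold len
    refine Finset.card_bij (fun p _ => (p.1.2, p.1.1)) ?_ ?_ ?_
    · intro p hp
      have h1 : ¬ Up v p := (Finset.mem_filter.1 hp).2
      refine Finset.mem_filter.2 ⟨Finset.mem_univ _, p.2, ?_⟩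
      refine lt_of_le_of_ne (not_lt.1 h1) fun h => ?_
      exact absurd (v.injective h) (ne_of_gt p.2)
    · intro p _ q _ h
      have h1 : p.1.2 = q.1.2 ∧ p.1.1 = q.1.1 := Prod.mk.inj h
      exact Subtype.ext (Prod.ext h1.2 h1.1)
    · rintro ⟨b, b'⟩ hb
      obtain ⟨-, h1, h2⟩ := Finset.mem_filter.1 hb
      exact ⟨⟨(b', b), h1⟩, Finset.mem_filter.2 ⟨Finset.mem_univ _, fun h => absurd h h2.not_gt⟩,
        rfl⟩
  · have h1 : {x : Equiv.Perm (Fin n) | Ew w v x} =
        sw v '' (↑(Finset.univ.filter fun p : Lo n => Up v p ∧ InT v w p) : Set (Lo n)) := by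
      ext x
      rw [Set.mem_setOf_eq, ew_iff hvw, Set.mem_image]
      constructor
      · rintro ⟨p, h2, h3, h4⟩
        exact ⟨p, Finset.mem_coe.2 (Finset.mem_filter.2 ⟨Finset.mem_univ _, h2, h3⟩), h4.symm⟩
      · rintro ⟨p, h2, h3⟩
        have h4 := (Finset.mem_filter.1 (Finset.mem_coe.1 h2)).2
        exact ⟨p, h4.1, h4.2, h3.symm⟩
    rw [h1, Set.ncard_image_of_injective _ (sw_injective v), Set.ncard_coe_finset]

end HQ
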