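import Pool.Agent.LibHQ4.H2

/-!
# Row H5 (MEDIUM): an isomorphism of Bruhat intervals preserves the Bruhat graph (Dyer, type A)

By strong induction on `len y - len x` (generalizing `x y`), `Edge x y`: `y = sw x p`, `p = (i,l)`, `x l < x i`.
* If no `k` with `l < k < i`, `x l < x k < x i`: `c10_len`: `len y = len x + 1`, so in the interval there is
  nothing strictly between `x` and `y` (`len_lt`), hence nothing between `φ x < φ y`; `chain_sw` gives `p'` with
  `Up (φ x) p'`, `sw (φ x) p' ≤ φ y` and `φ x < sw (φ x) p'`, which lies in `Set.Icc v' w'`, so it is `φ y`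
  (otherwise its preimage is strictly between `x` and `y`).
* Otherwise take such a `k`. Put `a = sw x (k,l)`, `b = sw x (i,k)`, `c = sw a (i,l)`... explicitly, on the positions
  `(l,k,i)` with `x = (1,2,3)`: `a = (2,1,3)`, `b = (1,3,2)`, `c = (3,1,2)`, `d = (2,3,1)`, `y = (3,2,1)`; all the
  edges `x → a, b`; `a → c` (exchange `l,i`), `a → d` (exchange `k,i`), `b → c` (exchange `l,k`), `b → d` (exchange
  `l,i`), `c → y` (exchange `k,i`), `d → y` (exchange `l,k`) go up; all have smaller length difference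
  (`len_lt`, everything is between `x` and `y`, so in the interval). By induction their images are edges;
  `φ a ≠ φ b`, `φ c ≠ φ d`; `H2` gives `φ y = sw (φ x) r₀`, and `Up (φ x) r₀` by `up_iff_lt` since `φ x < φ y`.
-/

set_option autoImplicit false

namespace HQ

open SH

variable {n : ℕ}

private theorem H5_sw1 {T : Type} [DecidableEq T] {l k i : T} (h1 : l ≠ k) (h2 : l ≠ i)
    (h3 : k ≠ i) : Equiv.swap l k * Equiv.swap l i = Equiv.swap k i * Equiv.swap l k := by
  ext t
  simp only [Equiv.Perm.mul_apply, Equiv.swap_apply_def]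
  split_ifs <;> simp_all

private theorem H5_sw2 {T : Type} [DecidableEq T] {l k i : T} (h1 : l ≠ k) (h2 : l ≠ i)
    (h3 : k ≠ i) : Equiv.swap l k * Equiv.swap k i = Equiv.swap k i * Equiv.swap l i := by
  ext t
  simp only [Equiv.Perm.mul_apply, Equiv.swap_apply_def]
  split_ifs <;> simp_all

private theorem H5_sw3 {T : Type} [DecidableEq T] {l k i : T} (h1 : l ≠ k) (h2 : l ≠ i)
    (h3 : k ≠ i) : Equiv.swap l k * Equiv.swap l i * Equiv.swap k i = Equiv.swap l i := by
  ext t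
  simp only [Equiv.Perm.mul_apply, Equiv.swap_apply_def]
  split_ifs <;> simp_all

private theorem H5_sw4 {T : Type} [DecidableEq T] {l k i : T} (h1 : l ≠ k) (h2 : l ≠ i)
    (h3 : k ≠ i) : Equiv.swap l k * Equiv.swap k i * Equiv.swap l k = Equiv.swap l i := by
  ext t
  simp only [Equiv.Perm.mul_apply, Equiv.swap_apply_def]
  split_ifs <;> simp_all

private theorem H5_edge {x : Equiv.Perm (Fin n)} {l i : Fin n} (h : l < i) (hx : x l < x i) :
    Edge x (x * Equiv.swap l i) := ⟨⟨(i, l), h⟩, hx, rfl⟩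

private theorem H5_tri {x : Equiv.Perm (Fin n)} {l k i : Fin n} (hlk : l < k) (hki : k < i)
    (hx1 : x l < x k) (hx2 : x k < x i) :
    ∃ a b c d : Equiv.Perm (Fin n), a ≠ b ∧ c ≠ d ∧ Edge x a ∧ Edge x b ∧ Edge a c ∧ Edge b c ∧
      Edge a d ∧ Edge b d ∧ Edge c (x * Equiv.swap l i) ∧ Edge d (x * Equiv.swap l i) := by
  have hli : l < i := hlk.trans hki
  have hx3 : x l < x i := hx1.trans hx2
  have n1 : l ≠ k := hlk.ne
  have n2 : l ≠ i := hli.ne
  have n3 : k ≠ i := hki.ne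
  have al : (x * Equiv.swap l k) l = x k := by rw [Equiv.Perm.mul_apply, Equiv.swap_apply_left]
  have ak : (x * Equiv.swap l k) k = x l := by rw [Equiv.Perm.mul_apply, Equiv.swap_apply_right]
  have ai : (x * Equiv.swap l k) i = x i := by
    rw [Equiv.Perm.mul_apply, Equiv.swap_apply_of_ne_of_ne n2.symm n3.symm]
  have bl : (x * Equiv.swap k i) l = x l := by
    rw [Equiv.Perm.mul_apply, Equiv.swap_apply_of_ne_of_ne n1 n2]
  have bk : (x * Equiv.swap k i) k = x i := by rw [Equiv.Perm.mul_apply, Equiv.swap_apply_left]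
  have bi : (x * Equiv.swap k i) i = x k := by rw [Equiv.Perm.mul_apply, Equiv.swap_apply_right]
  have cl : (x * Equiv.swap l k * Equiv.swap l i) l = x i := by
    rw [Equiv.Perm.mul_apply, Equiv.swap_apply_left, ai]
  have ck : (x * Equiv.swap l k * Equiv.swap l i) k = x l := by
    rw [Equiv.Perm.mul_apply, Equiv.swap_apply_of_ne_of_ne n1.symm n3, ak]
  have ci : (x * Equiv.swap l k * Equiv.swap l i) i = x k := by
    rw [Equiv.Perm.mul_apply, Equiv.swap_apply_right, al]
  have dl : (x * Equiv.swap l k * Equiv.swap k i) l = x k := by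
    rw [Equiv.Perm.mul_apply, Equiv.swap_apply_of_ne_of_ne n1 n2, al]
  have dk : (x * Equiv.swap l k * Equiv.swap k i) k = x i := by
    rw [Equiv.Perm.mul_apply, Equiv.swap_apply_left, ai]
  refine ⟨x * Equiv.swap l k, x * Equiv.swap k i, x * Equiv.swap l k * Equiv.swap l i,
    x * Equiv.swap l k * Equiv.swap k i, ?_, ?_, H5_edge hlk hx1, H5_edge hki hx2, ?_, ?_, ?_, ?_,
    ?_, ?_⟩
  · intro h
    have h1 : x k = x l := by rw [← al, h, bl]
    exact hx1.ne' h1
  · intro h
    have h1 : x i = x k := by rw [← cl, h, dl]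
    exact hx2.ne' h1
  · refine H5_edge hli ?_
    rw [al, ai]
    exact hx2
  · have h1 : x * Equiv.swap l k * Equiv.swap l i = x * Equiv.swap k i * Equiv.swap l k := by
      rw [mul_assoc, mul_assoc, H5_sw1 n1 n2 n3]
    rw [h1]
    refine H5_edge hlk ?_
    rw [bl, bk]
    exact hx3
  · refine H5_edge hki ?_
    rw [ak, ai]
    exact hx3
  · have h1 : x * Equiv.swap l k * Equiv.swap k i = x * Equiv.swap k i * Equiv.swap l i := by
      rw [mul_assoc, mul_assoc, H5_sw2 n1 n2 n3]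
    rw [h1]
    refine H5_edge hli ?_
    rw [bl, bi]
    exact hx1
  · have h1 : x * Equiv.swap l i = x * Equiv.swap l k * Equiv.swap l i * Equiv.swap k i := by
      rw [mul_assoc, mul_assoc, ← mul_assoc (Equiv.swap l k), H5_sw3 n1 n2 n3]
    rw [h1]
    refine H5_edge hki ?_
    rw [ck, ci]
    exact hx1
  · have h1 : x * Equiv.swap l i = x * Equiv.swap l k * Equiv.swap k i * Equiv.swap l k := by
      rw [mul_assoc, mul_assoc, ← mul_assoc (Equiv.swap l k), H5_sw4 n1 n2 n3]
    rw [h1]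
    refine H5_edge hlk ?_
    rw [dl, dk]
    exact hx2

private theorem H5_aux {m : ℕ} {v w : Equiv.Perm (Fin n)} {v' w' : Equiv.Perm (Fin m)}
    (φ : Set.Icc v w ≃o Set.Icc v' w') (N : ℕ) : ∀ x y : Set.Icc v w, len y.1 - len x.1 ≤ N →
      Edge x.1 y.1 → Edge (φ x).1 (φ y).1 := by
  induction N with
  | zero =>
    intro x y hN h
    have := len_lt h.lt
    omega
  | succ N ih =>
    intro x y hN h
    have hxy : x.1 < y.1 := h.lt
    have hlen := len_lt hxy
    have hφ : φ x < φ y := φ.lt_iff_lt.2 hxy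
    obtain ⟨p, hp, hy⟩ := h
    by_cases hk : ∃ k : Fin n, p.1.2 < k ∧ k < p.1.1 ∧ x.1 p.1.2 < x.1 k ∧ x.1 k < x.1 p.1.1
    · obtain ⟨k, hk1, hk2, hk3, hk4⟩ := hk
      obtain ⟨a, b, c, d, hab, hcd, exa, exb, eac, ebc, ead, ebd, ecy, edy⟩ :=
        H5_tri hk1 hk2 hk3 hk4
      have hy' : x.1 * Equiv.swap p.1.2 p.1.1 = y.1 := hy.symm
      rw [hy'] at ecy edy
      have lxa := len_lt exa.lt
      have lxb := len_lt exb.lt
      have lac := len_lt eac.lt
      have lad := len_lt ead.lt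
      have lbc := len_lt ebc.lt
      have lbd := len_lt ebd.lt
      have lcy := len_lt ecy.lt
      have ldy := len_lt edy.lt
      have ha : a ∈ Set.Icc v w := ⟨x.2.1.trans exa.lt.le, (eac.lt.trans ecy.lt).le.trans y.2.2⟩
      have hb : b ∈ Set.Icc v w := ⟨x.2.1.trans exb.lt.le, (ebc.lt.trans ecy.lt).le.trans y.2.2⟩
      have hc : c ∈ Set.Icc v w := ⟨x.2.1.trans (exa.lt.trans eac.lt).le, ecy.lt.le.trans y.2.2⟩
      have hd : d ∈ Set.Icc v w := ⟨x.2.1.trans (exa.lt.trans ead.lt).le, edy.lt.le.trans y.2.2⟩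
      have ixa := ih x ⟨a, ha⟩ (by show len a - len x.1 ≤ N; omega) exa
      have ixb := ih x ⟨b, hb⟩ (by show len b - len x.1 ≤ N; omega) exb
      have iac := ih ⟨a, ha⟩ ⟨c, hc⟩ (by show len c - len a ≤ N; omega) eac
      have ibc := ih ⟨b, hb⟩ ⟨c, hc⟩ (by show len c - len b ≤ N; omega) ebc
      have iad := ih ⟨a, ha⟩ ⟨d, hd⟩ (by show len d - len a ≤ N; omega) ead
      have ibd := ih ⟨b, hb⟩ ⟨d, hd⟩ (by show len d - len b ≤ N; omega) ebd
      have icy := ih ⟨c, hc⟩ y (by show len y.1 - len c ≤ N; omega) ecy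
      have idy := ih ⟨d, hd⟩ y (by show len y.1 - len d ≤ N; omega) edy
      have nab : (φ ⟨a, ha⟩).1 ≠ (φ ⟨b, hb⟩).1 := fun h =>
        hab (congrArg Subtype.val (φ.injective (Subtype.ext h)))
      have ncd : (φ ⟨c, hc⟩).1 ≠ (φ ⟨d, hd⟩).1 := fun h =>
        hcd (congrArg Subtype.val (φ.injective (Subtype.ext h)))
      obtain ⟨-, -, r₀, -, -, -, -, -, hr⟩ := H2 nab ncd ixa ixb iac ibc iad ibd icy idy
      have hlt : (φ x).1 < (φ y).1 := hφ
      refine ⟨r₀, up_iff_lt.2 ?_, hr⟩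
      rwa [← hr]
    · have hmin : ∀ b : Fin n, p.1.2 < b → b < p.1.1 → x.1 b < x.1 p.1.2 ∨ x.1 p.1.1 < x.1 b := by
        intro b hb1 hb2
        by_contra hc
        rw [not_or] at hc
        refine hk ⟨b, hb1, hb2, lt_of_le_of_ne (not_lt.1 hc.1) fun h => ?_,
          lt_of_le_of_ne (not_lt.1 hc.2) fun h => ?_⟩
        · exact absurd (x.1.injective h) hb1.ne
        · exact absurd (x.1.injective h) hb2.ne
      have hl : len y.1 = len x.1 + 1 := by
        rw [hy]
        exact c10_len x.1 p.2 hp hmin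
      have hlt : (φ x).1 < (φ y).1 := hφ
      obtain ⟨p', hp', hle, -, -⟩ := chain_sw hlt
      have hz' : sw (φ x).1 p' ∈ Set.Icc v' w' :=
        ⟨(φ x).2.1.trans (lt_sw hp').le, hle.trans (φ y).2.2⟩
      have h1 : φ x < ⟨sw (φ x).1 p', hz'⟩ := lt_sw hp'
      have h2 : (⟨sw (φ x).1 p', hz'⟩ : Set.Icc v' w') ≤ φ y := hle
      obtain ⟨z, hz⟩ := φ.surjective ⟨sw (φ x).1 p', hz'⟩
      rw [← hz] at h1 h2
      have h3 : x < z := φ.lt_iff_lt.1 h1
      have h4 : z ≤ y := φ.le_iff_le.1 h2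
      rcases h4.eq_or_lt with h5 | h5
      · rw [← h5, hz]
        exact ⟨p', hp', rfl⟩
      · have h6 : len x.1 < len z.1 := len_lt h3
        have h7 : len z.1 < len y.1 := len_lt h5
        omega

theorem H5 {m : ℕ} {v w : Equiv.Perm (Fin n)} {v' w' : Equiv.Perm (Fin m)}
    (φ : Set.Icc v w ≃o Set.Icc v' w') (x y : Set.Icc v w) (h : Edge x.1 y.1) :
    Edge (φ x).1 (φ y).1 :=
  H5_aux φ _ x y le_rfl h

end HQ
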