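import Pool.Agent.LibHQ4.H1

/-!
# Row H6 (MEDIUM): common out-neighbours exist

Rank functions by `rr_sw` (twice); the result is `≤ w` by `le_iff` and `InT` (and the extra hypothesis).
* `H6a`: disjoint, `z = sw (sw v p) q = sw (sw v q) p` (disjoint swaps commute): `rr z = rr v + [Act p] + [Act q]`;
  both active: `rr v a j + 2 ≤ rr w a j` by `¬ BadD`.
* `H6b`: chain `p = (i,k)`, `q = (k,l)`, `v l < v k < v i`. On the positions `(l,k,i)`, `v = (1,2,3)`:
  no tight SW box: `z = (2,3,1)`, `sw v p = (1,3,2) → z` (exchange `l,i`), `sw v q = (2,1,3) → z` (exchange `k,i`),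
  `rr z = rr v + [Act p] + [l < j ≤ i, v l < a ≤ v k]`; boxes of the last rectangle with `j ≤ k` are in the rectangle of
  `q`, those with `k < j` are SW boxes (not tight: `hvw` gives `rr v a j ≤ rr w a j`). The two rectangles are
  disjoint.
  no tight NE box: `z = (3,1,2)`, `sw v p → z` (exchange `l,k`), `sw v q → z` (exchange `l,i`),
  `rr z = rr v + [Act p] + [l < j ≤ k, v l < a ≤ v i]`: boxes with `a ≤ v k` are in the rectangle of `q`, those with
  `v k < a` are NE boxes.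
-/

set_option autoImplicit false

namespace HQ

open SH

variable {n : ℕ}

private theorem H6_r (v : Equiv.Perm (Fin n)) {i k : Fin n} (h : k < i) :
    sw v ⟨(i, k), h⟩ i = v k := sw_apply_row v ⟨(i, k), h⟩

private theorem H6_c (v : Equiv.Perm (Fin n)) {i k : Fin n} (h : k < i) :
    sw v ⟨(i, k), h⟩ k = v i := sw_apply_col v ⟨(i, k), h⟩

private theorem H6_n (v : Equiv.Perm (Fin n)) {i k b : Fin n} (h : k < i) (h1 : b ≠ i)
    (h2 : b ≠ k) : sw v ⟨(i, k), h⟩ b = v b := sw_apply_of_ne v ⟨(i, k), h⟩ h1 h2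

theorem H6a {v w : Equiv.Perm (Fin n)} (hvw : v ≤ w) {p q : Lo n} (hp : Up v p) (hq : Up v q)
    (tp : InT v w p) (tq : InT v w q) (d1 : p.1.1 ≠ q.1.1) (d2 : p.1.2 ≠ q.1.2)
    (d3 : p.1.1 ≠ q.1.2) (d4 : p.1.2 ≠ q.1.1) (hb : ¬ BadD v w p q) :
    ∃ z, GCN (Ew w) (sw v p) (sw v q) z := by
  classical
  have e1 : sw v p q.1.1 = v q.1.1 := sw_apply_of_ne v p d1.symm d4.symm
  have e2 : sw v p q.1.2 = v q.1.2 := sw_apply_of_ne v p d3.symm d2.symm
  have f1 : sw v q p.1.1 = v p.1.1 := sw_apply_of_ne v q d1 d3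
  have f2 : sw v q p.1.2 = v p.1.2 := sw_apply_of_ne v q d4 d2
  have hq' : Up (sw v p) q := by
    show sw v p q.1.2 < sw v p q.1.1
    rw [e1, e2]
    exact hq
  have hp' : Up (sw v q) p := by
    show sw v q p.1.2 < sw v q p.1.1
    rw [f1, f2]
    exact hp
  have hz : sw (sw v q) p = sw (sw v p) q := by
    have hne1 : p.1.2 ≠ p.1.1 := ne_of_lt p.2
    have hne2 : q.1.2 ≠ q.1.1 := ne_of_lt q.2
    refine Equiv.ext fun b => ?_
    by_cases b1 : b = p.1.1
    · subst b1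
      rw [sw_apply_row, f2, sw_apply_of_ne _ q d1 d3, sw_apply_row]
    · by_cases b2 : b = p.1.2
      · subst b2
        rw [sw_apply_col, f1, sw_apply_of_ne _ q d4 d2, sw_apply_col]
      · rw [sw_apply_of_ne _ p b1 b2]
        by_cases b3 : b = q.1.1
        · subst b3
          rw [sw_apply_row, sw_apply_row, e2]
        · by_cases b4 : b = q.1.2
          · subst b4
            rw [sw_apply_col, sw_apply_col, e1]
          · rw [sw_apply_of_ne _ q b3 b4, sw_apply_of_ne _ q b3 b4, sw_apply_of_ne _ p b1 b2]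
  have hle : sw (sw v p) q ≤ w := by
    rw [le_iff]
    intro a _ j hj
    rw [rr_sw hq' a hj, rr_sw hp a hj]
    have hA : Act (sw v p) q a j ↔ Act v q a j := by
      unfold Act
      rw [e1, e2]
    have h0 := le_def.1 hvw a j
    by_cases h1 : Act v p a j
    · rw [if_pos h1]
      by_cases h2 : Act v q a j
      · rw [if_pos (hA.2 h2)]
        by_contra hc
        exact hb ⟨d1, d2, d3, d4, a, j, h1, h2, by omega⟩
      · rw [if_neg (fun h => h2 (hA.1 h))]
        have := tp a j h1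
        omega
    · rw [if_neg h1]
      by_cases h2 : Act v q a j
      · rw [if_pos (hA.2 h2)]
        have := tq a j h2
        omega
      · rw [if_neg (fun h => h2 (hA.1 h))]
        omega
  exact ⟨sw (sw v p) q, ⟨⟨q, hq', rfl⟩, hle⟩, ⟨⟨p, hp', hz.symm⟩, hle⟩⟩

theorem H6b {v w : Equiv.Perm (Fin n)} (hvw : v ≤ w) {p q : Lo n} (hp : Up v p) (hq : Up v q)
    (tp : InT v w p) (tq : InT v w q) (h : p.1.2 = q.1.1) (hb : ¬ BadC v w p q) :
    ∃ z, GCN (Ew w) (sw v p) (sw v q) z := by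
  classical
  obtain ⟨⟨i, k⟩, hki⟩ := p
  obtain ⟨⟨k', l⟩, hlk⟩ := q
  simp only at h hki hlk
  subst h
  have hli : l < i := lt_trans hlk hki
  have hvki : v k < v i := hp
  have hvlk : v l < v k := hq
  have hki' : k.val < i.val := hki
  have hlk' : l.val < k.val := hlk
  have hvki' : (v k).val < (v i).val := hvki
  have hvlk' : (v l).val < (v k).val := hvlk
  have nki : k ≠ i := ne_of_lt hki
  have nlk : l ≠ k := ne_of_lt hlk
  have nli : l ≠ i := ne_of_lt hli
  -- values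
  have a1 : sw v ⟨(i, k), hki⟩ i = v k := H6_r v hki
  have a2 : sw v ⟨(i, k), hki⟩ k = v i := H6_c v hki
  have a3 : sw v ⟨(i, k), hki⟩ l = v l := H6_n v hki nli nlk
  have b1 : sw v ⟨(k, l), hlk⟩ k = v l := H6_r v hlk
  have b2 : sw v ⟨(k, l), hlk⟩ l = v k := H6_c v hlk
  have b3 : sw v ⟨(k, l), hlk⟩ i = v i := H6_n v hlk nki.symm nli.symm
  by_cases hSW : ∃ a j, SW v w ⟨(i, k), hki⟩ ⟨(k, l), hlk⟩ a j
  · -- no tight NE box
    have hNE : ¬ ∃ a j, NE v w ⟨(i, k), hki⟩ ⟨(k, l), hlk⟩ a j := fun hc => hb ⟨rfl, hSW, hc⟩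
    have u1 : Up (sw v ⟨(i, k), hki⟩) ⟨(k, l), hlk⟩ := by
      show sw v ⟨(i, k), hki⟩ l < sw v ⟨(i, k), hki⟩ k
      rw [a2, a3]
      exact hvlk.trans hvki
    have u2 : Up (sw v ⟨(k, l), hlk⟩) ⟨(i, l), hli⟩ := by
      show sw v ⟨(k, l), hlk⟩ l < sw v ⟨(k, l), hlk⟩ i
      rw [b2, b3]
      exact hvki
    have hz : sw (sw v ⟨(i, k), hki⟩) ⟨(k, l), hlk⟩ = sw (sw v ⟨(k, l), hlk⟩) ⟨(i, l), hli⟩ := by
      refine Equiv.ext fun b => ?_
      by_cases c1 : b = i
      · subst c1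
        rw [H6_n _ hlk nki.symm nli.symm, a1, H6_r, b2]
      · by_cases c2 : b = k
        · subst c2
          rw [H6_r, a3, H6_n _ hli nki nlk.symm, b1]
        · by_cases c3 : b = l
          · subst c3
            rw [H6_c, a2, H6_c, b3]
          · rw [H6_n _ hlk c2 c3, H6_n _ hki c1 c2, H6_n _ hli c1 c3, H6_n _ hlk c2 c3]
    have hle : sw (sw v ⟨(i, k), hki⟩) ⟨(k, l), hlk⟩ ≤ w := by
      rw [le_iff]
      intro a _ j hj
      rw [rr_sw u1 a hj, rr_sw hp a hj]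
      have hA : Act (sw v ⟨(i, k), hki⟩) ⟨(k, l), hlk⟩ a j ↔
          (l.val < j ∧ j ≤ k.val ∧ (v l).val < a ∧ a ≤ (v i).val) := by
        show (l.val < j ∧ j ≤ k.val ∧ (sw v ⟨(i, k), hki⟩ l).val < a ∧
          a ≤ (sw v ⟨(i, k), hki⟩ k).val) ↔ _
        rw [a2, a3]
      have h0 := le_def.1 hvw a j
      by_cases h1 : Act v ⟨(i, k), hki⟩ a j
      · have h1' : k.val < j ∧ j ≤ i.val ∧ (v k).val < a ∧ a ≤ (v i).val := h1
        rw [if_pos h1, if_neg (fun hc => by have := hA.1 hc; omega)]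
        have := tp a j h1
        omega
      · rw [if_neg h1]
        by_cases h2 : Act (sw v ⟨(i, k), hki⟩) ⟨(k, l), hlk⟩ a j
        · rw [if_pos h2]
          obtain ⟨c1, c2, c3, c4⟩ := hA.1 h2
          by_cases h3 : a ≤ (v k).val
          · have := tq a j ⟨c1, c2, c3, h3⟩
            omega
          · have h4 : rr w a j ≠ rr v a j := fun hc =>
              hNE ⟨a, j, c1, c2, by show (v k).val < a; omega, c4, c3, hc⟩
            omega
        · rw [if_neg h2]
          omega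
    exact ⟨_, ⟨⟨_, u1, rfl⟩, hle⟩, ⟨⟨_, u2, hz⟩, hle⟩⟩
  · -- no tight SW box
    have u1 : Up (sw v ⟨(i, k), hki⟩) ⟨(i, l), hli⟩ := by
      show sw v ⟨(i, k), hki⟩ l < sw v ⟨(i, k), hki⟩ i
      rw [a1, a3]
      exact hvlk
    have u2 : Up (sw v ⟨(k, l), hlk⟩) ⟨(i, k), hki⟩ := by
      show sw v ⟨(k, l), hlk⟩ k < sw v ⟨(k, l), hlk⟩ i
      rw [b1, b3]
      exact hvlk.trans hvki
    have hz : sw (sw v ⟨(i, k), hki⟩) ⟨(i, l), hli⟩ = sw (sw v ⟨(k, l), hlk⟩) ⟨(i, k), hki⟩ := by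
      refine Equiv.ext fun b => ?_
      by_cases c1 : b = i
      · subst c1
        rw [H6_r, a3, H6_r, b1]
      · by_cases c2 : b = k
        · subst c2
          rw [H6_n _ hli nki nlk.symm, a2, H6_c, b3]
        · by_cases c3 : b = l
          · subst c3
            rw [H6_c, a1, H6_n _ hki nli nlk, b2]
          · rw [H6_n _ hli c1 c3, H6_n _ hki c1 c2, H6_n _ hki c1 c2, H6_n _ hlk c2 c3]
    have hle : sw (sw v ⟨(i, k), hki⟩) ⟨(i, l), hli⟩ ≤ w := by
      rw [le_iff]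
      intro a _ j hj
      rw [rr_sw u1 a hj, rr_sw hp a hj]
      have hA : Act (sw v ⟨(i, k), hki⟩) ⟨(i, l), hli⟩ a j ↔
          (l.val < j ∧ j ≤ i.val ∧ (v l).val < a ∧ a ≤ (v k).val) := by
        show (l.val < j ∧ j ≤ i.val ∧ (sw v ⟨(i, k), hki⟩ l).val < a ∧
          a ≤ (sw v ⟨(i, k), hki⟩ i).val) ↔ _
        rw [a1, a3]
      have h0 := le_def.1 hvw a j
      by_cases h1 : Act v ⟨(i, k), hki⟩ a j
      · have h1' : k.val < j ∧ j ≤ i.val ∧ (v k).val < a ∧ a ≤ (v i).val := h1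
        rw [if_pos h1, if_neg (fun hc => by have := hA.1 hc; omega)]
        have := tp a j h1
        omega
      · rw [if_neg h1]
        by_cases h2 : Act (sw v ⟨(i, k), hki⟩) ⟨(i, l), hli⟩ a j
        · rw [if_pos h2]
          obtain ⟨c1, c2, c3, c4⟩ := hA.1 h2
          by_cases h3 : j ≤ k.val
          · have := tq a j ⟨c1, h3, c3, c4⟩
            omega
          · have h4 : rr w a j ≠ rr v a j := fun hc =>
              hSW ⟨a, j, by show k.val < j; omega, c2, c3, c4, by show a ≤ (v i).val; omega, hc⟩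
            omega
        · rw [if_neg h2]
          omega
    exact ⟨_, ⟨⟨_, u1, rfl⟩, hle⟩, ⟨⟨_, u2, hz⟩, hle⟩⟩

end HQ
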