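import Pool.Agent.LibHQ4.H1

/-!
# Row H6c (MEDIUM): joins and full cosets

Rank functions by `rr_sw` (twice), `≤ w` by `le_iff`, `InT`. Values are given on the three positions in
increasing order.
* `H6c`: same column `k`, rows `i < i'`, `v k < v i' < v i`: `v = (1,3,2)` on `(k,i,i')`: `sw v p = (3,1,2)`,
  `sw v q = (2,3,1)`, `z = (3,2,1)` (exchange `i,i'` resp. `k,i`), `rr z = rr v + [Act v q] + [k < j ≤ i, v i' < a ≤ v i]`.
* `H6d`: same row `i`, columns `k < k'`, `v k' < v k < v i`: `v = (2,1,3)` on `(k,k',i)`: `sw v p = (3,1,2)`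
  (`p = (i,k)`), `sw v q = (2,3,1)` (`q = (i,k')`), `z = (3,2,1)` (exchange `k',i` resp. `k,k'`).
* `H6e`: full coset: `p = (k,l)`, `q = (i,k)`, `r₀ = (i,l)`, `v = (1,2,3)` on `(l,k,i)`: `sw v p = (2,1,3)`,
  `sw v q = (1,3,2)`, `c = (3,1,2)`, `d = (2,3,1)`, `sw v r₀ = (3,2,1)`. Edges: `sw v p → c` (exchange `l,i`),
  `sw v p → d` (`k,i`), `sw v q → c` (`l,k`), `sw v q → d` (`l,i`), `c → sw v r₀` (`k,i`), `d → sw v r₀` (`l,k`).
  `c, d < sw v r₀ ≤ w` (`sw_le_iff`).
-/

set_option autoImplicit false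

namespace HQ

open SH

variable {n : ℕ}

theorem H6c {v w : Equiv.Perm (Fin n)} (hvw : v ≤ w) {p q : Lo n} (hp : Up v p) (hq : Up v q)
    (tp : InT v w p) (tq : InT v w q) (h : p.1.2 = q.1.2) (h1 : p.1.1 < q.1.1)
    (h2 : v q.1.1 < v p.1.1) :
    ∃ z, GCN (Ew w) (sw v p) (sw v q) z := by
  classical
  obtain ⟨⟨i, k⟩, hki⟩ := p
  obtain ⟨⟨i', k'⟩, hki'⟩ := q
  simp only at h h1 h2 hki hki'
  subst h
  have hp' : v k < v i := hp
  have hq' : v k < v i' := hq
  have hr : i < i' := h1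
  set p : Lo n := ⟨(i, k), hki⟩ with hpdef
  set q : Lo n := ⟨(i', k), hki'⟩ with hqdef
  set r : Lo n := ⟨(i', i), hr⟩ with hrdef
  have e1 : sw v p i = v k := sw_apply_row v p
  have e2 : sw v p i' = v i' := sw_apply_of_ne v p (ne_of_gt hr) (ne_of_gt hki')
  have f1 : sw v q k = v i' := sw_apply_col v q
  have f2 : sw v q i = v i := sw_apply_of_ne v q (ne_of_lt hr) (ne_of_gt hki)
  have u1 : Up (sw v p) r := by
    show sw v p i < sw v p i'
    rw [e1, e2]; exact hq'
  have u2 : Up (sw v q) p := by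
    show sw v q k < sw v q i
    rw [f1, f2]; exact h2
  have hz : sw (sw v p) r = sw (sw v q) p := by
    show v * Equiv.swap k i * Equiv.swap i i' = v * Equiv.swap k i' * Equiv.swap k i
    rw [mul_assoc, mul_assoc, Equiv.mul_swap_eq_swap_mul, Equiv.swap_apply_right,
      Equiv.swap_apply_of_ne_of_ne (ne_of_gt hki') (ne_of_gt hr)]
  have hle : sw (sw v p) r ≤ w := by
    rw [le_iff]
    intro a _ j hj
    rw [rr_sw u1 a hj, rr_sw hp a hj]
    have g0 := le_def.1 hvw a j
    have gp : Act v p a j → rr v a j < rr w a j := tp a j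
    have gq : Act v q a j → rr v a j < rr w a j := tq a j
    have g1 : Act (sw v p) r a j → Act v q a j := by
      rintro ⟨a1, a2, a3, a4⟩
      have a1' : i.val < j := a1
      have a2' : j ≤ i'.val := a2
      have a3' : (sw v p i).val < a := a3
      have a4' : a ≤ (sw v p i').val := a4
      rw [e1] at a3'
      rw [e2] at a4'
      have hki'' : k.val < i.val := hki
      exact ⟨show k.val < j by omega, a2', a3', a4'⟩
    have g2 : Act (sw v p) r a j → ¬ Act v p a j := by
      rintro ⟨a1, a2, a3, a4⟩ ⟨b1, b2, b3, b4⟩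
      have a1' : i.val < j := a1
      have b2' : j ≤ i.val := b2
      omega
    by_cases c1 : Act (sw v p) r a j
    · rw [if_pos c1, if_neg (g2 c1)]
      have := gq (g1 c1)
      omega
    · rw [if_neg c1]
      by_cases c2 : Act v p a j
      · rw [if_pos c2]
        have := gp c2
        omega
      · rw [if_neg c2]
        omega
  refine ⟨sw (sw v p) r, ⟨⟨r, u1, rfl⟩, hle⟩, ⟨⟨p, u2, hz⟩, hle⟩⟩

theorem H6d {v w : Equiv.Perm (Fin n)} (hvw : v ≤ w) {p q : Lo n} (hp : Up v p) (hq : Up v q)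
    (tp : InT v w p) (tq : InT v w q) (h : p.1.1 = q.1.1) (h1 : p.1.2 < q.1.2)
    (h2 : v q.1.2 < v p.1.2) :
    ∃ z, GCN (Ew w) (sw v p) (sw v q) z := by
  classical
  obtain ⟨⟨i, k⟩, hki⟩ := p
  obtain ⟨⟨i', k'⟩, hki'⟩ := q
  simp only at h h1 h2 hki hki'
  subst h
  have hp' : v k < v i := hp
  have hq' : v k' < v i := hq
  have hr : k < k' := h1
  set p : Lo n := ⟨(i, k), hki⟩ with hpdef
  set q : Lo n := ⟨(i, k'), hki'⟩ with hqdef
  set r : Lo n := ⟨(k', k), hr⟩ with hrdef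
  have e1 : sw v p i = v k := sw_apply_row v p
  have e2 : sw v p k' = v k' := sw_apply_of_ne v p (ne_of_lt hki') (ne_of_gt hr)
  have f1 : sw v q k' = v i := sw_apply_col v q
  have f2 : sw v q k = v k := sw_apply_of_ne v q (ne_of_lt hki) (ne_of_lt hr)
  have u1 : Up (sw v p) q := by
    show sw v p k' < sw v p i
    rw [e1, e2]; exact h2
  have u2 : Up (sw v q) r := by
    show sw v q k < sw v q k'
    rw [f1, f2]; exact hp'
  have hz : sw (sw v p) q = sw (sw v q) r := by
    show v * Equiv.swap k i * Equiv.swap k' i = v * Equiv.swap k' i * Equiv.swap k k'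
    rw [mul_assoc, mul_assoc, Equiv.mul_swap_eq_swap_mul (Equiv.swap k' i) k k',
      Equiv.swap_apply_left, Equiv.swap_apply_of_ne_of_ne (ne_of_lt hr) (ne_of_lt hki)]
  have hle : sw (sw v p) q ≤ w := by
    rw [le_iff]
    intro a _ j hj
    rw [rr_sw u1 a hj, rr_sw hp a hj]
    have g0 := le_def.1 hvw a j
    have gp : Act v p a j → rr v a j < rr w a j := tp a j
    have gq : Act v q a j → rr v a j < rr w a j := tq a j
    have g1 : Act (sw v p) q a j → Act v q a j := by
      rintro ⟨a1, a2, a3, a4⟩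
      have a3' : (sw v p k').val < a := a3
      have a4' : a ≤ (sw v p i).val := a4
      rw [e2] at a3'
      rw [e1] at a4'
      have hp'' : (v k).val < (v i).val := hp'
      exact ⟨a1, a2, a3', show a ≤ (v i).val by omega⟩
    have g2 : Act (sw v p) q a j → ¬ Act v p a j := by
      rintro ⟨a1, a2, a3, a4⟩ ⟨b1, b2, b3, b4⟩
      have a4' : a ≤ (sw v p i).val := a4
      have b3' : (v k).val < a := b3
      rw [e1] at a4'
      omega
    by_cases c1 : Act (sw v p) q a j
    · rw [if_pos c1, if_neg (g2 c1)]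
      have := gq (g1 c1)
      omega
    · rw [if_neg c1]
      by_cases c2 : Act v p a j
      · rw [if_pos c2]
        have := gp c2
        omega
      · rw [if_neg c2]
        omega
  refine ⟨sw (sw v p) q, ⟨⟨q, u1, rfl⟩, hle⟩, ⟨⟨r, u2, hz⟩, hle⟩⟩

theorem H6e {v w : Equiv.Perm (Fin n)} (hvw : v ≤ w) {p q r₀ : Lo n} (hp : Up v p) (hq : Up v q)
    (h : p.1.1 = q.1.2) (hr : r₀.1 = (q.1.1, p.1.2)) (tr : InT v w r₀) :
    GFull (Ew w) (sw v p) (sw v q) (sw v r₀) := by
  classical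
  obtain ⟨⟨k, l⟩, hlk⟩ := p
  obtain ⟨⟨i, k'⟩, hki⟩ := q
  obtain ⟨rr0, hr0⟩ := r₀
  simp only at h hr hlk hki hr0
  subst h
  subst hr
  have hp' : v l < v k := hp
  have hq' : v k < v i := hq
  have hli : l < i := hr0
  have hvli : v l < v i := hp'.trans hq'
  set p : Lo n := ⟨(k, l), hlk⟩ with hpdef
  set q : Lo n := ⟨(i, k), hki⟩ with hqdef
  set r : Lo n := ⟨(i, l), hr0⟩ with hrdef
  have hrup : Up v r := hvli
  -- values of `x = sw v p`
  have x1 : sw v p l = v k := sw_apply_col v p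
  have x2 : sw v p k = v l := sw_apply_row v p
  have x3 : sw v p i = v i := sw_apply_of_ne v p (ne_of_gt hki) (ne_of_gt hli)
  -- values of `y = sw v q`
  have y1 : sw v q l = v l := sw_apply_of_ne v q (ne_of_lt hli) (ne_of_lt hlk)
  have y2 : sw v q k = v i := sw_apply_col v q
  have y3 : sw v q i = v k := sw_apply_row v q
  -- values of `c = sw x r`, `d = sw x q`
  have c1 : sw (sw v p) r l = v i := (sw_apply_col (sw v p) r).trans x3
  have c2 : sw (sw v p) r k = v l :=
    (sw_apply_of_ne (sw v p) r (ne_of_lt hki) (ne_of_gt hlk)).trans x2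
  have c3 : sw (sw v p) r i = v k := (sw_apply_row (sw v p) r).trans x1
  have d1 : sw (sw v p) q l = v k :=
    (sw_apply_of_ne (sw v p) q (ne_of_lt hli) (ne_of_lt hlk)).trans x1
  have d2 : sw (sw v p) q k = v i := (sw_apply_col (sw v p) q).trans x3
  have d3 : sw (sw v p) q i = v l := (sw_apply_row (sw v p) q).trans x2
  -- the edges
  have uxr : Up (sw v p) r := by
    show sw v p l < sw v p i
    rw [x1, x3]; exact hq'
  have uxq : Up (sw v p) q := by
    show sw v p k < sw v p i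
    rw [x2, x3]; exact hvli
  have uyp : Up (sw v q) p := by
    show sw v q l < sw v q k
    rw [y1, y2]; exact hvli
  have uyr : Up (sw v q) r := by
    show sw v q l < sw v q i
    rw [y1, y3]; exact hp'
  have ucq : Up (sw (sw v p) r) q := by
    show sw (sw v p) r k < sw (sw v p) r i
    rw [c2, c3]; exact hp'
  have udp : Up (sw (sw v p) q) p := by
    show sw (sw v p) q l < sw (sw v p) q k
    rw [d1, d2]; exact hq'
  -- identities
  have m1 : Equiv.swap l k * Equiv.swap l i = Equiv.swap k i * Equiv.swap l k := by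
    rw [Equiv.mul_swap_eq_swap_mul (Equiv.swap l k) l i, Equiv.swap_apply_left,
      Equiv.swap_apply_of_ne_of_ne (ne_of_gt hli) (ne_of_gt hki)]
  have m2 : Equiv.swap k i * Equiv.swap l i = Equiv.swap l k * Equiv.swap k i := by
    rw [Equiv.mul_swap_eq_swap_mul (Equiv.swap k i) l i, Equiv.swap_apply_right,
      Equiv.swap_apply_of_ne_of_ne (ne_of_lt hlk) (ne_of_lt hli)]
  have m3 : Equiv.swap l i * Equiv.swap k i = Equiv.swap l k * Equiv.swap l i := by
    rw [Equiv.mul_swap_eq_swap_mul (Equiv.swap l i) k i, Equiv.swap_apply_right,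
      Equiv.swap_apply_of_ne_of_ne (ne_of_gt hlk) (ne_of_lt hki), Equiv.swap_comm k l]
  have hc : sw (sw v p) r = sw (sw v q) p := by
    show v * Equiv.swap l k * Equiv.swap l i = v * Equiv.swap k i * Equiv.swap l k
    rw [mul_assoc, mul_assoc, m1]
  have hd : sw (sw v p) q = sw (sw v q) r := by
    show v * Equiv.swap l k * Equiv.swap k i = v * Equiv.swap k i * Equiv.swap l i
    rw [mul_assoc, mul_assoc, m2]
  have hcr : sw v r = sw (sw (sw v p) r) q := by
    show v * Equiv.swap l i = v * Equiv.swap l k * Equiv.swap l i * Equiv.swap k i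
    rw [mul_assoc (v * Equiv.swap l k), m3, mul_assoc v, ← mul_assoc (Equiv.swap l k),
      Equiv.swap_mul_self, one_mul]
  have hdr : sw v r = sw (sw (sw v p) q) p := by
    show v * Equiv.swap l i = v * Equiv.swap l k * Equiv.swap k i * Equiv.swap l k
    rw [mul_assoc (v * Equiv.swap l k), ← m1, mul_assoc v, ← mul_assoc (Equiv.swap l k),
      Equiv.swap_mul_self, one_mul]
  have hrw : sw v r ≤ w := (sw_le_iff hvw hrup).2 tr
  have hcw : sw (sw v p) r ≤ w := by
    have h1 := (lt_sw ucq).le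
    rw [← hcr] at h1
    exact h1.trans hrw
  have hdw : sw (sw v p) q ≤ w := by
    have h1 := (lt_sw udp).le
    rw [← hdr] at h1
    exact h1.trans hrw
  refine ⟨fun hxy => ?_, sw (sw v p) r, sw (sw v p) q, fun hcd => ?_,
    ⟨⟨⟨r, uxr, rfl⟩, hcw⟩, ⟨⟨p, uyp, hc⟩, hcw⟩⟩, ⟨⟨⟨q, uxq, rfl⟩, hdw⟩, ⟨⟨r, uyr, hd⟩, hdw⟩⟩,
    ⟨⟨q, ucq, hcr⟩, hrw⟩, ⟨⟨p, udp, hdr⟩, hrw⟩⟩
  · have h1 := congrArg (fun s : Equiv.Perm (Fin n) => s l) hxy
    simp only [x1, y1] at h1
    exact absurd h1 (ne_of_gt hp')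
  · have h1 := congrArg (fun s : Equiv.Perm (Fin n) => s l) hcd
    simp only [c1, d1] at h1
    exact absurd h1 (ne_of_gt hq')

end HQ
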