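import Pool.Agent.LibHQ4.H2
import Pool.Agent.LibHQ4.H3

/-!
# Row H7 (MEDIUM): `Bad` implies `GBad`

`Bad v w p q` is symmetric in `p, q` (prove it, private), so is `GBad (Ew w) v` up to the order (for the last
part both orders are needed anyway). `Up v p`, `Up v q`: from `Act.up` (BadD) or from the boxes (BadC: SW gives
`v l < v k`, NE gives `v k < v i`). `p ≠ q`; `sw_injective`. `Ew w v (sw v p)` by `sw_le_iff`.
No common out-neighbour `z` (with `z ≤ w`, so `rr z a j ≤ rr w a j` by `le_def`): BadD: `H3a` at the box;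
BadC: `H3b` at the SW box or the NE box.
Not full: `GFull (Ew w) (sw v p) r (sw v q)` with `Ew w v r`: `H2` with `x := v`, `a := sw v p`, `b := r`,
`y := sw v q`: `q = r₀ = (i,l)` and `p = (k,l)` or `(i,k)` (`sw_injective`), `l < k < i`: `p, q` have the same column or
the same row and are no chain: contradiction to `Bad`. The same for `GFull (Ew w) (sw v q) r (sw v p)`.
-/

set_option autoImplicit false

namespace HQ

open SH

variable {n : ℕ}

private theorem H7_symm {v w : Equiv.Perm (Fin n)} {p q : Lo n} (h : Bad v w p q) :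
    Bad v w q p := by
  obtain ⟨h1, h2, h3⟩ := h
  refine ⟨h2, h1, ?_⟩
  rcases h3 with h3 | h3 | h3
  · obtain ⟨e1, e2, e3, e4, a, j, e5, e6, e7⟩ := h3
    exact Or.inl ⟨e1.symm, e2.symm, e4.symm, e3.symm, a, j, e6, e5, e7⟩
  · exact Or.inr (Or.inr h3)
  · exact Or.inr (Or.inl h3)

private theorem H7_upC {v w : Equiv.Perm (Fin n)} {p q : Lo n} (h : BadC v w p q) :
    Up v p ∧ Up v q := by
  obtain ⟨h0, ⟨a, j, h1⟩, ⟨a', j', h2⟩⟩ := h
  obtain ⟨e1, e2, e3, e4, e5, e6⟩ := h1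
  obtain ⟨f1, f2, f3, f4, f5, f6⟩ := h2
  refine ⟨?_, ?_⟩
  · show (v p.1.2).val < (v p.1.1).val
    omega
  · show (v q.1.2).val < (v q.1.1).val
    rw [← h0]
    omega

private theorem H7_up {v w : Equiv.Perm (Fin n)} {p q : Lo n} (h : Bad v w p q) :
    Up v p ∧ Up v q := by
  obtain ⟨-, -, h3⟩ := h
  rcases h3 with h3 | h3 | h3
  · obtain ⟨-, -, -, -, a, j, e5, e6, -⟩ := h3
    exact ⟨e5.up, e6.up⟩
  · exact H7_upC h3
  · exact (H7_upC h3).symm

private theorem H7_ne {v w : Equiv.Perm (Fin n)} {p q : Lo n} (h : Bad v w p q) : p ≠ q := by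
  rintro rfl
  obtain ⟨-, -, h3⟩ := h
  have hp := lo_lt p
  rcases h3 with h3 | h3 | h3
  · exact h3.1 rfl
  · have h4 := congrArg Fin.val h3.1
    omega
  · have h4 := congrArg Fin.val h3.1
    omega

private theorem H7_cnC {v w z : Equiv.Perm (Fin n)} {p q : Lo n} (h : BadC v w p q)
    (h1 : Edge (sw v p) z) (h2 : Edge (sw v q) z) (hz : z ≤ w) : False := by
  obtain ⟨hp, hq⟩ := H7_upC h
  obtain ⟨h0, ⟨a, j, g1⟩, ⟨a', j', g2⟩⟩ := h
  obtain ⟨e1, e2, e3, e4, e5, e6⟩ := g1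
  obtain ⟨f1, f2, f3, f4, f5, f6⟩ := g2
  rcases H3b hp hq h0 h1 h2 with h3 | h3
  · have h4 := h3 a j e1 e2 e3 e4
    have h5 := le_def.1 hz a j
    omega
  · have h4 := h3 a' j' f1 f2 f3 f4
    have h5 := le_def.1 hz a' j'
    omega

private theorem H7_cn {v w z : Equiv.Perm (Fin n)} {p q : Lo n} (h : Bad v w p q)
    (h1 : Edge (sw v p) z) (h2 : Edge (sw v q) z) (hz : z ≤ w) : False := by
  obtain ⟨hp, hq⟩ := H7_up h
  obtain ⟨-, -, h3⟩ := h
  rcases h3 with h3 | h3 | h3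
  · obtain ⟨e1, e2, e3, e4, a, j, e5, e6, e7⟩ := h3
    have h4 := H3a hp hq e1 e2 e3 e4 h1 h2 e5 e6
    have h5 := le_def.1 hz a j
    omega
  · exact H7_cnC h3 h1 h2 hz
  · exact H7_cnC h3 h2 h1 hz

private theorem H7_full {v w : Equiv.Perm (Fin n)} {p q : Lo n} (h : Bad v w p q)
    (r : Equiv.Perm (Fin n)) (hr : Ew w v r) : ¬ GFull (Ew w) (sw v p) r (sw v q) := by
  rintro ⟨hne, c, d, hcd, ⟨h1, h2⟩, ⟨h3, h4⟩, h5, h6⟩
  obtain ⟨hp, hq⟩ := H7_up h
  obtain ⟨p', q', r₀, e1, e2, -, -, e3, e4⟩ := H2 hne hcd ⟨p, hp, rfl⟩ hr.1 h1.1 h2.1 h3.1 h4.1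
    h5.1 h6.1
  have hq0 : q = r₀ := sw_injective v e4
  have a1 := lo_lt p'
  have a2 := lo_lt q'
  have e1' := congrArg Fin.val e1
  have r1 : q.1.1 = q'.1.1 := by rw [hq0, e2]
  have r2 : q.1.2 = p'.1.2 := by rw [hq0, e2]
  have r1' := congrArg Fin.val r1
  have r2' := congrArg Fin.val r2
  obtain ⟨-, -, hb⟩ := h
  rcases e3 with ⟨e3, -⟩ | ⟨e3, -⟩
  · have hpp : p = p' := sw_injective v e3
    subst hpp
    rcases hb with hb | hb | hb
    · exact hb.2.1 r2.symm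
    · have h7 := congrArg Fin.val hb.1
      omega
    · have h7 := congrArg Fin.val hb.1
      omega
  · have hpp : p = q' := sw_injective v e3
    subst hpp
    rcases hb with hb | hb | hb
    · exact hb.1 r1.symm
    · have h7 := congrArg Fin.val hb.1
      omega
    · have h7 := congrArg Fin.val hb.1
      omega

theorem H7 {v w : Equiv.Perm (Fin n)} (hvw : v ≤ w) {p q : Lo n} (h : Bad v w p q) :
    Up v p ∧ Up v q ∧ GBad (Ew w) v (sw v p) (sw v q) := by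
  obtain ⟨hp, hq⟩ := H7_up h
  refine ⟨hp, hq, fun he => H7_ne h (sw_injective v he), ⟨⟨p, hp, rfl⟩, (sw_le_iff hvw hp).2 h.1⟩,
    ⟨⟨q, hq, rfl⟩, (sw_le_iff hvw hq).2 h.2.1⟩, ?_, fun r hr => ⟨H7_full h r hr, H7_full (H7_symm h) r hr⟩⟩
  rintro ⟨z, h1, h2⟩
  exact H7_cn h h1.1 h2.1 h1.2

end HQ
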