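import Pool.Agent.LibHQ4.H6
import Pool.Agent.LibHQ4.H6c

/-!
# Row H8 (MEDIUM): `GBad` implies `Bad`

`p ≠ q`. Suppose `¬ Bad v w p q`. Cases:
* all four positions different: `¬ BadD`, `H6a`: a common out-neighbour, contradiction.
* `p.1.2 = q.1.1` (chain): `¬ BadC v w p q`: `H6b`. `q.1.2 = p.1.1`: `H6b` for `(q,p)` (`GCN` is symmetric).
* same column, rows `i ≠ i'`, say `i < i'` (otherwise exchange `p, q`): if `v i' < v i`: `H6c`. If `v i < v i'`:
  `r = (i',i)`: `H6e` with `p := (i,k)`, `q := (i',i)`, `r₀ := (i',k)`: `GFull (sw v (i,k)) (sw v (i',i)) (sw v (i',k))`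
  contradicts the last part of `GBad` (`Ew w v (sw v (i',i))`: its rectangle is contained in that of `(i',k)`).
* same row, columns `k ≠ k'`, say `k < k'`: if `v k' < v k`: `H6d`. If `v k < v k'`: `r = (k',k)`: `H6e` with
  `p := (k',k)`, `q := (i,k')`, `r₀ := (i,k)`; `GFull` is symmetric in the first two arguments (prove it).
-/

set_option autoImplicit false

namespace HQ

open SH

variable {n : ℕ}

private theorem H8_gcn {α : Type} {E : α → α → Prop} {x y z : α} (h : GCN E x y z) :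
    GCN E y x z := ⟨h.2, h.1⟩

private theorem H8_full {α : Type} {E : α → α → Prop} {x y r : α} (h : GFull E x y r) :
    GFull E y x r := by
  obtain ⟨h1, c, d, h2, h3, h4, h5, h6⟩ := h
  exact ⟨h1.symm, c, d, h2, H8_gcn h3, H8_gcn h4, h5, h6⟩

private theorem H8_col {v w : Equiv.Perm (Fin n)} (hvw : v ≤ w) {p q : Lo n} (hp : Up v p)
    (hq : Up v q) (tp : InT v w p) (tq : InT v w q) (h : p.1.2 = q.1.2) (h1 : p.1.1 < q.1.1) :
    (∃ z, GCN (Ew w) (sw v p) (sw v q) z) ∨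
      ∃ r, Ew w v r ∧ GFull (Ew w) (sw v p) r (sw v q) := by
  by_cases h2 : v q.1.1 < v p.1.1
  · exact Or.inl (H6c hvw hp hq tp tq h h1 h2)
  · right
    have h3 : v p.1.1 < v q.1.1 := lt_of_le_of_ne (not_lt.1 h2) fun h4 =>
      absurd (v.injective h4) (ne_of_lt h1)
    let r : Lo n := ⟨(q.1.1, p.1.1), h1⟩
    have hr : Up v r := h3
    have tr : InT v w r := by
      intro a j ha
      apply tq
      obtain ⟨h4, h5, h6, h7⟩ := ha
      have h8 := lo_lt p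
      have h9 : (v p.1.2).val < (v p.1.1).val := hp
      have h4' : p.1.1.val < j := h4
      have h6' : (v p.1.1).val < a := h6
      refine ⟨?_, h5, ?_, h7⟩
      · rw [← h]; omega
      · rw [← h]; omega
    exact ⟨sw v r, (ew_iff hvw).2 ⟨r, hr, tr, rfl⟩,
      H6e hvw hp hr rfl (Prod.ext rfl h.symm) tq⟩

private theorem H8_row {v w : Equiv.Perm (Fin n)} (hvw : v ≤ w) {p q : Lo n} (hp : Up v p)
    (hq : Up v q) (tp : InT v w p) (tq : InT v w q) (h : p.1.1 = q.1.1) (h1 : p.1.2 < q.1.2) :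
    (∃ z, GCN (Ew w) (sw v p) (sw v q) z) ∨
      ∃ r, Ew w v r ∧ GFull (Ew w) (sw v q) r (sw v p) := by
  by_cases h2 : v q.1.2 < v p.1.2
  · exact Or.inl (H6d hvw hp hq tp tq h h1 h2)
  · right
    have h3 : v p.1.2 < v q.1.2 := lt_of_le_of_ne (not_lt.1 h2) fun h4 =>
      absurd (v.injective h4) (ne_of_lt h1)
    let r : Lo n := ⟨(q.1.2, p.1.2), h1⟩
    have hr : Up v r := h3
    have tr : InT v w r := by
      intro a j ha
      apply tp
      obtain ⟨h4, h5, h6, h7⟩ := ha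
      have h8 := lo_lt q
      have h9 : (v q.1.2).val < (v q.1.1).val := hq
      have h5' : j ≤ q.1.2.val := h5
      have h7' : a ≤ (v q.1.2).val := h7
      refine ⟨h4, ?_, h6, ?_⟩
      · rw [h]; omega
      · rw [h]; omega
    exact ⟨sw v r, (ew_iff hvw).2 ⟨r, hr, tr, rfl⟩,
      H8_full (H6e hvw hr hq rfl (Prod.ext h rfl) tp)⟩

theorem H8 {v w : Equiv.Perm (Fin n)} (hvw : v ≤ w) {p q : Lo n} (hp : Up v p) (hq : Up v q)
    (tp : InT v w p) (tq : InT v w q) (h : GBad (Ew w) v (sw v p) (sw v q)) : Bad v w p q := by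
  by_contra hb
  have hb1 : ¬ BadD v w p q := fun h1 => hb ⟨tp, tq, Or.inl h1⟩
  have hb2 : ¬ BadC v w p q := fun h1 => hb ⟨tp, tq, Or.inr (Or.inl h1)⟩
  have hb3 : ¬ BadC v w q p := fun h1 => hb ⟨tp, tq, Or.inr (Or.inr h1)⟩
  obtain ⟨hne, -, -, hz, hr⟩ := h
  have hpq : p ≠ q := fun h1 => hne (by rw [h1])
  by_cases d4 : p.1.2 = q.1.1
  · exact hz (H6b hvw hp hq tp tq d4 hb2)
  by_cases d3 : p.1.1 = q.1.2
  · obtain ⟨z, h1⟩ := H6b hvw hq hp tq tp d3.symm hb3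
    exact hz ⟨z, H8_gcn h1⟩
  by_cases d2 : p.1.2 = q.1.2
  · have h1 : p.1.1 ≠ q.1.1 := fun h2 => hpq (Subtype.ext (Prod.ext h2 d2))
    rcases lt_or_gt_of_ne h1 with h2 | h2
    · rcases H8_col hvw hp hq tp tq d2 h2 with h3 | ⟨r, h3, h4⟩
      · exact hz h3
      · exact (hr r h3).1 h4
    · rcases H8_col hvw hq hp tq tp d2.symm h2 with ⟨z, h3⟩ | ⟨r, h3, h4⟩
      · exact hz ⟨z, H8_gcn h3⟩
      · exact (hr r h3).2 h4
  by_cases d1 : p.1.1 = q.1.1
  · rcases lt_or_gt_of_ne d2 with h2 | h2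
    · rcases H8_row hvw hp hq tp tq d1 h2 with h3 | ⟨r, h3, h4⟩
      · exact hz h3
      · exact (hr r h3).2 h4
    · rcases H8_row hvw hq hp tq tp d1.symm h2 with ⟨z, h3⟩ | ⟨r, h3, h4⟩
      · exact hz ⟨z, H8_gcn h3⟩
      · exact (hr r h3).1 h4
  exact hz (H6a hvw hp hq tp tq d1 d2 d3 d4 hb1)

end HQ
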