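import Pool.Agent.LibHQ4.H6c

/-!
# Row H9 (MEDIUM/STRONG): same label implies linked, disjoint type

`p = (i,k)`, `q = (i',k')`, `p' = (i,k')`, `q' = (i',k)`, all `Up` and in `T`, `i ≠ i'`, `k ≠ k'`
(`k, k' < i, i'` since the four are in `Lo n`; values `v k, v k' < v i, v i'`). The four are different
(`sw_injective`). By symmetry (exchange `p ↔ q`, `p' ↔ q'`: `GLk x y x' y' ↔ GLk y x y' x'`) assume `k < k'`.
* `v k < v k'`: `s = (k',k)` (`Up`; in `T` because its rectangle is contained in that of `(i,k)`). `H6e`: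
  `GFull (sw s) (sw (i,k')) (sw (i,k))` and `GFull (sw s) (sw (i',k')) (sw (i',k))`, i.e. (symmetry of `GFull` in
  the first two) `GFull q s q'` and `GFull p' s p`: this is `GL1 q p q' p'` (`GL1 x y x' y' = ∃ s, .. GFull x s x' ∧
  GFull y' s y`).
* `v k' < v k` and rows comparable, `i < i'`, `v i < v i'`: `s = (i',i)`: `GFull p s q'` (`(i,k), (i',i); (i',k)`) and
  `GFull p' s q`: this is `GL1 p q q' p'`. `i' < i`, `v i' < v i`: `s = (i,i')`: `GFull q s p'` (`(i',k'), (i,i'); (i,k')`)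
  and `GFull q' s p`: `GL1 q p p' q'`.
* `v k' < v k` and rows not comparable. `i < i'`, `v i' < v i`: positions `(k,k',i,i')`, `v = (2,1,4,3)`:
  `sw p = (4,1,2,3)`, `sw q = (2,3,4,1)`, `sw p' = (2,4,1,3)`, `sw q' = (3,1,4,2)`, `u1 = (4,2,1,3)` (from `p, p'`),
  `u2 = (4,1,3,2)` (from `p, q'`), `u3 = (2,4,3,1)` (from `q, p'`), `u4 = (3,2,4,1)` (from `q, q'`), `z = (4,2,3,1)`.
  All are `≤ z`, and `z ≤ w`: `rr z` = `rr v` + sum of three disjoint rectangles (`rr_sw` along `v → sw p → u1 → z`: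
  exchanges `(k,i)`, `(k',i)`, `(i,i')`), each contained in the rectangle of one of the four.
  `i' < i`, `v i < v i'`: exchange the names `i ↔ i'` (`p ↔ q'`, `q ↔ p'`: `GL2` is symmetric under this).
-/

set_option autoImplicit false

namespace HQ

open SH

variable {n : ℕ}

private theorem H9_full_symm {α : Type} {E : α → α → Prop} {x y r : α} (h : GFull E x y r) :
    GFull E y x r := by
  obtain ⟨h1, c, d, h2, ⟨h3, h4⟩, ⟨h5, h6⟩, h7, h8⟩ := h
  exact ⟨h1.symm, c, d, h2, ⟨h4, h3⟩, ⟨h6, h5⟩, h7, h8⟩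

private theorem H9_gl2_symm1 {α : Type} {E : α → α → Prop} {x y x' y' : α}
    (h : GL2 E x y x' y') : GL2 E y x y' x' := by
  obtain ⟨u1, u2, u3, u4, z, h1, h2, h3, h4, h5, h6, h7, h8⟩ := h
  exact ⟨u4, u3, u2, u1, z, h4, h3, h2, h1, h8, h7, h6, h5⟩

private theorem H9_gl2_symm2 {α : Type} {E : α → α → Prop} {x y x' y' : α}
    (h : GL2 E y' x' y x) : GL2 E x y x' y' := by
  obtain ⟨u1, u2, u3, u4, z, h1, h2, h3, h4, h5, h6, h7, h8⟩ := h
  exact ⟨u4, u2, u3, u1, z, h4.symm, h2.symm, h3.symm, h1.symm, h8, h6, h7, h5⟩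

private theorem H9_glk_symm {α : Type} {E : α → α → Prop} {o x y x' y' : α}
    (h : GLk E o x y x' y') : GLk E o y x y' x' := by
  obtain ⟨h1, h2, h3, h4, h5⟩ := h
  refine ⟨h4, h3, h2, h1, ?_⟩
  rcases h5 with h5 | h5 | h5 | h5 | h5
  · exact Or.inr (Or.inr (Or.inr (Or.inl h5)))
  · exact Or.inr (Or.inr (Or.inl h5))
  · exact Or.inr (Or.inl h5)
  · exact Or.inl h5
  · exact Or.inr (Or.inr (Or.inr (Or.inr (H9_gl2_symm1 h5))))

private theorem H9_sw4 {T : Type} [DecidableEq T] (v : Equiv.Perm T) {a b c d : T} (hab : a ≠ b)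
    (hac : a ≠ c) (had : a ≠ d) (hbc : b ≠ c) (hbd : b ≠ d) (hcd : c ≠ d) :
    v * Equiv.swap a c * Equiv.swap b c = v * Equiv.swap b c * Equiv.swap a b ∧
    v * Equiv.swap a c * Equiv.swap c d = v * Equiv.swap a d * Equiv.swap a c ∧
    v * Equiv.swap b d * Equiv.swap b c = v * Equiv.swap b c * Equiv.swap c d ∧
    v * Equiv.swap b d * Equiv.swap a b = v * Equiv.swap a d * Equiv.swap b d ∧
    v * Equiv.swap a c * Equiv.swap c d * Equiv.swap b d =
      v * Equiv.swap a c * Equiv.swap b c * Equiv.swap c d ∧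
    v * Equiv.swap b d * Equiv.swap b c * Equiv.swap a b =
      v * Equiv.swap a c * Equiv.swap b c * Equiv.swap c d ∧
    v * Equiv.swap b d * Equiv.swap a b * Equiv.swap a c =
      v * Equiv.swap a c * Equiv.swap b c * Equiv.swap c d := by
  have key : ∀ x : T, x = a ∨ x = b ∨ x = c ∨ x = d ∨ (x ≠ a ∧ x ≠ b ∧ x ≠ c ∧ x ≠ d) := by
    intro x
    by_cases h1 : x = a
    · exact Or.inl h1
    by_cases h2 : x = b
    · exact Or.inr (Or.inl h2)
    by_cases h3 : x = c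
    · exact Or.inr (Or.inr (Or.inl h3))
    by_cases h4 : x = d
    · exact Or.inr (Or.inr (Or.inr (Or.inl h4)))
    exact Or.inr (Or.inr (Or.inr (Or.inr ⟨h1, h2, h3, h4⟩)))
  refine ⟨?_, ?_, ?_, ?_, ?_, ?_, ?_⟩ <;>
  · refine Equiv.ext fun x => ?_
    simp only [Equiv.Perm.mul_apply]
    congr 1
    rcases key x with rfl | rfl | rfl | rfl | ⟨h1, h2, h3, h4⟩ <;>
      simp [Equiv.swap_apply_def, *, Ne.symm hab, Ne.symm hac, Ne.symm had, Ne.symm hbc,
        Ne.symm hbd, Ne.symm hcd]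

private theorem H9_gl2 {v w : Equiv.Perm (Fin n)} (hvw : v ≤ w) {k k' i i' : Fin n}
    (hkk : k < k') (hii : i < i') (h1 : k < i) (h2 : k' < i') (h3 : k' < i) (h4 : k < i')
    (vk : v k' < v k) (vi : v i' < v i)
    (hp : v k < v i) (hq : v k' < v i') (hp' : v k' < v i) (hq' : v k < v i')
    (tp : InT v w ⟨(i, k), h1⟩) (tq : InT v w ⟨(i', k'), h2⟩) (tp' : InT v w ⟨(i, k'), h3⟩)
    (tq' : InT v w ⟨(i', k), h4⟩) :
    GL2 (Ew w) (sw v ⟨(i, k), h1⟩) (sw v ⟨(i', k'), h2⟩) (sw v ⟨(i, k'), h3⟩)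
      (sw v ⟨(i', k), h4⟩) := by
  classical
  set p : Lo n := ⟨(i, k), h1⟩ with ep
  set q : Lo n := ⟨(i', k'), h2⟩ with eq
  set p' : Lo n := ⟨(i, k'), h3⟩ with ep'
  set q' : Lo n := ⟨(i', k), h4⟩ with eq'
  set s1 : Lo n := ⟨(k', k), hkk⟩ with es1
  set s2 : Lo n := ⟨(i', i), hii⟩ with es2
  have nkk : k ≠ k' := hkk.ne
  have nki : k ≠ i := h1.ne
  have nki' : k ≠ i' := h4.ne
  have nk'i : k' ≠ i := h3.ne
  have nk'i' : k' ≠ i' := h2.ne
  have nii : i ≠ i' := hii.ne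
  obtain ⟨e1, e2, e3, e4, e5, e6, e7⟩ := H9_sw4 v nkk nki nki' nk'i nk'i' nii
  have d : ∀ (x : Equiv.Perm (Fin n)) (r : Lo n), sw x r = x * Equiv.swap r.1.2 r.1.1 :=
    fun _ _ => rfl
  -- the four middle elements
  have U1 : sw (sw v p) p' = sw (sw v p') s1 := e1
  have U2 : sw (sw v p) s2 = sw (sw v q') p := e2
  have U3 : sw (sw v q) p' = sw (sw v p') s2 := e3
  have U4 : sw (sw v q) s1 = sw (sw v q') q := e4
  have Z2 : sw (sw (sw v p) s2) q = sw (sw (sw v p) p') s2 := e5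
  have Z3 : sw (sw (sw v q) p') s1 = sw (sw (sw v p) p') s2 := e6
  have Z4 : sw (sw (sw v q) s1) p = sw (sw (sw v p) p') s2 := e7
  -- values
  have ap : ∀ (x : Equiv.Perm (Fin n)) (r : Lo n), sw x r r.1.1 = x r.1.2 := sw_apply_row
  have ac : ∀ (x : Equiv.Perm (Fin n)) (r : Lo n), sw x r r.1.2 = x r.1.1 := sw_apply_col
  have pk : sw v p k = v i := ac v p
  have pi : sw v p i = v k := ap v p
  have pk' : sw v p k' = v k' := sw_apply_of_ne v p nk'i nkk.symm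
  have pi' : sw v p i' = v i' := sw_apply_of_ne v p nii.symm nki'.symm
  have qk' : sw v q k' = v i' := ac v q
  have qi' : sw v q i' = v k' := ap v q
  have qk : sw v q k = v k := sw_apply_of_ne v q nki' nkk
  have qi : sw v q i = v i := sw_apply_of_ne v q nii nk'i.symm
  have p'k' : sw v p' k' = v i := ac v p'
  have p'i : sw v p' i = v k' := ap v p'
  have p'k : sw v p' k = v k := sw_apply_of_ne v p' nki nkk
  have p'i' : sw v p' i' = v i' := sw_apply_of_ne v p' nii.symm nk'i'.symm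
  have q'k : sw v q' k = v i' := ac v q'
  have q'i' : sw v q' i' = v k := ap v q'
  have q'k' : sw v q' k' = v k' := sw_apply_of_ne v q' nk'i' nkk.symm
  have q'i : sw v q' i = v i := sw_apply_of_ne v q' nii nki.symm
  -- edges from the four to the middle elements
  have E11 : Up (sw v p) p' := by
    show sw v p k' < sw v p i
    rw [pk', pi]; exact vk
  have E12 : Up (sw v p') s1 := by
    show sw v p' k < sw v p' k'
    rw [p'k, p'k']; exact hp
  have E21 : Up (sw v p) s2 := by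
    show sw v p i < sw v p i'
    rw [pi, pi']; exact hq'
  have E22 : Up (sw v q') p := by
    show sw v q' k < sw v q' i
    rw [q'k, q'i]; exact vi
  have E31 : Up (sw v q) p' := by
    show sw v q k' < sw v q i
    rw [qk', qi]; exact vi
  have E32 : Up (sw v p') s2 := by
    show sw v p' i < sw v p' i'
    rw [p'i, p'i']; exact hq
  have E41 : Up (sw v q) s1 := by
    show sw v q k < sw v q k'
    rw [qk, qk']; exact hq'
  have E42 : Up (sw v q') q := by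
    show sw v q' k' < sw v q' i'
    rw [q'k', q'i']; exact vk
  -- edges to z
  have F1 : Up (sw (sw v p) p') s2 := by
    show sw (sw v p) p' i < sw (sw v p) p' i'
    have a1 : sw (sw v p) p' i = sw v p k' := ap (sw v p) p'
    have a2 : sw (sw v p) p' i' = sw v p i' := sw_apply_of_ne _ p' nii.symm nk'i'.symm
    rw [a1, a2, pk', pi']; exact hq
  have F2 : Up (sw (sw v p) s2) q := by
    show sw (sw v p) s2 k' < sw (sw v p) s2 i'
    have a1 : sw (sw v p) s2 i' = sw v p i := ap (sw v p) s2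
    have a2 : sw (sw v p) s2 k' = sw v p k' := sw_apply_of_ne _ s2 nk'i' nk'i
    rw [a1, a2, pk', pi]; exact vk
  have F3 : Up (sw (sw v q) p') s1 := by
    show sw (sw v q) p' k < sw (sw v q) p' k'
    have a1 : sw (sw v q) p' k' = sw v q i := ac (sw v q) p'
    have a2 : sw (sw v q) p' k = sw v q k := sw_apply_of_ne _ p' nki nkk
    rw [a1, a2, qk, qi]; exact hp
  have F4 : Up (sw (sw v q) s1) p := by
    show sw (sw v q) s1 k < sw (sw v q) s1 i
    have a1 : sw (sw v q) s1 k = sw v q k' := ac (sw v q) s1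
    have a2 : sw (sw v q) s1 i = sw v q i := sw_apply_of_ne _ s1 nk'i.symm nki.symm
    rw [a1, a2, qk', qi]; exact vi
  set z := sw (sw (sw v p) p') s2 with ez
  have hzw : z ≤ w := by
    rw [le_iff]
    intro a _ j hj
    have r1 := rr_sw (v := v) (p := p) hp a hj
    have r2 := rr_sw E11 a hj
    have r3 := rr_sw F1 a hj
    rw [ez, r3, r2, r1]
    have b0 := le_def.1 hvw a j
    have A1 : Act v p a j ↔ (k.val < j ∧ j ≤ i.val ∧ (v k).val < a ∧ a ≤ (v i).val) := Iff.rfl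
    have A2 : Act (sw v p) p' a j ↔
        (k'.val < j ∧ j ≤ i.val ∧ (v k').val < a ∧ a ≤ (v k).val) := by
      show (k'.val < j ∧ j ≤ i.val ∧ (sw v p k').val < a ∧ a ≤ (sw v p i).val) ↔ _
      rw [pk', pi]
    have A3 : Act (sw (sw v p) p') s2 a j ↔
        (i.val < j ∧ j ≤ i'.val ∧ (v k').val < a ∧ a ≤ (v i').val) := by
      show (i.val < j ∧ j ≤ i'.val ∧ (sw (sw v p) p' i).val < a ∧
        a ≤ (sw (sw v p) p' i').val) ↔ _
      have a1 : sw (sw v p) p' i = sw v p k' := ap (sw v p) p'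
      have a2 : sw (sw v p) p' i' = sw v p i' := sw_apply_of_ne _ p' nii.symm nk'i'.symm
      rw [a1, a2, pk', pi']
    have B1 : Act v p a j → rr v a j < rr w a j := tp a j
    have B2 : Act v p' a j → rr v a j < rr w a j := tp' a j
    have B3 : Act v q a j → rr v a j < rr w a j := tq a j
    have C2 : Act v p' a j ↔ (k'.val < j ∧ j ≤ i.val ∧ (v k').val < a ∧ a ≤ (v i).val) := Iff.rfl
    have C3 : Act v q a j ↔ (k'.val < j ∧ j ≤ i'.val ∧ (v k').val < a ∧ a ≤ (v i').val) :=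
      Iff.rfl
    have n1 : k.val < k'.val := hkk
    have n2 : i.val < i'.val := hii
    have n3 : (v k').val < (v k).val := vk
    have n4 : (v i').val < (v i).val := vi
    have n5 : (v k).val < (v i').val := hq'
    have n6 : k'.val < i.val := h3
    by_cases c1 : Act v p a j
    · rw [if_pos c1]
      have := B1 c1
      rw [A1] at c1
      rw [if_neg (by rw [A2]; omega), if_neg (by rw [A3]; omega)]
      omega
    · rw [if_neg c1]
      by_cases c2 : Act (sw v p) p' a j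
      · rw [if_pos c2]
        rw [A2] at c2
        have := B2 (by rw [C2]; omega)
        rw [if_neg (by rw [A3]; omega)]
        omega
      · rw [if_neg c2]
        by_cases c3 : Act (sw (sw v p) p') s2 a j
        · rw [if_pos c3]
          rw [A3] at c3
          have := B3 (by rw [C3]; omega)
          omega
        · rw [if_neg c3]
          omega
  have hz1 : Edge (sw (sw v p) p') z := ⟨s2, F1, rfl⟩
  have hz2 : Edge (sw (sw v p) s2) z := ⟨q, F2, Z2.symm⟩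
  have hz3 : Edge (sw (sw v q) p') z := ⟨s1, F3, Z3.symm⟩
  have hz4 : Edge (sw (sw v q) s1) z := ⟨p, F4, Z4.symm⟩
  refine ⟨sw (sw v p) p', sw (sw v p) s2, sw (sw v q) p', sw (sw v q) s1, z,
    ⟨⟨⟨p', E11, rfl⟩, hz1.lt.le.trans hzw⟩, ⟨⟨s1, E12, U1⟩, hz1.lt.le.trans hzw⟩⟩,
    ⟨⟨⟨s2, E21, rfl⟩, hz2.lt.le.trans hzw⟩, ⟨⟨p, E22, U2⟩, hz2.lt.le.trans hzw⟩⟩,
    ⟨⟨⟨p', E31, rfl⟩, hz3.lt.le.trans hzw⟩, ⟨⟨s2, E32, U3⟩, hz3.lt.le.trans hzw⟩⟩,
    ⟨⟨⟨s1, E41, rfl⟩, hz4.lt.le.trans hzw⟩, ⟨⟨q, E42, U4⟩, hz4.lt.le.trans hzw⟩⟩,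
    ⟨hz1, hzw⟩, ⟨hz2, hzw⟩, ⟨hz3, hzw⟩, ⟨hz4, hzw⟩⟩

private theorem H9_core {v w : Equiv.Perm (Fin n)} (hvw : v ≤ w) {k k' i i' : Fin n}
    (hkk : k < k') (hii : i ≠ i') (h1 : k < i) (h2 : k' < i') (h3 : k' < i) (h4 : k < i')
    (hp : v k < v i) (hq : v k' < v i') (hp' : v k' < v i) (hq' : v k < v i')
    (tp : InT v w ⟨(i, k), h1⟩) (tq : InT v w ⟨(i', k'), h2⟩) (tp' : InT v w ⟨(i, k'), h3⟩)
    (tq' : InT v w ⟨(i', k), h4⟩) :
    GLk (Ew w) v (sw v ⟨(i, k), h1⟩) (sw v ⟨(i', k'), h2⟩) (sw v ⟨(i, k'), h3⟩)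
      (sw v ⟨(i', k), h4⟩) := by
  refine ⟨fun h => ?_, fun h => ?_, fun h => ?_, fun h => ?_, ?_⟩
  · have := congrArg (fun r : Lo n => r.1.2) (sw_injective v h)
    exact hkk.ne this
  · have := congrArg (fun r : Lo n => r.1.1) (sw_injective v h)
    exact hii this
  · have := congrArg (fun r : Lo n => r.1.1) (sw_injective v h)
    exact hii this.symm
  · have := congrArg (fun r : Lo n => r.1.2) (sw_injective v h)
    exact hkk.ne this.symm
  have n1 : k.val < k'.val := hkk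
  have n3 : (v k).val < (v i).val := hp
  have n4 : (v k').val < (v i').val := hq
  have n5 : (v k').val < (v i).val := hp'
  have n6 : (v k).val < (v i').val := hq'
  have m1 : k.val < i.val := h1
  have m2 : k'.val < i'.val := h2
  have m3 : k'.val < i.val := h3
  have m4 : k.val < i'.val := h4
  rcases lt_or_ge (v k) (v k') with vk | vk
  · -- s = (k', k)
    have n2 : (v k).val < (v k').val := vk
    have ts : InT v w ⟨(k', k), hkk⟩ := by
      intro a j hact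
      refine tp a j ?_
      obtain ⟨c1, c2, c3, c4⟩ := hact
      refine ⟨c1, ?_, c3, ?_⟩
      · exact c2.trans m3.le
      · exact c4.trans n5.le
    have G1 : GFull (Ew w) (sw v ⟨(k', k), hkk⟩) (sw v ⟨(i, k'), h3⟩) (sw v ⟨(i, k), h1⟩) :=
      H6e hvw (p := ⟨(k', k), hkk⟩) (q := ⟨(i, k'), h3⟩) (r₀ := ⟨(i, k), h1⟩) vk hp' rfl rfl tp
    have G2 : GFull (Ew w) (sw v ⟨(k', k), hkk⟩) (sw v ⟨(i', k'), h2⟩) (sw v ⟨(i', k), h4⟩) :=
      H6e hvw (p := ⟨(k', k), hkk⟩) (q := ⟨(i', k'), h2⟩) (r₀ := ⟨(i', k), h4⟩) vk hq rfl rfl tq'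
    refine Or.inr (Or.inr (Or.inr (Or.inl ?_)))
    refine ⟨sw v ⟨(k', k), hkk⟩, (ew_iff hvw).2 ⟨⟨(k', k), hkk⟩, vk, ts, rfl⟩,
      H9_full_symm G2, H9_full_symm G1⟩
  · have vk' : v k' < v k := lt_of_le_of_ne vk fun h => hkk.ne (v.injective h.symm)
    rcases lt_or_gt_of_ne hii with hi | hi
    · rcases lt_or_ge (v i) (v i') with vi | vi
      · -- s = (i', i)
        have l1 : i.val < i'.val := hi
        have ts : InT v w ⟨(i', i), hi⟩ := by
          intro a j hact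
          refine tq' a j ?_
          obtain ⟨c1, c2, c3, c4⟩ := hact
          exact ⟨m1.trans c1, c2, n3.trans c3, c4⟩
        have G1 : GFull (Ew w) (sw v ⟨(i, k), h1⟩) (sw v ⟨(i', i), hi⟩) (sw v ⟨(i', k), h4⟩) :=
          H6e hvw (p := ⟨(i, k), h1⟩) (q := ⟨(i', i), hi⟩) (r₀ := ⟨(i', k), h4⟩) hp vi rfl rfl tq'
        have G2 : GFull (Ew w) (sw v ⟨(i, k'), h3⟩) (sw v ⟨(i', i), hi⟩)
            (sw v ⟨(i', k'), h2⟩) :=
          H6e hvw (p := ⟨(i, k'), h3⟩) (q := ⟨(i', i), hi⟩) (r₀ := ⟨(i', k'), h2⟩) hp' vi rfl rfl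
            tq
        refine Or.inr (Or.inl ?_)
        exact ⟨sw v ⟨(i', i), hi⟩, (ew_iff hvw).2 ⟨⟨(i', i), hi⟩, vi, ts, rfl⟩, G1, G2⟩
      · have vi' : v i' < v i := lt_of_le_of_ne vi fun h => hi.ne (v.injective h.symm)
        refine Or.inr (Or.inr (Or.inr (Or.inr ?_)))
        exact H9_gl2 hvw hkk hi h1 h2 h3 h4 vk' vi' hp hq hp' hq' tp tq tp' tq'
    · rcases lt_or_ge (v i') (v i) with vi | vi
      · -- s = (i, i')
        have l1 : i'.val < i.val := hi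
        have ts : InT v w ⟨(i, i'), hi⟩ := by
          intro a j hact
          refine tp a j ?_
          obtain ⟨c1, c2, c3, c4⟩ := hact
          exact ⟨m4.trans c1, c2, n6.trans c3, c4⟩
        have G1 : GFull (Ew w) (sw v ⟨(i', k'), h2⟩) (sw v ⟨(i, i'), hi⟩)
            (sw v ⟨(i, k'), h3⟩) :=
          H6e hvw (p := ⟨(i', k'), h2⟩) (q := ⟨(i, i'), hi⟩) (r₀ := ⟨(i, k'), h3⟩) hq vi rfl rfl
            tp'
        have G2 : GFull (Ew w) (sw v ⟨(i', k), h4⟩) (sw v ⟨(i, i'), hi⟩) (sw v ⟨(i, k), h1⟩) :=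
          H6e hvw (p := ⟨(i', k), h4⟩) (q := ⟨(i, i'), hi⟩) (r₀ := ⟨(i, k), h1⟩) hq' vi rfl rfl tp
        refine Or.inr (Or.inr (Or.inl ?_))
        exact ⟨sw v ⟨(i, i'), hi⟩, (ew_iff hvw).2 ⟨⟨(i, i'), hi⟩, vi, ts, rfl⟩, G1, G2⟩
      · have vi' : v i < v i' := lt_of_le_of_ne vi fun h => hi.ne (v.injective h.symm)
        refine Or.inr (Or.inr (Or.inr (Or.inr ?_)))
        exact H9_gl2_symm2
          (H9_gl2 hvw hkk hi h4 h3 h2 h1 vk' vi' hq' hp' hq hp tq' tp' tq tp)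

theorem H9 {v w : Equiv.Perm (Fin n)} (hvw : v ≤ w) {p q p' q' : Lo n} (hp : Up v p)
    (hq : Up v q) (hp' : Up v p') (hq' : Up v q') (tp : InT v w p) (tq : InT v w q)
    (tp' : InT v w p') (tq' : InT v w q') (hi : p.1.1 ≠ q.1.1) (hk : p.1.2 ≠ q.1.2)
    (h1 : p'.1 = (p.1.1, q.1.2)) (h2 : q'.1 = (q.1.1, p.1.2)) :
    GLk (Ew w) v (sw v p) (sw v q) (sw v p') (sw v q') := by
  obtain ⟨⟨i, k⟩, g1⟩ := p
  obtain ⟨⟨i', k'⟩, g2⟩ := q
  obtain ⟨⟨a, b⟩, g3⟩ := p'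
  obtain ⟨⟨c, d⟩, g4⟩ := q'
  simp only [Prod.mk.injEq] at h1 h2
  obtain ⟨rfl, rfl⟩ := h1
  obtain ⟨rfl, rfl⟩ := h2
  rcases lt_or_gt_of_ne hk with h | h
  · exact H9_core hvw h hi g1 g2 g3 g4 hp hq hp' hq' tp tq tp' tq'
  · exact H9_glk_symm
      (H9_core hvw h hi.symm g2 g1 g4 g3 hq hp hq' hp' tq tp tq' tp')

end HQ
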