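import Pool.Agent.LibHQ4.H6c

/-!
# Row H9b (MEDIUM/STRONG): same label implies linked, chain type

`p = (i,k)`, `q = (k,l)`, `p' = (i,k')`, `q' = (k',l)`, all `Up` and in `T`, `k ≠ k'`. The four are different.
By symmetry (`GLk x y x' y' ↔ GLk x' y' x y`; check it: `GL1 x y x' y' = GL1 y' x' y x`, and `GL2` is symmetric) assume
`k' < k` (the last hypothesis is also given for the exchanged roles).
* `v k' < v k` (positions `l < k' < k < i`, increasing values): `s = (k,k')`, in `T` (its rectangle is contained in that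
  of `(i,k')`); `H6e`: `GFull (k',l) s (k,l)` = `GFull q' s q`, and `GFull s (i,k) (i,k')` gives `GFull p s p'`: `GL1 p q p' q'`.
* `v k < v k'`: exchange the names (`k ↔ k'`, primed and unprimed): positions `l < k < k' < i`, `v k' < v k`,
  `v = (1,3,2,4)` on `(l,k,k',i)`: `sw p = (1,4,2,3)`, `sw q = (3,1,2,4)`, `sw p' = (1,3,4,2)`, `sw q' = (2,3,1,4)`,
  `u1 = (1,4,3,2)` (from `p, p'`), `u2 = (2,4,1,3)` (from `p, q'`), `u3 = (3,1,4,2)` (from `q, p'`), `u4 = (3,2,1,4)`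
  (from `q, q'`), `z = (3,4,1,2)`. `z ≤ w`: along `v → sw p → u2 → z` (exchanges `(k,i)`, `(l,k')`, `(l,i)`):
  `rr z = rr v + [k<j≤i, v k<a≤v i] + [l<j≤k', v l<a≤v k'] + [l<j≤i, v k'<a≤v k]`, three disjoint rectangles; the last
  one is the union of a part of the rectangle of `q` (`j ≤ k`), the centre (`k < j ≤ k'`, hypothesis `hc`) and a part
  of the rectangle of `p'` (`k' < j`).
-/

set_option autoImplicit false

namespace HQ

open SH

variable {n : ℕ}

private theorem H9b_edge {x y : Equiv.Perm (Fin n)} {c r : Fin n} (h : c < r) (hup : x c < x r)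
    (h1 : y c = x r) (h2 : y r = x c) (h3 : ∀ b, b ≠ c → b ≠ r → y b = x b) : Edge x y := by
  refine ⟨⟨(r, c), h⟩, hup, Equiv.ext fun b => ?_⟩
  by_cases hb1 : b = r
  · subst hb1
    rw [h2]
    exact (sw_apply_row x ⟨(b, c), h⟩).symm
  · by_cases hb2 : b = c
    · subst hb2
      rw [h1]
      exact (sw_apply_col x ⟨(r, b), h⟩).symm
    · rw [h3 b hb2 hb1]
      exact (sw_apply_of_ne x ⟨(r, c), h⟩ hb1 hb2).symm

private theorem H9b_fsymm {α : Type} {E : α → α → Prop} {x y r : α} (h : GFull E x y r) :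
    GFull E y x r := by
  obtain ⟨h1, c, d, h2, h3, h4, h5, h6⟩ := h
  exact ⟨h1.symm, c, d, h2, ⟨h3.2, h3.1⟩, ⟨h4.2, h4.1⟩, h5, h6⟩

private theorem H9b_l1 {α : Type} {E : α → α → Prop} {o x y x' y' : α}
    (h : GL1 E o x y x' y') : GL1 E o y' x' y x := by
  obtain ⟨s, h1, h2, h3⟩ := h
  exact ⟨s, h1, h3, h2⟩

private theorem H9b_l2 {α : Type} {E : α → α → Prop} {x y x' y' : α}
    (h : GL2 E x y x' y') : GL2 E x' y' x y := by
  obtain ⟨u1, u2, u3, u4, z, h1, h2, h3, h4, h5, h6, h7, h8⟩ := h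
  exact ⟨u1, u3, u2, u4, z, ⟨h1.2, h1.1⟩, ⟨h3.2, h3.1⟩, ⟨h2.2, h2.1⟩, ⟨h4.2, h4.1⟩, h5, h7, h6, h8⟩

private theorem H9b_symm {α : Type} {E : α → α → Prop} {o x y x' y' : α}
    (h : GLk E o x y x' y') : GLk E o x' y' x y := by
  obtain ⟨h1, h2, h3, h4, h5⟩ := h
  refine ⟨h1.symm, h3.symm, h2.symm, h4.symm, ?_⟩
  rcases h5 with h5 | h5 | h5 | h5 | h5
  · exact Or.inr (Or.inr (Or.inr (Or.inl (H9b_l1 h5))))
  · exact Or.inr (Or.inl (H9b_l1 h5))
  · exact Or.inr (Or.inr (Or.inl (H9b_l1 h5)))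
  · exact Or.inl (H9b_l1 h5)
  · exact Or.inr (Or.inr (Or.inr (Or.inr (H9b_l2 h5))))

/-- case `k' < k`, `v k' < v k` -/
private theorem H9b_A {v w : Equiv.Perm (Fin n)} (hvw : v ≤ w) {l k k' i : Fin n} {p q p' q' : Lo n}
    (ep : p.1 = (i, k)) (eq : q.1 = (k, l)) (ep' : p'.1 = (i, k'))
    (eq' : q'.1 = (k', l)) (hp : Up v p) (hq : Up v q) (hp' : Up v p') (hq' : Up v q')
    (tq : InT v w q) (tp' : InT v w p')
    (hk : k' < k) (hv : v k' < v k) :
    GL1 (Ew w) v (sw v p) (sw v q) (sw v p') (sw v q') := by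
  have hki : k < i := by have := p.2; rw [ep] at this; exact this
  have hvki : v k < v i := by have h := hp; unfold Up at h; rw [ep] at h; exact h
  obtain ⟨s, hs⟩ : ∃ s : Lo n, s.1 = (k, k') := ⟨⟨(k, k'), hk⟩, rfl⟩
  have us : Up v s := by unfold Up; rw [hs]; exact hv
  have ts : InT v w s := by
    intro a j h
    refine tp' a j ?_
    unfold Act at h ⊢
    rw [hs] at h
    rw [ep']
    obtain ⟨h1, h2, h3, h4⟩ := h
    have e1 : k.val < i.val := hki
    have e2 : (v k).val < (v i).val := hvki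
    exact ⟨h1, h2.trans e1.le, h3, h4.trans e2.le⟩
  refine ⟨sw v s, (ew_iff hvw).2 ⟨s, us, ts, rfl⟩, ?_, ?_⟩
  · refine H9b_fsymm (H6e hvw us hp ?_ ?_ tp')
    · rw [hs, ep]
    · rw [ep', ep, hs]
  · refine H6e hvw hq' us ?_ ?_ tq
    · rw [eq', hs]
    · rw [eq, eq', hs]

/-- case `k < k'`, `v k' < v k` -/
private theorem H9b_B {v w : Equiv.Perm (Fin n)} (hvw : v ≤ w) {l k k' i : Fin n} {p q p' q' : Lo n}
    (ep : p.1 = (i, k)) (eq : q.1 = (k, l)) (ep' : p'.1 = (i, k'))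
    (eq' : q'.1 = (k', l)) (hp : Up v p) (hq : Up v q) (hp' : Up v p') (hq' : Up v q')
    (tp : InT v w p) (tq : InT v w q) (tp' : InT v w p') (tq' : InT v w q')
    (hk : k < k') (hv : v k' < v k)
    (hc : ∀ a j : ℕ, k.val < j → j ≤ k'.val → (v k').val < a → a ≤ (v k).val →
      rr v a j < rr w a j) :
    GL2 (Ew w) (sw v p) (sw v q) (sw v p') (sw v q') := by
  classical
  have hki : k < i := by have := p.2; rw [ep] at this; exact this
  have hlk : l < k := by have := q.2; rw [eq] at this; exact this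
  have hk'i : k' < i := by have := p'.2; rw [ep'] at this; exact this
  have hlk' : l < k' := by have := q'.2; rw [eq'] at this; exact this
  have hli : l < i := hlk.trans hki
  have v1 : v k < v i := by have h := hp; unfold Up at h; rw [ep] at h; exact h
  have v2 : v l < v k := by have h := hq; unfold Up at h; rw [eq] at h; exact h
  have v3 : v k' < v i := by have h := hp'; unfold Up at h; rw [ep'] at h; exact h
  have v4 : v l < v k' := by have h := hq'; unfold Up at h; rw [eq'] at h; exact h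
  have n1 : l ≠ k := hlk.ne
  have n2 : l ≠ k' := hlk'.ne
  have n3 : l ≠ i := hli.ne
  have n4 : k ≠ k' := hk.ne
  have n5 : k ≠ i := hki.ne
  have n6 : k' ≠ i := hk'i.ne
  -- values of a swap
  have row : ∀ (x : Equiv.Perm (Fin n)) (s : Lo n) (a b : Fin n), s.1 = (a, b) → sw x s a = x b := by
    intro x s a b h
    have := sw_apply_row x s
    rwa [h] at this
  have col : ∀ (x : Equiv.Perm (Fin n)) (s : Lo n) (a b : Fin n), s.1 = (a, b) → sw x s b = x a := by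
    intro x s a b h
    have := sw_apply_col x s
    rwa [h] at this
  have oth : ∀ (x : Equiv.Perm (Fin n)) (s : Lo n) (a b c : Fin n), s.1 = (a, b) → c ≠ a → c ≠ b →
      sw x s c = x c := by
    intro x s a b c h h1 h2
    refine sw_apply_of_ne x s ?_ ?_
    · rw [h]; exact h1
    · rw [h]; exact h2
  have pk := col v p i k ep
  have pi := row v p i k ep
  have pl := oth v p i k l ep n3 n1
  have pk' := oth v p i k k' ep n6 n4.symm
  have po := fun b => oth v p i k b ep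
  have ql := col v q k l eq
  have qk := row v q k l eq
  have qk' := oth v q k l k' eq n4.symm n2.symm
  have qi := oth v q k l i eq n5.symm n3.symm
  have qo := fun b => oth v q k l b eq
  have p'k' := col v p' i k' ep'
  have p'i := row v p' i k' ep'
  have p'l := oth v p' i k' l ep' n3 n2
  have p'k := oth v p' i k' k ep' n5 n4
  have p'o := fun b => oth v p' i k' b ep'
  have q'l := col v q' k' l eq'
  have q'k' := row v q' k' l eq'
  have q'k := oth v q' k' l k eq' n4 n1.symm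
  have q'i := oth v q' k' l i eq' n6.symm n3.symm
  have q'o := fun b => oth v q' k' l b eq'
  -- the elements
  obtain ⟨s1, hs1⟩ : ∃ s : Lo n, s.1 = (i, k') := ⟨⟨(i, k'), hk'i⟩, rfl⟩
  obtain ⟨s2, hs2⟩ : ∃ s : Lo n, s.1 = (k', l) := ⟨⟨(k', l), hlk'⟩, rfl⟩
  obtain ⟨s3, hs3⟩ : ∃ s : Lo n, s.1 = (k', k) := ⟨⟨(k', k), hk⟩, rfl⟩
  obtain ⟨s4, hs4⟩ : ∃ s : Lo n, s.1 = (i, l) := ⟨⟨(i, l), hli⟩, rfl⟩
  obtain ⟨u1, hu1⟩ : ∃ u, u = sw (sw v p) s1 := ⟨_, rfl⟩
  obtain ⟨u2, hu2⟩ : ∃ u, u = sw (sw v p) s2 := ⟨_, rfl⟩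
  obtain ⟨u3, hu3⟩ : ∃ u, u = sw (sw v q) s1 := ⟨_, rfl⟩
  obtain ⟨u4, hu4⟩ : ∃ u, u = sw (sw v q) s3 := ⟨_, rfl⟩
  obtain ⟨z, hz⟩ : ∃ u, u = sw u2 s4 := ⟨_, rfl⟩
  have a1 : u1 l = v l ∧ u1 k = v i ∧ u1 k' = v k ∧ u1 i = v k' ∧
      ∀ b, b ≠ l → b ≠ k → b ≠ k' → b ≠ i → u1 b = v b := by
    rw [hu1]
    refine ⟨?_, ?_, ?_, ?_, fun b b1 b2 b3 b4 => ?_⟩
    · rw [oth _ s1 i k' l hs1 n3 n2, pl]
    · rw [oth _ s1 i k' k hs1 n5 n4, pk]
    · rw [col _ s1 i k' hs1, pi]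
    · rw [row _ s1 i k' hs1, pk']
    · rw [oth _ s1 i k' b hs1 b4 b3, po b b4 b2]
  have a2 : u2 l = v k' ∧ u2 k = v i ∧ u2 k' = v l ∧ u2 i = v k ∧
      ∀ b, b ≠ l → b ≠ k → b ≠ k' → b ≠ i → u2 b = v b := by
    rw [hu2]
    refine ⟨?_, ?_, ?_, ?_, fun b b1 b2 b3 b4 => ?_⟩
    · rw [col _ s2 k' l hs2, pk']
    · rw [oth _ s2 k' l k hs2 n4 n1.symm, pk]
    · rw [row _ s2 k' l hs2, pl]
    · rw [oth _ s2 k' l i hs2 n6.symm n3.symm, pi]
    · rw [oth _ s2 k' l b hs2 b3 b1, po b b4 b2]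
  have a3 : u3 l = v k ∧ u3 k = v l ∧ u3 k' = v i ∧ u3 i = v k' ∧
      ∀ b, b ≠ l → b ≠ k → b ≠ k' → b ≠ i → u3 b = v b := by
    rw [hu3]
    refine ⟨?_, ?_, ?_, ?_, fun b b1 b2 b3 b4 => ?_⟩
    · rw [oth _ s1 i k' l hs1 n3 n2, ql]
    · rw [oth _ s1 i k' k hs1 n5 n4, qk]
    · rw [col _ s1 i k' hs1, qi]
    · rw [row _ s1 i k' hs1, qk']
    · rw [oth _ s1 i k' b hs1 b4 b3, qo b b2 b1]
  have a4 : u4 l = v k ∧ u4 k = v k' ∧ u4 k' = v l ∧ u4 i = v i ∧
      ∀ b, b ≠ l → b ≠ k → b ≠ k' → b ≠ i → u4 b = v b := by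
    rw [hu4]
    refine ⟨?_, ?_, ?_, ?_, fun b b1 b2 b3 b4 => ?_⟩
    · rw [oth _ s3 k' k l hs3 n2 n1, ql]
    · rw [col _ s3 k' k hs3, qk']
    · rw [row _ s3 k' k hs3, qk]
    · rw [oth _ s3 k' k i hs3 n6.symm n5.symm, qi]
    · rw [oth _ s3 k' k b hs3 b3 b2, qo b b2 b1]
  have a5 : z l = v k ∧ z k = v i ∧ z k' = v l ∧ z i = v k' ∧
      ∀ b, b ≠ l → b ≠ k → b ≠ k' → b ≠ i → z b = v b := by
    rw [hz]
    obtain ⟨c1, c2, c3, c4, c5⟩ := a2
    refine ⟨?_, ?_, ?_, ?_, fun b b1 b2 b3 b4 => ?_⟩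
    · rw [col _ s4 i l hs4, c4]
    · rw [oth _ s4 i l k hs4 n5 n1.symm, c2]
    · rw [oth _ s4 i l k' hs4 n6 n2.symm, c3]
    · rw [row _ s4 i l hs4, c1]
    · rw [oth _ s4 i l b hs4 b4 b1, c5 b b1 b2 b3 b4]
  obtain ⟨a11, a12, a13, a14, a15⟩ := a1
  obtain ⟨a21, a22, a23, a24, a25⟩ := a2
  obtain ⟨a31, a32, a33, a34, a35⟩ := a3
  obtain ⟨a41, a42, a43, a44, a45⟩ := a4
  obtain ⟨a51, a52, a53, a54, a55⟩ := a5
  -- `z ≤ w`
  have up2 : Up (sw v p) s2 := by
    unfold Up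
    rw [hs2]
    show sw v p l < sw v p k'
    rw [pl, pk']
    exact v4
  have up4 : Up u2 s4 := by
    unfold Up
    rw [hs4]
    show u2 l < u2 i
    rw [a21, a24]
    exact hv
  have hzw : z ≤ w := by
    rw [le_iff]
    intro a _ j hj
    rw [hz, rr_sw up4 a hj, hu2, rr_sw up2 a hj, rr_sw hp a hj]
    have A1 : Act v p a j ↔ k.val < j ∧ j ≤ i.val ∧ (v k).val < a ∧ a ≤ (v i).val := by
      unfold Act; rw [ep]
    have A2 : Act (sw v p) s2 a j ↔ l.val < j ∧ j ≤ k'.val ∧ (v l).val < a ∧ a ≤ (v k').val := by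
      unfold Act; rw [hs2]
      show (l.val < j ∧ j ≤ k'.val ∧ (sw v p l).val < a ∧ a ≤ (sw v p k').val) ↔ _
      rw [pl, pk']
    have A3 : Act (sw (sw v p) s2) s4 a j ↔
        l.val < j ∧ j ≤ i.val ∧ (v k').val < a ∧ a ≤ (v k).val := by
      rw [← hu2]
      unfold Act; rw [hs4]
      show (l.val < j ∧ j ≤ i.val ∧ (u2 l).val < a ∧ a ≤ (u2 i).val) ↔ _
      rw [a21, a24]
    have w0 := le_def.1 hvw a j
    have w1 : Act v p a j → rr v a j < rr w a j := tp a j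
    have w2 : Act v q a j → rr v a j < rr w a j := tq a j
    have w3 : Act v p' a j → rr v a j < rr w a j := tp' a j
    have w4 : Act v q' a j → rr v a j < rr w a j := tq' a j
    have B2 : Act v q a j ↔ l.val < j ∧ j ≤ k.val ∧ (v l).val < a ∧ a ≤ (v k).val := by
      unfold Act; rw [eq]
    have B3 : Act v p' a j ↔ k'.val < j ∧ j ≤ i.val ∧ (v k').val < a ∧ a ≤ (v i).val := by
      unfold Act; rw [ep']
    have B4 : Act v q' a j ↔ l.val < j ∧ j ≤ k'.val ∧ (v l).val < a ∧ a ≤ (v k').val := by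
      unfold Act; rw [eq']
    have w5 := hc a j
    have V1 : (v k).val < (v i).val := v1
    have V2 : (v l).val < (v k).val := v2
    have V3 : (v k').val < (v i).val := v3
    have V4 : (v l).val < (v k').val := v4
    have V5 : (v k').val < (v k).val := hv
    rw [A1] at w1
    rw [B2] at w2
    rw [B3] at w3
    rw [B4] at w4
    by_cases c1 : Act v p a j
    · have c2 : ¬ Act (sw v p) s2 a j := by rw [A2]; rw [A1] at c1; omega
      have c3 : ¬ Act (sw (sw v p) s2) s4 a j := by rw [A3]; rw [A1] at c1; omega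
      rw [if_pos c1, if_neg c2, if_neg c3]
      rw [A1] at c1
      have := w1 c1
      omega
    · by_cases c2 : Act (sw v p) s2 a j
      · have c3 : ¬ Act (sw (sw v p) s2) s4 a j := by rw [A3]; rw [A2] at c2; omega
        rw [if_neg c1, if_pos c2, if_neg c3]
        rw [A2] at c2
        have := w4 c2
        omega
      · by_cases c3 : Act (sw (sw v p) s2) s4 a j
        · rw [if_neg c1, if_neg c2, if_pos c3]
          rw [A3] at c3
          obtain ⟨d1, d2, d3, d4⟩ := c3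
          have : rr v a j < rr w a j := by
            by_cases e1 : j ≤ k.val
            · exact w2 ⟨d1, e1, by omega, d4⟩
            · by_cases e2 : j ≤ k'.val
              · exact w5 (by omega) e2 d3 d4
              · exact w3 ⟨by omega, d2, d3, by omega⟩
          omega
        · rw [if_neg c1, if_neg c2, if_neg c3]
          omega
  -- the last four edges
  have E1 : Edge u1 z := by
    refine H9b_edge hlk' (by rw [a11, a13]; exact v2) (by rw [a51, a13]) (by rw [a53, a11]) ?_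
    intro b b1 b2
    by_cases b3 : b = k
    · rw [b3, a52, a12]
    · by_cases b4 : b = i
      · rw [b4, a54, a14]
      · rw [a55 b b1 b3 b2 b4, a15 b b1 b3 b2 b4]
  have E2 : Edge u2 z := ⟨s4, up4, hz⟩
  have E3 : Edge u3 z := by
    refine H9b_edge hk (by rw [a32, a33]; exact v4.trans v3) (by rw [a52, a33]) (by rw [a53, a32]) ?_
    intro b b1 b2
    by_cases b3 : b = l
    · rw [b3, a51, a31]
    · by_cases b4 : b = i
      · rw [b4, a54, a34]
      · rw [a55 b b3 b1 b2 b4, a35 b b3 b1 b2 b4]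
  have E4 : Edge u4 z := by
    refine H9b_edge hki (by rw [a42, a44]; exact v3) (by rw [a52, a44]) (by rw [a54, a42]) ?_
    intro b b1 b2
    by_cases b3 : b = l
    · rw [b3, a51, a41]
    · by_cases b4 : b = k'
      · rw [b4, a53, a43]
      · rw [a55 b b3 b1 b4 b2, a45 b b3 b1 b4 b2]
  have W1 : u1 ≤ w := E1.lt.le.trans hzw
  have W2 : u2 ≤ w := E2.lt.le.trans hzw
  have W3 : u3 ≤ w := E3.lt.le.trans hzw
  have W4 : u4 ≤ w := E4.lt.le.trans hzw
  refine ⟨u1, u2, u3, u4, z, ⟨⟨?_, W1⟩, ⟨?_, W1⟩⟩, ⟨⟨?_, W2⟩, ⟨?_, W2⟩⟩, ⟨⟨?_, W3⟩, ⟨?_, W3⟩⟩,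
    ⟨⟨?_, W4⟩, ⟨?_, W4⟩⟩, ⟨E1, hzw⟩, ⟨E2, hzw⟩, ⟨E3, hzw⟩, ⟨E4, hzw⟩⟩
  · -- `sw v p → u1`: exchange `k', i`
    refine ⟨s1, ?_, hu1⟩
    unfold Up
    rw [hs1]
    show sw v p k' < sw v p i
    rw [pk', pi]
    exact hv
  · -- `sw v p' → u1`: exchange `k, k'`
    refine H9b_edge hk (by rw [p'k, p'k']; exact v1) (by rw [a12, p'k']) (by rw [a13, p'k]) ?_
    intro b b1 b2
    by_cases b3 : b = l
    · rw [b3, a11, p'l]
    · by_cases b4 : b = i
      · rw [b4, a14, p'i]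
      · rw [a15 b b3 b1 b2 b4, p'o b b4 b2]
  · -- `sw v p → u2`
    exact ⟨s2, up2, hu2⟩
  · -- `sw v q' → u2`: exchange `k, i`
    refine H9b_edge hki (by rw [q'k, q'i]; exact v1) (by rw [a22, q'i]) (by rw [a24, q'k]) ?_
    intro b b1 b2
    by_cases b3 : b = l
    · rw [b3, a21, q'l]
    · by_cases b4 : b = k'
      · rw [b4, a23, q'k']
      · rw [a25 b b3 b1 b4 b2, q'o b b4 b3]
  · -- `sw v q → u3`: exchange `k', i`
    refine ⟨s1, ?_, hu3⟩
    unfold Up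
    rw [hs1]
    show sw v q k' < sw v q i
    rw [qk', qi]
    exact v3
  · -- `sw v p' → u3`: exchange `l, k`
    refine H9b_edge hlk (by rw [p'l, p'k]; exact v2) (by rw [a31, p'k]) (by rw [a32, p'l]) ?_
    intro b b1 b2
    by_cases b3 : b = k'
    · rw [b3, a33, p'k']
    · by_cases b4 : b = i
      · rw [b4, a34, p'i]
      · rw [a35 b b1 b2 b3 b4, p'o b b4 b3]
  · -- `sw v q → u4`: exchange `k, k'`
    refine ⟨s3, ?_, hu4⟩
    unfold Up
    rw [hs3]
    show sw v q k < sw v q k'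
    rw [qk, qk']
    exact v4
  · -- `sw v q' → u4`: exchange `l, k`
    refine H9b_edge hlk (by rw [q'l, q'k]; exact hv) (by rw [a41, q'k]) (by rw [a42, q'l]) ?_
    intro b b1 b2
    by_cases b3 : b = k'
    · rw [b3, a43, q'k']
    · by_cases b4 : b = i
      · rw [b4, a44, q'i]
      · rw [a45 b b1 b2 b3 b4, q'o b b3 b1]

theorem H9b {v w : Equiv.Perm (Fin n)} (hvw : v ≤ w) {l k k' i : Fin n} {p q p' q' : Lo n}
    (hkk : k ≠ k') (ep : p.1 = (i, k)) (eq : q.1 = (k, l)) (ep' : p'.1 = (i, k'))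
    (eq' : q'.1 = (k', l)) (hp : Up v p) (hq : Up v q) (hp' : Up v p') (hq' : Up v q')
    (tp : InT v w p) (tq : InT v w q) (tp' : InT v w p') (tq' : InT v w q')
    (hc : ∀ a j : ℕ, k.val < j → j ≤ k'.val → (v k').val < a → a ≤ (v k).val →
      rr v a j < rr w a j)
    (hc' : ∀ a j : ℕ, k'.val < j → j ≤ k.val → (v k).val < a → a ≤ (v k').val →
      rr v a j < rr w a j) :
    GLk (Ew w) v (sw v p) (sw v q) (sw v p') (sw v q') := by
  have hki : k < i := by have := p.2; rw [ep] at this; exact this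
  have hk'i : k' < i := by have := p'.2; rw [ep'] at this; exact this
  have ne : ∀ (s t : Lo n) (a b c d : Fin n), s.1 = (a, b) → t.1 = (c, d) → (a ≠ c ∨ b ≠ d) →
      sw v s ≠ sw v t := by
    intro s t a b c d hs ht h e
    have h1 : s = t := sw_injective v e
    rw [h1, ht] at hs
    have h2 := Prod.ext_iff.1 hs
    rcases h with h | h
    · exact h h2.1.symm
    · exact h h2.2.symm
  refine ⟨ne p p' i k i k' ep ep' (Or.inr hkk), ne p q' i k k' l ep eq' (Or.inl hk'i.ne'),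
    ne q p' k l i k' eq ep' (Or.inl hki.ne), ne q q' k l k' l eq eq' (Or.inl hkk), ?_⟩
  have hvv : v k ≠ v k' := fun h => hkk (v.injective h)
  rcases lt_or_gt_of_ne hkk with h | h
  · rcases lt_or_gt_of_ne hvv with h' | h'
    · -- `k < k'`, `v k < v k'`
      exact Or.inr (Or.inr (Or.inr (Or.inl (H9b_l1
        (H9b_A hvw ep' eq' ep eq hp' hq' hp hq tq' tp h h')))))
    · exact Or.inr (Or.inr (Or.inr (Or.inr
        (H9b_B hvw ep eq ep' eq' hp hq hp' hq' tp tq tp' tq' h h' hc))))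
  · rcases lt_or_gt_of_ne hvv with h' | h'
    · -- `k' < k`, `v k < v k'`
      exact Or.inr (Or.inr (Or.inr (Or.inr (H9b_l2
        (H9b_B hvw ep' eq' ep eq hp' hq' hp hq tp' tq' tp tq h h' hc')))))
    · exact Or.inl (H9b_A hvw ep eq ep' eq' hp hq hp' hq' tq tp' h h')

end HQ
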