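import Pool.Agent.LibHQ4.Defs

/-!
# Row I1 (SHORT): the first coefficients of `H`

`H v w = (1 - X) ^ len w * mk (...)`; `PowerSeries.coeff_mul`, antidiagonals of 0, 1, 2; the coefficients of
`(1 - X) ^ N` in degrees 0, 1, 2 are `1`, `-N`, `N (N-1)/2` (induction on `N`; `Nat.choose_succ...`,
`2 * (N.choose 2) = N * (N - 1)`).
-/

set_option autoImplicit false

namespace HQ

open SH

variable {n : ℕ}

private theorem I1_c0 (N : ℕ) : PowerSeries.coeff 0 ((1 - PowerSeries.X : PowerSeries ℤ) ^ N) = 1 := by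
  simp

private theorem I1_c1 (N : ℕ) : PowerSeries.coeff 1 ((1 - PowerSeries.X : PowerSeries ℤ) ^ N) = -(N : ℤ) := by
  induction N with
  | zero => simp [PowerSeries.coeff_one]
  | succ N ih =>
    rw [pow_succ, mul_sub, mul_one, map_sub, ih, show (1 : ℕ) = 0 + 1 from rfl, PowerSeries.coeff_succ_mul_X, I1_c0]
    push_cast
    ring

private theorem I1_c2 (N : ℕ) :
    PowerSeries.coeff 2 ((1 - PowerSeries.X : PowerSeries ℤ) ^ N) = (N.choose 2 : ℤ) := by
  induction N with
  | zero => simp [PowerSeries.coeff_one]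
  | succ N ih =>
    rw [pow_succ, mul_sub, mul_one, map_sub, ih, show (2 : ℕ) = 1 + 1 from rfl, PowerSeries.coeff_succ_mul_X, I1_c1,
      Nat.choose_succ_succ' N 1, Nat.choose_one_right]
    push_cast
    ring

theorem I1 (v w : Equiv.Perm (Fin n)) :
    PowerSeries.coeff 0 (H v w) = (hs v w 0 : ℤ) ∧
      PowerSeries.coeff 1 (H v w) = (hs v w 1 : ℤ) - hs v w 0 - len w * hs v w 0 ∧
      PowerSeries.coeff 2 (H v w) = (hs v w 2 : ℤ) - hs v w 1 - len w * (hs v w 1 - hs v w 0) +
        (len w).choose 2 * hs v w 0 := by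
  have a0 : Finset.HasAntidiagonal.antidiagonal (0 : ℕ) = {((0 : ℕ), (0 : ℕ))} := by decide
  have a1 : Finset.HasAntidiagonal.antidiagonal (1 : ℕ) = {((0 : ℕ), (1 : ℕ)), (1, 0)} := by decide
  have a2 : Finset.HasAntidiagonal.antidiagonal (2 : ℕ) = {((0 : ℕ), (2 : ℕ)), (1, 1), (2, 0)} := by decide
  unfold H
  refine ⟨?_, ?_, ?_⟩
  · rw [PowerSeries.coeff_mul, a0, Finset.sum_singleton, I1_c0, PowerSeries.coeff_mk]
    simp
  · rw [PowerSeries.coeff_mul, a1, Finset.sum_insert (by decide), Finset.sum_singleton, I1_c0, I1_c1,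
      PowerSeries.coeff_mk, PowerSeries.coeff_mk]
    simp
    ring
  · rw [PowerSeries.coeff_mul, a2, Finset.sum_insert (by decide), Finset.sum_insert (by decide), Finset.sum_singleton,
      I1_c0, I1_c1, I1_c2, PowerSeries.coeff_mk, PowerSeries.coeff_mk, PowerSeries.coeff_mk]
    simp
    ring

end HQ
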