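import Pool.Agent.LibHQ4.G2
import Pool.Agent.LibHQ4.H7
import Pool.Agent.LibHQ4.H8
import Pool.Agent.LibHQ4.H9
import Pool.Agent.LibHQ4.H9b
import Pool.Agent.LibHQ4.H10
import Pool.Agent.LibHQ4.H13

/-! # J1: equality of labels in terms of the Bruhat graph (assembled by helper4) -/

set_option autoImplicit false

namespace HQ

open SH

variable {n : ℕ}

theorem GLk.swap {α : Type} {E : α → α → Prop} {o x y x' y' : α} (h : GLk E o x y x' y') :
    GLk E o x y y' x' := by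
  obtain ⟨h1, h2, h3, h4, h⟩ := h
  refine ⟨h2, h1, h4, h3, ?_⟩
  rcases h with h | h | h | h | h
  · exact Or.inr (Or.inl h)
  · exact Or.inl h
  · exact Or.inr (Or.inr (Or.inr (Or.inl h)))
  · exact Or.inr (Or.inr (Or.inl h))
  · obtain ⟨u1, u2, u3, u4, z, a1, a2, a3, a4, b1, b2, b3, b4⟩ := h
    exact Or.inr (Or.inr (Or.inr (Or.inr ⟨u2, u1, u4, u3, z, a2, a1, a4, a3, b2, b1, b4, b3⟩)))

theorem GLk.swap' {α : Type} {E : α → α → Prop} {o x y x' y' : α} (h : GLk E o x y x' y') :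
    GLk E o y x x' y' := by
  obtain ⟨h1, h2, h3, h4, h⟩ := h
  refine ⟨h3, h4, h1, h2, ?_⟩
  rcases h with h | h | h | h | h
  · exact Or.inr (Or.inr (Or.inl h))
  · exact Or.inr (Or.inr (Or.inr (Or.inl h)))
  · exact Or.inl h
  · exact Or.inr (Or.inl h)
  · obtain ⟨u1, u2, u3, u4, z, a1, a2, a3, a4, b1, b2, b3, b4⟩ := h
    exact Or.inr (Or.inr (Or.inr (Or.inr ⟨u3, u4, u1, u2, z, a3, a4, a1, a2, b3, b4, b1, b2⟩)))

private theorem lo_ne (p : Lo n) : p.1.1 ≠ p.1.2 := fun h => by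
  have := lo_lt p
  rw [h] at this
  exact lt_irrefl _ this

theorem lo_ext {p q : Lo n} (h1 : p.1.1 = q.1.1) (h2 : p.1.2 = q.1.2) : p = q :=
  Subtype.ext (Prod.ext h1 h2)

/-- the rows and columns of a disjoint pair -/
theorem rws_badD {v w : Equiv.Perm (Fin n)} {p q : Lo n} (h : BadD v w p q) :
    rws p q = {p.1.1, q.1.1} ∧ cls p q = {p.1.2, q.1.2} := by
  obtain ⟨h1, h2, h3, h4, -⟩ := h
  have e1 := lo_ne p
  have e2 := lo_ne q
  unfold rws cls
  constructor
  · rw [Finset.sdiff_eq_self_iff_disjoint, Finset.disjoint_left]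
    intro a ha hb
    simp only [Finset.mem_insert, Finset.mem_singleton] at ha hb
    rcases ha with rfl | rfl <;> rcases hb with hb | hb
    · exact e1 hb
    · exact h3 hb
    · exact h4 hb.symm
    · exact e2 hb
  · rw [Finset.sdiff_eq_self_iff_disjoint, Finset.disjoint_left]
    intro a ha hb
    simp only [Finset.mem_insert, Finset.mem_singleton] at ha hb
    rcases ha with rfl | rfl <;> rcases hb with hb | hb
    · exact e1 hb.symm
    · exact h4 hb
    · exact h3 hb.symm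
    · exact e2 hb.symm

theorem rws_chain {p q : Lo n} (h : p.1.2 = q.1.1) :
    rws p q = {p.1.1} ∧ cls p q = {q.1.2} := by
  have e1 := lo_lt p
  have e2 := lo_lt q
  have e3 : p.1.2.val = q.1.1.val := by rw [h]
  unfold rws cls
  constructor
  · ext a
    simp only [Finset.mem_sdiff, Finset.mem_insert, Finset.mem_singleton, not_or, Fin.ext_iff]
    omega
  · ext a
    simp only [Finset.mem_sdiff, Finset.mem_insert, Finset.mem_singleton, not_or, Fin.ext_iff]
    omega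

/-- the third part of the label of a chain -/
theorem bx1_chain {v w : Equiv.Perm (Fin n)} {p q : Lo n} (h : p.1.2 = q.1.1) (a j : ℕ) :
    (a, j) ∈ bx1 v w p q ∪ bx1 v w q p ↔ SW v w p q a j := by
  have e1 := lo_lt p
  have e2 := lo_lt q
  have e3 : p.1.2.val = q.1.1.val := by rw [h]
  constructor
  · rintro (h1 | h1)
    · exact h1.2
    · exfalso
      have : q.1.2.val = p.1.1.val := by rw [h1.1]
      omega
  · intro h1
    exact Or.inl ⟨h, h1⟩

theorem pair_eq {α : Type} [DecidableEq α] {a b c d : α} (h : ({a, b} : Finset α) = {c, d}) :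
    (a = c ∧ b = d) ∨ (a = d ∧ b = c) := by
  have h' : (({a, b} : Finset α) : Set α) = (({c, d} : Finset α) : Set α) := by rw [h]
  rw [Finset.coe_pair, Finset.coe_pair, Set.pair_eq_pair_iff] at h'
  exact h'

private theorem fwdD {v w : Equiv.Perm (Fin n)} (hvw : v ≤ w) {p q p' q' : Lo n}
    (h : Bad v w p q) (h' : Bad v w p' q') (hd : BadD v w p q) (hd' : BadD v w p' q')
    (e : lab v w p q = lab v w p' q') :
    ((p = p' ∧ q = q') ∨ (p = q' ∧ q = p')) ∨
      GLk (Ew w) v (sw v p) (sw v q) (sw v p') (sw v q') := by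
  have u := H7 hvw h
  have u' := H7 hvw h'
  obtain ⟨a1, a2⟩ := rws_badD hd
  obtain ⟨b1, b2⟩ := rws_badD hd'
  have e1 : rws p q = rws p' q' := congrArg (fun t => t.1) e
  have e2 : cls p q = cls p' q' := congrArg (fun t => t.2.1) e
  rw [a1, b1] at e1
  rw [a2, b2] at e2
  rcases pair_eq e1 with ⟨r1, r2⟩ | ⟨r1, r2⟩ <;> rcases pair_eq e2 with ⟨c1, c2⟩ | ⟨c1, c2⟩
  · exact Or.inl (Or.inl ⟨lo_ext r1 c1, lo_ext r2 c2⟩)
  · refine Or.inr (H9 hvw u.1 u.2.1 u'.1 u'.2.1 h.1 h.2.1 h'.1 h'.2.1 hd.1 hd.2.1 ?_ ?_)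
    · exact Prod.ext r1.symm c2.symm
    · exact Prod.ext r2.symm c1.symm
  · refine Or.inr (GLk.swap (H9 hvw u.1 u.2.1 u'.2.1 u'.1 h.1 h.2.1 h'.2.1 h'.1 hd.1 hd.2.1 ?_ ?_))
    · exact Prod.ext r1.symm c2.symm
    · exact Prod.ext r2.symm c1.symm
  · exact Or.inl (Or.inr ⟨lo_ext r1 c1, lo_ext r2 c2⟩)

private theorem fwdC {v w : Equiv.Perm (Fin n)} (hvw : v ≤ w) {p q p' q' : Lo n}
    (h : Bad v w p q) (h' : Bad v w p' q') (hc : p.1.2 = q.1.1) (hc' : p'.1.2 = q'.1.1)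
    (e : lab v w p q = lab v w p' q') :
    ((p = p' ∧ q = q') ∨ (p = q' ∧ q = p')) ∨
      GLk (Ew w) v (sw v p) (sw v q) (sw v p') (sw v q') := by
  have u := H7 hvw h
  have u' := H7 hvw h'
  obtain ⟨a1, a2⟩ := rws_chain hc
  obtain ⟨b1, b2⟩ := rws_chain hc'
  have e1 : rws p q = rws p' q' := congrArg (fun t => t.1) e
  have e2 : cls p q = cls p' q' := congrArg (fun t => t.2.1) e
  have e3 : bx1 v w p q ∪ bx1 v w q p = bx1 v w p' q' ∪ bx1 v w q' p' :=
    congrArg (fun t => t.2.2) e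
  rw [a1, b1, Finset.singleton_inj] at e1
  rw [a2, b2, Finset.singleton_inj] at e2
  have e4 : ∀ a j, SW v w p q a j ↔ SW v w p' q' a j := fun a j => by
    rw [← bx1_chain hc, ← bx1_chain hc', e3]
  by_cases hk : p.1.2 = p'.1.2
  · exact Or.inl (Or.inl ⟨lo_ext e1 hk, lo_ext (by rw [← hc, ← hc', hk]) e2⟩)
  have l1 := lo_lt p
  have l2 := lo_lt p'
  have l3 := lo_lt q
  have l4 := lo_lt q'
  have up : (v p.1.2).val < (v p.1.1).val := u.1
  have uq : (v q.1.2).val < (v q.1.1).val := u.2.1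
  have up' : (v p'.1.2).val < (v p'.1.1).val := u'.1
  have uq' : (v q'.1.2).val < (v q'.1.1).val := u'.2.1
  have ev : (v p.1.2).val = (v q.1.1).val := by rw [hc]
  have ev' : (v p'.1.2).val = (v q'.1.1).val := by rw [hc']
  have ee1 : (v p.1.1).val = (v p'.1.1).val := by rw [e1]
  have ee2 : (v q.1.2).val = (v q'.1.2).val := by rw [e2]
  have ef1 : p.1.1.val = p'.1.1.val := by rw [e1]
  have ef2 : q.1.2.val = q'.1.2.val := by rw [e2]
  refine Or.inr (H9b hvw (l := q.1.2) (k := p.1.2) (k' := p'.1.2) (i := p.1.1) hk rfl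
    (Prod.ext hc.symm rfl) (Prod.ext e1.symm rfl) (Prod.ext hc'.symm e2.symm) u.1 u.2.1 u'.1 u'.2.1
    h.1 h.2.1 h'.1 h'.2.1 ?_ ?_)
  · intro a j g1 g2 g3 g4
    refine lt_of_le_of_ne (SH.le_def.1 hvw a j) fun g => ?_
    have g5 : SW v w p q a j := ⟨g1, by omega, by omega, g4, by omega, g.symm⟩
    have g6 := (e4 a j).1 g5
    have g7 : p'.1.2.val < j := g6.1
    omega
  · intro a j g1 g2 g3 g4
    refine lt_of_le_of_ne (SH.le_def.1 hvw a j) fun g => ?_
    have g5 : SW v w p' q' a j := ⟨g1, by omega, by omega, g4, by omega, g.symm⟩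
    have g6 := (e4 a j).2 g5
    have g7 : p.1.2.val < j := g6.1
    omega

private theorem not_DC {v w : Equiv.Perm (Fin n)} {p q p' q' : Lo n} (hd : BadD v w p q)
    (hc' : p'.1.2 = q'.1.1) (e : lab v w p q = lab v w p' q') : False := by
  obtain ⟨a1, a2⟩ := rws_badD hd
  obtain ⟨b1, b2⟩ := rws_chain hc'
  have e1 : rws p q = rws p' q' := congrArg (fun t => t.1) e
  rw [a1, b1] at e1
  have := congrArg Finset.card e1
  rw [Finset.card_pair hd.1, Finset.card_singleton] at this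
  omega

/-- swapping the pairs in the statement `fwd` -/
private theorem or_swap {v w : Equiv.Perm (Fin n)} {p q p' q' : Lo n}
    (h : ((p = q' ∧ q = p') ∨ (p = p' ∧ q = q')) ∨
      GLk (Ew w) v (sw v p) (sw v q) (sw v q') (sw v p')) :
    ((p = p' ∧ q = q') ∨ (p = q' ∧ q = p')) ∨
      GLk (Ew w) v (sw v p) (sw v q) (sw v p') (sw v q') := by
  rcases h with h | h
  · exact Or.inl (Or.symm h)
  · exact Or.inr h.swap

private theorem or_swap' {v w : Equiv.Perm (Fin n)} {p q p' q' : Lo n}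
    (h : ((q = p' ∧ p = q') ∨ (q = q' ∧ p = p')) ∨
      GLk (Ew w) v (sw v q) (sw v p) (sw v p') (sw v q')) :
    ((p = p' ∧ q = q') ∨ (p = q' ∧ q = p')) ∨
      GLk (Ew w) v (sw v p) (sw v q) (sw v p') (sw v q') := by
  rcases h with (h | h) | h
  · exact Or.inl (Or.inr ⟨h.2, h.1⟩)
  · exact Or.inl (Or.inl ⟨h.2, h.1⟩)
  · exact Or.inr h.swap'

theorem lab_fwd {v w : Equiv.Perm (Fin n)} (hvw : v ≤ w) {p q p' q' : Lo n}
    (h : Bad v w p q) (h' : Bad v w p' q') (e : lab v w p q = lab v w p' q') :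
    ((p = p' ∧ q = q') ∨ (p = q' ∧ q = p')) ∨
      GLk (Ew w) v (sw v p) (sw v q) (sw v p') (sw v q') := by
  have s1 := lab_symm v w p q
  have s2 := lab_symm v w p' q'
  rcases h.2.2 with hd | hc | hc <;> rcases h'.2.2 with hd' | hc' | hc'
  · exact fwdD hvw h h' hd hd' e
  · exact (not_DC hd hc'.1 e).elim
  · exact (not_DC hd hc'.1 (e.trans s2)).elim
  · exact (not_DC hd' hc.1 e.symm).elim
  · exact fwdC hvw h h' hc.1 hc'.1 e
  · exact or_swap (fwdC hvw h h'.symm hc.1 hc'.1 (e.trans s2))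
  · exact (not_DC hd' hc.1 (e.symm.trans s1)).elim
  · exact or_swap' (fwdC hvw h.symm h' hc.1 hc'.1 (s1.symm.trans e))
  · exact or_swap' (or_swap (fwdC hvw h.symm h'.symm hc.1 hc'.1 (s1.symm.trans (e.trans s2))))

theorem lab_bwd {v w : Equiv.Perm (Fin n)} (hvw : v ≤ w) {p q p' q' : Lo n}
    (h : Bad v w p q) (h' : Bad v w p' q')
    (hl : GLk (Ew w) v (sw v p) (sw v q) (sw v p') (sw v q')) :
    lab v w p q = lab v w p' q' := by
  have u := H7 hvw h
  have u' := H7 hvw h'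
  have s1 := lab_symm v w p q
  have s2 := lab_symm v w p' q'
  obtain ⟨d1, d2, d3, d4, hl⟩ := hl
  rcases hl with hl | hl | hl | hl | hl
  · exact H10 hvw h h' u.1 u.2.1 u'.1 u'.2.1 hl
  · exact (H10 hvw h h'.symm u.1 u.2.1 u'.2.1 u'.1 hl).trans s2.symm
  · exact s1.trans (H10 hvw h.symm h' u.2.1 u.1 u'.1 u'.2.1 hl)
  · exact s1.trans ((H10 hvw h.symm h'.symm u.2.1 u.1 u'.2.1 u'.1 hl).trans s2.symm)
  · exact H13 hvw h h' u.1 u.2.1 u'.1 u'.2.1 (fun e => d1 (by rw [e])) (fun e => d2 (by rw [e]))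
      (fun e => d3 (by rw [e])) (fun e => d4 (by rw [e])) hl

/-- equality of labels in terms of the Bruhat graph -/
theorem lab_iff {v w : Equiv.Perm (Fin n)} (hvw : v ≤ w) {p q p' q' : Lo n}
    (h : Bad v w p q) (h' : Bad v w p' q') :
    lab v w p q = lab v w p' q' ↔
      ((sw v p = sw v p' ∧ sw v q = sw v q') ∨ (sw v p = sw v q' ∧ sw v q = sw v p')) ∨
      GLk (Ew w) v (sw v p) (sw v q) (sw v p') (sw v q') := by
  constructor
  · intro e
    rcases lab_fwd hvw h h' e with (⟨e1, e2⟩ | ⟨e1, e2⟩) | h1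
    · exact Or.inl (Or.inl ⟨by rw [e1], by rw [e2]⟩)
    · exact Or.inl (Or.inr ⟨by rw [e1], by rw [e2]⟩)
    · exact Or.inr h1
  · rintro ((⟨e1, e2⟩ | ⟨e1, e2⟩) | h1)
    · rw [sw_injective v e1, sw_injective v e2]
    · rw [sw_injective v e1, sw_injective v e2, lab_symm]
    · exact lab_bwd hvw h h' h1

end HQ
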