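import Pool.Agent.LibHQ4.J1
import Pool.Agent.LibHQ4.H4
import Pool.Agent.LibHQ4.H5
import Pool.Agent.LibHQ4.H14
import Pool.Agent.LibHQ4.H15
import Pool.Agent.LibHQ4.H16
import Pool.Agent.LibHQ4.I1

/-! # J2: the main theorem (assembled by helper4) -/

set_option autoImplicit false

namespace HQ

open SH

variable {n m : ℕ}

/-- corresponding pairs -/
def Rel {v w : Equiv.Perm (Fin n)} {v' w' : Equiv.Perm (Fin m)}
    (φ : Set.Icc v w ≃o Set.Icc v' w') (p : Lo n) (p' : Lo m) : Prop :=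
  ∃ h : sw v p ∈ Set.Icc v w, (φ ⟨sw v p, h⟩).1 = sw v' p'

theorem Rel.symm {v w : Equiv.Perm (Fin n)} {v' w' : Equiv.Perm (Fin m)}
    {φ : Set.Icc v w ≃o Set.Icc v' w'} {p : Lo n} {p' : Lo m} (h : Rel φ p p') :
    Rel φ.symm p' p := by
  obtain ⟨h1, h2⟩ := h
  have h3 : sw v' p' ∈ Set.Icc v' w' := h2 ▸ (φ ⟨sw v p, h1⟩).2
  refine ⟨h3, ?_⟩
  have h4 : (⟨sw v' p', h3⟩ : Set.Icc v' w') = φ ⟨sw v p, h1⟩ := Subtype.ext h2.symm
  rw [h4, OrderIso.symm_apply_apply]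

theorem ew_closed {v w : Equiv.Perm (Fin n)} :
    ∀ x ∈ Set.Icc v w, ∀ y, Ew w x y → y ∈ Set.Icc v w :=
  fun _ hx _ h => ⟨hx.1.trans h.lt.le, h.2⟩

theorem ew_transfer {v w : Equiv.Perm (Fin n)} {v' w' : Equiv.Perm (Fin m)}
    (φ : Set.Icc v w ≃o Set.Icc v' w') (x y : Set.Icc v w) :
    Ew w x.1 y.1 ↔ Ew w' (φ x).1 (φ y).1 := by
  constructor
  · intro h
    exact ⟨H5 φ x y h.1, (φ y).2.2⟩
  · intro h
    have h1 := H5 φ.symm (φ x) (φ y) h.1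
    rw [OrderIso.symm_apply_apply, OrderIso.symm_apply_apply] at h1
    exact ⟨h1, y.2.2⟩

theorem ncard_ew {v w : Equiv.Perm (Fin n)} {v' w' : Equiv.Perm (Fin m)} (hvw : v ≤ w)
    (hvw' : v' ≤ w') (φ : Set.Icc v w ≃o Set.Icc v' w') :
    Set.ncard {x : Equiv.Perm (Fin n) | Ew w v x} =
      Set.ncard {x : Equiv.Perm (Fin m) | Ew w' v' x} := by
  have hb : (φ ⟨v, le_rfl, hvw⟩).1 = v' := (H16 hvw hvw' φ).2.1
  have hv : v ∈ Set.Icc v w := ⟨le_rfl, hvw⟩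
  have hv' : v' ∈ Set.Icc v' w' := ⟨le_rfl, hvw'⟩
  refine Set.ncard_congr (fun x (hx : Ew w v x) => (φ ⟨x, ew_closed v hv x hx⟩).1) ?_ ?_ ?_
  · intro x hx
    have h := (ew_transfer φ ⟨v, hv⟩ ⟨x, ew_closed v hv x hx⟩).1 hx
    rw [hb] at h
    exact h
  · intro x y hx hy e
    exact congrArg Subtype.val (φ.injective (Subtype.ext e))
  · intro y hy
    have hy1 : y ∈ Set.Icc v' w' := ew_closed v' hv' y hy
    have hx : Ew w v (φ.symm ⟨y, hy1⟩).1 := by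
      refine (ew_transfer φ ⟨v, hv⟩ (φ.symm ⟨y, hy1⟩)).2 ?_
      rw [hb, OrderIso.apply_symm_apply]
      exact hy
    refine ⟨(φ.symm ⟨y, hy1⟩).1, hx, ?_⟩
    change (φ (φ.symm ⟨y, hy1⟩)).1 = y
    rw [OrderIso.apply_symm_apply]

/-- bad pairs correspond -/
theorem bad_transfer {v w : Equiv.Perm (Fin n)} {v' w' : Equiv.Perm (Fin m)} (hvw : v ≤ w)
    (hvw' : v' ≤ w') (φ : Set.Icc v w ≃o Set.Icc v' w') {p q : Lo n} (h : Bad v w p q) :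
    ∃ p' q', Rel φ p p' ∧ Rel φ q q' ∧ Bad v' w' p' q' := by
  have hb : (φ ⟨v, le_rfl, hvw⟩).1 = v' := (H16 hvw hvw' φ).2.1
  obtain ⟨up, uq, hg⟩ := H7 hvw h
  have tp : sw v p ∈ Set.Icc v w := ⟨(lt_sw up).le, (sw_le_iff hvw up).2 h.1⟩
  have tq : sw v q ∈ Set.Icc v w := ⟨(lt_sw uq).le, (sw_le_iff hvw uq).2 h.2.1⟩
  have ep : Ew w v (sw v p) := (ew_iff hvw).2 ⟨p, up, h.1, rfl⟩
  have eq : Ew w v (sw v q) := (ew_iff hvw).2 ⟨q, uq, h.2.1, rfl⟩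
  have ep' := (ew_transfer φ ⟨v, le_rfl, hvw⟩ ⟨sw v p, tp⟩).1 ep
  have eq' := (ew_transfer φ ⟨v, le_rfl, hvw⟩ ⟨sw v q, tq⟩).1 eq
  have hg' := ((H14 φ.toEquiv ⟨v, le_rfl, hvw⟩ ew_closed ew_closed
    (fun x y => ew_transfer φ x y)).1 ⟨sw v p, tp⟩ ⟨sw v q, tq⟩).1 hg
  change GBad (Ew w') (φ ⟨v, le_rfl, hvw⟩).1 (φ ⟨sw v p, tp⟩).1 (φ ⟨sw v q, tq⟩).1 at hg'
  rw [hb] at ep' eq' hg'
  obtain ⟨p', up', tp', hp'⟩ := (ew_iff hvw').1 ep'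
  obtain ⟨q', uq', tq', hq'⟩ := (ew_iff hvw').1 eq'
  rw [hp', hq'] at hg'
  exact ⟨p', q', ⟨tp, hp'⟩, ⟨tq, hq'⟩, H8 hvw' up' uq' tp' tq' hg'⟩

theorem lab_transfer {v w : Equiv.Perm (Fin n)} {v' w' : Equiv.Perm (Fin m)} (hvw : v ≤ w)
    (hvw' : v' ≤ w') (φ : Set.Icc v w ≃o Set.Icc v' w') {p q r s : Lo n} {p' q' r' s' : Lo m}
    (h : Bad v w p q) (g : Bad v w r s) (h' : Bad v' w' p' q') (g' : Bad v' w' r' s')
    (hp : Rel φ p p') (hq : Rel φ q q') (hr : Rel φ r r') (hs : Rel φ s s') :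
    lab v w p q = lab v w r s ↔ lab v' w' p' q' = lab v' w' r' s' := by
  have hb : (φ ⟨v, le_rfl, hvw⟩).1 = v' := (H16 hvw hvw' φ).2.1
  obtain ⟨tp, ep⟩ := hp
  obtain ⟨tq, eq⟩ := hq
  obtain ⟨tr, er⟩ := hr
  obtain ⟨ts, es⟩ := hs
  rw [lab_iff hvw h g, lab_iff hvw' h' g', ← ep, ← eq, ← er, ← es]
  have hE : ∀ (x y : Set.Icc v w), x.1 = y.1 ↔ (φ x).1 = (φ y).1 := fun x y => by
    rw [Subtype.val_inj, Subtype.val_inj, φ.injective.eq_iff]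
  have hL := (H14 φ.toEquiv ⟨v, le_rfl, hvw⟩ ew_closed ew_closed
    (fun x y => ew_transfer φ x y)).2 ⟨sw v p, tp⟩ ⟨sw v q, tq⟩ ⟨sw v r, tr⟩ ⟨sw v s, ts⟩
  change _ ↔ GLk (Ew w') (φ ⟨v, le_rfl, hvw⟩).1 (φ ⟨sw v p, tp⟩).1 (φ ⟨sw v q, tq⟩).1
    (φ ⟨sw v r, tr⟩).1 (φ ⟨sw v s, ts⟩).1 at hL
  rw [hb] at hL
  exact or_congr (or_congr
    (and_congr (hE ⟨sw v p, tp⟩ ⟨sw v r, tr⟩) (hE ⟨sw v q, tq⟩ ⟨sw v s, ts⟩))
    (and_congr (hE ⟨sw v p, tp⟩ ⟨sw v s, ts⟩) (hE ⟨sw v q, tq⟩ ⟨sw v r, tr⟩))) hL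

theorem bb_transfer {v w : Equiv.Perm (Fin n)} {v' w' : Equiv.Perm (Fin m)} (hvw : v ≤ w)
    (hvw' : v' ≤ w') (φ : Set.Icc v w ≃o Set.Icc v' w') : bb v w = bb v' w' := by
  refine H15 (Bad v w) (Bad v' w') (lab v w) (lab v' w') (Rel φ) ?_ ?_ ?_
  · intro p q h
    exact bad_transfer hvw hvw' φ h
  · intro p' q' h
    obtain ⟨p, q, hp, hq, hB⟩ := bad_transfer hvw' hvw φ.symm h
    exact ⟨p, q, hp.symm, hq.symm, hB⟩
  · intro p q r s p' q' r' s' h1 h2 h3 h4 h5 h6 h7 h8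
    exact lab_transfer hvw hvw' φ h1 h2 h3 h4 h5 h6 h7 h8

theorem two_choose (T : ℕ) : 2 * ((T + 1).choose 2 : ℤ) = (T + 1) * T := by
  induction T with
  | zero => simp
  | succ k ih =>
    rw [Nat.choose_succ_succ' (k + 1) 1, Nat.choose_one_right]
    push_cast
    push_cast at ih
    linarith

theorem two_choose' (T : ℕ) : 2 * (T.choose 2 : ℤ) = T * (T - 1) := by
  cases T with
  | zero => simp
  | succ k =>
    rw [two_choose]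
    push_cast
    ring

/-- the first coefficients of the `h`-polynomial -/
theorem coeff_formula {v w : Equiv.Perm (Fin n)} (hvw : v ≤ w) :
    PowerSeries.coeff 0 (H v w) = 1 ∧
      PowerSeries.coeff 1 (H v w) = ((TT v w).card : ℤ) - len w ∧
      2 * (PowerSeries.coeff 2 (H v w) + bb v w) =
        (((TT v w).card : ℤ) - len w + 1) * ((TT v w).card - len w) := by
  obtain ⟨h0, h1, h2⟩ := hs_formula hvw
  obtain ⟨c0, c1, c2⟩ := I1 v w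
  refine ⟨by rw [c0, h0]; rfl, ?_, ?_⟩
  · rw [c1, h0, h1]
    push_cast
    ring
  · rw [c2, h0, h1]
    have h2' : (hs v w 2 : ℤ) + bb v w = 1 + (TT v w).card + ((TT v w).card + 1).choose 2 := by
      exact_mod_cast h2
    have e1 := two_choose (TT v w).card
    have e2 := two_choose' (len w)
    push_cast
    push_cast at e1
    linear_combination 2 * h2' + e1 + e2

theorem main {v w : Equiv.Perm (Fin n)} {v' w' : Equiv.Perm (Fin m)} (hvw : v ≤ w)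
    (hvw' : v' ≤ w') (φ : Set.Icc v w ≃o Set.Icc v' w') :
    ∀ k ≤ 2, PowerSeries.coeff k (H v w) = PowerSeries.coeff k (H v' w') := by
  obtain ⟨hl, -, -⟩ := H16 hvw hvw' φ
  have hT : ((TT v w).card : ℤ) - len w = (TT v' w').card - len w' := by
    have e1 := H4 hvw
    have e2 := H4 hvw'
    have e3 := ncard_ew hvw hvw' φ
    rw [e3] at e1
    omega
  obtain ⟨a0, a1, a2⟩ := coeff_formula hvw
  obtain ⟨b0, b1, b2⟩ := coeff_formula hvw'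
  have hbb := bb_transfer hvw hvw' φ
  intro k hk
  interval_cases k
  · rw [a0, b0]
  · rw [a1, b1, hT]
  · rw [hT, ← b2, hbb] at a2
    linarith

end HQ
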